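import Pool.Agent.Lib.MP_0cde51_al.Basic

/-! Exponentials in finite-dimensional real normed algebras. -/

namespace Pool.Agent.Lib.MP_0cde51_al

open Filter Topology NormedSpace

section Ops

variable {𝕜 : Type*} [RCLike 𝕜] {V W : Type*} [NormedAddCommGroup V] [NormedSpace 𝕜 V]
  [NormedAddCommGroup W] [NormedSpace 𝕜 W]

theorem hasSum_exp_apply [FiniteDimensional 𝕜 V] (T : V →L[𝕜] V) (v : V) :
    HasSum (fun n : ℕ => ((n.factorial : 𝕜)⁻¹) • (T ^ n) v) (exp T v) := by
  have := FiniteDimensional.complete 𝕜 V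
  have h := (exp_series_hasSum_exp' (𝕂 := 𝕜) T).mapL (ContinuousLinearMap.apply 𝕜 V v)
  simpa using h

/-- exponentials of intertwined operators are intertwined -/
theorem exp_intertwine [FiniteDimensional 𝕜 V] [FiniteDimensional 𝕜 W] (ι : V →ₗ[𝕜] W)
    (A : V →L[𝕜] V) (B : W →L[𝕜] W) (h : ∀ v, ι (A v) = B (ι v)) (v : V) :
    ι (exp A v) = exp B (ι v) := by
  have hp : ∀ n : ℕ, ∀ v, ι ((A ^ n) v) = (B ^ n) (ι v) := by
    intro n
    induction n with
    | zero => intro v; simp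
    | succ n ih =>
      intro v
      rw [pow_succ, pow_succ, ContinuousLinearMap.mul_apply, ContinuousLinearMap.mul_apply, ih, h]
  have h1 := (hasSum_exp_apply A v).mapL (LinearMap.toContinuousLinearMap ι)
  have h2 := hasSum_exp_apply B (ι v)
  simp only [LinearMap.coe_toContinuousLinearMap', map_smul, hp] at h1
  exact h1.unique h2

theorem exp_apply_sub_mem [FiniteDimensional 𝕜 V] (T : V →L[𝕜] V) (U : Submodule 𝕜 V)
    (hU : ∀ x ∈ U, T x ∈ U) (z : V) (hz : T z ∈ U) : exp T z - z ∈ U := by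
  have hp : ∀ n : ℕ, (T ^ (n + 1)) z ∈ U := by
    intro n
    induction n with
    | zero => simpa using hz
    | succ n ih => rw [pow_succ']; exact hU _ ih
  have h1 := (hasSum_nat_add_iff' 1).2 (hasSum_exp_apply T z)
  simp only [Finset.range_one, Finset.sum_singleton, Nat.factorial_zero, Nat.cast_one, inv_one,
    pow_zero, one_smul, one_apply_eq_self] at h1
  refine (U.closed_of_finiteDimensional).mem_of_tendsto h1.tendsto_sum_nat ?_
  exact Eventually.of_forall fun n => U.sum_mem fun i _ => U.smul_mem _ (hp i)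

theorem exp_apply_mem [FiniteDimensional 𝕜 V] (T : V →L[𝕜] V) (U : Submodule 𝕜 V)
    (hU : ∀ x ∈ U, T x ∈ U) (z : V) (hz : z ∈ U) : exp T z ∈ U := by
  have := U.add_mem (exp_apply_sub_mem T U hU z (hU z hz)) hz
  simpa using this

end Ops

section Alg

variable {𝔸 𝔹 : Type*} [NormedRing 𝔸] [NormedAlgebra ℝ 𝔸] [FiniteDimensional ℝ 𝔸]
  [NormedRing 𝔹] [NormedAlgebra ℝ 𝔹] [FiniteDimensional ℝ 𝔹]

theorem exp_add_comm {a b : 𝔸} (h : Commute a b) : exp (a + b) = exp a * exp b := by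
  have := FiniteDimensional.complete ℝ 𝔸
  let _ := NormedAlgebra.restrictScalars ℚ ℝ 𝔸
  exact exp_add_of_commute h

theorem exp_mul_exp_neg (a : 𝔸) : exp a * exp (-a) = 1 := by
  rw [← exp_add_comm (Commute.refl a).neg_right, add_neg_cancel, exp_zero]

theorem exp_neg_mul_exp (a : 𝔸) : exp (-a) * exp a = 1 := by
  rw [← exp_add_comm (Commute.refl a).neg_left, neg_add_cancel, exp_zero]

theorem isUnit_exp' (a : 𝔸) : IsUnit (exp a) :=
  ⟨⟨exp a, exp (-a), exp_mul_exp_neg a, exp_neg_mul_exp a⟩, rfl⟩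

theorem exp_nsmul' (n : ℕ) (a : 𝔸) : exp (n • a) = exp a ^ n := by
  have := FiniteDimensional.complete ℝ 𝔸
  let _ := NormedAlgebra.restrictScalars ℚ ℝ 𝔸
  exact exp_nsmul n a

theorem continuous_exp' : Continuous (exp : 𝔸 → 𝔸) := by
  have := FiniteDimensional.complete ℝ 𝔸
  let _ := NormedAlgebra.restrictScalars ℚ ℝ 𝔸
  exact exp_continuous

theorem hasDerivAt_exp_smul (a : 𝔸) (t : ℝ) :
    HasDerivAt (fun s : ℝ => exp (s • a)) (exp (t • a) * a) t := by
  have := FiniteDimensional.complete ℝ 𝔸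
  exact hasDerivAt_exp_smul_const a t

theorem hasDerivAt_exp_smul' (a : 𝔸) (t : ℝ) :
    HasDerivAt (fun s : ℝ => exp (s • a)) (a * exp (t • a)) t := by
  have := FiniteDimensional.complete ℝ 𝔸
  exact hasDerivAt_exp_smul_const' a t

theorem eq_of_exp_smul_eq {a b : 𝔸} (h : ∀ t : ℝ, exp (t • a) = exp (t • b)) : a = b := by
  have h1 := hasDerivAt_exp_smul a 0
  have h2 := hasDerivAt_exp_smul b 0
  rw [show (fun s : ℝ => exp (s • a)) = fun s : ℝ => exp (s • b) from funext h] at h1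
  simpa using h1.unique h2

theorem ringHom_map_exp {F : Type*} [FunLike F 𝔸 𝔹] [RingHomClass F 𝔸 𝔹] (φ : F)
    (hφ : Continuous φ) (a : 𝔸) : φ (exp a) = exp (φ a) := by
  have := FiniteDimensional.complete ℝ 𝔸
  let _ := NormedAlgebra.restrictScalars ℚ ℝ 𝔸
  let _ := NormedAlgebra.restrictScalars ℚ ℝ 𝔹
  exact map_exp φ hφ a

theorem algHom_map_exp (φ : 𝔸 →ₐ[ℝ] 𝔹) (a : 𝔸) : φ (exp a) = exp (φ a) :=
  ringHom_map_exp φ (φ.toLinearMap.continuous_of_finiteDimensional) a

theorem exp_prod (a : 𝔸) (b : 𝔹) : exp (a, b) = (exp a, exp b) :=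
  Prod.ext (algHom_map_exp (AlgHom.fst ℝ 𝔸 𝔹) (a, b)) (algHom_map_exp (AlgHom.snd ℝ 𝔸 𝔹) (a, b))

/-- the operator `x ↦ a * x - x * a` -/
noncomputable def adOp (a : 𝔸) : 𝔸 →L[ℝ] 𝔸 :=
  ContinuousLinearMap.mul ℝ 𝔸 a - (ContinuousLinearMap.mul ℝ 𝔸).flip a

omit [FiniteDimensional ℝ 𝔸] in
theorem adOp_apply (a x : 𝔸) : adOp a x = a * x - x * a := by simp [adOp]

theorem exp_adOp (a z : 𝔸) : exp (adOp a) z = exp a * z * exp (-a) := by
  have hd : ∀ t : ℝ, HasDerivAt
      (fun s : ℝ => exp (s • (-a)) * exp (s • adOp a) z * exp (s • a)) 0 t := by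
    intro t
    have h1 := hasDerivAt_exp_smul (-a) t
    have h2 : HasDerivAt (fun s : ℝ => exp (s • adOp a) z) (adOp a (exp (t • adOp a) z)) t := by
      have := (ContinuousLinearMap.apply ℝ 𝔸 z).hasFDerivAt.comp_hasDerivAt t
        (hasDerivAt_exp_smul' (adOp a) t)
      simpa [Function.comp_def] using this
    have h3 := hasDerivAt_exp_smul' a t
    refine ((h1.mul h2).mul h3).congr_deriv ?_
    simp only [adOp_apply, Pi.mul_apply]
    noncomm_ring
  have hc := is_const_of_deriv_eq_zero (fun t => (hd t).differentiableAt)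
    (fun t => (hd t).deriv) 1 0
  have h0 : (0 : ℝ) • adOp a = 0 := by ext x; simp
  simp only [h0, one_smul, zero_smul, exp_zero, one_mul, mul_one, one_apply_eq_self] at hc
  calc exp (adOp a) z = (exp a * exp (-a)) * exp (adOp a) z * (exp a * exp (-a)) := by
        rw [exp_mul_exp_neg, one_mul, mul_one]
    _ = exp a * (exp (-a) * exp (adOp a) z * exp a) * exp (-a) := by noncomm_ring
    _ = _ := by rw [hc]

theorem exp_conj_sub_mem (a z : 𝔸) (U : Submodule ℝ 𝔸) (hU : ∀ x ∈ U, a * x - x * a ∈ U)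
    (hz : a * z - z * a ∈ U) : exp a * z * exp (-a) - z ∈ U := by
  rw [← exp_adOp]
  exact exp_apply_sub_mem _ U (fun x hx => by rw [adOp_apply]; exact hU x hx) z
    (by rw [adOp_apply]; exact hz)

theorem exp_conj_mem (a z : 𝔸) (U : Submodule ℝ 𝔸) (hU : ∀ x ∈ U, a * x - x * a ∈ U)
    (hz : z ∈ U) : exp a * z * exp (-a) ∈ U := by
  have := U.add_mem (exp_conj_sub_mem a z U hU (hU z hz)) hz
  simpa using this

/-- `exp a = 1 + a + a * a * g` with `g` commuting with `a` and bounded. -/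
theorem exists_exp_eq (a : 𝔸) : ∃ g : 𝔸, Commute a g ∧ exp a = 1 + a * (1 + a * g) ∧
    (‖a‖ ≤ 1 → ‖a * g‖ ≤ ‖a‖ * (Real.exp 1 * (‖(1 : 𝔸)‖ + 1))) := by
  have := FiniteDimensional.complete ℝ 𝔸
  have hs : Summable fun n : ℕ => ‖a‖ ^ n / (n.factorial : ℝ) := Real.summable_pow_div_factorial _
  have hle : ∀ n : ℕ, ‖(((n + 2).factorial : ℝ)⁻¹) • a ^ n‖ ≤
      (‖a‖ ^ n / (n.factorial : ℝ)) * (‖(1 : 𝔸)‖ + 1) := by
    intro n
    rw [norm_smul, norm_inv, Real.norm_natCast]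
    have h1 : ‖a ^ n‖ ≤ ‖a‖ ^ n * (‖(1 : 𝔸)‖ + 1) := by
      rcases Nat.eq_zero_or_pos n with rfl | hn
      · simp
      · refine (norm_pow_le' a hn).trans ?_
        nlinarith [norm_nonneg (1 : 𝔸), pow_nonneg (norm_nonneg a) n]
    have h2 : ((n + 2).factorial : ℝ)⁻¹ ≤ (n.factorial : ℝ)⁻¹ := by
      apply inv_anti₀ (by positivity)
      exact_mod_cast Nat.factorial_le (by omega)
    calc _ ≤ (n.factorial : ℝ)⁻¹ * (‖a‖ ^ n * (‖(1 : 𝔸)‖ + 1)) :=
          mul_le_mul h2 h1 (norm_nonneg _) (by positivity)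
      _ = _ := by ring
  have hsum : Summable fun n : ℕ => (((n + 2).factorial : ℝ)⁻¹) • a ^ n :=
    Summable.of_norm_bounded (hs.mul_right _) hle
  refine ⟨∑' n : ℕ, (((n + 2).factorial : ℝ)⁻¹) • a ^ n, ?_, ?_, ?_⟩
  · exact Commute.tsum_right _ fun n => ((Commute.refl a).pow_right n).smul_right _
  · have h1 := (hasSum_nat_add_iff' 2).2 (exp_series_hasSum_exp' (𝕂 := ℝ) a)
    have h2 := (hsum.hasSum.mul_left a).mul_left a
    have h3 : (fun n : ℕ => a * (a * ((((n + 2).factorial : ℝ)⁻¹) • a ^ n))) =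
        fun n : ℕ => (((n + 2).factorial : ℝ)⁻¹) • a ^ (n + 2) := by
      funext n
      rw [mul_smul_comm, mul_smul_comm, pow_succ', pow_succ']
    rw [h3] at h2
    have h4 := h1.unique h2
    simp only [Finset.sum_range_succ, Finset.range_zero, Finset.sum_empty, Nat.factorial_zero,
      Nat.cast_one, inv_one, pow_zero, one_smul, zero_add, Nat.factorial_one, pow_one] at h4
    rw [mul_add, mul_one, ← h4]
    abel
  · intro ha
    refine (norm_mul_le _ _).trans (mul_le_mul_of_nonneg_left ?_ (norm_nonneg _))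
    refine (tsum_of_norm_bounded (hs.mul_right _).hasSum hle).trans ?_
    rw [tsum_mul_right]
    refine mul_le_mul_of_nonneg_right ?_ (by positivity)
    have : ∑' n : ℕ, ‖a‖ ^ n / (n.factorial : ℝ) = Real.exp ‖a‖ := by
      rw [Real.exp_eq_exp_ℝ, exp_eq_tsum_div]
    rw [this]
    exact Real.exp_le_exp.2 ha

theorem isNilpotent_exp_sub_one {a : 𝔸} (ha : IsNilpotent a) : IsNilpotent (exp a - 1) := by
  obtain ⟨g, hc, he, -⟩ := exists_exp_eq a
  rw [he, add_sub_cancel_left]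
  exact (Commute.add_right (Commute.one_right a)
    ((Commute.refl a).mul_right hc)).isNilpotent_mul_right ha

theorem eq_zero_of_exp_eq_one {a : 𝔸} (ha : IsNilpotent a) (h : exp a = 1) : a = 0 := by
  obtain ⟨g, hc, he, -⟩ := exists_exp_eq a
  have hu : IsUnit (1 + a * g) := (hc.isNilpotent_mul_right ha).isUnit_one_add
  rw [h, left_eq_add] at he
  exact (hu.mul_left_eq_zero).1 he

theorem exists_small_nilpotent : ∃ δ : ℝ, 0 < δ ∧ ∀ a y : 𝔸, ‖a‖ < δ → IsNilpotent y →
    exp a = exp y → IsNilpotent a := by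
  have := FiniteDimensional.complete ℝ 𝔸
  have hpos : 0 < Real.exp 1 * (‖(1 : 𝔸)‖ + 1) := by positivity
  refine ⟨min 1 (Real.exp 1 * (‖(1 : 𝔸)‖ + 1))⁻¹, lt_min one_pos (inv_pos.2 hpos), ?_⟩
  intro a y ha hy h
  obtain ⟨g, hc, he, hb⟩ := exists_exp_eq a
  have h1 : ‖a * g‖ < 1 := by
    refine (hb (ha.le.trans (min_le_left _ _))).trans_lt ?_
    have := ha.trans_le (min_le_right _ _)
    rwa [← one_div, lt_div_iff₀ hpos] at this
  have hu : IsUnit (1 + a * g) := by
    have := (Units.oneSub (-(a * g)) (by rwa [norm_neg])).isUnit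
    simpa using this
  have hn : IsNilpotent (a * (1 + a * g)) := by
    have := isNilpotent_exp_sub_one hy
    rwa [← h, he, add_sub_cancel_left] at this
  obtain ⟨u, hu⟩ := hu
  have hcu : Commute a (u : 𝔸) := by
    rw [hu]; exact Commute.add_right (Commute.one_right a) ((Commute.refl a).mul_right hc)
  rw [← hu] at hn
  have h2 : Commute (a * u) (↑u⁻¹ : 𝔸) :=
    (hcu.units_inv_right).mul_left (Commute.refl (u : 𝔸)).units_inv_right
  have := h2.isNilpotent_mul_right hn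
  simpa using this

omit [FiniteDimensional ℝ 𝔸] in
/-- no small subgroups -/
theorem eq_one_of_pow_near (a : 𝔸) (h : ∀ n : ℕ, ‖a ^ n - 1‖ < 1 / 2) : a = 1 := by
  have key : ∀ k n : ℕ, ‖a ^ n - 1‖ ≤ (2 / 3) ^ k := by
    intro k
    induction k with
    | zero => intro n; linarith [h n]
    | succ k ih =>
      intro n
      have h1 : (2 : ℝ) • (a ^ n - 1) = (a ^ (n + n) - 1) - (a ^ n - 1) * (a ^ n - 1) := by
        rw [pow_add, two_smul]; noncomm_ring
      have h2 : 2 * ‖a ^ n - 1‖ ≤ ‖a ^ (n + n) - 1‖ + ‖a ^ n - 1‖ * ‖a ^ n - 1‖ := by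
        have : ‖(2 : ℝ) • (a ^ n - 1)‖ = 2 * ‖a ^ n - 1‖ := by rw [norm_smul]; simp
        rw [← this, h1]
        exact (norm_sub_le _ _).trans (add_le_add le_rfl (norm_mul_le _ _))
      have h3 := ih (n + n)
      have h4 := h n
      rw [pow_succ]
      nlinarith [norm_nonneg (a ^ n - 1)]
  have ht : Tendsto (fun k : ℕ => (2 / 3 : ℝ) ^ k) atTop (𝓝 0) :=
    tendsto_pow_atTop_nhds_zero_of_lt_one (by norm_num) (by norm_num)
  have := ge_of_tendsto' ht fun k => key k 1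
  rw [pow_one] at this
  exact sub_eq_zero.1 (norm_le_zero_iff.1 this)

/-- every finite-dimensional real algebra embeds in a complex matrix algebra -/
theorem exists_embed_matrix (𝔸 : Type*) [Ring 𝔸] [Algebra ℝ 𝔸] [FiniteDimensional ℝ 𝔸] :
    ∃ (n : ℕ) (φ : 𝔸 →ₐ[ℝ] Matrix (Fin n) (Fin n) ℂ), Function.Injective φ := by
  let b := Module.finBasis ℝ 𝔸
  refine ⟨_, (Algebra.ofId ℝ ℂ).mapMatrix.comp (Algebra.leftMulMatrix b), ?_⟩
  intro x y hxy
  apply Algebra.leftMulMatrix_injective b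
  ext i j
  have := congrFun (congrFun hxy i) j
  simpa using this

/-- every finite-dimensional real algebra embeds in the operators on a complex space -/
theorem exists_embed_clm (𝔸 : Type*) [Ring 𝔸] [Algebra ℝ 𝔸] [FiniteDimensional ℝ 𝔸] :
    ∃ (n : ℕ) (φ : 𝔸 →ₐ[ℝ] ((Fin n → ℂ) →L[ℂ] (Fin n → ℂ))), Function.Injective φ := by
  obtain ⟨n, φ, hφ⟩ := exists_embed_matrix 𝔸
  let e : Matrix (Fin n) (Fin n) ℂ ≃ₐ[ℂ] ((Fin n → ℂ) →L[ℂ] (Fin n → ℂ)) :=
    Matrix.toLinAlgEquiv'.trans (Module.End.toContinuousLinearMap (Fin n → ℂ))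
  exact ⟨n, (e.toAlgHom.restrictScalars ℝ).comp φ, e.injective.comp hφ⟩

theorem wprod_nil {α : Type*} (τ : α → 𝔸) : wprod τ [] = 1 := rfl

theorem wprod_cons {α : Type*} (τ : α → 𝔸) (x : α) (w : List α) :
    wprod τ (x :: w) = exp (τ x) * wprod τ w := by simp [wprod]

theorem isUnit_wprod {α : Type*} (τ : α → 𝔸) (w : List α) : IsUnit (wprod τ w) := by
  induction w with
  | nil => exact isUnit_one
  | cons x w ih => rw [wprod_cons]; exact (isUnit_exp' _).mul ih

theorem algHom_wprod {α : Type*} (φ : 𝔸 →ₐ[ℝ] 𝔹) (τ : α → 𝔸) (w : List α) :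
    φ (wprod τ w) = wprod (fun x => φ (τ x)) w := by
  induction w with
  | nil => exact map_one φ
  | cons x w ih => rw [wprod_cons, wprod_cons, map_mul, ih, algHom_map_exp]

end Alg

section KO

variable {G : Type*} [Group G] [TopologicalSpace G]

theorem continuous_toHomUnits [IsTopologicalGroup G] {M : Type*} [Monoid M] [TopologicalSpace M]
    (ρ : G →* M) (h : Continuous ρ) : Continuous ρ.toHomUnits :=
  Units.continuous_iff.2 ⟨h, h.comp continuous_inv⟩

attribute [local instance] Matrix.linftyOpNormedRing Matrix.linftyOpNormedAlgebra in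
theorem KO_eq_Kills [IsTopologicalGroup G] : KO G = Kills G := by
  ext g
  simp only [KO, Subgroup.mem_iInf, MonoidHom.mem_ker]
  constructor
  · intro h 𝔸 _ _ _ ρ hρ
    obtain ⟨n, φ, hφ⟩ := exists_embed_matrix 𝔸
    have hc : Continuous (φ.toMonoidHom.comp ρ) :=
      φ.toLinearMap.continuous_of_finiteDimensional.comp hρ
    have := h n ⟨(φ.toMonoidHom.comp ρ).toHomUnits, continuous_toHomUnits _ hc⟩
    have h2 : φ (ρ g) = 1 := congrArg Units.val this
    exact hφ (by rw [h2, map_one])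
  · intro h n ρ
    apply Units.ext
    exact h (Matrix (Fin n) (Fin n) ℂ) ((Units.coeHom _).comp ρ.toMonoidHom)
      (Units.continuous_val.comp ρ.continuous)

end KO

end Pool.Agent.Lib.MP_0cde51_al
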