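import Pool.Agent.Lib.MP_0cde51_al.Defs

/-! Shared auxiliary definitions for the negative answer (none of them occurs in the final
statement). -/

namespace Pool.Agent.Lib.MP_0cde51_al

open Filter Topology

universe u v w

/-- A real-linear map that turns brackets into commutators. -/
def IsLieMap {𝔤 : Type u} {𝔸 : Type v} [LieRing 𝔤] [LieAlgebra ℝ 𝔤] [Ring 𝔸] [Algebra ℝ 𝔸]
    (τ : 𝔤 →ₗ[ℝ] 𝔸) : Prop :=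
  ∀ x y : 𝔤, τ ⁅x, y⁆ = τ x * τ y - τ y * τ x

/-- The product of the exponentials along a word. -/
noncomputable def wprod {α : Type u} {𝔸 : Type v} [NormedRing 𝔸] (τ : α → 𝔸) (w : List α) : 𝔸 :=
  (w.map fun x => NormedSpace.exp (τ x)).prod

/-- The elements killed by all continuous homomorphisms into finite-dimensional real algebras. -/
def Kills (G : Type u) [Group G] [TopologicalSpace G] : Subgroup G where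
  carrier := {g | ∀ (𝔸 : Type) [NormedRing 𝔸] [NormedAlgebra ℝ 𝔸] [FiniteDimensional ℝ 𝔸]
    (ρ : G →* 𝔸), Continuous ρ → ρ g = 1}
  mul_mem' := fun {x y} hx hy 𝔸 _ _ _ ρ h => by rw [map_mul, hx 𝔸 ρ h, hy 𝔸 ρ h, one_mul]
  one_mem' := fun 𝔸 _ _ _ ρ _ => map_one ρ
  inv_mem' := fun {x} hx 𝔸 _ _ _ ρ h => by
    have h1 : ρ x⁻¹ * ρ x = 1 := by rw [← map_mul, inv_mul_cancel, map_one]
    rwa [hx 𝔸 ρ h, mul_one] at h1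

/-- The three properties of the example that no kernel group has: no paths, no null sequences,
many integer characters. -/
def Good (K : Type u) [Group K] [TopologicalSpace K] : Prop :=
  (∀ γ : ℝ → K, Continuous γ → γ 0 = 1 → ∀ t, γ t = 1) ∧
  (∀ h : ℕ → K, Tendsto h atTop (𝓝 1) → ∃ n, h n = 1) ∧
  (∀ (J : Type) (g : J → K), Cardinal.mk J ≤ Cardinal.continuum →
    ∃ χ : K → ℤ, (∀ x y, χ (x * y) = χ x + χ y) ∧ (∀ᶠ x in 𝓝 (1 : K), χ x = 0) ∧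
      (∀ j, χ (g j) = 0) ∧ ∃ h, χ h ≠ 0)

/-- `N` is a uniform exponent: a word of exponentials that is central in one faithful
representation has `N`-th power one in every representation. -/
def IsUnifExp (𝔠 : Type u) [LieRing 𝔠] [LieAlgebra ℝ 𝔠] (N : ℕ) : Prop :=
  ∀ (w : List 𝔠) (𝔸₀ : Type) [NormedRing 𝔸₀] [NormedAlgebra ℝ 𝔸₀] [FiniteDimensional ℝ 𝔸₀]
    (τ₀ : 𝔠 →ₗ[ℝ] 𝔸₀), IsLieMap τ₀ → Function.Injective τ₀ →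
    (∀ z, Commute (wprod τ₀ w) (τ₀ z)) →
    ∀ (𝔸 : Type) [NormedRing 𝔸] [NormedAlgebra ℝ 𝔸] [FiniteDimensional ℝ 𝔸] (τ : 𝔠 →ₗ[ℝ] 𝔸),
      IsLieMap τ → wprod τ w ^ N = 1

/-- A pro-finite-dimensional Lie algebra: a directed family of ideals of finite codimension with
zero intersection, and linear compactness. -/
structure IsProAlg {𝔤 : Type v} [LieRing 𝔤] [LieAlgebra ℝ 𝔤] {I : Type w}
    (k : I → LieIdeal ℝ 𝔤) : Prop where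
  nonempty : Nonempty I
  dir : ∀ i j, ∃ l, k l ≤ k i ∧ k l ≤ k j
  fd : ∀ i, FiniteDimensional ℝ (𝔤 ⧸ (k i).toSubmodule)
  sep : ∀ x, (∀ i, x ∈ k i) → x = 0
  lc : ∀ 𝓦 : Set (Submodule ℝ 𝔤), 𝓦.Nonempty → DirectedOn (· ≥ ·) 𝓦 →
    (∀ W ∈ 𝓦, ∀ x, (∀ i, x ∈ W ⊔ (k i).toSubmodule) → x ∈ W) →
    ∀ i, ∃ W ∈ 𝓦, W ≤ sInf 𝓦 ⊔ (k i).toSubmodule

/-- The centraliser in `𝔰` of `𝔰 ∩ 𝔨`. -/
def cent {𝔤 : Type v} [LieRing 𝔤] [LieAlgebra ℝ 𝔤] (𝔰 : LieSubalgebra ℝ 𝔤) (𝔨 : LieIdeal ℝ 𝔤) :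
    LieSubalgebra ℝ 𝔤 where
  carrier := {x | x ∈ 𝔰 ∧ ∀ y ∈ 𝔰, y ∈ 𝔨 → ⁅x, y⁆ = 0}
  add_mem' := fun {a b} ha hb => ⟨𝔰.add_mem ha.1 hb.1, fun y hy hk => by
    rw [add_lie, ha.2 y hy hk, hb.2 y hy hk, add_zero]⟩
  zero_mem' := ⟨𝔰.zero_mem, fun y _ _ => zero_lie y⟩
  smul_mem' := fun c {a} ha => ⟨𝔰.smul_mem c ha.1, fun y hy hk => by
    rw [smul_lie, ha.2 y hy hk, smul_zero]⟩
  lie_mem' := fun {a b} ha hb => ⟨𝔰.lie_mem ha.1 hb.1, fun y hy hk => by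
    rw [lie_lie, hb.2 y hy hk, ha.2 y hy hk, lie_zero, lie_zero, sub_zero]⟩

/-- What a Levi subalgebra `𝔰` provides. -/
structure IsLevi {𝔤 : Type v} [LieRing 𝔤] [LieAlgebra ℝ 𝔤] {I : Type w}
    (k : I → LieIdeal ℝ 𝔤) (𝔰 : LieSubalgebra ℝ 𝔤) : Prop where
  /-- the images of `𝔰` in the finite-dimensional quotients have no abelian ideals -/
  noab : ∀ (i : I) (t : Submodule ℝ 𝔤), t ≤ 𝔰.toSubmodule → (∀ x ∈ 𝔰, ∀ y ∈ t, ⁅x, y⁆ ∈ t) →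
    (∀ x ∈ t, ∀ y ∈ t, ⁅x, y⁆ ∈ k i) → t ≤ (k i).toSubmodule
  split : ∀ 𝔨 : LieIdeal ℝ 𝔤, (∃ i, k i ≤ 𝔨) →
    𝔰.toSubmodule ≤ (cent 𝔰 𝔨).toSubmodule ⊔ 𝔨.toSubmodule
  fd : ∀ 𝔨 : LieIdeal ℝ 𝔤, (∃ i, k i ≤ 𝔨) → FiniteDimensional ℝ (cent 𝔰 𝔨)
  killing : ∀ 𝔨 : LieIdeal ℝ 𝔤, (∃ i, k i ≤ 𝔨) → LieAlgebra.IsKilling ℝ (cent 𝔰 𝔨)
  rad : ∀ 𝔨 : LieIdeal ℝ 𝔤, (∃ i, k i ≤ 𝔨) → ∃ (𝔧 : LieIdeal ℝ 𝔤) (n : ℕ), 𝔨 ≤ 𝔧 ∧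
    LieAlgebra.derivedSeriesOfIdeal ℝ 𝔤 n 𝔧 ≤ 𝔨 ∧
    (cent 𝔰 𝔨).toSubmodule ⊓ 𝔧.toSubmodule = ⊥ ∧ (cent 𝔰 𝔨).toSubmodule ⊔ 𝔧.toSubmodule = ⊤

/-- The exponential map of a pro-Lie group, abstractly. -/
structure IsSetup {G : Type u} [Group G] [TopologicalSpace G] {𝔤 : Type v} [LieRing 𝔤]
    [LieAlgebra ℝ 𝔤] {I : Type w} (k : I → LieIdeal ℝ 𝔤) (N : I → Subgroup G) (ex : 𝔤 → G) :
    Prop where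
  pro : IsProAlg k
  normal : ∀ i, (N i).Normal
  dir : ∀ i j, ∃ l, k l ≤ k i ∧ k l ≤ k j ∧ N l ≤ N i ∧ N l ≤ N j
  nhds : ∀ U ∈ 𝓝 (1 : G), ∃ i, (N i : Set G) ⊆ U
  ex_mem : ∀ i, ∀ X ∈ k i, ex X ∈ N i
  ex_add : ∀ X Y, ⁅X, Y⁆ = 0 → ex (X + Y) = ex X * ex Y
  ex_cont : ∀ X, Continuous fun t : ℝ => ex (t • X)
  ex_inj : ∀ X, (∀ t : ℝ, ex (t • X) = 1) → X = 0
  conj : ∀ (i : I) (b : LieIdeal ℝ 𝔤) (X Y : 𝔤), Y ∈ b →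
    ∃ Y' ∈ b, (ex Y')⁻¹ * (ex X * ex Y * (ex X)⁻¹) ∈ N i
  k0 : ∀ (i : I) (b : LieIdeal ℝ 𝔤) (X Y : 𝔤), ⁅X, Y⁆ ∈ b →
    ∃ u ∈ Subgroup.closure (ex '' (b : Set 𝔤)), (ex (X + Y) * u)⁻¹ * (ex X * ex Y) ∈ N i
  small : ∀ (i : I) (ℓ : 𝔤 →ₗ[ℝ] ℝ), (∀ x ∈ k i, ℓ x = 0) → ∀ ε : ℝ, 0 < ε →
    ∀ᶠ g in 𝓝 (1 : G), ∃ X, (ex X)⁻¹ * g ∈ N i ∧ |ℓ X| < ε
  rep : ∀ (𝔸 : Type) [NormedRing 𝔸] [NormedAlgebra ℝ 𝔸] [FiniteDimensional ℝ 𝔸] (ρ : G →* 𝔸),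
    Continuous ρ → ∃ τ : 𝔤 →ₗ[ℝ] 𝔸, IsLieMap τ ∧ ∀ X, ρ (ex X) = NormedSpace.exp (τ X)

end Pool.Agent.Lib.MP_0cde51_al
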