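import Pool.Agent.Lib.MP_0cde51_al.Alg

/-! Groups with a chart at the identity in which multiplication is additive to second order:
the basic estimates. -/

namespace Pool.Agent.Lib.MP_0cde51_al

open Filter Topology Metric

universe u v

/-- A normalised chart at the identity. -/
structure Chart (L : Type u) [Group L] [TopologicalSpace L] (E : Type v) [NormedAddCommGroup E] where
  φ : OpenPartialHomeomorph L E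
  one_mem : (1 : L) ∈ φ.source
  map_one : φ 1 = 0
  ball_sub : ∀ X : E, ‖X‖ ≤ 1 / 2 → X ∈ φ.target
  mul : ∀ x y : L, x ∈ φ.source → y ∈ φ.source → ‖φ x‖ ≤ 1 / 2 → ‖φ y‖ ≤ 1 / 2 →
    x * y ∈ φ.source ∧ ‖φ (x * y) - φ x - φ y‖ ≤ ‖φ x‖ * ‖φ y‖
  inv : ∀ x : L, x ∈ φ.source → ‖φ x‖ ≤ 1 / 2 → x⁻¹ ∈ φ.source ∧ ‖φ x⁻¹‖ ≤ 2 * ‖φ x‖

namespace Chart

variable {L : Type u} [Group L] [TopologicalSpace L] {E : Type v} [NormedAddCommGroup E]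
  [NormedSpace ℝ E] (c : Chart L E)

omit [NormedSpace ℝ E] in
theorem norm_mul_le {x y : L} (hx : x ∈ c.φ.source) (hy : y ∈ c.φ.source)
    (hx' : ‖c.φ x‖ ≤ 1 / 2) (hy' : ‖c.φ y‖ ≤ 1 / 2) :
    ‖c.φ (x * y)‖ ≤ ‖c.φ x‖ + ‖c.φ y‖ + ‖c.φ x‖ * ‖c.φ y‖ := by
  have h := (c.mul x y hx hy hx' hy').2
  have : c.φ (x * y) = (c.φ (x * y) - c.φ x - c.φ y) + c.φ x + c.φ y := by abel
  calc ‖c.φ (x * y)‖ = ‖(c.φ (x * y) - c.φ x - c.φ y) + c.φ x + c.φ y‖ := by rw [← this]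
    _ ≤ ‖c.φ (x * y) - c.φ x - c.φ y‖ + ‖c.φ x‖ + ‖c.φ y‖ := norm_add₃_le
    _ ≤ _ := by linarith

theorem pow_est {x : L} (hx : x ∈ c.φ.source) (k : ℕ) (hk : k * ‖c.φ x‖ ≤ 1 / 4) :
    x ^ k ∈ c.φ.source ∧ ‖c.φ (x ^ k)‖ ≤ 2 * (k * ‖c.φ x‖) ∧
      ‖c.φ (x ^ k) - (k : ℝ) • c.φ x‖ ≤ 2 * (k * ‖c.φ x‖) ^ 2 := by
  induction k with
  | zero => simp [c.one_mem, c.map_one]
  | succ k ih =>
    have h0 := norm_nonneg (c.φ x)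
    have hk0 : (0 : ℝ) ≤ k := Nat.cast_nonneg k
    push_cast at hk ⊢
    have hkx : 0 ≤ k * ‖c.φ x‖ := mul_nonneg hk0 h0
    obtain ⟨h1, h2, h3⟩ := ih (by nlinarith)
    obtain ⟨h4, h5⟩ := c.mul x (x ^ k) hx h1 (by nlinarith) (by nlinarith)
    have h6 : ‖c.φ (x * x ^ k) - ((k : ℝ) + 1) • c.φ x‖ ≤ 2 * ((k + 1) * ‖c.φ x‖) ^ 2 := by
      have : c.φ (x * x ^ k) - ((k : ℝ) + 1) • c.φ x =
          (c.φ (x * x ^ k) - c.φ x - c.φ (x ^ k)) + (c.φ (x ^ k) - (k : ℝ) • c.φ x) := by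
        rw [add_smul, one_smul]; abel
      rw [this]
      refine (norm_add_le _ _).trans ?_
      have h7 : ‖c.φ x‖ * ‖c.φ (x ^ k)‖ ≤ ‖c.φ x‖ * (2 * (k * ‖c.φ x‖)) :=
        mul_le_mul_of_nonneg_left h2 h0
      nlinarith [mul_nonneg h0 hkx, mul_nonneg h0 h0]
    rw [pow_succ']
    refine ⟨h4, ?_, h6⟩
    have h8 : ‖c.φ (x * x ^ k)‖ ≤ ‖c.φ (x * x ^ k) - ((k : ℝ) + 1) • c.φ x‖ +
        ‖((k : ℝ) + 1) • c.φ x‖ := by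
      simpa using norm_add_le (c.φ (x * x ^ k) - ((k : ℝ) + 1) • c.φ x) (((k : ℝ) + 1) • c.φ x)
    rw [norm_smul, Real.norm_of_nonneg (by linarith)] at h8
    have h9 : 0 ≤ (k + 1) * ‖c.φ x‖ := by positivity
    nlinarith

omit [NormedSpace ℝ E] in
theorem conj_est {g h : L} (hg : g ∈ c.φ.source) (hh : h ∈ c.φ.source)
    (hg' : ‖c.φ g‖ ≤ 1 / 16) (hh' : ‖c.φ h‖ ≤ 1 / 16) :
    g * h * g⁻¹ ∈ c.φ.source ∧ ‖c.φ (g * h * g⁻¹)‖ ≤ 2 * ‖c.φ h‖ ∧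
      ‖c.φ (g * h * g⁻¹) - c.φ h‖ ≤ 3 * (‖c.φ g‖ * ‖c.φ h‖) := by
  have g0 := norm_nonneg (c.φ g)
  have h0 := norm_nonneg (c.φ h)
  obtain ⟨i1, i2⟩ := c.inv g hg (by linarith)
  obtain ⟨m1, m2⟩ := c.mul g h hg hh (by linarith) (by linarith)
  have m3 := c.norm_mul_le hg hh (by linarith) (by linarith)
  have m4 : ‖c.φ (g * h)‖ ≤ 1 / 7 := by nlinarith
  obtain ⟨u1, -⟩ := c.mul (g * h) g⁻¹ m1 i1 (by linarith) (by linarith)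
  have u2 := c.norm_mul_le m1 i1 (by linarith) (by linarith)
  have u3 : ‖c.φ (g * h * g⁻¹)‖ ≤ 1 / 2 := by
    nlinarith [norm_nonneg (c.φ (g * h)), norm_nonneg (c.φ g⁻¹)]
  obtain ⟨-, v2⟩ := c.mul (g * h * g⁻¹) g u1 hg u3 (by linarith)
  rw [inv_mul_cancel_right] at v2
  have w1 : ‖c.φ (g * h * g⁻¹) - c.φ h‖ ≤ ‖c.φ g‖ * ‖c.φ h‖ + ‖c.φ (g * h * g⁻¹)‖ * ‖c.φ g‖ := by
    have : c.φ (g * h * g⁻¹) - c.φ h =
        (c.φ (g * h) - c.φ g - c.φ h) - (c.φ (g * h) - c.φ (g * h * g⁻¹) - c.φ g) := by abel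
    rw [this]
    exact (norm_sub_le _ _).trans (add_le_add m2 v2)
  have w2 : ‖c.φ (g * h * g⁻¹)‖ ≤ ‖c.φ (g * h * g⁻¹) - c.φ h‖ + ‖c.φ h‖ := by
    simpa using norm_add_le (c.φ (g * h * g⁻¹) - c.φ h) (c.φ h)
  have u0 := norm_nonneg (c.φ (g * h * g⁻¹))
  have w3 : ‖c.φ (g * h * g⁻¹)‖ ≤ 2 * ‖c.φ h‖ := by nlinarith
  exact ⟨u1, w3, by nlinarith⟩

omit [NormedSpace ℝ E] in
theorem div_est {x y : L} (hx : x ∈ c.φ.source) (hy : y ∈ c.φ.source)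
    (hx' : ‖c.φ x‖ ≤ 1 / 16) (hy' : ‖c.φ y‖ ≤ 1 / 16) :
    x * y⁻¹ ∈ c.φ.source ∧ ‖c.φ (x * y⁻¹)‖ ≤ 2 * ‖c.φ x - c.φ y‖ ∧
      ‖c.φ (x * y⁻¹) - (c.φ x - c.φ y)‖ ≤ 2 * (‖c.φ y‖ * ‖c.φ x - c.φ y‖) := by
  have x0 := norm_nonneg (c.φ x)
  have y0 := norm_nonneg (c.φ y)
  obtain ⟨i1, i2⟩ := c.inv y hy (by linarith)
  obtain ⟨m1, -⟩ := c.mul x y⁻¹ hx i1 (by linarith) (by linarith)
  have m3 := c.norm_mul_le hx i1 (by linarith) (by linarith)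
  have m4 : ‖c.φ (x * y⁻¹)‖ ≤ 1 / 2 := by nlinarith [norm_nonneg (c.φ y⁻¹)]
  obtain ⟨-, v2⟩ := c.mul (x * y⁻¹) y m1 hy m4 (by linarith)
  rw [inv_mul_cancel_right] at v2
  have w1 : ‖c.φ (x * y⁻¹) - (c.φ x - c.φ y)‖ ≤ ‖c.φ (x * y⁻¹)‖ * ‖c.φ y‖ := by
    have : c.φ (x * y⁻¹) - (c.φ x - c.φ y) = -(c.φ x - c.φ (x * y⁻¹) - c.φ y) := by abel
    rw [this, norm_neg]
    exact v2
  have w2 : ‖c.φ (x * y⁻¹)‖ ≤ ‖c.φ (x * y⁻¹) - (c.φ x - c.φ y)‖ + ‖c.φ x - c.φ y‖ := by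
    simpa using norm_add_le (c.φ (x * y⁻¹) - (c.φ x - c.φ y)) (c.φ x - c.φ y)
  have u0 := norm_nonneg (c.φ (x * y⁻¹))
  have w3 : ‖c.φ (x * y⁻¹)‖ ≤ 2 * ‖c.φ x - c.φ y‖ := by
    nlinarith [norm_nonneg (c.φ x - c.φ y)]
  exact ⟨m1, w3, by nlinarith⟩

/-- telescoping estimate for powers -/
theorem tele_est {x y : L} (hx : x ∈ c.φ.source) (hy : y ∈ c.φ.source) (k : ℕ) {r : ℝ}
    (hr : r ≤ 1 / 64) (hkx : k * ‖c.φ x‖ ≤ r) (hky : k * ‖c.φ y‖ ≤ r) :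
    ‖c.φ (x ^ k) - c.φ (y ^ k) - (k : ℝ) • (c.φ x - c.φ y)‖ ≤
      74 * r * (k * ‖c.φ x - c.φ y‖) := by
  rcases Nat.eq_zero_or_pos k with rfl | hk
  · simp
  have hk1 : (1 : ℝ) ≤ k := by exact_mod_cast hk
  have x0 := norm_nonneg (c.φ x)
  have y0 := norm_nonneg (c.φ y)
  have hxr : ‖c.φ x‖ ≤ r := by nlinarith
  have hyr : ‖c.φ y‖ ≤ r := by nlinarith
  have r0 : 0 ≤ r := x0.trans hxr
  obtain ⟨d1, d2, d3⟩ := c.div_est hx hy (by linarith) (by linarith)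
  set d := x * y⁻¹ with hd
  set Δ := c.φ x - c.φ y with hΔ
  have Δ0 := norm_nonneg Δ
  have d0 := norm_nonneg (c.φ d)
  have hΔ1 : k * ‖Δ‖ ≤ 2 * r := by
    have := norm_sub_le (c.φ x) (c.φ y)
    nlinarith
  have hkd : k * ‖c.φ d‖ ≤ 4 * r := by nlinarith
  have hd1 : ‖c.φ d‖ ≤ 4 * r := by nlinarith
  have key : ∀ j : ℕ, j ≤ k → x ^ j * (y ^ j)⁻¹ ∈ c.φ.source ∧
      ‖c.φ (x ^ j * (y ^ j)⁻¹) - (j : ℝ) • c.φ d‖ ≤ 30 * r * (j * ‖c.φ d‖) ∧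
      ‖c.φ (x ^ j * (y ^ j)⁻¹)‖ ≤ 3 * (j * ‖c.φ d‖) := by
    intro j
    induction j with
    | zero => intro _; simp [c.one_mem, c.map_one]
    | succ j ih =>
      intro hj
      obtain ⟨a1, a2, a3⟩ := ih (by omega)
      have hjk : (j : ℝ) + 1 ≤ k := by exact_mod_cast hj
      have j0 : (0 : ℝ) ≤ j := Nat.cast_nonneg j
      have hjx : j * ‖c.φ x‖ ≤ r := by nlinarith
      have hjd : j * ‖c.φ d‖ ≤ 4 * r := by nlinarith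
      obtain ⟨p1, p2, -⟩ := c.pow_est hx j (by linarith)
      obtain ⟨c1, c2, c3⟩ := c.conj_est p1 d1 (by linarith) (by linarith)
      obtain ⟨m1, m2⟩ := c.mul _ _ c1 a1 (by linarith) (by linarith)
      have he : x ^ (j + 1) * (y ^ (j + 1))⁻¹ =
          x ^ j * d * (x ^ j)⁻¹ * (x ^ j * (y ^ j)⁻¹) := by
        rw [hd, pow_succ, pow_succ']; group
      rw [he]
      set u := x ^ j * d * (x ^ j)⁻¹
      set D := x ^ j * (y ^ j)⁻¹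
      have e1 : ‖c.φ u‖ * ‖c.φ D‖ ≤ 24 * r * ‖c.φ d‖ := by
        have : ‖c.φ D‖ ≤ 12 * r := by linarith
        calc _ ≤ (2 * ‖c.φ d‖) * (12 * r) := mul_le_mul c2 this (norm_nonneg _) (by positivity)
          _ = _ := by ring
      have e2 : ‖c.φ u - c.φ d‖ ≤ 6 * r * ‖c.φ d‖ := by
        have : ‖c.φ (x ^ j)‖ * ‖c.φ d‖ ≤ (2 * r) * ‖c.φ d‖ :=
          mul_le_mul_of_nonneg_right (by linarith) d0
        linarith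
      have e3 : ‖c.φ (u * D) - ((j + 1 : ℕ) : ℝ) • c.φ d‖ ≤ 30 * r * ((j + 1 : ℕ) * ‖c.φ d‖) := by
        have : c.φ (u * D) - ((j + 1 : ℕ) : ℝ) • c.φ d =
            (c.φ (u * D) - c.φ u - c.φ D) + (c.φ u - c.φ d) + (c.φ D - (j : ℝ) • c.φ d) := by
          push_cast; rw [add_smul, one_smul]; abel
        rw [this]
        refine norm_add₃_le.trans ?_
        push_cast
        nlinarith
      refine ⟨m1, e3, ?_⟩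
      have e4 : ‖c.φ (u * D)‖ ≤ ‖c.φ (u * D) - ((j + 1 : ℕ) : ℝ) • c.φ d‖ +
          ‖((j + 1 : ℕ) : ℝ) • c.φ d‖ := by
        simpa using norm_add_le (c.φ (u * D) - ((j + 1 : ℕ) : ℝ) • c.φ d)
          (((j + 1 : ℕ) : ℝ) • c.φ d)
      rw [norm_smul, Real.norm_natCast] at e4
      have e5 : 0 ≤ ((j + 1 : ℕ) : ℝ) * ‖c.φ d‖ := by positivity
      nlinarith
  obtain ⟨a1, a2, a3⟩ := key k le_rfl
  obtain ⟨p1, p2, -⟩ := c.pow_est hy k (by linarith)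
  obtain ⟨-, m2⟩ := c.mul _ _ a1 p1 (by linarith) (by linarith)
  rw [inv_mul_cancel_right] at m2
  set D := x ^ k * (y ^ k)⁻¹
  have : c.φ (x ^ k) - c.φ (y ^ k) - (k : ℝ) • Δ =
      (c.φ (x ^ k) - c.φ D - c.φ (y ^ k)) + (c.φ D - (k : ℝ) • c.φ d) +
        (k : ℝ) • (c.φ d - Δ) := by
    rw [smul_sub (k : ℝ) (c.φ d) Δ]; abel
  rw [this]
  refine norm_add₃_le.trans ?_
  rw [norm_smul, Real.norm_natCast]
  have f1 : ‖c.φ D‖ * ‖c.φ (y ^ k)‖ ≤ (3 * (k * ‖c.φ d‖)) * (2 * r) :=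
    mul_le_mul a3 (by linarith) (norm_nonneg _) (by positivity)
  have f2 : k * ‖c.φ d‖ ≤ 2 * (k * ‖Δ‖) := by nlinarith
  have f3 : k * ‖c.φ d - Δ‖ ≤ 2 * r * (k * ‖Δ‖) := by
    have : ‖c.φ d - Δ‖ ≤ 2 * (r * ‖Δ‖) := by nlinarith
    nlinarith
  have f4 : r * (k * ‖c.φ d‖) ≤ r * (2 * (k * ‖Δ‖)) := mul_le_mul_of_nonneg_left f2 r0
  nlinarith

end Chart

end Pool.Agent.Lib.MP_0cde51_al
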