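import Pool.Agent.Lib.MP_0cde51_al.ChartA

/-! The exponential map of a charted group, as a limit of powers. -/

namespace Pool.Agent.Lib.MP_0cde51_al

open Filter Topology Metric

universe u v

namespace Chart

variable {L : Type u} [Group L] [TopologicalSpace L] {E : Type v} [NormedAddCommGroup E]
  [NormedSpace ℝ E] (c : Chart L E)

omit [NormedSpace ℝ E] in
theorem symm_mem {X : E} (h : ‖X‖ ≤ 1 / 2) : c.φ.symm X ∈ c.φ.source :=
  c.φ.map_target (c.ball_sub X h)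

omit [NormedSpace ℝ E] in
theorem apply_symm {X : E} (h : ‖X‖ ≤ 1 / 2) : c.φ (c.φ.symm X) = X :=
  c.φ.right_inv (c.ball_sub X h)

omit [NormedSpace ℝ E] in
theorem symm_zero : c.φ.symm 0 = 1 := by
  rw [← c.map_one]; exact c.φ.left_inv c.one_mem

omit [NormedSpace ℝ E] in
theorem tendsto_of_chart {ι : Type*} {l : Filter ι} {x : ι → L} {Y : E} (hY : ‖Y‖ ≤ 1 / 2)
    (hx : ∀ᶠ i in l, x i ∈ c.φ.source) (h : Tendsto (fun i => c.φ (x i)) l (𝓝 Y)) :
    Tendsto x l (𝓝 (c.φ.symm Y)) := by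
  have h1 := (c.φ.continuousAt_symm (c.ball_sub Y hY)).tendsto.comp h
  refine h1.congr' ?_
  filter_upwards [hx] with i hi
  exact c.φ.left_inv hi

omit [NormedSpace ℝ E] in
theorem tendsto_chart {ι : Type*} {l : Filter ι} {x : ι → L} (hx : Tendsto x l (𝓝 1)) :
    Tendsto (fun i => c.φ (x i)) l (𝓝 0) := by
  have := (c.φ.continuousAt c.one_mem).tendsto.comp hx
  rwa [c.map_one] at this

omit [NormedSpace ℝ E] in
theorem eventually_mem {ι : Type*} {l : Filter ι} {x : ι → L} (hx : Tendsto x l (𝓝 1)) :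
    ∀ᶠ i in l, x i ∈ c.φ.source :=
  hx.eventually (c.φ.open_source.mem_nhds c.one_mem)

omit [NormedSpace ℝ E] in
theorem eventually_small {ι : Type*} {l : Filter ι} {x : ι → L} (hx : Tendsto x l (𝓝 1)) {r : ℝ}
    (hr : 0 < r) : ∀ᶠ i in l, x i ∈ c.φ.source ∧ ‖c.φ (x i)‖ ≤ r := by
  have h := (c.tendsto_chart hx).norm
  rw [norm_zero] at h
  filter_upwards [c.eventually_mem hx, h.eventually (ge_mem_nhds hr)] with i h1 h2 using ⟨h1, h2⟩

theorem norm_inv_smul_le (X : E) {n : ℕ} (hn : 0 < n) : ‖(n : ℝ)⁻¹ • X‖ ≤ ‖X‖ := by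
  rw [norm_smul, norm_inv, Real.norm_natCast]
  have : (n : ℝ)⁻¹ ≤ 1 := inv_le_one_of_one_le₀ (by exact_mod_cast hn)
  nlinarith [norm_nonneg X]

theorem mul_norm_inv_smul (X : E) {n : ℕ} (hn : 0 < n) : n * ‖(n : ℝ)⁻¹ • X‖ = ‖X‖ := by
  have : (n : ℝ) ≠ 0 := by positivity
  rw [norm_smul, norm_inv, Real.norm_natCast, ← mul_assoc, mul_inv_cancel₀ this, one_mul]

/-- the approximating sequence -/
noncomputable def seq (X : E) (n : ℕ) : E := c.φ (c.φ.symm ((n : ℝ)⁻¹ • X) ^ n)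

theorem seq_near {x : L} (hx : x ∈ c.φ.source) {k : ℕ} (hk : 0 < k) {X : E} {r : ℝ}
    (hr : r ≤ 1 / 64) (hkx : k * ‖c.φ x‖ ≤ r) (hX : ‖X‖ ≤ r) :
    ‖c.φ (x ^ k) - c.seq X k - ((k : ℝ) • c.φ x - X)‖ ≤ 74 * r * ‖(k : ℝ) • c.φ x - X‖ := by
  have h1 : ‖(k : ℝ)⁻¹ • X‖ ≤ 1 / 2 := (norm_inv_smul_le X hk).trans (by linarith)
  have h2 := c.tele_est hx (c.symm_mem h1) k hr hkx
    (by rw [c.apply_symm h1, mul_norm_inv_smul X hk]; exact hX)
  have k0 : (k : ℝ) ≠ 0 := by positivity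
  have h3 : (k : ℝ) • (c.φ x - (k : ℝ)⁻¹ • X) = (k : ℝ) • c.φ x - X := by
    rw [smul_sub, smul_smul, mul_inv_cancel₀ k0, one_smul]
  rw [c.apply_symm h1, ← Real.norm_natCast k, ← norm_smul, Real.norm_natCast, h3] at h2
  exact h2

theorem seq_mul {X : E} (hX : ‖X‖ ≤ 1 / 128) {n m : ℕ} (hn : 0 < n) (hm : 0 < m) :
    ‖c.seq X (m * n) - c.seq X n‖ ≤ 6 * ‖X‖ ^ 2 / n := by
  have hmn : 0 < m * n := Nat.mul_pos hm hn
  have n0 : (0 : ℝ) < n := by positivity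
  have m0 : (0 : ℝ) < m := by positivity
  have n1 : (1 : ℝ) ≤ n := by exact_mod_cast hn
  have X0 := norm_nonneg X
  have h1 : ‖((m * n : ℕ) : ℝ)⁻¹ • X‖ ≤ 1 / 2 := (norm_inv_smul_le X hmn).trans (by linarith)
  set z := c.φ.symm (((m * n : ℕ) : ℝ)⁻¹ • X) with hz
  have hz1 : c.φ z = ((m * n : ℕ) : ℝ)⁻¹ • X := c.apply_symm h1
  have hz2 : m * ‖c.φ z‖ = ‖X‖ / n := by
    rw [hz1, norm_smul, norm_inv, Real.norm_natCast]; push_cast; field_simp
  have hXn : ‖X‖ / n ≤ ‖X‖ := div_le_self X0 n1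
  obtain ⟨p1, p2, p3⟩ := c.pow_est (c.symm_mem h1) m (by rw [← hz, hz2]; linarith)
  rw [← hz] at p1 p2 p3
  rw [hz2] at p2 p3
  have h2 := c.seq_near p1 hn (X := X) (r := 1 / 64) le_rfl
    (by
      have : n * ‖c.φ (z ^ m)‖ ≤ n * (2 * (‖X‖ / n)) := mul_le_mul_of_nonneg_left p2 n0.le
      have h' : n * (2 * (‖X‖ / n)) = 2 * ‖X‖ := by field_simp
      linarith) (by linarith)
  have h3 : ‖(n : ℝ) • c.φ (z ^ m) - X‖ ≤ 2 * ‖X‖ ^ 2 / n := by
    have : (n : ℝ) • c.φ (z ^ m) - X = (n : ℝ) • (c.φ (z ^ m) - (m : ℝ) • c.φ z) := by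
      rw [smul_sub, hz1, smul_smul, smul_smul]
      congr 1
      push_cast
      rw [show (n : ℝ) * m * ((m : ℝ) * n)⁻¹ = 1 by field_simp, one_smul]
    rw [this, norm_smul, Real.norm_natCast]
    calc _ ≤ n * (2 * (‖X‖ / n) ^ 2) := mul_le_mul_of_nonneg_left p3 n0.le
      _ = _ := by field_simp
  have h4 : c.seq X (m * n) = c.φ ((z ^ m) ^ n) := by rw [seq, ← hz, pow_mul]
  rw [h4]
  have h5 := norm_add_le (c.φ ((z ^ m) ^ n) - c.seq X n - ((n : ℝ) • c.φ (z ^ m) - X))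
    ((n : ℝ) • c.φ (z ^ m) - X)
  rw [sub_add_cancel] at h5
  have h6 : 6 * ‖X‖ ^ 2 / n = 3 * (2 * ‖X‖ ^ 2 / n) := by ring
  rw [h6]
  nlinarith [norm_nonneg ((n : ℝ) • c.φ (z ^ m) - X)]

/-- the exponential map read in the chart (for small arguments) -/
noncomputable def pexp (X : E) : E := limUnder atTop (c.seq X)

variable [CompleteSpace E]

theorem seq_lim {X : E} (hX : ‖X‖ ≤ 1 / 128) : Tendsto (c.seq X) atTop (𝓝 (c.pexp X)) ∧
    ∀ n : ℕ, 0 < n → ‖c.seq X n - c.pexp X‖ ≤ 6 * ‖X‖ ^ 2 / n := by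
  have hb : ∀ n m : ℕ, 0 < n → 0 < m →
      ‖c.seq X n - c.seq X m‖ ≤ 6 * ‖X‖ ^ 2 / n + 6 * ‖X‖ ^ 2 / m := by
    intro n m hn hm
    have h1 := c.seq_mul hX hn hm
    have h2 := c.seq_mul hX hm hn
    rw [mul_comm] at h2
    rw [norm_sub_rev] at h1
    have := norm_add_le (c.seq X n - c.seq X (m * n)) (c.seq X (m * n) - c.seq X m)
    rw [sub_add_sub_cancel] at this
    linarith
  have h0 : Tendsto (fun n : ℕ => 6 * ‖X‖ ^ 2 / n) atTop (𝓝 0) :=
    tendsto_const_div_atTop_nhds_zero_nat _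
  have hc : CauchySeq (c.seq X) := by
    rw [Metric.cauchySeq_iff']
    intro ε hε
    obtain ⟨N, hN⟩ := eventually_atTop.1 ((h0.eventually (gt_mem_nhds (half_pos hε))).and
      (eventually_gt_atTop 0))
    refine ⟨N, fun n hn => ?_⟩
    rw [dist_eq_norm]
    have := hb n N (hN n hn).2 (hN N le_rfl).2
    linarith [(hN n hn).1, (hN N le_rfl).1]
  have ht : Tendsto (c.seq X) atTop (𝓝 (c.pexp X)) := hc.tendsto_limUnder
  refine ⟨ht, fun n hn => ?_⟩
  have h1 : Tendsto (fun m => ‖c.seq X n - c.seq X m‖) atTop (𝓝 ‖c.seq X n - c.pexp X‖) :=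
    (tendsto_const_nhds.sub ht).norm
  have h2 : Tendsto (fun m : ℕ => 6 * ‖X‖ ^ 2 / n + 6 * ‖X‖ ^ 2 / m) atTop
      (𝓝 (6 * ‖X‖ ^ 2 / n + 0)) := tendsto_const_nhds.add h0
  rw [add_zero] at h2
  exact le_of_tendsto_of_tendsto h1 h2
    (by filter_upwards [eventually_gt_atTop 0] with m hm using hb n m hn hm)

theorem pexp_sub {X Y : E} {r : ℝ} (hr : r ≤ 1 / 128) (hX : ‖X‖ ≤ r) (hY : ‖Y‖ ≤ r) :
    ‖c.pexp X - c.pexp Y - (X - Y)‖ ≤ 74 * r * ‖X - Y‖ := by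
  have h1 := (((c.seq_lim (hX.trans hr)).1.sub (c.seq_lim (hY.trans hr)).1).sub
    (tendsto_const_nhds (x := X - Y))).norm
  refine le_of_tendsto h1 ?_
  filter_upwards [eventually_gt_atTop 0] with n hn
  have h2 : ‖(n : ℝ)⁻¹ • X‖ ≤ 1 / 2 := (norm_inv_smul_le X hn).trans (by linarith)
  have n0 : (n : ℝ) ≠ 0 := by positivity
  have h3 := c.seq_near (c.symm_mem h2) hn (X := Y) (r := r) (by linarith)
    (by rw [c.apply_symm h2, mul_norm_inv_smul X hn]; exact hX) hY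
  rwa [c.apply_symm h2, smul_smul, mul_inv_cancel₀ n0, one_smul] at h3

omit [CompleteSpace E] in
theorem pexp_zero : c.pexp 0 = 0 := by
  have : c.seq 0 = fun _ => 0 := by
    funext n; simp [seq, c.symm_zero, c.map_one]
  rw [pexp, this]
  exact tendsto_const_nhds.limUnder_eq

theorem norm_pexp_le {X : E} (hX : ‖X‖ ≤ 1 / 128) : ‖c.pexp X‖ ≤ 2 * ‖X‖ := by
  have h := c.pexp_sub (X := X) (Y := 0) le_rfl hX (by norm_num)
  rw [pexp_zero, sub_zero, sub_zero] at h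
  have := norm_add_le (c.pexp X - X) X
  rw [sub_add_cancel] at this
  nlinarith [norm_nonneg X]

theorem key_est {x : L} (hx : x ∈ c.φ.source) (k : ℕ) {X : E} (hkx : k * ‖c.φ x‖ ≤ 1 / 128)
    (hX : ‖X‖ ≤ 1 / 128) : x ^ k ∈ c.φ.source ∧
      ‖c.φ (x ^ k) - c.pexp X‖ ≤ 3 * ‖(k : ℝ) • c.φ x - X‖ + ‖c.φ x‖ := by
  refine ⟨(c.pow_est hx k (by linarith)).1, ?_⟩
  have x0 := norm_nonneg (c.φ x)
  have X0 := norm_nonneg X
  rcases Nat.eq_zero_or_pos k with rfl | hk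
  · have := c.norm_pexp_le hX
    simp only [pow_zero, c.map_one, zero_sub, norm_neg, Nat.cast_zero, zero_smul]
    linarith
  have h1 := c.seq_near hx hk le_rfl (hkx.trans (by norm_num)) (hX.trans (by norm_num))
  have h2 := (c.seq_lim hX).2 k hk
  set A := ‖(k : ℝ) • c.φ x - X‖ with hA
  have A0 : 0 ≤ A := norm_nonneg _
  have k1 : (1 : ℝ) ≤ k := by exact_mod_cast hk
  have h3 : ‖X‖ ≤ k * ‖c.φ x‖ + A := by
    have := norm_sub_le ((k : ℝ) • c.φ x) ((k : ℝ) • c.φ x - X)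
    rwa [sub_sub_cancel, norm_smul, Real.norm_natCast] at this
  have h4 : 6 * ‖X‖ ^ 2 / k ≤ ‖c.φ x‖ + A / 4 := by
    rw [div_le_iff₀ (by linarith)]
    nlinarith [mul_nonneg x0 (sub_nonneg.2 k1), mul_nonneg A0 (sub_nonneg.2 k1)]
  have h5 : c.φ (x ^ k) - c.pexp X = (c.φ (x ^ k) - c.seq X k - ((k : ℝ) • c.φ x - X)) +
      ((k : ℝ) • c.φ x - X) + (c.seq X k - c.pexp X) := by abel
  rw [h5]
  refine norm_add₃_le.trans ?_
  linarith

/-- `g` is the limit of all families of powers `x ^ k` with `k • φ x → X` -/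
def IsLim (X : E) (g : L) : Prop :=
  ∀ ⦃ι : Type⦄ (l : Filter ι) (x : ι → L) (k : ι → ℕ), Tendsto x l (𝓝 1) →
    Tendsto (fun i => (k i : ℝ) • c.φ (x i)) l (𝓝 X) → Tendsto (fun i => x i ^ k i) l (𝓝 g)

theorem isLim_small {X : E} (hX : ‖X‖ < 1 / 128) : c.IsLim X (c.φ.symm (c.pexp X)) := by
  intro ι l x k hx hk
  have h1 : ∀ᶠ i in l, k i * ‖c.φ (x i)‖ ≤ 1 / 128 := by
    filter_upwards [hk.norm.eventually (ge_mem_nhds hX)] with i hi
    rwa [norm_smul, Real.norm_natCast] at hi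
  have h2 : ∀ᶠ i in l, x i ^ k i ∈ c.φ.source ∧ ‖c.φ (x i ^ k i) - c.pexp X‖ ≤
      3 * ‖(k i : ℝ) • c.φ (x i) - X‖ + ‖c.φ (x i)‖ := by
    filter_upwards [h1, c.eventually_mem hx] with i hi hi' using c.key_est hi' (k i) hi hX.le
  refine c.tendsto_of_chart ((c.norm_pexp_le hX.le).trans (by linarith)) (h2.mono fun i h => h.1) ?_
  rw [tendsto_iff_norm_sub_tendsto_zero] at hk ⊢
  have h3 := (hk.const_mul 3).add (c.tendsto_chart hx).norm
  simp only [mul_zero, norm_zero, add_zero] at h3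
  exact squeeze_zero' (Eventually.of_forall fun _ => norm_nonneg _) (h2.mono fun i h => h.2) h3

variable [IsTopologicalGroup L]

theorem IsLim.nsmul {X : E} {g : L} (h : c.IsLim X g) {m : ℕ} (hm : 0 < m) :
    c.IsLim ((m : ℝ) • X) (g ^ m) := by
  intro ι l x k hx hk
  have m0 : (m : ℝ) ≠ 0 := by positivity
  have hr : Tendsto (fun i => ((k i % m : ℕ) : ℝ) • c.φ (x i)) l (𝓝 0) := by
    have h3 := (c.tendsto_chart hx).norm.const_mul (m : ℝ)
    simp only [mul_zero, norm_zero] at h3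
    refine squeeze_zero_norm (fun i => ?_) h3
    rw [norm_smul, Real.norm_natCast]
    exact mul_le_mul_of_nonneg_right (by exact_mod_cast (Nat.mod_lt _ hm).le) (norm_nonneg _)
  have hq : Tendsto (fun i => ((k i / m : ℕ) : ℝ) • c.φ (x i)) l (𝓝 X) := by
    have := (hk.sub hr).const_smul (m : ℝ)⁻¹
    rw [sub_zero, smul_smul, inv_mul_cancel₀ m0, one_smul] at this
    refine this.congr fun i => ?_
    rw [← sub_smul, smul_smul]
    congr 1
    have : (k i : ℝ) = m * ((k i / m : ℕ) : ℝ) + ((k i % m : ℕ) : ℝ) := by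
      exact_mod_cast (Nat.div_add_mod (k i) m).symm
    rw [this]; field_simp; ring
  have h1 := (h l x _ hx hq).pow m
  have h2 := c.isLim_small (X := 0) (by norm_num) l x _ hx hr
  rw [pexp_zero, symm_zero] at h2
  have h3 := h1.mul h2
  rw [mul_one] at h3
  refine h3.congr fun i => ?_
  rw [← pow_mul, ← pow_add, Nat.div_add_mod']

theorem exists_isLim (X : E) : ∃ g, c.IsLim X g := by
  obtain ⟨m, hm⟩ := exists_nat_gt (128 * ‖X‖)
  have m0 : (0 : ℝ) < m := lt_of_le_of_lt (by positivity) hm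
  have h1 : ‖(m : ℝ)⁻¹ • X‖ < 1 / 128 := by
    rw [norm_smul, norm_inv, Real.norm_natCast, inv_mul_lt_iff₀ m0]; linarith
  have := (c.isLim_small h1).nsmul c (m := m) (by exact_mod_cast m0)
  rw [smul_smul, mul_inv_cancel₀ m0.ne', one_smul] at this
  exact ⟨_, this⟩

/-- the exponential map -/
noncomputable def exp (X : E) : L := (c.exists_isLim X).choose

theorem isLim_exp (X : E) : c.IsLim X (c.exp X) := (c.exists_isLim X).choose_spec

omit [CompleteSpace E] [IsTopologicalGroup L] in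
theorem std_tendsto (X : E) : Tendsto (fun n : ℕ => c.φ.symm ((n : ℝ)⁻¹ • X)) atTop (𝓝 1) ∧
    ∀ᶠ n : ℕ in atTop, c.φ (c.φ.symm ((n : ℝ)⁻¹ • X)) = (n : ℝ)⁻¹ • X := by
  have h0 : Tendsto (fun n : ℕ => (n : ℝ)⁻¹ • X) atTop (𝓝 0) := by
    have := (tendsto_inv_atTop_nhds_zero_nat (𝕜 := ℝ)).smul_const X
    rwa [zero_smul] at this
  constructor
  · have := (c.φ.continuousAt_symm (c.ball_sub 0 (by norm_num))).tendsto.comp h0
    rwa [symm_zero] at this
  · have h1 := h0.norm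
    rw [norm_zero] at h1
    filter_upwards [h1.eventually (ge_mem_nhds (by norm_num : (0 : ℝ) < 1 / 2))] with n hn
      using c.apply_symm hn

variable [T2Space L]

omit [IsTopologicalGroup L] in
theorem IsLim.unique {X : E} {g g' : L} (h : c.IsLim X g) (h' : c.IsLim X g') : g = g' := by
  obtain ⟨h1, h2⟩ := c.std_tendsto X
  have h3 : Tendsto (fun n : ℕ => (n : ℝ) • c.φ (c.φ.symm ((n : ℝ)⁻¹ • X))) atTop (𝓝 X) := by
    refine tendsto_const_nhds.congr' ?_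
    filter_upwards [h2, eventually_gt_atTop 0] with n hn hn'
    rw [hn, smul_smul, mul_inv_cancel₀ (by positivity), one_smul]
  exact tendsto_nhds_unique (h atTop _ id h1 h3) (h' atTop _ id h1 h3)

theorem exp_eq {X : E} (hX : ‖X‖ < 1 / 128) : c.exp X = c.φ.symm (c.pexp X) :=
  (c.isLim_exp X).unique c (c.isLim_small hX)

theorem exp_zero : c.exp 0 = 1 := by rw [c.exp_eq (by norm_num), pexp_zero, symm_zero]

theorem exp_mem {X : E} (hX : ‖X‖ < 1 / 128) : c.exp X ∈ c.φ.source ∧ c.φ (c.exp X) = c.pexp X := by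
  have := (c.norm_pexp_le hX.le).trans (by linarith : 2 * ‖X‖ ≤ 1 / 2)
  rw [c.exp_eq hX]
  exact ⟨c.symm_mem this, c.apply_symm this⟩

omit [T2Space L] in
theorem tendsto_zpow {ι : Type} {l : Filter ι} {x : ι → L} {k : ι → ℤ} {X : E}
    (hx : Tendsto x l (𝓝 1)) (hk : Tendsto (fun i => (k i : ℝ) • c.φ (x i)) l (𝓝 X)) :
    Tendsto (fun i => x i ^ k i) l (𝓝 (c.exp X)) := by
  classical
  let y : ι → L := fun i => if 0 ≤ k i then x i else (x i)⁻¹
  have hy : Tendsto y l (𝓝 1) := by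
    have := hx.inv
    rw [inv_one] at this
    exact hx.if' this
  have h1 : Tendsto (fun i => ((k i).natAbs : ℝ) • c.φ (y i) - (k i : ℝ) • c.φ (x i)) l (𝓝 0) := by
    have h2 := (hk.norm.mul (c.tendsto_chart hx).norm).const_mul 2
    simp only [norm_zero, mul_zero] at h2
    refine squeeze_zero_norm' ?_ h2
    filter_upwards [c.eventually_small hx (r := 1 / 4) (by norm_num)] with i hi
    have x0 := norm_nonneg (c.φ (x i))
    by_cases h : 0 ≤ k i
    · have : ((k i).natAbs : ℝ) = k i := by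
        rw [← Int.cast_natCast, Int.natAbs_of_nonneg h]
      simp only [y, if_pos h, this, sub_self, norm_zero]
      positivity
    · have : ((k i).natAbs : ℝ) = -k i := by
        rw [← Int.cast_natCast, Int.ofNat_natAbs_of_nonpos (not_le.1 h).le, Int.cast_neg]
      obtain ⟨i1, i2⟩ := c.inv _ hi.1 (by linarith [hi.2])
      obtain ⟨-, m⟩ := c.mul _ _ hi.1 i1 (by linarith [hi.2]) (by linarith [hi.2])
      rw [mul_inv_cancel, c.map_one] at m
      simp only [y, if_neg h, this]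
      have e : (-(k i : ℝ)) • c.φ (x i)⁻¹ - (k i : ℝ) • c.φ (x i) =
          (k i : ℝ) • (0 - c.φ (x i) - c.φ (x i)⁻¹) := by
        rw [neg_smul, smul_sub, smul_sub, smul_zero]; abel
      rw [e, norm_smul, norm_smul]
      have k0 := norm_nonneg (k i : ℝ)
      have : ‖0 - c.φ (x i) - c.φ (x i)⁻¹‖ ≤ 2 * (‖c.φ (x i)‖ * ‖c.φ (x i)‖) := by nlinarith
      nlinarith [mul_le_mul_of_nonneg_left this k0]
  have h2 := h1.add hk
  simp only [sub_add_cancel, zero_add] at h2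
  refine (c.isLim_exp X l y _ hy h2).congr fun i => ?_
  by_cases h : 0 ≤ k i
  · simp only [y, if_pos h]
    rw [← zpow_natCast, Int.natAbs_of_nonneg h]
  · simp only [y, if_neg h]
    rw [← zpow_natCast, Int.ofNat_natAbs_of_nonpos (not_le.1 h).le, inv_zpow', neg_neg]

theorem exp_add_smul (X : E) (s t : ℝ) : c.exp ((s + t) • X) = c.exp (s • X) * c.exp (t • X) := by
  obtain ⟨h1, h2⟩ := c.std_tendsto X
  have hf : ∀ s : ℝ, Tendsto (fun n : ℕ => ((⌊s * n⌋ : ℤ) : ℝ) • c.φ (c.φ.symm ((n : ℝ)⁻¹ • X)))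
      atTop (𝓝 (s • X)) := by
    intro s
    have h3 : Tendsto (fun n : ℕ => ((⌊s * n⌋ : ℤ) : ℝ) * (n : ℝ)⁻¹) atTop (𝓝 s) := by
      rw [tendsto_iff_norm_sub_tendsto_zero]
      refine squeeze_zero' (Eventually.of_forall fun _ => norm_nonneg _) ?_
        tendsto_inv_atTop_nhds_zero_nat
      filter_upwards [eventually_gt_atTop 0] with n hn
      have n0 : (0 : ℝ) < n := by positivity
      have e : ((⌊s * n⌋ : ℤ) : ℝ) * (n : ℝ)⁻¹ - s = (((⌊s * n⌋ : ℤ) : ℝ) - s * n) * (n : ℝ)⁻¹ := by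
        field_simp
      rw [e, norm_mul, norm_inv, Real.norm_natCast, Real.norm_eq_abs]
      have : |((⌊s * n⌋ : ℤ) : ℝ) - s * n| ≤ 1 := by
        rw [abs_le]
        constructor <;> linarith [Int.floor_le (s * n), Int.lt_floor_add_one (s * n)]
      nlinarith [inv_pos.2 n0]
    refine (h3.smul_const X).congr' ?_
    filter_upwards [h2] with n hn
    rw [hn, smul_smul]
  have h4 := (c.tendsto_zpow h1 (hf s)).mul (c.tendsto_zpow h1 (hf t))
  have h5 := (hf s).add (hf t)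
  rw [← add_smul] at h5
  have h6 := c.tendsto_zpow (k := fun n : ℕ => ⌊s * n⌋ + ⌊t * n⌋) h1
    (h5.congr fun n => by rw [← add_smul, Int.cast_add])
  exact tendsto_nhds_unique h6 (h4.congr fun n => (zpow_add _ _ _).symm)

end Chart

end Pool.Agent.Lib.MP_0cde51_al
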