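import Pool.Agent.Lib.MP_0cde51_al.ChartB

/-! Local structure of the exponential map, one-parameter subgroups, tangent vectors,
the product formula and differentials of homomorphisms. -/

namespace Pool.Agent.Lib.MP_0cde51_al

open Filter Topology Metric Asymptotics

universe u v

namespace Chart

variable {L : Type u} [Group L] [TopologicalSpace L] {E : Type v} [NormedAddCommGroup E]
  [NormedSpace ℝ E] (c : Chart L E)

/-- `γ` starts at the identity with tangent vector `X` -/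
def HasTan (γ : ℝ → L) (X : E) : Prop :=
  Tendsto γ (𝓝 0) (𝓝 1) ∧ γ 0 = 1 ∧ HasDerivAt (fun t => c.φ (γ t)) X 0

theorem HasTan.isBigO {γ : ℝ → L} {X : E} (h : c.HasTan γ X) :
    (fun t => c.φ (γ t)) =O[𝓝 0] fun t : ℝ => t := by
  have := h.2.2.isBigO_sub
  simpa [h.2.1, c.map_one] using this

theorem HasTan.isLittleO_one {γ : ℝ → L} {X : E} (h : c.HasTan γ X) :
    (fun t => ‖c.φ (γ t)‖) =o[𝓝 0] fun _ : ℝ => (1 : ℝ) := by
  rw [isLittleO_one_iff]
  simpa using (c.tendsto_chart h.1).norm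

theorem hasDerivAt_zero_of_isLittleO {f : ℝ → E} (h0 : f 0 = 0) (h : f =o[𝓝 0] fun t : ℝ => t) :
    HasDerivAt f 0 0 := by
  rw [hasDerivAt_iff_isLittleO]
  simpa [h0] using h

theorem HasTan.unique {γ : ℝ → L} {X Y : E} (h : c.HasTan γ X) (h' : c.HasTan γ Y) : X = Y :=
  h.2.2.unique h'.2.2

theorem HasTan.congr {γ δ : ℝ → L} {X : E} (h : c.HasTan γ X) (e : γ =ᶠ[𝓝 0] δ) :
    c.HasTan δ X :=
  ⟨h.1.congr' e, e.eq_of_nhds ▸ h.2.1,
    h.2.2.congr_of_eventuallyEq (e.mono fun t ht => by simp only [ht])⟩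

variable [IsTopologicalGroup L]

theorem HasTan.mul {γ δ : ℝ → L} {X Y : E} (h : c.HasTan γ X) (h' : c.HasTan δ Y) :
    c.HasTan (fun t => γ t * δ t) (X + Y) := by
  refine ⟨by simpa using h.1.mul h'.1, by simp [h.2.1, h'.2.1], ?_⟩
  have h1 : HasDerivAt (fun t => c.φ (γ t * δ t) - c.φ (γ t) - c.φ (δ t)) 0 0 := by
    refine hasDerivAt_zero_of_isLittleO (by simp [h.2.1, h'.2.1, c.map_one]) ?_
    have h2 := (h.isBigO c).norm_left.mul_isLittleO (h'.isLittleO_one c)
    simp only [mul_one] at h2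
    refine IsBigO.trans_isLittleO (IsBigO.of_bound' ?_) h2
    filter_upwards [c.eventually_small h.1 (r := 1 / 2) (by norm_num),
      c.eventually_small h'.1 (r := 1 / 2) (by norm_num)] with t a b
    rw [Real.norm_of_nonneg (by positivity)]
    exact (c.mul _ _ a.1 b.1 a.2 b.2).2
  have h3 := (h1.add h.2.2).add h'.2.2
  rw [zero_add] at h3
  convert h3 using 1
  funext t; simp only [Pi.add_apply]; abel

theorem HasTan.inv {γ : ℝ → L} {X : E} (h : c.HasTan γ X) : c.HasTan (fun t => (γ t)⁻¹) (-X) := by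
  refine ⟨by simpa using h.1.inv, by simp [h.2.1], ?_⟩
  have h1 : HasDerivAt (fun t => 0 - c.φ (γ t) - c.φ (γ t)⁻¹) 0 0 := by
    refine hasDerivAt_zero_of_isLittleO (by simp [h.2.1, c.map_one]) ?_
    have h2 := (h.isBigO c).norm_left.mul_isLittleO (h.isLittleO_one c)
    simp only [mul_one] at h2
    refine IsBigO.trans_isLittleO (IsBigO.of_bound 2 ?_) h2
    filter_upwards [c.eventually_small h.1 (r := 1 / 4) (by norm_num)] with t a
    rw [Real.norm_of_nonneg (by positivity)]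
    obtain ⟨i1, i2⟩ := c.inv _ a.1 (by linarith [a.2])
    have := (c.mul _ _ a.1 i1 (by linarith [a.2]) (by linarith [a.2])).2
    rw [mul_inv_cancel, c.map_one] at this
    nlinarith [norm_nonneg (c.φ (γ t))]
  have h3 := (h1.add h.2.2).neg
  rw [zero_add] at h3
  convert h3 using 1
  funext t; simp

variable [CompleteSpace E]

omit [IsTopologicalGroup L] in
theorem hasStrictFDerivAt_pexp : HasStrictFDerivAt c.pexp (ContinuousLinearMap.id ℝ E) 0 := by
  rw [hasStrictFDerivAt_iff_isLittleO, isLittleO_iff]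
  intro ε hε
  have hr : 0 < min (1 / 128) (ε / 74) := lt_min (by norm_num) (by positivity)
  have h1 : ∀ᶠ X : E in 𝓝 0, ‖X‖ ≤ min (1 / 128) (ε / 74) := by
    have := continuous_norm.tendsto (0 : E)
    rw [norm_zero] at this
    exact this.eventually (ge_mem_nhds hr)
  filter_upwards [h1.prod_nhds h1] with p hp
  refine (c.pexp_sub (min_le_left _ _) hp.1 hp.2).trans ?_
  refine mul_le_mul_of_nonneg_right ?_ (norm_nonneg _)
  have := min_le_right (1 / 128) (ε / 74)
  linarith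

omit [IsTopologicalGroup L] in
theorem map_pexp_nhds : map c.pexp (𝓝 0) = 𝓝 0 := by
  have h : HasStrictFDerivAt c.pexp ((ContinuousLinearEquiv.refl ℝ E : E ≃L[ℝ] E) : E →L[ℝ] E) 0 :=
    c.hasStrictFDerivAt_pexp
  rw [h.map_nhds_eq_of_equiv, pexp_zero]

omit [IsTopologicalGroup L] [NormedSpace ℝ E] [CompleteSpace E] in
theorem eventually_norm_lt {r : ℝ} (hr : 0 < r) : ∀ᶠ X : E in 𝓝 0, ‖X‖ < r := by
  have := continuous_norm.tendsto (0 : E)
  rw [norm_zero] at this
  exact this.eventually (gt_mem_nhds hr)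

theorem HasTan.tendsto_pow {γ : ℝ → L} {X : E} (h : c.HasTan γ X) :
    Tendsto (fun n : ℕ => γ (n : ℝ)⁻¹ ^ n) atTop (𝓝 (c.exp X)) := by
  have h0 : Tendsto (fun n : ℕ => (n : ℝ)⁻¹) atTop (𝓝[≠] 0) := by
    refine tendsto_nhdsWithin_iff.2 ⟨tendsto_inv_atTop_nhds_zero_nat, ?_⟩
    filter_upwards [eventually_gt_atTop 0] with n hn
    have : (n : ℝ)⁻¹ ≠ 0 := by positivity
    exact this
  refine c.isLim_exp X atTop _ id (h.1.comp tendsto_inv_atTop_nhds_zero_nat) ?_
  refine (h.2.2.tendsto_slope_zero.comp h0).congr fun n => ?_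
  simp [h.2.1, c.map_one]

variable [T2Space L]

theorem exp_eventually : c.exp =ᶠ[𝓝 0] fun X => c.φ.symm (c.pexp X) :=
  (eventually_norm_lt (by norm_num)).mono fun _ h => c.exp_eq h

theorem chart_exp_eventually : (fun X => c.φ (c.exp X)) =ᶠ[𝓝 0] c.pexp :=
  (eventually_norm_lt (by norm_num)).mono fun _ h => (c.exp_mem h).2

theorem map_exp_nhds : map c.exp (𝓝 0) = 𝓝 1 := by
  rw [map_congr c.exp_eventually]
  change map (c.φ.symm ∘ c.pexp) _ = _
  rw [← map_map, map_pexp_nhds, ← c.map_one, c.φ.symm_map_nhds_eq c.one_mem]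

theorem tendsto_exp_zero : Tendsto c.exp (𝓝 0) (𝓝 1) := c.map_exp_nhds.le

theorem hasFDerivAt_chart_exp :
    HasFDerivAt (fun X => c.φ (c.exp X)) (ContinuousLinearMap.id ℝ E) 0 :=
  c.hasStrictFDerivAt_pexp.hasFDerivAt.congr_of_eventuallyEq c.chart_exp_eventually

theorem exp_injOn {X Y : E} (hX : ‖X‖ < 1 / 128) (hY : ‖Y‖ < 1 / 128) (h : c.exp X = c.exp Y) :
    X = Y := by
  have h1 : c.pexp X = c.pexp Y := by rw [← (c.exp_mem hX).2, ← (c.exp_mem hY).2, h]
  have h2 := c.pexp_sub le_rfl hX.le hY.le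
  rw [h1, sub_self, zero_sub, norm_neg] at h2
  have : ‖X - Y‖ = 0 := by nlinarith [norm_nonneg (X - Y)]
  exact sub_eq_zero.1 (norm_eq_zero.1 this)

/-- the one-parameter subgroup as a homomorphism -/
noncomputable def expHom (X : E) : Multiplicative ℝ →* L where
  toFun t := c.exp (t.toAdd • X)
  map_one' := by simp [c.exp_zero]
  map_mul' s t := by simp [c.exp_add_smul]

theorem exp_zsmul (X : E) (z : ℤ) : c.exp ((z : ℝ) • X) = c.exp X ^ z := by
  have := map_zpow (c.expHom X) (Multiplicative.ofAdd 1) z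
  simpa [expHom] using this

theorem exp_nsmul (X : E) (n : ℕ) : c.exp ((n : ℝ) • X) = c.exp X ^ n := by
  simpa using c.exp_zsmul X n

theorem exp_neg (X : E) : c.exp (-X) = (c.exp X)⁻¹ := by
  simpa using c.exp_zsmul X (-1)

theorem continuous_exp : Continuous c.exp := by
  have h0 : ∀ X : E, ‖X‖ < 1 / 128 → ContinuousAt c.exp X := by
    intro X hX
    have hb : ∀ᶠ Y in 𝓝 X, ‖Y‖ < 1 / 128 := continuous_norm.continuousAt.eventually (gt_mem_nhds hX)
    have h1 : ContinuousAt c.pexp X := by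
      rw [ContinuousAt, tendsto_iff_norm_sub_tendsto_zero]
      have h2 : Tendsto (fun Y => 2 * ‖Y - X‖) (𝓝 X) (𝓝 0) := by
        have : Continuous fun Y => 2 * ‖Y - X‖ := by fun_prop
        simpa using this.tendsto X
      refine squeeze_zero' (Eventually.of_forall fun _ => norm_nonneg _) ?_ h2
      filter_upwards [hb] with Y hY
      have h3 := c.pexp_sub le_rfl hY.le hX.le
      have h4 := norm_add_le (c.pexp Y - c.pexp X - (Y - X)) (Y - X)
      rw [sub_add_cancel] at h4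
      nlinarith [norm_nonneg (Y - X)]
    have h5 := (c.φ.continuousAt_symm (c.ball_sub _
      ((c.norm_pexp_le hX.le).trans (by linarith)))).comp h1
    exact h5.congr (hb.mono fun Y hY => (c.exp_eq hY).symm)
  rw [continuous_iff_continuousAt]
  intro X
  obtain ⟨m, hm⟩ := exists_nat_gt (128 * ‖X‖)
  have m0 : (0 : ℝ) < m := lt_of_le_of_lt (by positivity) hm
  have h1 : ‖(m : ℝ)⁻¹ • X‖ < 1 / 128 := by
    rw [norm_smul, norm_inv, Real.norm_natCast, inv_mul_lt_iff₀ m0]; linarith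
  have h2 : ContinuousAt (fun Y : E => c.exp ((m : ℝ)⁻¹ • Y) ^ m) X :=
    (ContinuousAt.comp (f := fun Y : E => (m : ℝ)⁻¹ • Y) (h0 _ h1) (by fun_prop)).pow m
  convert h2 using 1
  funext Y
  rw [← exp_nsmul, smul_smul, mul_inv_cancel₀ m0.ne', one_smul]

theorem continuous_exp_smul (X : E) : Continuous fun t : ℝ => c.exp (t • X) :=
  c.continuous_exp.comp (by fun_prop)

theorem eq_of_exp_smul_eventually {X Y : E}
    (h : ∀ᶠ t : ℝ in 𝓝 0, c.exp (t • X) = c.exp (t • Y)) : X = Y := by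
  have hs : ∀ Z : E, ∀ᶠ t : ℝ in 𝓝 0, ‖t • Z‖ < 1 / 128 := fun Z => by
    have : Continuous fun t : ℝ => t • Z := by fun_prop
    have h1 := this.tendsto 0
    rw [zero_smul] at h1
    exact h1.eventually (eventually_norm_lt (by norm_num))
  obtain ⟨t, ⟨⟨h1, h2⟩, h3⟩, h4⟩ :=
    ((((h.and (hs X)).and (hs Y)).filter_mono nhdsWithin_le_nhds).and
      (self_mem_nhdsWithin (a := (0 : ℝ)) (s := {0}ᶜ))).exists
  exact smul_right_injective E h4 (c.exp_injOn h2 h3 h1)

theorem eq_of_exp_smul {X Y : E} (h : ∀ t : ℝ, c.exp (t • X) = c.exp (t • Y)) : X = Y :=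
  c.eq_of_exp_smul_eventually (Eventually.of_forall h)

theorem exists_one_param (γ : ℝ → L) (hc : Continuous γ) (ha : ∀ s t, γ (s + t) = γ s * γ t) :
    ∃ X : E, ∀ t, γ t = c.exp (t • X) := by
  have h0 : γ 0 = 1 := by
    have := ha 0 0
    rw [add_zero] at this
    exact left_eq_mul.1 this
  let Γ : Multiplicative ℝ →* L := ⟨⟨fun t => γ t.toAdd, h0⟩, fun s t => ha _ _⟩
  have hz : ∀ (t : ℝ) (z : ℤ), γ (z * t) = γ t ^ z := fun t z => by
    have := map_zpow Γ (Multiplicative.ofAdd t) z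
    simpa [Γ] using this
  have h1 : ∀ᶠ x in 𝓝 (1 : L), ∃ Y : E, ‖Y‖ < 1 / 256 ∧ c.exp Y = x := by
    rw [← c.map_exp_nhds, eventually_map]
    exact (eventually_norm_lt (by norm_num)).mono fun Y hY => ⟨Y, hY, rfl⟩
  have h2 := hc.tendsto 0
  rw [h0] at h2
  obtain ⟨ε, hε, h3⟩ := Metric.eventually_nhds_iff.1 (h2.eventually h1)
  set t₀ := ε / 2 with ht₀
  have t0 : 0 < t₀ := by positivity
  have h4 : ∀ s : ℝ, 0 ≤ s → s ≤ t₀ → ∃ Y : E, ‖Y‖ < 1 / 256 ∧ c.exp Y = γ s := fun s a b =>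
    h3 (by rw [Real.dist_eq, sub_zero, abs_of_nonneg a]; linarith)
  obtain ⟨Y₁, hY₁, eY₁⟩ := h4 t₀ t0.le le_rfl
  have h5 : ∀ n : ℕ, 0 < n → γ (t₀ / n) = c.exp ((n : ℝ)⁻¹ • Y₁) := by
    intro n hn
    have n0 : (0 : ℝ) < n := by positivity
    have n1 : (1 : ℝ) ≤ n := by exact_mod_cast hn
    obtain ⟨Y, hY, eY⟩ := h4 (t₀ / n) (by positivity) (div_le_self t0.le n1)
    have hp : ∀ j : ℕ, c.exp ((j : ℝ) • Y) = γ (j * (t₀ / n)) := fun j => by
      have := hz (t₀ / n) j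
      rw [c.exp_nsmul, eY, ← zpow_natCast, ← this, Int.cast_natCast]
    have key : ∀ j : ℕ, j ≤ n → ‖(j : ℝ) • Y‖ < 1 / 256 := by
      intro j
      induction j with
      | zero => intro _; simp
      | succ j ih =>
        intro hj
        have a1 := ih (by omega)
        have a2 : ‖((j + 1 : ℕ) : ℝ) • Y‖ < 1 / 128 := by
          push_cast
          rw [add_smul, one_smul]
          linarith [norm_add_le ((j : ℝ) • Y) Y]
        have hjn : ((j + 1 : ℕ) : ℝ) ≤ n := by exact_mod_cast hj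
        obtain ⟨Z, hZ, eZ⟩ := h4 ((j + 1 : ℕ) * (t₀ / n)) (by positivity) (by
          rw [mul_div_assoc', div_le_iff₀ n0]; nlinarith)
        rw [c.exp_injOn a2 (hZ.trans (by norm_num)) ((hp _).trans eZ.symm)]
        exact hZ
    have e : (n : ℝ) • Y = Y₁ := by
      refine c.exp_injOn ((key n le_rfl).trans (by norm_num)) (hY₁.trans (by norm_num)) ?_
      rw [hp, eY₁, mul_div_cancel₀ _ n0.ne']
    rw [← e, smul_smul, inv_mul_cancel₀ n0.ne', one_smul, eY]
  have h6 : (fun s : ℝ => γ (s * t₀)) = fun s : ℝ => c.exp (s • Y₁) := by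
    refine Rat.denseRange_cast.equalizer (hc.comp (by fun_prop)) (c.continuous_exp_smul Y₁) ?_
    funext q
    have hq : (q : ℝ) = q.num * (q.den : ℝ)⁻¹ := by rw [Rat.cast_def, div_eq_mul_inv]
    simp only [Function.comp_apply]
    rw [hq, mul_assoc, hz, ← div_eq_inv_mul, h5 _ q.den_pos, ← exp_zsmul, smul_smul]
  refine ⟨t₀⁻¹ • Y₁, fun t => ?_⟩
  have := congrFun h6 (t * t₀⁻¹)
  rw [smul_smul, ← this, inv_mul_cancel_right₀ t0.ne']

theorem hasTan_exp {η : ℝ → E} {X : E} (h0 : η 0 = 0) (h : HasDerivAt η X 0) :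
    c.HasTan (fun t => c.exp (η t)) X := by
  refine ⟨?_, by simp [h0, c.exp_zero], ?_⟩
  · have := h.continuousAt.tendsto
    rw [h0] at this
    exact c.tendsto_exp_zero.comp this
  · have h1 := c.hasFDerivAt_chart_exp
    rw [← h0] at h1
    exact h1.comp_hasDerivAt 0 h

theorem hasTan_exp_smul (X : E) : c.HasTan (fun t => c.exp (t • X)) X :=
  c.hasTan_exp (by simp) (by simpa using (hasDerivAt_id (0 : ℝ)).smul_const X)

theorem trotter (X Y : E) : Tendsto
    (fun n : ℕ => (c.exp ((n : ℝ)⁻¹ • X) * c.exp ((n : ℝ)⁻¹ • Y)) ^ n) atTop (𝓝 (c.exp (X + Y))) :=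
  ((c.hasTan_exp_smul X).mul c (c.hasTan_exp_smul Y)).tendsto_pow c

theorem exists_dmap {V : Type*} [AddCommGroup V] [Module ℝ V] (e : V → L)
    (hc : ∀ X, Continuous fun t : ℝ => e (t • X))
    (ha : ∀ X (s t : ℝ), e ((s + t) • X) = e (s • X) * e (t • X))
    (ht : ∀ X Y, Tendsto (fun n : ℕ => (e ((n : ℝ)⁻¹ • X) * e ((n : ℝ)⁻¹ • Y)) ^ n) atTop
      (𝓝 (e (X + Y)))) :
    ∃ D : V →ₗ[ℝ] E, ∀ X, e X = c.exp (D X) := by
  choose D hD using fun X => c.exists_one_param _ (hc X) (ha X)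
  have h1 : ∀ X, e X = c.exp (D X) := fun X => by simpa using hD X 1
  have h2 : ∀ (r : ℝ) X, D (r • X) = r • D X := fun r X =>
    c.eq_of_exp_smul fun t => by rw [← hD, smul_smul, smul_smul, hD]
  have h3 : ∀ X Y, e (X + Y) = c.exp (D X + D Y) := fun X Y => by
    refine tendsto_nhds_unique (ht X Y) ?_
    simp only [hD]
    exact c.trotter _ _
  have h4 : ∀ X Y, D (X + Y) = D X + D Y := fun X Y =>
    c.eq_of_exp_smul fun t => by rw [← hD, smul_add, h3, h2, h2, smul_add]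
  exact ⟨⟨⟨D, h4⟩, h2⟩, h1⟩

theorem exists_dmap_hom {L' : Type*} [Group L'] [TopologicalSpace L'] [IsTopologicalGroup L']
    [T2Space L'] {E' : Type*} [NormedAddCommGroup E'] [NormedSpace ℝ E'] [CompleteSpace E']
    (c' : Chart L' E') (f : L →* L') (hf : Continuous f) :
    ∃ D : E →ₗ[ℝ] E', ∀ X, f (c.exp X) = c'.exp (D X) :=
  c'.exists_dmap (fun X => f (c.exp X)) (fun X => hf.comp (c.continuous_exp_smul X))
    (fun X s t => by rw [c.exp_add_smul, map_mul])
    (fun X Y => ((hf.tendsto _).comp (c.trotter X Y)).congr fun n => by simp)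

end Chart

end Pool.Agent.Lib.MP_0cde51_al
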