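import Pool.Agent.Lib.MP_0cde51_al.ChartC

/-! Units of normed algebras as charted groups, the adjoint representation and the bracket. -/

namespace Pool.Agent.Lib.MP_0cde51_al

open Filter Topology Metric Asymptotics

universe u v

section Units

variable (𝔸 : Type*) [NormedRing 𝔸] [CompleteSpace 𝔸]

/-- the chart `x ↦ x - 1` -/
noncomputable def unitPH : OpenPartialHomeomorph 𝔸ˣ 𝔸 :=
  (Units.isOpenEmbedding_val.toOpenPartialHomeomorph (Units.val : 𝔸ˣ → 𝔸)).transHomeomorph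
    (Homeomorph.subRight 1)

theorem unitPH_apply (x : 𝔸ˣ) : unitPH 𝔸 x = (x : 𝔸) - 1 := rfl

theorem unitPH_source : (unitPH 𝔸).source = Set.univ := rfl

/-- the units of a normed ring as a charted group -/
noncomputable def unitChart : Chart 𝔸ˣ 𝔸 where
  φ := unitPH 𝔸
  one_mem := Set.mem_univ _
  map_one := by simp [unitPH_apply]
  ball_sub := fun X hX => by
    have h := (unitPH 𝔸).map_source
      (x := Units.oneSub (-X) (by rw [norm_neg]; linarith)) (Set.mem_univ _)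
    simpa [unitPH_apply] using h
  mul := fun x y _ _ _ _ => ⟨Set.mem_univ _, by
    simp only [unitPH_apply, Units.val_mul]
    have : (x : 𝔸) * y - 1 - (x - 1) - (y - 1) = (x - 1) * (y - 1) := by noncomm_ring
    rw [this]
    exact norm_mul_le _ _⟩
  inv := fun x _ hx => ⟨Set.mem_univ _, by
    simp only [unitPH_apply] at hx ⊢
    have : ((x⁻¹ : 𝔸ˣ) : 𝔸) - 1 = -(((x⁻¹ : 𝔸ˣ) - 1) * (x - 1)) - (x - 1) := by
      simp only [sub_mul, mul_sub, Units.inv_mul, mul_one, one_mul]; abel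
    have h2 : ‖((x⁻¹ : 𝔸ˣ) : 𝔸) - 1‖ ≤ ‖((x⁻¹ : 𝔸ˣ) : 𝔸) - 1‖ * ‖(x : 𝔸) - 1‖ + ‖(x : 𝔸) - 1‖ := by
      conv_lhs => rw [this]
      refine (norm_sub_le _ _).trans (add_le_add ?_ le_rfl)
      rw [norm_neg]
      exact norm_mul_le _ _
    nlinarith [norm_nonneg (((x⁻¹ : 𝔸ˣ) : 𝔸) - 1), norm_nonneg ((x : 𝔸) - 1)]⟩

variable {𝔸} [NormedAlgebra ℝ 𝔸] [FiniteDimensional ℝ 𝔸]

theorem unitChart_exp (X : 𝔸) : ((unitChart 𝔸).exp X : 𝔸) = NormedSpace.exp X := by
  let γ : ℝ → 𝔸ˣ := fun t => ⟨NormedSpace.exp (t • X), NormedSpace.exp (-(t • X)),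
    exp_mul_exp_neg _, exp_neg_mul_exp _⟩
  have hd := hasDerivAt_exp_smul X 0
  have h0 : γ 0 = 1 := Units.ext (by simp [γ])
  have h : (unitChart 𝔸).HasTan γ X := by
    refine ⟨?_, h0, ?_⟩
    · rw [Units.isOpenEmbedding_val.isInducing.tendsto_nhds_iff]
      simpa [Function.comp_def, γ] using hd.continuousAt.tendsto
    · simpa [unitChart, unitPH_apply, γ] using hd.sub_const 1
  have h1 := (Units.continuous_val.tendsto _).comp (h.tendsto_pow _)
  refine tendsto_nhds_unique h1 (tendsto_const_nhds.congr' ?_)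
  filter_upwards [eventually_gt_atTop 0] with n hn
  have n0 : (n : ℝ) ≠ 0 := by positivity
  simp only [Function.comp_apply, Units.val_pow_eq_pow_val, γ]
  rw [← exp_nsmul', ← Nat.cast_smul_eq_nsmul ℝ, smul_smul, mul_inv_cancel₀ n0, one_smul]

omit [CompleteSpace 𝔸] in
theorem exists_dmap_alg {G : Type*} [Group G] [TopologicalSpace G] [IsTopologicalGroup G]
    {V : Type*} [AddCommGroup V] [Module ℝ V] (e : V → G)
    (hc : ∀ X, Continuous fun t : ℝ => e (t • X))
    (ha : ∀ X (s t : ℝ), e ((s + t) • X) = e (s • X) * e (t • X))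
    (ht : ∀ X Y, Tendsto (fun n : ℕ => (e ((n : ℝ)⁻¹ • X) * e ((n : ℝ)⁻¹ • Y)) ^ n) atTop
      (𝓝 (e (X + Y)))) (ρ : G →* 𝔸) (hρ : Continuous ρ) :
    ∃ D : V →ₗ[ℝ] 𝔸, ∀ X, ρ (e X) = NormedSpace.exp (D X) := by
  have := FiniteDimensional.complete ℝ 𝔸
  have hu := continuous_toHomUnits ρ hρ
  obtain ⟨D, hD⟩ := (unitChart 𝔸).exists_dmap (fun X => ρ.toHomUnits (e X))
    (fun X => hu.comp (hc X)) (fun X s t => by rw [ha, map_mul])
    (fun X Y => ((hu.tendsto _).comp (ht X Y)).congr fun n => by simp)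
  exact ⟨D, fun X => by rw [← unitChart_exp, ← hD]; rfl⟩

omit [CompleteSpace 𝔸] in
theorem eq_conj_of_exp {u u' b b' : 𝔸}
    (h : ∀ s : ℝ, NormedSpace.exp (s • b') = u * NormedSpace.exp (s • b) * u') :
    b' = u * b * u' := by
  have h1 := hasDerivAt_exp_smul b' 0
  have h2 := ((hasDerivAt_exp_smul b 0).const_mul u).mul_const u'
  rw [funext h] at h1
  simpa using h1.unique h2

omit [CompleteSpace 𝔸] in
theorem hasDerivAt_exp_apply {E : Type*} [NormedAddCommGroup E] [NormedSpace ℝ E]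
    [FiniteDimensional ℝ E] (T : E →L[ℝ] E) (y : E) (t : ℝ) :
    HasDerivAt (fun s : ℝ => NormedSpace.exp (s • T) y) (T (NormedSpace.exp (t • T) y)) t := by
  have := (ContinuousLinearMap.apply ℝ E y).hasFDerivAt.comp_hasDerivAt t
    (hasDerivAt_exp_smul' T t)
  simpa [Function.comp_def] using this

omit [CompleteSpace 𝔸] in
theorem deriv_lie {E : Type*} [NormedAddCommGroup E] [NormedSpace ℝ E] [FiniteDimensional ℝ E]
    (τ : E →ₗ[ℝ] 𝔸) (T : E →L[ℝ] E) (y : E) (a b : 𝔸)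
    (h : ∀ t : ℝ, τ (NormedSpace.exp (t • T) y) =
      NormedSpace.exp (t • a) * b * NormedSpace.exp (t • (-a))) :
    τ (T y) = a * b - b * a := by
  have h1 := (LinearMap.toContinuousLinearMap τ).hasFDerivAt.comp_hasDerivAt 0
    (hasDerivAt_exp_apply T y 0)
  have h2 := ((hasDerivAt_exp_smul a 0).mul_const b).mul (hasDerivAt_exp_smul (-a) 0)
  have h3 : (LinearMap.toContinuousLinearMap τ) ∘ (fun s : ℝ => NormedSpace.exp (s • T) y) =
      (fun t : ℝ => NormedSpace.exp (t • a) * b) * fun t : ℝ => NormedSpace.exp (t • (-a)) :=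
    funext h
  rw [h3] at h1
  have h0 : (0 : ℝ) • T = 0 := by ext x; simp
  simpa [h0, sub_eq_add_neg] using h1.unique h2

end Units

namespace Chart

variable {L : Type u} [Group L] [TopologicalSpace L] [IsTopologicalGroup L] [T2Space L]
  {E : Type v} [NormedAddCommGroup E] [NormedSpace ℝ E] [CompleteSpace E] [FiniteDimensional ℝ E]
  (c : Chart L E)

omit [FiniteDimensional ℝ E] in
theorem exists_Ad (g : L) : ∃ D : E →ₗ[ℝ] E, ∀ X, g * c.exp X * g⁻¹ = c.exp (D X) :=
  c.exists_dmap_hom c (MulAut.conj g).toMonoidHom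
    (show Continuous fun x => g * x * g⁻¹ by fun_prop)

/-- the adjoint action -/
noncomputable def Ad (g : L) : E →L[ℝ] E := LinearMap.toContinuousLinearMap (c.exists_Ad g).choose

theorem conj_exp (g : L) (X : E) : g * c.exp X * g⁻¹ = c.exp (c.Ad g X) :=
  (c.exists_Ad g).choose_spec X

/-- the adjoint representation -/
noncomputable def AdHom : L →* (E →L[ℝ] E) where
  toFun := c.Ad
  map_one' := by
    ext X
    exact c.eq_of_exp_smul fun t => by rw [← map_smul, ← conj_exp]; simp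
  map_mul' g h := by
    ext X
    refine c.eq_of_exp_smul fun t => ?_
    rw [← map_smul, ← map_smul, ← conj_exp, ContinuousLinearMap.mul_apply, ← conj_exp, ← conj_exp]
    group

theorem Ad_mul (g h : L) (X : E) : c.Ad (g * h) X = c.Ad g (c.Ad h X) :=
  congrArg (fun T : E →L[ℝ] E => T X) (c.AdHom.map_mul g h)

theorem Ad_one (X : E) : c.Ad 1 X = X :=
  congrArg (fun T : E →L[ℝ] E => T X) c.AdHom.map_one

theorem norm_Ad_sub {g : L} (hg : g ∈ c.φ.source) (hg' : ‖c.φ g‖ ≤ 1 / 16) (Y : E) :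
    ‖c.Ad g Y - Y‖ ≤ 6 * ‖c.φ g‖ * ‖Y‖ := by
  have h1 := (c.hasTan_exp_smul (c.Ad g Y)).2.2.sub (c.hasTan_exp_smul Y).2.2
  refine h1.le_of_lip' (by positivity) ?_
  have hs : ∀ᶠ t : ℝ in 𝓝 0, ‖t • Y‖ < 1 / 128 := by
    have : Continuous fun t : ℝ => t • Y := by fun_prop
    have h1 := this.tendsto 0
    rw [zero_smul] at h1
    exact h1.eventually (eventually_norm_lt (by norm_num))
  filter_upwards [hs] with t ht
  obtain ⟨m1, m2⟩ := c.exp_mem ht
  have m3 := c.norm_pexp_le ht.le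
  rw [← m2] at m3
  have h2 := (c.conj_est hg m1 hg' (by linarith)).2.2
  rw [conj_exp, map_smul] at h2
  simp only [Pi.sub_apply, zero_smul, exp_zero, sub_self, sub_zero]
  rw [norm_smul] at m3
  nlinarith [mul_le_mul_of_nonneg_left m3 (norm_nonneg (c.φ g))]

theorem continuous_AdHom : Continuous c.AdHom := by
  refine continuous_of_continuousAt_one c.AdHom ?_
  rw [ContinuousAt, _root_.map_one, tendsto_iff_norm_sub_tendsto_zero]
  have h1 := (c.tendsto_chart (tendsto_id (x := 𝓝 (1 : L)))).norm.const_mul 6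
  simp only [norm_zero, mul_zero] at h1
  refine squeeze_zero' (Eventually.of_forall fun _ => norm_nonneg _) ?_ h1
  filter_upwards [c.eventually_small (tendsto_id (x := 𝓝 (1 : L))) (r := 1 / 16) (by norm_num)]
    with g hg
  exact ContinuousLinearMap.opNorm_le_bound _ (by positivity) fun Y => c.norm_Ad_sub hg.1 hg.2 Y

omit [FiniteDimensional ℝ E] in
theorem exists_drep {𝔸 : Type*} [NormedRing 𝔸] [NormedAlgebra ℝ 𝔸] [FiniteDimensional ℝ 𝔸]
    (ρ : L →* 𝔸) (hρ : Continuous ρ) :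
    ∃ D : E →ₗ[ℝ] 𝔸, ∀ X, ρ (c.exp X) = NormedSpace.exp (D X) :=
  exists_dmap_alg c.exp c.continuous_exp_smul c.exp_add_smul c.trotter ρ hρ

/-- the bracket, as the differential of the adjoint representation -/
noncomputable def ad : E →ₗ[ℝ] (E →L[ℝ] E) := (c.exists_drep c.AdHom c.continuous_AdHom).choose

theorem Ad_exp (X : E) : c.Ad (c.exp X) = NormedSpace.exp (c.ad X) :=
  (c.exists_drep c.AdHom c.continuous_AdHom).choose_spec X

theorem ad_self (X : E) : c.ad X X = 0 := by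
  have h1 : ∀ t : ℝ, NormedSpace.exp (t • c.ad X) X = X := fun t => by
    rw [← map_smul, ← Ad_exp]
    refine c.eq_of_exp_smul fun s => ?_
    rw [← map_smul, ← conj_exp, ← exp_add_smul, add_comm, exp_add_smul, mul_inv_cancel_right]
  have h2 := hasDerivAt_exp_apply (c.ad X) X 0
  rw [funext h1, h1] at h2
  exact h2.unique (hasDerivAt_const _ _)

theorem lie_of_rep {𝔸 : Type*} [NormedRing 𝔸] [NormedAlgebra ℝ 𝔸] [FiniteDimensional ℝ 𝔸]
    (ρ : L →* 𝔸) (τ : E →ₗ[ℝ] 𝔸) (h : ∀ X, ρ (c.exp X) = NormedSpace.exp (τ X)) (Z X : E) :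
    τ (c.ad Z X) = τ Z * τ X - τ X * τ Z := by
  refine deriv_lie τ _ _ _ _ fun t => eq_conj_of_exp fun s => ?_
  rw [← map_smul, ← h, ← map_smul, ← map_smul, ← Ad_exp, ← conj_exp, map_mul, map_mul, ← exp_neg,
    h, h, h, map_smul, map_smul, map_neg, map_smul, smul_neg]

theorem ad_ad (Z X : E) : c.ad (c.ad Z X) = c.ad Z * c.ad X - c.ad X * c.ad Z :=
  c.lie_of_rep c.AdHom c.ad c.Ad_exp Z X

theorem dmap_ad {L' : Type*} [Group L'] [TopologicalSpace L'] [IsTopologicalGroup L']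
    [T2Space L'] {E' : Type*} [NormedAddCommGroup E'] [NormedSpace ℝ E'] [CompleteSpace E']
    [FiniteDimensional ℝ E'] (c' : Chart L' E') (f : L →* L') (D : E →ₗ[ℝ] E')
    (h : ∀ X, f (c.exp X) = c'.exp (D X)) (X Y : E) : D (c.ad X Y) = c'.ad (D X) (D Y) := by
  have h1 : ∀ t : ℝ, D (NormedSpace.exp (t • c.ad X) Y) =
      NormedSpace.exp (t • c'.ad (D X)) (D Y) := fun t => by
    rw [← map_smul, ← map_smul, ← map_smul, ← Ad_exp, ← Ad_exp, ← h]
    refine c'.eq_of_exp_smul fun s => ?_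
    rw [← map_smul, ← map_smul, ← map_smul, ← h, ← conj_exp, ← conj_exp, ← map_smul, ← h,
      map_mul, map_mul, map_inv]
  have h2 := (LinearMap.toContinuousLinearMap D).hasFDerivAt.comp_hasDerivAt 0
    (hasDerivAt_exp_apply (c.ad X) Y 0)
  have h3 := hasDerivAt_exp_apply (c'.ad (D X)) (D Y) 0
  rw [← funext h1] at h3
  have h0 : (0 : ℝ) • c.ad X = 0 := by ext x; simp
  have h0' : (0 : ℝ) • c'.ad (D X) = 0 := by ext x; simp
  simpa [h0, h0'] using h2.unique h3

theorem hasFDerivAt_conj (g : L) :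
    HasFDerivAt (fun Y => c.φ (g * c.φ.symm Y * g⁻¹)) (c.Ad g) 0 := by
  rw [hasFDerivAt_iff_isLittleO]
  simp only [symm_zero, mul_one, mul_inv_cancel, c.map_one, sub_zero]
  rw [← c.map_pexp_nhds, isLittleO_map]
  have hp := c.hasStrictFDerivAt_pexp.hasFDerivAt
  have h1 : HasFDerivAt (fun X => c.φ (c.exp (c.Ad g X))) (c.Ad g) 0 := by
    have h := c.hasFDerivAt_chart_exp
    rw [← (c.Ad g).map_zero] at h
    exact h.comp 0 (c.Ad g).hasFDerivAt
  have h2 := h1.sub ((c.Ad g).hasFDerivAt.comp 0 hp)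
  rw [ContinuousLinearMap.comp_id, sub_self, hasFDerivAt_iff_isLittleO] at h2
  simp only [Pi.sub_apply, map_zero, exp_zero, c.map_one, Function.comp_apply, pexp_zero, sub_zero,
    ContinuousLinearMap.zero_apply] at h2
  have h3 : (fun X : E => X) =O[𝓝 0] c.pexp := by
    refine IsBigO.of_bound 3 ?_
    filter_upwards [eventually_norm_lt (E := E) (r := 1 / 128) (by norm_num)] with X hX
    have h4 := c.pexp_sub (X := X) (Y := 0) le_rfl hX.le (by norm_num)
    rw [pexp_zero, sub_zero, sub_zero] at h4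
    have h5 := norm_sub_le (c.pexp X) (c.pexp X - X)
    rw [sub_sub_cancel] at h5
    nlinarith [norm_nonneg X]
  refine (h2.trans_isBigO h3).congr' ?_ EventuallyEq.rfl
  filter_upwards [c.exp_eventually] with X hX
  simp only [Function.comp_apply]
  rw [← conj_exp, hX]

theorem HasTan.conj {γ : ℝ → L} {X : E} (h : c.HasTan γ X) (g : L) :
    c.HasTan (fun t => g * γ t * g⁻¹) (c.Ad g X) := by
  refine ⟨by simpa using (h.1.const_mul g).mul_const g⁻¹, by simp [h.2.1], ?_⟩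
  have h1 := c.hasFDerivAt_conj g
  have h0 : c.φ (γ 0) = 0 := by rw [h.2.1, c.map_one]
  rw [← h0] at h1
  refine (h1.comp_hasDerivAt 0 h.2.2).congr_of_eventuallyEq ?_
  filter_upwards [c.eventually_mem h.1] with t ht
  simp only [Function.comp_apply]
  rw [c.φ.left_inv ht]

end Chart

end Pool.Agent.Lib.MP_0cde51_al
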