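import Pool.Agent.Lib.MP_0cde51_al.ChartD

/-! Right logarithmic derivatives; a path tangent to a subalgebra stays in the subgroup generated
by its exponentials. -/

namespace Pool.Agent.Lib.MP_0cde51_al

open Filter Topology Metric Asymptotics

universe u v

namespace Chart

variable {L : Type u} [Group L] [TopologicalSpace L] [IsTopologicalGroup L] [T2Space L]
  {E : Type v} [NormedAddCommGroup E] [NormedSpace ℝ E] [CompleteSpace E] [FiniteDimensional ℝ E]
  (c : Chart L E)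

/-- right logarithmic derivative -/
def HasRLD (γ : ℝ → L) (t : ℝ) (X : E) : Prop := c.HasTan (fun s => γ (t + s) * (γ t)⁻¹) X

theorem HasRLD.mul {γ δ : ℝ → L} {t : ℝ} {X Y : E} (h : c.HasRLD γ t X) (h' : c.HasRLD δ t Y) :
    c.HasRLD (fun s => γ s * δ s) t (X + c.Ad (γ t) Y) := by
  have := HasTan.mul c h (HasTan.conj c h' (γ t))
  refine this.congr c (Eventually.of_forall fun s => ?_)
  simp only
  group

theorem HasRLD.inv {γ : ℝ → L} {t : ℝ} {X : E} (h : c.HasRLD γ t X) :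
    c.HasRLD (fun s => (γ s)⁻¹) t (c.Ad (γ t)⁻¹ (-X)) := by
  have := HasTan.conj c (HasTan.inv c h) (γ t)⁻¹
  refine this.congr c (Eventually.of_forall fun s => ?_)
  simp only
  group

omit [FiniteDimensional ℝ E] in
theorem hasRLD_exp {a : ℝ → ℝ} {a' t : ℝ} (h : HasDerivAt a a' t) (X : E) :
    c.HasRLD (fun s => c.exp (a s • X)) t (a' • X) := by
  have h1 : HasDerivAt (fun s => (a (t + s) - a t) • X) (a' • X) 0 := by
    have h2 : HasDerivAt (fun s => a (t + s)) a' 0 := by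
      have h3 : HasDerivAt a a' (t + 0) := by rwa [add_zero]
      exact h3.comp_const_add t 0
    exact (h2.sub_const (a t)).smul_const X
  refine (c.hasTan_exp (by simp) h1).congr c (Eventually.of_forall fun s => ?_)
  simp only
  rw [eq_mul_inv_iff_mul_eq, ← exp_add_smul, sub_add_cancel]

omit [T2Space L] [CompleteSpace E] [FiniteDimensional ℝ E] [IsTopologicalGroup L] in
theorem hasRLD_const (g : L) (t : ℝ) : c.HasRLD (fun _ => g) t 0 := by
  refine ⟨by simpa using tendsto_const_nhds, by simp, ?_⟩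
  exact hasDerivAt_const _ _

omit [T2Space L] [CompleteSpace E] [FiniteDimensional ℝ E] in
theorem eventually_eq_of_rld_zero {δ : ℝ → L} {t₀ : ℝ} (h : ∀ᶠ t in 𝓝 t₀, c.HasRLD δ t 0) :
    ∀ᶠ t in 𝓝 t₀, δ t = δ t₀ := by
  have h1 : Tendsto (fun t => δ t * (δ t₀)⁻¹) (𝓝 t₀) (𝓝 1) := by
    have h2 : Tendsto (fun t => t - t₀) (𝓝 t₀) (𝓝 0) := by
      have : Continuous fun t : ℝ => t - t₀ := by fun_prop
      simpa using this.tendsto t₀
    simpa [Function.comp_def] using h.self_of_nhds.1.comp h2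
  have h3 := c.eventually_small h1 (r := 1 / 2) (by norm_num)
  have h4 : ∀ᶠ t in 𝓝 t₀, HasDerivAt (fun t => c.φ (δ t * (δ t₀)⁻¹)) 0 t := by
    filter_upwards [h, h3] with t ht hs
    rw [hasDerivAt_iff_isLittleO_nhds_zero]
    have h5 := ht.2.2
    rw [hasDerivAt_iff_isLittleO_nhds_zero] at h5
    simp only [zero_add, add_zero, mul_inv_cancel, c.map_one, sub_zero, smul_zero] at h5 ⊢
    refine IsBigO.trans_isLittleO (IsBigO.of_bound 2 ?_) h5
    filter_upwards [c.eventually_small ht.1 (r := 1 / 2) (by norm_num)] with s ha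
    have h6 := (c.mul _ _ ha.1 hs.1 ha.2 hs.2).2
    rw [show δ (t + s) * (δ t)⁻¹ * (δ t * (δ t₀)⁻¹) = δ (t + s) * (δ t₀)⁻¹ by group] at h6
    have h7 := norm_add_le (c.φ (δ (t + s) * (δ t₀)⁻¹) - c.φ (δ (t + s) * (δ t)⁻¹) -
      c.φ (δ t * (δ t₀)⁻¹)) (c.φ (δ (t + s) * (δ t)⁻¹))
    rw [show ∀ a b d : E, a - b - d + b = a - d from fun a b d => by abel] at h7
    nlinarith [norm_nonneg (c.φ (δ (t + s) * (δ t)⁻¹)), hs.2]
  obtain ⟨ε, hε, h8⟩ := Metric.eventually_nhds_iff_ball.1 (h3.and h4)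
  filter_upwards [ball_mem_nhds t₀ hε] with t ht
  have h9 := isOpen_ball.is_const_of_deriv_eq_zero (convex_ball t₀ ε).isPreconnected
    (fun x hx => (h8 x hx).2.differentiableAt.differentiableWithinAt)
    (fun x hx => (h8 x hx).2.deriv) ht (mem_ball_self hε)
  have := c.φ.injOn (h8 t ht).1.1 (h8 t₀ (mem_ball_self hε)).1.1 h9
  exact mul_right_cancel this

section Second

variable {ι : Type} [Fintype ι] (b : ι → E)

/-- coordinates of the second kind -/
noncomputable def sec (ls : List ι) (x : ι → ℝ) : L := (ls.map fun l => c.exp (x l • b l)).prod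

/-- their logarithmic derivative -/
noncomputable def secD : List ι → (ι → ℝ) → ((ι → ℝ) →L[ℝ] E)
  | [], _ => 0
  | l :: ls, x => (ContinuousLinearMap.proj l : (ι → ℝ) →L[ℝ] ℝ).smulRight (b l) +
      (NormedSpace.exp (x l • c.ad (b l))).comp (secD ls x)

theorem contDiff_secD (ls : List ι) : ContDiff ℝ 1 (c.secD b ls) := by
  induction ls with
  | nil => exact contDiff_const
  | cons l ls ih =>
    have h1 : ContDiff ℝ 1 (NormedSpace.exp : (E →L[ℝ] E) → (E →L[ℝ] E)) :=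
      contDiff_iff_contDiffAt.2 fun x => (NormedSpace.exp_analytic (𝕂 := ℝ) x).contDiffAt
    have h2 : ContDiff ℝ 1 fun x : ι → ℝ => NormedSpace.exp (x l • c.ad (b l)) :=
      h1.comp ((contDiff_apply ℝ ℝ l).smul contDiff_const)
    exact contDiff_const.add (h2.clm_comp ih)

theorem secD_zero (ls : List ι) (v : ι → ℝ) :
    c.secD b ls 0 v = (ls.map fun l => v l • b l).sum := by
  induction ls with
  | nil => rfl
  | cons l ls ih =>
    have h0 : (0 : ℝ) • c.ad (b l) = 0 := by ext x; simp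
    simp [secD, ih, h0]

theorem secD_mem (U : Submodule ℝ E) (hb : ∀ l, b l ∈ U) (hU : ∀ x ∈ U, ∀ y ∈ U, c.ad x y ∈ U)
    (ls : List ι) (x v : ι → ℝ) : c.secD b ls x v ∈ U := by
  induction ls with
  | nil => exact U.zero_mem
  | cons l ls ih =>
    exact U.add_mem (U.smul_mem _ (hb l))
      (exp_apply_mem _ U (fun y hy => U.smul_mem _ (hU _ (hb l) y hy)) _ ih)

theorem hasRLD_sec (ls : List ι) {x : ℝ → ι → ℝ} {x' : ι → ℝ} {t : ℝ} (h : HasDerivAt x x' t) :
    c.HasRLD (fun s => c.sec b ls (x s)) t (c.secD b ls (x t) x') := by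
  induction ls with
  | nil => exact c.hasRLD_const 1 t
  | cons l ls ih =>
    have h1 := (c.hasRLD_exp (hasDerivAt_pi.1 h l) (b l)).mul c ih
    rw [Ad_exp, map_smul] at h1
    exact h1

omit [FiniteDimensional ℝ E] [Fintype ι] [T2Space L] in
theorem sec_mem (U : Submodule ℝ E) (hb : ∀ l, b l ∈ U) (ls : List ι) (x : ι → ℝ) :
    c.sec b ls x ∈ Subgroup.closure (c.exp '' U) := by
  refine Subgroup.list_prod_mem _ fun g hg => ?_
  obtain ⟨l, -, rfl⟩ := List.mem_map.1 hg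
  exact Subgroup.subset_closure ⟨_, U.smul_mem _ (hb l), rfl⟩

omit [FiniteDimensional ℝ E] [Fintype ι] in
theorem sec_zero (ls : List ι) : c.sec b ls 0 = 1 := by simp [sec, c.exp_zero]

end Second

theorem eventually_mem_closure (U : Submodule ℝ E) (hU : ∀ x ∈ U, ∀ y ∈ U, c.ad x y ∈ U)
    {γ : ℝ → L} {β : ℝ → E} (hβ : ContDiff ℝ 1 β) (hβU : ∀ t, β t ∈ U) (h : ∀ t, c.HasRLD γ t (β t)) (t₀ : ℝ) :
    ∀ᶠ t in 𝓝 t₀, γ t * (γ t₀)⁻¹ ∈ Subgroup.closure (c.exp '' U) := by
  let m := Module.finrank ℝ U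
  let bs := Module.finBasis ℝ U
  let b : Fin m → E := fun l => bs l
  have hb : ∀ l, b l ∈ U := fun l => (bs l).2
  obtain ⟨p, hp⟩ := LinearMap.exists_extend bs.equivFun.toLinearMap
  let π : E →L[ℝ] (Fin m → ℝ) := LinearMap.toContinuousLinearMap p
  have hπ : ∀ u : U, π u = bs.equivFun u := fun u => LinearMap.congr_fun hp u
  have hinj : ∀ x ∈ U, ∀ y ∈ U, π x = π y → x = y := fun x hx y hy e => by
    have := bs.equivFun.injective ((hπ ⟨x, hx⟩).symm.trans (e.trans (hπ ⟨y, hy⟩)))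
    exact congrArg Subtype.val this
  let ls := List.finRange m
  let A : (Fin m → ℝ) → ((Fin m → ℝ) →L[ℝ] (Fin m → ℝ)) := fun x => π.comp (c.secD b ls x)
  have hA : ContDiff ℝ 1 A := contDiff_const.clm_comp (c.contDiff_secD b ls)
  have hA0 : A 0 = 1 := by
    refine ContinuousLinearMap.ext fun v => ?_
    have h1 : c.secD b ls 0 v = (bs.equivFun.symm v : U) := by
      rw [secD_zero, ← Fin.sum_univ_def, Module.Basis.equivFun_symm_apply]
      simp [b]
      rfl
    change π (c.secD b ls 0 v) = v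
    rw [h1, hπ, LinearEquiv.apply_symm_apply]
  let V : ℝ × (Fin m → ℝ) → ℝ × (Fin m → ℝ) := fun q => (1, Ring.inverse (A q.2) (π (β q.1)))
  have hV : ContDiffAt ℝ 1 V (t₀, 0) := by
    have h1 : ContDiffAt ℝ 1 Ring.inverse (A 0) := by
      rw [hA0]; exact contDiffAt_ringInverse ℝ (1 : ((Fin m → ℝ) →L[ℝ] (Fin m → ℝ))ˣ)
    have h2 : ContDiffAt ℝ 1 (fun q : ℝ × (Fin m → ℝ) => Ring.inverse (A q.2)) (t₀, 0) :=
      ContDiffAt.comp (g := Ring.inverse) (t₀, 0) h1 (hA.comp contDiff_snd).contDiffAt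
    exact contDiffAt_const.prodMk
      (h2.clm_apply (π.contDiff.comp (hβ.comp contDiff_fst)).contDiffAt)
  obtain ⟨α, hα0, ε, hε, hα⟩ :=
    hV.exists_forall_mem_closedBall_exists_eq_forall_mem_Ioo_hasDerivAt₀ t₀
  have ht₀ : t₀ ∈ Set.Ioo (t₀ - ε) (t₀ + ε) := ⟨by linarith, by linarith⟩
  have h1 : ∀ t ∈ Set.Ioo (t₀ - ε) (t₀ + ε), (α t).1 = t := by
    intro t ht
    have hd : ∀ x ∈ Set.Ioo (t₀ - ε) (t₀ + ε), HasDerivAt (fun s => (α s).1 - s) 0 x := by
      intro x hx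
      have := ((ContinuousLinearMap.fst ℝ ℝ (Fin m → ℝ)).hasFDerivAt.comp_hasDerivAt x
        (hα x hx)).sub (hasDerivAt_id x)
      exact this.congr_deriv (by simp [V])
    have := isOpen_Ioo.is_const_of_deriv_eq_zero isPreconnected_Ioo
      (fun x hx => (hd x hx).differentiableAt.differentiableWithinAt)
      (fun x hx => (hd x hx).deriv) ht ht₀
    simp only [hα0, sub_self] at this
    linarith
  have h2 : ∀ᶠ t in 𝓝 t₀, IsUnit (A (α t).2) := by
    have h3 : ContinuousAt (fun t => A (α t).2) t₀ :=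
      ContinuousAt.comp (g := fun q : ℝ × (Fin m → ℝ) => A q.2)
        (hA.continuous.comp continuous_snd).continuousAt (hα t₀ ht₀).continuousAt
    refine h3.eventually (Units.isOpen.mem_nhds ?_)
    simp only [hα0, hA0]
    exact isUnit_one
  have h4 : ∀ᶠ t in 𝓝 t₀, c.HasRLD (fun s => (c.sec b ls (α s).2)⁻¹ * γ s) t 0 := by
    filter_upwards [h2, isOpen_Ioo.mem_nhds ht₀] with t hu ht
    have h5 : HasDerivAt (fun s => (α s).2) (Ring.inverse (A (α t).2) (π (β t))) t := by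
      have := (ContinuousLinearMap.snd ℝ ℝ (Fin m → ℝ)).hasFDerivAt.comp_hasDerivAt t (hα t ht)
      exact this.congr_deriv (by simp [V, h1 t ht])
    have h6 := c.hasRLD_sec b ls h5
    have h7 : c.secD b ls (α t).2 (Ring.inverse (A (α t).2) (π (β t))) = β t := by
      refine hinj _ (c.secD_mem b U hb hU _ _ _) _ (hβU t) ?_
      change (A (α t).2 * Ring.inverse (A (α t).2)) (π (β t)) = _
      rw [Ring.mul_inverse_cancel _ hu]
      rfl
    rw [h7] at h6
    have h8 := (h6.inv c).mul c (h t)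
    rwa [← map_add, neg_add_cancel, map_zero] at h8
  filter_upwards [c.eventually_eq_of_rld_zero h4] with t ht
  rw [hα0, sec_zero, inv_one, one_mul, inv_mul_eq_iff_eq_mul] at ht
  rw [ht, mul_inv_cancel_right]
  exact c.sec_mem b U hb _ _

theorem path_mem_closure (U : Submodule ℝ E) (hU : ∀ x ∈ U, ∀ y ∈ U, c.ad x y ∈ U)
    {γ : ℝ → L} {β : ℝ → E} (hβ : ContDiff ℝ 1 β) (hβU : ∀ t, β t ∈ U) (h : ∀ t, c.HasRLD γ t (β t))
    (h0 : γ 0 = 1) (t : ℝ) : γ t ∈ Subgroup.closure (c.exp '' U) := by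
  have h1 : IsLocallyConstant fun t => γ t ∈ Subgroup.closure (c.exp '' U) := by
    rw [IsLocallyConstant.iff_eventually_eq]
    intro t₀
    filter_upwards [c.eventually_mem_closure U hU hβ hβU h t₀] with s hs
    refine propext ⟨fun h' => ?_, fun h' => ?_⟩
    · simpa using mul_mem (inv_mem hs) h'
    · simpa using mul_mem hs h'
  rw [h1.apply_eq_of_preconnectedSpace t 0, h0]
  exact Subgroup.one_mem _

theorem exp_mul_exp_mem (U : Submodule ℝ E) (hU : ∀ x ∈ U, ∀ y ∈ U, c.ad x y ∈ U) (X Y : E)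
    (hX : ∀ y ∈ U, c.ad X y ∈ U) (hY : ∀ y ∈ U, c.ad Y y ∈ U) (hXY : c.ad X Y ∈ U) :
    (c.exp (X + Y))⁻¹ * (c.exp X * c.exp Y) ∈ Subgroup.closure (c.exp '' U) := by
  have he : ContDiff ℝ 1 (NormedSpace.exp : (E →L[ℝ] E) → (E →L[ℝ] E)) :=
    contDiff_iff_contDiffAt.2 fun x => (NormedSpace.exp_analytic (𝕂 := ℝ) x).contDiffAt
  have he' : ∀ T : E →L[ℝ] E, ContDiff ℝ 1 fun t : ℝ => NormedSpace.exp (t • T) := fun T =>
    he.comp (contDiff_id.smul contDiff_const)
  let β : ℝ → E := fun t => NormedSpace.exp (t • c.ad (-(X + Y)))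
    (NormedSpace.exp (t • c.ad X) Y - Y)
  have hβ : ContDiff ℝ 1 β :=
    (he' _).clm_apply (((he' _).clm_apply contDiff_const).sub contDiff_const)
  have hβU : ∀ t, β t ∈ U := fun t => by
    refine exp_apply_mem _ U (fun y hy => U.smul_mem _ ?_) _
      (exp_apply_sub_mem _ U (fun y hy => U.smul_mem _ (hX y hy)) _ (U.smul_mem _ hXY))
    rw [map_neg, map_add]
    exact U.neg_mem (U.add_mem (hX y hy) (hY y hy))
  have h : ∀ t, c.HasRLD (fun s => (c.exp (s • (X + Y)))⁻¹ * (c.exp (s • X) * c.exp (s • Y)))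
      t (β t) := fun t => by
    have h1 := ((c.hasRLD_exp (hasDerivAt_id t) (X + Y)).inv c).mul c
      ((c.hasRLD_exp (hasDerivAt_id t) X).mul c (c.hasRLD_exp (hasDerivAt_id t) Y))
    simp only [id, one_smul] at h1
    rw [← map_add, ← exp_neg, ← smul_neg, Ad_exp, Ad_exp, map_smul, map_smul] at h1
    have : -(X + Y) + (X + NormedSpace.exp (t • c.ad X) Y) =
        NormedSpace.exp (t • c.ad X) Y - Y := by abel
    rwa [this] at h1
  simpa using c.path_mem_closure U hU hβ hβU h (by simp [c.exp_zero]) 1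

end Chart

end Pool.Agent.Lib.MP_0cde51_al
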