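import Pool.Agent.Lib.MP_0cde51_al.ChartA

/-! A Lie group has a normalised chart at the identity. -/

namespace Pool.Agent.Lib.MP_0cde51_al

open Filter Topology Metric
open scoped Manifold ContDiff

universe u v

theorem exists_chart_of_est {L : Type u} [Group L] [TopologicalSpace L] [IsTopologicalGroup L]
    {E : Type v} [NormedAddCommGroup E] [NormedSpace ℝ E] (φ : OpenPartialHomeomorph L E)
    (h1 : (1 : L) ∈ φ.source) (h0 : φ 1 = 0) (C : ℝ)
    (h : ∀ᶠ p : L × L in 𝓝 (1, 1),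
      ‖φ (p.1 * p.2) - φ p.1 - φ p.2‖ ≤ C * (‖φ p.1‖ * ‖φ p.2‖)) :
    Nonempty (Chart L E) := by
  have hs : φ.source ∈ 𝓝 (1 : L) := φ.open_source.mem_nhds h1
  have hm : ∀ᶠ p : L × L in 𝓝 (1, 1), p.1 * p.2 ∈ φ.source := by
    have := continuous_mul.tendsto ((1, 1) : L × L)
    rw [mul_one] at this
    exact this.eventually hs
  have hi : Tendsto (fun x : L => (x, x⁻¹)) (𝓝 1) (𝓝 (1, 1)) := by
    have : Continuous fun x : L => (x, x⁻¹) := by fun_prop
    simpa using this.tendsto 1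
  have hφ : Tendsto (fun x => C * ‖φ x‖) (𝓝 1) (𝓝 0) := by
    have := ((φ.continuousAt h1).tendsto.norm).const_mul C
    simpa [h0] using this
  have hq : ∀ᶠ x : L in 𝓝 1, x⁻¹ ∈ φ.source ∧ ‖φ x⁻¹‖ ≤ 2 * ‖φ x‖ := by
    have h2 : ∀ᶠ x : L in 𝓝 1, x⁻¹ ∈ φ.source := by
      have := continuous_inv.tendsto (1 : L)
      rw [inv_one] at this
      exact this.eventually hs
    filter_upwards [h2, hi.eventually h, hφ.eventually (ge_mem_nhds (by norm_num : (0 : ℝ) < 1 / 2))]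
      with x a b d
    refine ⟨a, ?_⟩
    simp only [mul_inv_cancel, h0] at b
    have e := norm_sub_le (-φ x) (0 - φ x - φ x⁻¹)
    rw [show -φ x - (0 - φ x - φ x⁻¹) = φ x⁻¹ by abel, norm_neg] at e
    nlinarith [norm_nonneg (φ x⁻¹)]
  obtain ⟨W₁, hW₁, W₂, hW₂, hW⟩ := mem_nhds_prod_iff.1 (hm.and h)
  have ht : ∀ᶠ X : E in 𝓝 0, X ∈ φ.target ∧ (φ.symm X ∈ W₁ ∧ φ.symm X ∈ W₂) ∧
      ((φ.symm X)⁻¹ ∈ φ.source ∧ ‖φ (φ.symm X)⁻¹‖ ≤ 2 * ‖φ (φ.symm X)‖) := by
    have h3 : (0 : E) ∈ φ.target := h0 ▸ φ.map_source h1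
    have h4 := (φ.continuousAt_symm h3).tendsto
    rw [show φ.symm 0 = 1 from h0 ▸ φ.left_inv h1] at h4
    filter_upwards [φ.open_target.mem_nhds h3, h4.eventually hW₁, h4.eventually hW₂,
      h4.eventually hq] with X a b d e using ⟨a, ⟨b, d⟩, e⟩
  obtain ⟨δ, hδ, hb⟩ := Metric.eventually_nhds_iff.1 ht
  set lam := max C δ⁻¹ with hlam
  have l0 : 0 < lam := lt_max_of_lt_right (inv_pos.2 hδ)
  have l1 : 1 ≤ lam * δ := by
    have := mul_le_mul_of_nonneg_right (le_max_right C δ⁻¹) hδ.le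
    rwa [inv_mul_cancel₀ hδ.ne'] at this
  have hn : ∀ X : E, ‖lam • X‖ = lam * ‖X‖ := fun X => by
    rw [norm_smul, Real.norm_of_nonneg l0.le]
  have hsm : ∀ X : E, ‖lam • X‖ ≤ 1 / 2 → dist X 0 < δ := fun X hX => by
    rw [hn] at hX
    rw [dist_zero_right]
    by_contra hc
    nlinarith [mul_le_mul_of_nonneg_left (not_lt.1 hc) l0.le]
  refine ⟨⟨φ.transHomeomorph (Homeomorph.smulOfNeZero lam l0.ne'), h1, ?_, ?_, ?_, ?_⟩⟩
  · change lam • φ 1 = 0
    rw [h0, smul_zero]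
  · intro X hX
    have e : lam • (lam⁻¹ • X) = X := by rw [smul_smul, mul_inv_cancel₀ l0.ne', one_smul]
    have h5 := (hb (hsm (lam⁻¹ • X) (by rwa [e]))).1
    have h6 := (φ.transHomeomorph (Homeomorph.smulOfNeZero lam l0.ne')).map_source
      (φ.map_target h5)
    change lam • φ (φ.symm (lam⁻¹ • X)) ∈ _ at h6
    rwa [φ.right_inv h5, e] at h6
  · intro x y hx hy hx' hy'
    have a := (hb (hsm (φ x) hx')).2.1.1
    have b := (hb (hsm (φ y) hy')).2.1.2
    rw [φ.left_inv hx] at a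
    rw [φ.left_inv hy] at b
    obtain ⟨d, e⟩ := hW (Set.mk_mem_prod a b)
    refine ⟨d, ?_⟩
    change ‖lam • φ (x * y) - lam • φ x - lam • φ y‖ ≤ ‖lam • φ x‖ * ‖lam • φ y‖
    rw [← smul_sub, ← smul_sub, hn, hn, hn]
    have f : C * (‖φ x‖ * ‖φ y‖) ≤ lam * (‖φ x‖ * ‖φ y‖) :=
      mul_le_mul_of_nonneg_right (le_max_left _ _) (by positivity)
    nlinarith [mul_le_mul_of_nonneg_left (e.trans f) l0.le]
  · intro x hx hx'
    have a := (hb (hsm (φ x) hx')).2.2
    rw [φ.left_inv hx] at a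
    refine ⟨a.1, ?_⟩
    change ‖lam • φ x⁻¹‖ ≤ 2 * ‖lam • φ x‖
    rw [hn, hn]
    nlinarith [mul_le_mul_of_nonneg_left a.2 l0.le]

theorem exists_bilin_bound {E : Type v} [NormedAddCommGroup E] [NormedSpace ℝ E] (g : E × E → E)
    (hg : ContDiffAt ℝ 2 g 0) (h1 : ∀ᶠ u in 𝓝 (0 : E), g (u, 0) = 0)
    (h2 : ∀ᶠ v in 𝓝 (0 : E), g (0, v) = 0) :
    ∃ C : ℝ, ∀ᶠ p : E × E in 𝓝 0, ‖g p‖ ≤ C * (‖p.1‖ * ‖p.2‖) := by
  have hD : ContDiffAt ℝ 1 (fderiv ℝ g) 0 := hg.fderiv_right (by norm_num)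
  obtain ⟨K, t, ht, hK⟩ := hD.exists_lipschitzOnWith
  have hd : ∀ᶠ p in 𝓝 (0 : E × E), DifferentiableAt ℝ g p :=
    (hg.eventually (by simp)).mono fun p hp => hp.differentiableAt (by norm_num)
  obtain ⟨r, hr, hb⟩ := Metric.eventually_nhds_iff_ball.1 (hd.and ht)
  obtain ⟨r', hr', hb'⟩ := Metric.eventually_nhds_iff_ball.1 (h1.and h2)
  refine ⟨K, ?_⟩
  filter_upwards [ball_mem_nhds (0 : E × E) (lt_min hr hr')] with p hp
  obtain ⟨u, v⟩ := p
  rw [mem_ball_zero_iff, Prod.norm_def, max_lt_iff, lt_min_iff, lt_min_iff] at hp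
  have hm : ∀ w ∈ ball (0 : E) r, ∀ z : E, ‖z‖ < r → (w, z) ∈ ball (0 : E × E) r := by
    intro w hw z hz
    rw [mem_ball_zero_iff] at hw ⊢
    rw [Prod.norm_def]
    exact max_lt hw hz
  have hz : ‖(0 : E)‖ < r := by simpa using hr
  have key := (convex_ball (0 : E) r).norm_image_sub_le_of_norm_hasFDerivWithin_le
    (f := fun w => g (w, v) - g (w, 0))
    (f' := fun w => (fderiv ℝ g (w, v) - fderiv ℝ g (w, 0)).comp (ContinuousLinearMap.inl ℝ E E))
    (C := K * ‖v‖) (x := 0) (y := u) (fun w hw => by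
      have a := (hb _ (hm w hw v hp.2.1)).1.hasFDerivAt.comp w (hasFDerivAt_prodMk_left (𝕜 := ℝ) w v)
      have b := (hb _ (hm w hw 0 hz)).1.hasFDerivAt.comp w 
        (hasFDerivAt_prodMk_left (𝕜 := ℝ) w (0 : E))
      rw [ContinuousLinearMap.sub_comp]
      exact (a.sub b).hasFDerivWithinAt)
    (fun w hw => by
      have a := hK.norm_sub_le (hb _ (hm w hw v hp.2.1)).2 (hb _ (hm w hw 0 hz)).2
      refine (ContinuousLinearMap.opNorm_comp_le _ _).trans ?_
      have b : ‖ContinuousLinearMap.inl ℝ E E‖ ≤ 1 := ContinuousLinearMap.norm_inl_le_one ℝ E E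
      have d : ‖((w, v) : E × E) - (w, 0)‖ = ‖v‖ := by simp
      rw [d] at a
      nlinarith [norm_nonneg (fderiv ℝ g (w, v) - fderiv ℝ g (w, 0)),
        norm_nonneg (ContinuousLinearMap.inl ℝ E E)])
    (mem_ball_self hr) (mem_ball_zero_iff.2 hp.1.1)
  simp only [(hb' u (mem_ball_zero_iff.2 hp.1.2)).1, (hb' v (mem_ball_zero_iff.2 hp.2.2)).2,
    (hb' 0 (mem_ball_self hr')).1, sub_zero] at key
  calc _ ≤ _ := key
    _ = _ := by ring

theorem exists_chart_of_lieGroup {L : Type u} [Group L] [TopologicalSpace L] {E : Type v}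
    [NormedAddCommGroup E] [NormedSpace ℝ E] [ChartedSpace E L]
    [LieGroup (modelWithCornersSelf ℝ E) ∞ L] : Nonempty (Chart L E) := by
  have := topologicalGroup_of_lieGroup (modelWithCornersSelf ℝ E) ∞ (G := L)
  let e := chartAt E (1 : L)
  let a := e 1
  have h1 : (1 : L) ∈ e.source := mem_chart_source E 1
  have ha : a ∈ e.target := e.map_source h1
  have hs : e.symm a = 1 := e.left_inv h1
  have hsy : ContMDiffAt (modelWithCornersSelf ℝ E) (modelWithCornersSelf ℝ E) ∞ e.symm a :=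
    (contMDiffOn_chart_symm (x := (1 : L))).contMDiffAt (e.open_target.mem_nhds ha)
  have he : ContMDiffAt (modelWithCornersSelf ℝ E) (modelWithCornersSelf ℝ E) ∞ e 1 :=
    (contMDiffOn_chart (x := (1 : L))).contMDiffAt (e.open_source.mem_nhds h1)
  have hf : ContMDiffAt (modelWithCornersSelf ℝ (E × E)) (modelWithCornersSelf ℝ E) ∞
      (fun q : E × E => e.symm (q.1 + a)) 0 :=
    ContMDiffAt.comp (g := e.symm) (f := fun q : E × E => q.1 + a) 0 (by simpa using hsy)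
      (contDiff_fst.add contDiff_const).contMDiff.contMDiffAt
  have hg : ContMDiffAt (modelWithCornersSelf ℝ (E × E)) (modelWithCornersSelf ℝ E) ∞
      (fun q : E × E => e.symm (q.2 + a)) 0 :=
    ContMDiffAt.comp (g := e.symm) (f := fun q : E × E => q.2 + a) 0 (by simpa using hsy)
      (contDiff_snd.add contDiff_const).contMDiff.contMDiffAt
  have hμ : ContDiffAt ℝ ∞ (fun q : E × E => e (e.symm (q.1 + a) * e.symm (q.2 + a))) 0 :=
    contMDiffAt_iff_contDiffAt.1 (ContMDiffAt.comp (g := e)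
      (f := fun q : E × E => e.symm (q.1 + a) * e.symm (q.2 + a)) 0 (by simpa [hs] using he)
      (hf.mul hg))
  have hta : ∀ᶠ u in 𝓝 (0 : E), u + a ∈ e.target := by
    have : Continuous fun u : E => u + a := by fun_prop
    have h2 := this.tendsto 0
    rw [zero_add] at h2
    exact h2.eventually (e.open_target.mem_nhds ha)
  obtain ⟨C, hC⟩ := exists_bilin_bound
    (fun q : E × E => e (e.symm (q.1 + a) * e.symm (q.2 + a)) - a - q.1 - q.2)
    ((((hμ.of_le (WithTop.coe_le_coe.2 (le_top : (2 : ℕ∞) ≤ ⊤))).sub contDiffAt_const).sub contDiffAt_fst).sub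
      contDiffAt_snd)
    (hta.mono fun u hu => by simp [hs, e.right_inv hu])
    (hta.mono fun u hu => by simp [hs, e.right_inv hu])
  refine exists_chart_of_est (e.transHomeomorph (Homeomorph.subRight a)) h1 (sub_self a) C ?_
  have ht : Tendsto (fun p : L × L => (e p.1 - a, e p.2 - a)) (𝓝 (1, 1)) (𝓝 0) := by
    have h3 : Tendsto (fun x : L => e x - a) (𝓝 1) (𝓝 0) := by
      simpa [a] using (e.continuousAt h1).tendsto.sub_const a
    rw [nhds_prod_eq]
    exact (h3.comp tendsto_fst).prodMk_nhds (h3.comp tendsto_snd)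
  have hsrc := e.open_source.mem_nhds h1
  filter_upwards [ht.eventually hC, prod_mem_nhds hsrc hsrc] with p hp hq
  simp only [sub_add_cancel, e.left_inv hq.1, e.left_inv hq.2] at hp
  exact hp

theorem IsLie.exists_chart {L : Type u} [Group L] [TopologicalSpace L] (h : IsLie L) :
    T2Space L ∧ IsTopologicalGroup L ∧ ∃ (E : Type) (_ : NormedAddCommGroup E)
      (_ : NormedSpace ℝ E), FiniteDimensional ℝ E ∧ Nonempty (Chart L E) := by
  obtain ⟨h2, E, _, _, hE, _, hL⟩ := h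
  exact ⟨h2, topologicalGroup_of_lieGroup (modelWithCornersSelf ℝ E) ∞, E, _, _, hE,
    exists_chart_of_lieGroup⟩

end Pool.Agent.Lib.MP_0cde51_al
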