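import Mathlib

/-! Lie groups, pro-Lie groups and the kernel of the ordinary representations. -/

namespace Pool.Agent.Lib.MP_0cde51_al

open scoped Manifold ContDiff

universe u v

/-- A (finite-dimensional, real) Lie group: a Hausdorff group that carries a smooth manifold
structure, modelled on a finite-dimensional real normed space, for which multiplication and
inversion are smooth. No countability is assumed, so discrete groups are Lie groups. -/
def IsLie (L : Type u) [Group L] [TopologicalSpace L] : Prop :=
  T2Space L ∧ ∃ (E : Type) (_ : NormedAddCommGroup E) (_ : NormedSpace ℝ E)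
    (_ : FiniteDimensional ℝ E) (_ : ChartedSpace E L), LieGroup (modelWithCornersSelf ℝ E) ∞ L

/-- A projective system of Lie groups over a nonempty directed index set. -/
structure LieSystem where
  /-- the index set -/
  I : Type v
  [pre : Preorder I]
  nonempty : Nonempty I
  directed : ∀ i j : I, ∃ k, i ≤ k ∧ j ≤ k
  /-- the groups -/
  L : I → Type v
  [grp : ∀ i, Group (L i)]
  [top : ∀ i, TopologicalSpace (L i)]
  lie : ∀ i, IsLie (L i)
  /-- the bonding maps, continuous homomorphisms -/
  f : ∀ i j : I, i ≤ j → ContinuousMonoidHom (L j) (L i)
  f_id : ∀ (i : I) (x : L i), f i i (le_refl i) x = x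
  f_comp : ∀ (i j k : I) (hij : i ≤ j) (hjk : j ≤ k) (x : L k),
    f i j hij (f j k hjk x) = f i k (hij.trans hjk) x

attribute [instance] LieSystem.pre LieSystem.grp LieSystem.top

/-- The projective limit: the subgroup of compatible families in the product. -/
def LieSystem.limit (P : LieSystem.{v}) : Subgroup (∀ i, P.L i) where
  carrier := {x | ∀ (i j : P.I) (h : i ≤ j), P.f i j h (x j) = x i}
  mul_mem' := fun {x y} hx hy i j h => by
    rw [Pi.mul_apply, Pi.mul_apply, map_mul, hx i j h, hy i j h]
  one_mem' := fun i j h => by rw [Pi.one_apply, Pi.one_apply, map_one]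
  inv_mem' := fun {x} hx i j h => by rw [Pi.inv_apply, Pi.inv_apply, map_inv, hx i j h]

/-- A pro-Lie group: a complete topological group that is topologically isomorphic to the
projective limit of a projective system of Lie groups. -/
def IsProLie (G : Type u) [Group G] [TopologicalSpace G] [IsTopologicalGroup G] : Prop :=
  @CompleteSpace G (IsTopologicalGroup.rightUniformSpace G) ∧
    ∃ P : LieSystem.{v}, Nonempty (ContinuousMulEquiv G P.limit)

/-- The intersection of the kernels of all continuous homomorphisms to the groups `GL n ℂ`. -/
def KO (G : Type u) [Group G] [TopologicalSpace G] : Subgroup G :=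
  ⨅ (n : ℕ) (ρ : ContinuousMonoidHom G (Matrix.GeneralLinearGroup (Fin n) ℂ)), ρ.toMonoidHom.ker

end Pool.Agent.Lib.MP_0cde51_al
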