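import Pool.Agent.Lib.MP_0cde51_al.Alg

/-! The nilpotent part of an ideal that is solvable modulo the kernel of a finite-dimensional
representation (Lie's theorem, the invariance lemma and Engel's theorem in one induction). -/

namespace Pool.Agent.Lib.MP_0cde51_al

open Filter Topology NormedSpace

universe u v w

namespace Nil

variable {𝔤 : Type v} [LieRing 𝔤] [LieAlgebra ℝ 𝔤]

/-- a real-linear representation of a real Lie algebra on a complex vector space -/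
structure IsRep {V : Type} [AddCommGroup V] [Module ℂ V] (ρ : 𝔤 → Module.End ℂ V) : Prop where
  add : ∀ x y, ρ (x + y) = ρ x + ρ y
  smul : ∀ (r : ℝ) (x : 𝔤), ρ (r • x) = (r : ℂ) • ρ x
  lie : ∀ x y, ρ ⁅x, y⁆ = ρ x * ρ y - ρ y * ρ x

section General

variable {V : Type} [AddCommGroup V] [Module ℂ V]

theorem IsRep.zero {ρ : 𝔤 → Module.End ℂ V} (h : IsRep ρ) : ρ 0 = 0 := by
  have := h.smul 0 0
  simpa using this

theorem IsRep.trace_lie {ρ : 𝔤 → Module.End ℂ V} (h : IsRep ρ) (x y : 𝔤) :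
    LinearMap.trace ℂ V (ρ ⁅x, y⁆) = 0 := by
  rw [h.lie, map_sub, LinearMap.trace_mul_comm, sub_self]

/-- a commuting family of nilpotent operators kills a nonzero vector -/
theorem exists_common_ker [FiniteDimensional ℂ V] [Nontrivial V] {ι : Type*}
    (f : ι → Module.End ℂ V) (hc : ∀ i j, f i * f j = f j * f i) (hn : ∀ i, IsNilpotent (f i)) :
    ∃ v : V, v ≠ 0 ∧ ∀ i, f i v = 0 := by
  obtain ⟨U, ⟨hU0, hU⟩, hmin⟩ := (wellFounded_lt (α := Submodule ℂ V)).has_min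
    {U | U ≠ ⊥ ∧ ∀ i, ∀ v ∈ U, f i v ∈ U} ⟨⊤, top_ne_bot, fun _ _ _ => trivial⟩
  obtain ⟨v, hv, hv0⟩ := (Submodule.ne_bot_iff U).1 hU0
  refine ⟨v, hv0, fun i => ?_⟩
  have h1 : U ⊓ LinearMap.ker (f i) ≠ ⊥ := by
    intro hb
    obtain ⟨k, hk⟩ := hn i
    have key : ∀ k : ℕ, ∀ w ∈ U, (f i ^ k) w = 0 → w = 0 := by
      intro k
      induction k with
      | zero => intro w _ hw; simpa using hw
      | succ k ih =>
        intro w hw h0
        rw [pow_succ, Module.End.mul_apply] at h0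
        have h2 : w ∈ U ⊓ LinearMap.ker (f i) := ⟨hw, ih _ (hU i w hw) h0⟩
        rwa [hb, Submodule.mem_bot] at h2
    exact hv0 (key k v hv (by rw [hk]; rfl))
  have h2 : ∀ j, ∀ w ∈ U ⊓ LinearMap.ker (f i), f j w ∈ U ⊓ LinearMap.ker (f i) := by
    rintro j w ⟨hw, hw0⟩
    refine ⟨hU j w hw, ?_⟩
    have hw1 : f i w = 0 := hw0
    change f i (f j w) = 0
    rw [← Module.End.mul_apply, hc, Module.End.mul_apply, hw1, map_zero]
  have h3 : U ⊓ LinearMap.ker (f i) = U := by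
    by_contra hne
    exact hmin _ ⟨h1, h2⟩ (lt_of_le_of_ne inf_le_left hne)
  rw [← h3] at hv
  exact hv.2

theorem eq_zero_of_trace [FiniteDimensional ℂ V] [Nontrivial V] {A : Module.End ℂ V} {μ : ℂ}
    (hA : LinearMap.trace ℂ V A = 0) (hn : IsNilpotent (A - μ • (1 : Module.End ℂ V))) : μ = 0 := by
  have h1 := (LinearMap.isNilpotent_trace_of_isNilpotent hn).eq_zero
  rw [map_sub, map_smul, hA, LinearMap.trace_one, zero_sub, neg_eq_zero, smul_eq_mul] at h1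
  have h2 : (Module.finrank ℂ V : ℂ) ≠ 0 := by exact_mod_cast Module.finrank_pos.ne'
  exact (mul_eq_zero.1 h1).resolve_right h2

/-- irreducibility -/
def Irr (ρ : 𝔤 → Module.End ℂ V) : Prop :=
  ∀ U : Submodule ℂ V, (∀ x, ∀ v ∈ U, ρ x v ∈ U) → U = ⊥ ∨ U = ⊤

theorem exists_sub_nilpotent [FiniteDimensional ℂ V] [Nontrivial V] {ρ : 𝔤 → Module.End ℂ V}
    (h : IsRep ρ) (hirr : Irr ρ) (I : LieIdeal ℝ 𝔤) (hI : ∀ a ∈ I, ∀ b ∈ I, ρ ⁅a, b⁆ = 0)
    (a : 𝔤) (ha : a ∈ I) : ∃ μ : ℂ, IsNilpotent (ρ a - μ • (1 : Module.End ℂ V)) := by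
  obtain ⟨μ, hμ⟩ := Module.End.exists_eigenvalue (ρ a)
  refine ⟨μ, ?_⟩
  set T : Module.End ℂ V := ρ a - μ • (1 : Module.End ℂ V) with hT
  have key : ∀ x, ∀ k : ℕ, ∀ v, (T ^ k) v = 0 → (T ^ (k + 1)) (ρ x v) = 0 := by
    intro x
    have hb : ⁅a, x⁆ ∈ I := lie_mem_left ℝ 𝔤 I a x ha
    have h1 : T * ρ x = ρ x * T + ρ ⁅a, x⁆ := by
      rw [h.lie, hT, sub_mul, mul_sub, smul_mul_assoc, mul_smul_comm, one_mul, mul_one]
      abel
    have h2 : Commute T (ρ ⁅a, x⁆) := by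
      have h3 : Commute (ρ a) (ρ ⁅a, x⁆) := by
        have := hI a ha _ hb
        rw [h.lie] at this
        exact sub_eq_zero.1 this
      exact h3.sub_left ((Commute.one_left _).smul_left μ)
    intro k
    induction k with
    | zero => intro v hv; simp at hv; simp [hv]
    | succ k ih =>
      intro v hv
      have h4 : (T ^ k) (T v) = 0 := by rwa [pow_succ, Module.End.mul_apply] at hv
      rw [pow_succ, Module.End.mul_apply, ← Module.End.mul_apply T, h1, LinearMap.add_apply,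
        map_add, Module.End.mul_apply, ih _ h4, zero_add, ← Module.End.mul_apply,
        (h2.pow_left (k + 1)).eq, Module.End.mul_apply, hv, map_zero]
  have hE := hirr (Module.End.maxGenEigenspace (ρ a) μ) (by
    intro x v hv
    rw [Module.End.mem_maxGenEigenspace] at hv ⊢
    obtain ⟨k, hk⟩ := hv
    exact ⟨k + 1, key x k v hk⟩)
  obtain ⟨v, hv⟩ := hμ.exists_hasEigenvector
  have hvE : v ∈ Module.End.maxGenEigenspace (ρ a) μ := by
    rw [Module.End.mem_maxGenEigenspace]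
    exact ⟨1, by simp [hv.apply_eq_smul]⟩
  rcases hE with hE | hE
  · rw [hE, Submodule.mem_bot] at hvE
    exact absurd hvE hv.2
  · rw [Module.End.isNilpotent_iff_of_finite]
    intro w
    have : w ∈ Module.End.maxGenEigenspace (ρ a) μ := by rw [hE]; trivial
    exact (Module.End.mem_maxGenEigenspace _ _ _).1 this

/-- an ideal acting commutatively on an irreducible representation acts by scalars -/
theorem scalar_of_comm [FiniteDimensional ℂ V] [Nontrivial V] {ρ : 𝔤 → Module.End ℂ V}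
    (h : IsRep ρ) (hirr : Irr ρ) (I : LieIdeal ℝ 𝔤) (hI : ∀ a ∈ I, ∀ b ∈ I, ρ ⁅a, b⁆ = 0)
    (a : 𝔤) (ha : a ∈ I) : ∃ c : ℂ, ρ a = c • (1 : Module.End ℂ V) := by
  choose μ hμ using fun b : I => exists_sub_nilpotent h hirr I hI b b.2
  obtain ⟨v, hv0, hv⟩ := exists_common_ker (fun b : I => ρ b - μ b • (1 : Module.End ℂ V))
    (fun b c => by
      have h3 : Commute (ρ b) (ρ c) := by
        have := hI b b.2 c c.2
        rw [h.lie] at this
        exact sub_eq_zero.1 this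
      exact ((h3.sub_left ((Commute.one_left _).smul_left _)).sub_right
        ((Commute.one_right _).smul_right _)).eq) hμ
  have hW := hirr (⨅ b : I, LinearMap.ker (ρ b - μ b • (1 : Module.End ℂ V))) (by
    intro x w hw
    simp only [Submodule.mem_iInf, LinearMap.mem_ker, LinearMap.sub_apply, LinearMap.smul_apply,
      Module.End.one_apply, sub_eq_zero] at hw ⊢
    intro b
    have hb : ⁅(b : 𝔤), x⁆ ∈ I := lie_mem_left ℝ 𝔤 I b x b.2
    have h0 : μ ⟨_, hb⟩ = 0 := eq_zero_of_trace (h.trace_lie _ _) (hμ ⟨_, hb⟩)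
    have h1 := hw ⟨_, hb⟩
    rw [h0, zero_smul] at h1
    change ρ ⁅(b : 𝔤), x⁆ w = 0 at h1
    rw [h.lie, LinearMap.sub_apply, Module.End.mul_apply, Module.End.mul_apply, sub_eq_zero,
      hw b, map_smul] at h1
    exact h1)
  have hvW : v ∈ ⨅ b : I, LinearMap.ker (ρ b - μ b • (1 : Module.End ℂ V)) := by
    simp only [Submodule.mem_iInf, LinearMap.mem_ker]
    exact hv
  rcases hW with hW | hW
  · rw [hW, Submodule.mem_bot] at hvW
    exact absurd hvW hv0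
  · refine ⟨μ ⟨a, ha⟩, ?_⟩
    ext w
    have : w ∈ ⨅ b : I, LinearMap.ker (ρ b - μ b • (1 : Module.End ℂ V)) := by rw [hW]; trivial
    simp only [Submodule.mem_iInf, LinearMap.mem_ker, LinearMap.sub_apply, sub_eq_zero] at this
    exact this ⟨a, ha⟩

theorem lie_eq_zero_of_scalar [FiniteDimensional ℂ V] [Nontrivial V] {ρ : 𝔤 → Module.End ℂ V}
    (h : IsRep ρ) (x y : 𝔤) (hc : ∃ c : ℂ, ρ ⁅x, y⁆ = c • (1 : Module.End ℂ V)) :
    ρ ⁅x, y⁆ = 0 := by
  obtain ⟨c, hc⟩ := hc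
  have : c = 0 := eq_zero_of_trace (h.trace_lie x y) (by rw [hc, sub_self]; exact IsNilpotent.zero)
  rw [hc, this, zero_smul]

/-- an ideal acting solvably on an irreducible representation acts by scalars -/
theorem scalar_of_solvable [FiniteDimensional ℂ V] [Nontrivial V] {ρ : 𝔤 → Module.End ℂ V}
    (h : IsRep ρ) (hirr : Irr ρ) (n : ℕ) : ∀ (𝔧 : LieIdeal ℝ 𝔤),
    (∀ x ∈ LieAlgebra.derivedSeriesOfIdeal ℝ 𝔤 n 𝔧, ρ x = 0) →
    ∀ a ∈ 𝔧, ∃ c : ℂ, ρ a = c • (1 : Module.End ℂ V) := by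
  induction n with
  | zero => intro 𝔧 hj a ha; exact ⟨0, by rw [hj a ha, zero_smul]⟩
  | succ n ih =>
    intro 𝔧 hj
    rw [LieAlgebra.derivedSeriesOfIdeal_add] at hj
    refine scalar_of_comm h hirr 𝔧 fun a ha b hb => lie_eq_zero_of_scalar h a b (ih _ hj _ ?_)
    exact LieSubmodule.lie_mem_lie ha hb

omit [LieRing 𝔤] [LieAlgebra ℝ 𝔤] in
theorem prod_intertwine {V' : Type} [AddCommGroup V'] [Module ℂ V'] {ρ : 𝔤 → Module.End ℂ V}
    {ρ' : 𝔤 → Module.End ℂ V'} (f : V →ₗ[ℂ] V') (hf : ∀ x v, f (ρ x v) = ρ' x (f v))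
    (l : List 𝔤) (v : V) : f ((l.map ρ).prod v) = (l.map ρ').prod (f v) := by
  induction l with
  | nil => rfl
  | cons x l ih =>
    rw [List.map_cons, List.map_cons, List.prod_cons, List.prod_cons, Module.End.mul_apply,
      Module.End.mul_apply, hf, ih]

theorem pow_intertwine {V' : Type} [AddCommGroup V'] [Module ℂ V'] {A : Module.End ℂ V}
    {A' : Module.End ℂ V'} (f : V →ₗ[ℂ] V') (hf : ∀ v, f (A v) = A' (f v))
    (k : ℕ) (v : V) : f ((A ^ k) v) = (A' ^ k) (f v) := by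
  induction k with
  | zero => rfl
  | succ k ih => rw [pow_succ', pow_succ', Module.End.mul_apply, Module.End.mul_apply, hf, ih]

end General

/-- the main induction on the dimension -/
theorem main (𝔧 : LieIdeal ℝ 𝔤) (n d : ℕ) : ∀ (V : Type) [AddCommGroup V] [Module ℂ V]
    [FiniteDimensional ℂ V] (ρ : 𝔤 → Module.End ℂ V), Module.finrank ℂ V = d → IsRep ρ →
    (∀ x ∈ LieAlgebra.derivedSeriesOfIdeal ℝ 𝔤 n 𝔧, ρ x = 0) →
    ∃ (S : Submodule ℝ 𝔤) (m : ℕ), (∀ x ∈ S, x ∈ 𝔧) ∧ (∀ x ∈ 𝔧, IsNilpotent (ρ x) → x ∈ S) ∧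
      (∀ x : 𝔤, ∀ y ∈ 𝔧, ⁅x, y⁆ ∈ S) ∧
      ∀ l : List 𝔤, m ≤ l.length → (∀ x ∈ l, x ∈ S) → (l.map ρ).prod = 0 := by
  induction d using Nat.strong_induction_on with
  | _ d ih =>
  intro V _ _ _ ρ hd h hj
  rcases subsingleton_or_nontrivial V with hV | hV
  · exact ⟨𝔧.toSubmodule, 0, fun x hx => hx, fun x hx _ => hx,
      fun x y hy => lie_mem_right ℝ 𝔤 𝔧 x y hy, fun l _ _ => Subsingleton.elim _ _⟩
  by_cases hirr : Irr ρ
  · have hs := scalar_of_solvable h hirr n 𝔧 hj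
    let S : Submodule ℝ 𝔤 :=
      { carrier := {x | x ∈ 𝔧 ∧ ρ x = 0}
        add_mem' := fun {a b} ha hb => ⟨𝔧.add_mem ha.1 hb.1, by rw [h.add, ha.2, hb.2, add_zero]⟩
        zero_mem' := ⟨𝔧.zero_mem, h.zero⟩
        smul_mem' := fun r a ha => ⟨𝔧.smul_mem r ha.1, by rw [h.smul, ha.2, smul_zero]⟩ }
    refine ⟨S, 1, fun x hx => hx.1, fun x hx hn => ⟨hx, ?_⟩, fun x y hy => ?_, ?_⟩
    · obtain ⟨c, hc⟩ := hs x hx
      obtain ⟨k, hk⟩ := hn
      rw [hc, smul_pow, one_pow, smul_eq_zero] at hk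
      rw [hc, pow_eq_zero_iff'.1 (hk.resolve_right one_ne_zero) |>.1, zero_smul]
    · have hxy := lie_mem_right ℝ 𝔤 𝔧 x y hy
      exact ⟨hxy, lie_eq_zero_of_scalar h x y (hs _ hxy)⟩
    · intro l hl hS
      cases l with
      | nil => simp at hl
      | cons x l =>
        have : ρ x = 0 := (hS x (by simp)).2
        rw [List.map_cons, List.prod_cons, this, zero_mul]
  · simp only [Irr, not_forall, not_or] at hirr
    obtain ⟨U, hU, hU0, hU1⟩ := hirr
    let ρ₁ : 𝔤 → Module.End ℂ U := fun x => (ρ x).restrict (hU x)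
    let ρ₂ : 𝔤 → Module.End ℂ (V ⧸ U) := fun x => U.mapQ U (ρ x) (hU x)
    have e₁ : ∀ x v, U.subtype (ρ₁ x v) = ρ x (U.subtype v) := fun x v => rfl
    have e₂ : ∀ x v, U.mkQ (ρ x v) = ρ₂ x (U.mkQ v) := fun x v => rfl
    have ext₁ : ∀ A B : Module.End ℂ U, (∀ v, U.subtype (A v) = U.subtype (B v)) → A = B :=
      fun A B hAB => LinearMap.ext fun v => Subtype.ext (hAB v)
    have ext₂ : ∀ A B : Module.End ℂ (V ⧸ U), (∀ v, A (U.mkQ v) = B (U.mkQ v)) → A = B :=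
      fun A B hAB => LinearMap.ext fun v => by
        obtain ⟨w, rfl⟩ := U.mkQ_surjective v
        exact hAB w
    have h₁ : IsRep ρ₁ :=
      ⟨fun x y => ext₁ _ _ fun v => by simp only [LinearMap.add_apply, map_add, e₁, h.add],
        fun r x => ext₁ _ _ fun v => by simp only [LinearMap.smul_apply, map_smul, e₁, h.smul],
        fun x y => ext₁ _ _ fun v => by
          simp only [LinearMap.sub_apply, Module.End.mul_apply, map_sub, e₁, h.lie]⟩
    have h₂ : IsRep ρ₂ :=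
      ⟨fun x y => ext₂ _ _ fun v => by simp only [LinearMap.add_apply, map_add, ← e₂, h.add],
        fun r x => ext₂ _ _ fun v => by simp only [LinearMap.smul_apply, map_smul, ← e₂, h.smul],
        fun x y => ext₂ _ _ fun v => by
          simp only [LinearMap.sub_apply, Module.End.mul_apply, map_sub, ← e₂, h.lie]⟩
    have d₁ : Module.finrank ℂ U < d := hd ▸ Submodule.finrank_lt hU1
    have d₂ : Module.finrank ℂ (V ⧸ U) < d := by
      have h3 := Submodule.finrank_quotient_add_finrank U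
      have h4 : Module.finrank ℂ U ≠ 0 := fun h0 => hU0 (Submodule.finrank_eq_zero.1 h0)
      omega
    obtain ⟨S₁, m₁, a₁, b₁, c₁, p₁⟩ := ih _ d₁ U ρ₁ rfl h₁ fun x hx =>
      ext₁ _ _ fun v => by rw [e₁, hj x hx]; rfl
    obtain ⟨S₂, m₂, -, b₂, c₂, p₂⟩ := ih _ d₂ (V ⧸ U) ρ₂ rfl h₂ fun x hx =>
      ext₂ _ _ fun v => by rw [← e₂, hj x hx]; rfl
    refine ⟨S₁ ⊓ S₂, m₁ + m₂, fun x hx => a₁ x hx.1, fun x hx hn => ?_,
      fun x y hy => ⟨c₁ x y hy, c₂ x y hy⟩, fun l hl hS => ?_⟩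
    · obtain ⟨k, hk⟩ := hn
      refine ⟨b₁ x hx ⟨k, ext₁ _ _ fun v => ?_⟩, b₂ x hx ⟨k, ext₂ _ _ fun v => ?_⟩⟩
      · rw [pow_intertwine U.subtype (e₁ x), hk]; rfl
      · rw [← pow_intertwine U.mkQ (e₂ x), hk]; rfl
    · have q₁ := p₁ (l.take m₁) (by rw [List.length_take]; omega)
        fun x hx => (hS x (List.mem_of_mem_take hx)).1
      have q₂ := p₂ (l.drop m₁) (by rw [List.length_drop]; omega)
        fun x hx => (hS x (List.mem_of_mem_drop hx)).2
      ext v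
      have hv : ((l.drop m₁).map ρ).prod v ∈ U := by
        rw [← Submodule.Quotient.mk_eq_zero, ← Submodule.mkQ_apply, prod_intertwine U.mkQ e₂, q₂]
        rfl
      have h5 := prod_intertwine U.subtype e₁ (l.take m₁) ⟨_, hv⟩
      rw [q₁] at h5
      rw [← List.take_append_drop m₁ l, List.map_append, List.prod_append, Module.End.mul_apply]
      exact h5.symm

/-- iterated brackets vanish once long products vanish -/
theorem iterate_eq_zero {V : Type} [AddCommGroup V] [Module ℂ V] {ρ : 𝔤 → Module.End ℂ V}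
    (h : IsRep ρ) (𝔫 : LieIdeal ℝ 𝔤) (m : ℕ)
    (hp : ∀ l : List 𝔤, m ≤ l.length → (∀ x ∈ l, x ∈ 𝔫) → (l.map ρ).prod = 0) (k : ℕ) :
    ∀ x ∈ (fun J : LieIdeal ℝ 𝔤 => ⁅𝔫, J⁆)^[k] 𝔫, ∀ l₁ l₂ : List 𝔤,
      m ≤ l₁.length + l₂.length + k + 1 → (∀ y ∈ l₁, y ∈ 𝔫) → (∀ y ∈ l₂, y ∈ 𝔫) →
      (l₁.map ρ).prod * ρ x * (l₂.map ρ).prod = 0 := by
  induction k with
  | zero =>
    intro x hx l₁ l₂ hl h₁ h₂
    have := hp (l₁ ++ x :: l₂) (by simp; omega) (by
      intro y hy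
      rcases List.mem_append.1 hy with hy | hy
      · exact h₁ y hy
      · rcases List.mem_cons.1 hy with rfl | hy
        · exact hx
        · exact h₂ y hy)
    rwa [List.map_append, List.prod_append, List.map_cons, List.prod_cons, ← mul_assoc] at this
  | succ k ih =>
    intro x hx l₁ l₂ hl h₁ h₂
    rw [Function.iterate_succ_apply', ← LieSubmodule.mem_toSubmodule,
      LieSubmodule.lieIdeal_oper_eq_linear_span'] at hx
    induction hx using Submodule.span_induction with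
    | mem z hz =>
      obtain ⟨y, hy, z, hz, rfl⟩ := hz
      have e1 := ih z hz (l₁ ++ [y]) l₂ (by simp; omega) (by
        intro w hw
        rcases List.mem_append.1 hw with hw | hw
        · exact h₁ w hw
        · rw [List.mem_singleton.1 hw]; exact hy) h₂
      have e2 := ih z hz l₁ (y :: l₂) (by simp; omega) h₁ (by
        intro w hw
        rcases List.mem_cons.1 hw with rfl | hw
        · exact hy
        · exact h₂ w hw)
      rw [List.map_append, List.prod_append, List.map_singleton, List.prod_singleton] at e1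
      rw [List.map_cons, List.prod_cons] at e2
      rw [h.lie, mul_sub, sub_mul, ← mul_assoc, e1, ← mul_assoc, mul_assoc _ (ρ y), e2, sub_self]
    | zero => rw [h.zero, mul_zero, zero_mul]
    | add a b _ _ ha hb => rw [h.add, mul_add, add_mul, ha, hb, add_zero]
    | smul r a _ ha => rw [h.smul, mul_smul_comm, smul_mul_assoc, ha, smul_zero]

end Nil

theorem exists_nil_ideal {𝔤 : Type v} [LieRing 𝔤] [LieAlgebra ℝ 𝔤] {𝔸 : Type u} [Ring 𝔸]
    [Algebra ℝ 𝔸] [FiniteDimensional ℝ 𝔸] (τ : 𝔤 →ₗ[ℝ] 𝔸) (hτ : IsLieMap τ)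
    (𝔧 : LieIdeal ℝ 𝔤) (n : ℕ) (h : ∀ x ∈ LieAlgebra.derivedSeriesOfIdeal ℝ 𝔤 n 𝔧, τ x = 0) :
    ∃ 𝔫 : LieIdeal ℝ 𝔤, (∀ x, x ∈ 𝔫 ↔ x ∈ 𝔧 ∧ IsNilpotent (τ x)) ∧
      (∀ x : 𝔤, ∀ y ∈ 𝔧, ⁅x, y⁆ ∈ 𝔫) ∧
      ∃ m : ℕ, ∀ x ∈ (fun J : LieIdeal ℝ 𝔤 => ⁅𝔫, J⁆)^[m] 𝔫, τ x = 0 := by
  obtain ⟨N, φ, hφ⟩ := exists_embed_matrix 𝔸
  let e : Matrix (Fin N) (Fin N) ℂ ≃ₐ[ℂ] Module.End ℂ (Fin N → ℂ) := Matrix.toLinAlgEquiv'
  let ψ : 𝔸 →+* Module.End ℂ (Fin N → ℂ) := e.toRingEquiv.toRingHom.comp φ.toRingHom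
  have hψ : Function.Injective ψ := e.injective.comp hφ
  have hs : ∀ (r : ℝ) (a : 𝔸), ψ (r • a) = (r : ℂ) • ψ a := by
    intro r a
    change e (φ (r • a)) = (r : ℂ) • e (φ a)
    rw [map_smul, ← map_smul e]
    rfl
  have hρ : Nil.IsRep fun x => ψ (τ x) :=
    ⟨fun x y => by rw [map_add, map_add], fun r x => by rw [map_smul, hs],
      fun x y => by rw [hτ, map_sub, map_mul, map_mul]⟩
  obtain ⟨S, m, a, b, c, p⟩ := Nil.main 𝔧 n _ (Fin N → ℂ) _ rfl hρ fun x hx => by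
    rw [h x hx, map_zero]
  let 𝔫 : LieIdeal ℝ 𝔤 := { S with lie_mem := fun {x y} hy => c x y (a y hy) }
  refine ⟨𝔫, fun x => ⟨fun hx => ⟨a x hx, ?_⟩, fun hx => b x hx.1 (hx.2.map ψ)⟩, c, m,
    fun x hx => hψ ?_⟩
  · rw [← IsNilpotent.map_iff hψ]
    have := p (List.replicate m x) (by simp) fun y hy => by
      rw [List.eq_of_mem_replicate hy]; exact hx
    rw [List.map_replicate, List.prod_replicate] at this
    exact ⟨m, this⟩
  · have := Nil.iterate_eq_zero hρ 𝔫 m p m x hx [] [] (by simp) (by simp) (by simp)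
    simpa using this

end Pool.Agent.Lib.MP_0cde51_al
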