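import Pool.Agent.Lib.MP_0cde51_al.DetectC
import Pool.Agent.Lib.MP_0cde51_al.Nil

/-! Detection of integer characters on the kernel group. -/

namespace Pool.Agent.Lib.MP_0cde51_al

open Filter Topology NormedSpace

universe u v w

theorem IsSetup.detect {G : Type u} [Group G] [TopologicalSpace G] [IsTopologicalGroup G]
    [ConnectedSpace G] {𝔤 : Type v} [LieRing 𝔤] [LieAlgebra ℝ 𝔤] {I : Type w}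
    {k : I → LieIdeal ℝ 𝔤} {N : I → Subgroup G} {ex : 𝔤 → G} (S : IsSetup k N ex)
    (χ : G → ℤ) (hadd : ∀ x ∈ Kills G, ∀ y ∈ Kills G, χ (x * y) = χ x + χ y)
    (i : I) (hχ : ∀ x ∈ Kills G, x ∈ N i → χ x = 0)
    {𝔸 : Type} [NormedRing 𝔸] [NormedAlgebra ℝ 𝔸] [FiniteDimensional ℝ 𝔸]
    (ρ : G →* 𝔸) (hρ : Continuous ρ) (τ : 𝔤 →ₗ[ℝ] 𝔸) (hτ : IsLieMap τ)
    (hex : ∀ X, ρ (ex X) = exp (τ X)) (hker : ∀ X, τ X = 0 → X ∈ k i)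
    (𝔧 : LieIdeal ℝ 𝔤) (n : ℕ) (hkj : ∀ X, τ X = 0 → X ∈ 𝔧)
    (hsol : ∀ X ∈ LieAlgebra.derivedSeriesOfIdeal ℝ 𝔤 n 𝔧, τ X = 0)
    (𝔠 : LieSubalgebra ℝ 𝔤) (hinf : 𝔠.toSubmodule ⊓ 𝔧.toSubmodule = ⊥)
    (hsup : 𝔠.toSubmodule ⊔ 𝔧.toSubmodule = ⊤) (M : ℕ) (hM : 0 < M) (hU : IsUnifExp 𝔠 M)
    (hvan : ∀ w : List 𝔠, (∀ z : 𝔠, Commute (wprod (fun x : 𝔠 => τ x) w) (τ z)) →
      χ ((w.map fun x : 𝔠 => ex x).prod ^ M) = 0) :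
    ∀ x ∈ Kills G, χ x = 0 := by
  obtain ⟨𝔫, h1, h2, h3⟩ := exists_nil_ideal τ hτ 𝔧 n hsol
  exact Detect.detect_of_nil S χ hadd i hχ ρ hρ τ hτ hex hker 𝔧 hkj 𝔫 h1 h2 h3 𝔠 hinf hsup M hM
    hU hvan

end Pool.Agent.Lib.MP_0cde51_al
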