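import Pool.Agent.Lib.MP_0cde51_al.Alg

/-! Group-theoretic normal forms for an abstract exponential map. -/

namespace Pool.Agent.Lib.MP_0cde51_al

open Filter Topology NormedSpace

universe u v w

namespace Detect

section Grp

variable {Γ : Type u} [Group Γ] {𝔤 : Type v} [LieRing 𝔤] [LieAlgebra ℝ 𝔤]

/-- The subgroup generated by the exponentials of an ideal. -/
def B (e : 𝔤 → Γ) (b : LieIdeal ℝ 𝔤) : Subgroup Γ := Subgroup.closure (e '' (b : Set 𝔤))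

/-- An abstract exponential map whose image generates the group. -/
structure Pre (e : 𝔤 → Γ) : Prop where
  add : ∀ X Y, ⁅X, Y⁆ = 0 → e (X + Y) = e X * e Y
  conj : ∀ (b : LieIdeal ℝ 𝔤) (X Y : 𝔤), Y ∈ b → ∃ Y' ∈ b, e X * e Y * (e X)⁻¹ = e Y'
  k0 : ∀ (b : LieIdeal ℝ 𝔤) (X Y : 𝔤), ⁅X, Y⁆ ∈ b → ∃ u ∈ B e b, e X * e Y = e (X + Y) * u
  gen : ∀ g, g ∈ B e ⊤

variable {e : 𝔤 → Γ}

theorem mem_B {b : LieIdeal ℝ 𝔤} {X : 𝔤} (h : X ∈ b) : e X ∈ B e b :=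
  Subgroup.subset_closure ⟨X, h, rfl⟩

theorem B_mono {a b : LieIdeal ℝ 𝔤} (h : a ≤ b) : B e a ≤ B e b :=
  Subgroup.closure_mono (Set.image_mono h)

theorem e_zero (hadd : ∀ X Y, ⁅X, Y⁆ = 0 → e (X + Y) = e X * e Y) : e 0 = 1 := by
  have := hadd 0 0 (lie_self 0)
  rw [add_zero] at this
  exact left_eq_mul.1 this

theorem e_neg (hadd : ∀ X Y, ⁅X, Y⁆ = 0 → e (X + Y) = e X * e Y) (X : 𝔤) :
    e (-X) = (e X)⁻¹ := by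
  have := hadd X (-X) (by simp)
  rw [add_neg_cancel, e_zero hadd] at this
  exact (inv_eq_of_mul_eq_one_right this.symm).symm

theorem e_nsmul (hadd : ∀ X Y, ⁅X, Y⁆ = 0 → e (X + Y) = e X * e Y) (n : ℕ) (X : 𝔤) :
    e (n • X) = e X ^ n := by
  induction n with
  | zero => rw [zero_smul, pow_zero, e_zero hadd]
  | succ n ih => rw [succ_nsmul, hadd _ _ (by simp), ih, pow_succ]

theorem Pre.induct (P : Pre e) {b : LieIdeal ℝ 𝔤} {p : Γ → Prop} (h1 : p 1)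
    (hm : ∀ X ∈ b, ∀ u ∈ B e b, p u → p (e X * u)) {u : Γ} (hu : u ∈ B e b) : p u := by
  unfold B at hu
  induction hu using Subgroup.closure_induction_left with
  | one => exact h1
  | mul_left x hx y hy ih =>
    obtain ⟨X, hX, rfl⟩ := hx
    exact hm X hX y hy ih
  | inv_mul_cancel x hx y hy ih =>
    obtain ⟨X, hX, rfl⟩ := hx
    rw [← e_neg P.add]
    exact hm (-X) (b.neg_mem hX) y hy ih

theorem Pre.normal (P : Pre e) (b : LieIdeal ℝ 𝔤) : (B e b).Normal := by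
  have h1 : ∀ X, ∀ u ∈ B e b, e X * u * (e X)⁻¹ ∈ B e b := by
    intro X u hu
    refine P.induct (p := fun u => e X * u * (e X)⁻¹ ∈ B e b) (by simp) ?_ hu
    intro Y hY u _ ih
    obtain ⟨Y', hY', h⟩ := P.conj b X Y hY
    have : e X * (e Y * u) * (e X)⁻¹ = (e X * e Y * (e X)⁻¹) * (e X * u * (e X)⁻¹) := by group
    rw [this, h]
    exact mul_mem (mem_B hY') ih
  refine ⟨fun u hu g => ?_⟩
  revert u
  refine P.induct (p := fun g => ∀ u ∈ B e b, g * u * g⁻¹ ∈ B e b) (by simp) ?_ (P.gen g)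
  intro X _ g _ ih u hu
  have : e X * g * u * (e X * g)⁻¹ = e X * (g * u * g⁻¹) * (e X)⁻¹ := by group
  rw [this]
  exact h1 X _ (ih u hu)

theorem Pre.step (P : Pre e) {a c d : LieIdeal ℝ 𝔤} (hca : c ≤ a)
    (hd : ∀ R ∈ a, ∀ X ∈ c, ⁅R, X⁆ ∈ d) {u : Γ} (hu : u ∈ B e c) :
    ∀ R ∈ a, ∃ R' ∈ a, ∃ u' ∈ B e d, e R * u = e R' * u' := by
  refine P.induct (p := fun u => ∀ R ∈ a, ∃ R' ∈ a, ∃ u' ∈ B e d, e R * u = e R' * u') ?_ ?_ hu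
  · intro R hR
    exact ⟨R, hR, 1, one_mem _, rfl⟩
  · intro X hX u _ ih R hR
    obtain ⟨v, hv, h⟩ := P.k0 d R X (hd R hR X hX)
    obtain ⟨R', hR', u', hu', h'⟩ := ih (R + X) (a.add_mem hR (hca hX))
    refine ⟨R', hR', u' * (u⁻¹ * v * u⁻¹⁻¹), mul_mem hu' ((P.normal d).conj_mem v hv _), ?_⟩
    rw [← mul_assoc, h, ← mul_assoc, ← h']
    group

/-- The word of exponentials. -/
def E (e : 𝔤 → Γ) {𝔠 : LieSubalgebra ℝ 𝔤} (w : List 𝔠) : Γ := (w.map fun x : 𝔠 => e x).prod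

theorem E_nil {𝔠 : LieSubalgebra ℝ 𝔤} : E e ([] : List 𝔠) = 1 := rfl

theorem E_cons {𝔠 : LieSubalgebra ℝ 𝔤} (x : 𝔠) (w : List 𝔠) : E e (x :: w) = e x * E e w := by
  simp [E]

theorem Pre.nf2 (P : Pre e) {𝔫 b : LieIdeal ℝ 𝔤} {𝔠 : LieSubalgebra ℝ 𝔤}
    (hb : ∀ X ∈ b, ∃ Y ∈ 𝔫, ∃ Z ∈ 𝔠, X = Y + Z) {u : Γ} (hu : u ∈ B e b) :
    ∃ n ∈ B e 𝔫, ∃ w : List 𝔠, u = n * E e w := by
  refine P.induct (p := fun u => ∃ n ∈ B e 𝔫, ∃ w : List 𝔠, u = n * E e w) ?_ ?_ hu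
  · exact ⟨1, one_mem _, [], by simp [E_nil]⟩
  · rintro X hX u - ⟨n, hn, w, rfl⟩
    obtain ⟨Y, hY, Z, hZ, rfl⟩ := hb X hX
    obtain ⟨v, hv, h⟩ := P.k0 𝔫 Y Z (lie_mem_left ℝ 𝔤 𝔫 Y Z hY)
    refine ⟨e Y * (e Z * (v⁻¹ * n) * (e Z)⁻¹), mul_mem (mem_B hY)
      ((P.normal 𝔫).conj_mem _ (mul_mem (inv_mem hv) hn) _), ⟨Z, hZ⟩ :: w, ?_⟩
    rw [E_cons, eq_mul_inv_of_mul_eq h.symm]
    group

theorem Pre.nf3 (P : Pre e) {𝔫 𝔨 : LieIdeal ℝ 𝔤} (m : ℕ)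
    (hm : (fun J : LieIdeal ℝ 𝔤 => ⁅𝔫, J⁆)^[m] 𝔫 ≤ 𝔨) {u : Γ} (hu : u ∈ B e 𝔫) :
    ∃ Y ∈ 𝔫, ∃ κ ∈ B e 𝔨, u = e Y * κ := by
  have hle : ∀ l : ℕ, (fun J : LieIdeal ℝ 𝔤 => ⁅𝔫, J⁆)^[l] 𝔫 ≤ 𝔫 := by
    intro l
    cases l with
    | zero => exact le_rfl
    | succ l => rw [Function.iterate_succ_apply']; exact LieSubmodule.lie_le_left _ _
  have key : ∀ l : ℕ, ∃ Y ∈ 𝔫, ∃ κ ∈ B e ((fun J : LieIdeal ℝ 𝔤 => ⁅𝔫, J⁆)^[l] 𝔫),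
      u = e Y * κ := by
    intro l
    induction l with
    | zero => exact ⟨0, zero_mem _, u, hu, by rw [e_zero P.add, one_mul]⟩
    | succ l ih =>
      obtain ⟨Y, hY, κ, hκ, rfl⟩ := ih
      rw [Function.iterate_succ_apply']
      exact P.step (hle l) (fun R hR X hX => LieSubmodule.lie_mem_lie hR hX) hκ Y hY
  obtain ⟨Y, hY, κ, hκ, h⟩ := key m
  exact ⟨Y, hY, κ, B_mono hm hκ, h⟩

theorem pow_mul_mem {H : Subgroup Γ} (hH : H.Normal) (a : Γ) {n : Γ} (hn : n ∈ H) (M : ℕ) :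
    ∃ n' ∈ H, (a * n) ^ M = a ^ M * n' := by
  induction M with
  | zero => exact ⟨1, one_mem _, by simp⟩
  | succ M ih =>
    obtain ⟨n', hn', h⟩ := ih
    refine ⟨(a⁻¹ * n' * a⁻¹⁻¹) * n, mul_mem (hH.conj_mem _ hn' _) hn, ?_⟩
    rw [pow_succ, h, pow_succ]
    group

end Grp

section Rep

variable {Γ : Type u} [Group Γ] {𝔤 : Type v} [LieRing 𝔤] [LieAlgebra ℝ 𝔤] {e : 𝔤 → Γ}
  {𝔸 : Type} [NormedRing 𝔸] [NormedAlgebra ℝ 𝔸] [FiniteDimensional ℝ 𝔸]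
  {ρ : Γ →* 𝔸} {τ : 𝔤 →ₗ[ℝ] 𝔸}

omit [FiniteDimensional ℝ 𝔸] in
theorem map_E (hex : ∀ X, ρ (e X) = exp (τ X)) {𝔠 : LieSubalgebra ℝ 𝔤} (w : List 𝔠) :
    ρ (E e w) = wprod (fun x : 𝔠 => τ x) w := by
  induction w with
  | nil => exact map_one ρ
  | cons x w ih =>
    rw [E_cons, map_mul, ih, hex]
    simp [wprod]

theorem Pre.conj_sub (P : Pre e) (hτ : IsLieMap τ) (hex : ∀ X, ρ (e X) = exp (τ X))
    {𝔧 : LieIdeal ℝ 𝔤} {g : Γ} (hg : g ∈ B e 𝔧) :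
    ∀ Z, ∃ J ∈ 𝔧, ρ g * τ Z * ρ g⁻¹ = τ (Z + J) := by
  refine P.induct (p := fun g => ∀ Z, ∃ J ∈ 𝔧, ρ g * τ Z * ρ g⁻¹ = τ (Z + J)) ?_ ?_ hg
  · intro Z
    exact ⟨0, zero_mem _, by simp⟩
  · intro X hX g _ ih Z
    obtain ⟨J, hJ, h⟩ := ih Z
    have h2 := exp_conj_sub_mem (τ X) (τ (Z + J)) (𝔧.toSubmodule.map τ) (by
      rintro _ ⟨y, hy, rfl⟩
      exact ⟨⁅X, y⁆, 𝔧.lie_mem hy, hτ X y⟩) ⟨⁅X, Z + J⁆, lie_mem_left ℝ 𝔤 𝔧 _ _ hX, hτ _ _⟩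
    obtain ⟨J', hJ', h'⟩ := h2
    refine ⟨J + J', 𝔧.add_mem hJ hJ', ?_⟩
    rw [mul_inv_rev, map_mul, map_mul, ← e_neg P.add, hex, hex, map_neg, ← add_assoc, map_add, h',
      ← h]
    noncomm_ring

theorem Pre.conj_word (P : Pre e) (hτ : IsLieMap τ) (hex : ∀ X, ρ (e X) = exp (τ X))
    {𝔠 : LieSubalgebra ℝ 𝔤} (w : List 𝔠) :
    ∀ Z ∈ 𝔠, ∃ Z' ∈ 𝔠, ρ (E e w) * τ Z * ρ (E e w)⁻¹ = τ Z' := by
  induction w with
  | nil => intro Z hZ; exact ⟨Z, hZ, by simp [E_nil]⟩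
  | cons x w ih =>
    intro Z hZ
    obtain ⟨Z', hZ', h⟩ := ih Z hZ
    obtain ⟨Z'', hZ'', h'⟩ := exp_conj_mem (τ x) (τ Z') (𝔠.toSubmodule.map τ) (by
      rintro _ ⟨y, hy, rfl⟩
      exact ⟨⁅(x : 𝔤), y⁆, 𝔠.lie_mem x.2 hy, hτ _ y⟩) ⟨Z', hZ', rfl⟩
    refine ⟨Z'', hZ'', ?_⟩
    rw [E_cons, mul_inv_rev, map_mul, map_mul, ← e_neg P.add, hex, hex, map_neg, h', ← h]
    noncomm_ring

theorem Pre.comm (P : Pre e) (hτ : IsLieMap τ) (hex : ∀ X, ρ (e X) = exp (τ X))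
    {𝔧 : LieIdeal ℝ 𝔤} {𝔠 : LieSubalgebra ℝ 𝔤} (hkj : ∀ X, τ X = 0 → X ∈ 𝔧)
    (hinf : ∀ X ∈ 𝔠, X ∈ 𝔧 → X = 0) {g : Γ} (hg : g ∈ B e 𝔧) (w : List 𝔠)
    (h : ρ (g * E e w) = 1) (z : 𝔠) : Commute (wprod (fun x : 𝔠 => τ x) w) (τ z) := by
  obtain ⟨Z', hZ', h1⟩ := P.conj_word hτ hex w z z.2
  obtain ⟨J, hJ, h2⟩ := P.conj_sub hτ hex hg Z'
  have h3 : ρ (g * E e w)⁻¹ = 1 := by
    have := map_mul ρ (g * E e w) (g * E e w)⁻¹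
    rwa [mul_inv_cancel, map_one, h, one_mul, eq_comm] at this
  have h4 : τ (Z' + J) = τ z := by
    rw [← h2, ← h1]
    rw [mul_inv_rev, map_mul] at h3
    rw [map_mul] at h
    calc _ = (ρ g * ρ (E e w)) * τ z * (ρ (E e w)⁻¹ * ρ g⁻¹) := by noncomm_ring
      _ = _ := by rw [h, h3, one_mul, mul_one]
  have h5 : Z' + J - z ∈ 𝔧 := hkj _ (by rw [map_sub, h4, sub_self])
  have h6 : Z' - z = 0 := by
    refine hinf _ (𝔠.sub_mem hZ' z.2) ?_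
    have := 𝔧.sub_mem h5 hJ
    rwa [show Z' + J - z - J = Z' - z by abel] at this
  rw [sub_eq_zero.1 h6] at h1
  rw [← map_E hex]
  have h7 : ρ (E e w)⁻¹ * ρ (E e w) = 1 := by rw [← map_mul, inv_mul_cancel, map_one]
  calc ρ (E e w) * τ z = ρ (E e w) * τ z * (ρ (E e w)⁻¹ * ρ (E e w)) := by rw [h7, mul_one]
    _ = _ := by rw [← mul_assoc, h1]

omit [FiniteDimensional ℝ 𝔸] in
theorem Pre.map_ker (P : Pre e) (hex : ∀ X, ρ (e X) = exp (τ X)) {𝔨 : LieIdeal ℝ 𝔤}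
    (hk : ∀ X ∈ 𝔨, τ X = 0) {κ : Γ} (hκ : κ ∈ B e 𝔨) : ρ κ = 1 := by
  refine P.induct (p := fun κ => ρ κ = 1) (map_one ρ) ?_ hκ
  intro X hX u _ ih
  rw [map_mul, ih, hex, hk X hX, exp_zero, one_mul]

theorem pow_eq_one_of_mul {A : Type*} [Monoid A] {a c : A} {M : ℕ} (h : a * c = 1)
    (hc : c ^ M = 1) : a ^ M = 1 := by
  have key : ∀ n : ℕ, a ^ n * c ^ n = 1 := by
    intro n
    induction n with
    | zero => simp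
    | succ n ih => rw [pow_succ, pow_succ', mul_assoc, ← mul_assoc a c, h, one_mul, ih]
  have := key M
  rwa [hc, mul_one] at this

omit [FiniteDimensional ℝ 𝔸] in
theorem isNilpotent_of_nsmul {a : 𝔸} {M : ℕ} (hM : 0 < M) (h : IsNilpotent (M • a)) :
    IsNilpotent a := by
  have h1 : a = ((M : ℝ)⁻¹) • (M • a) := by
    rw [← Nat.cast_smul_eq_nsmul ℝ, smul_smul, inv_mul_cancel₀ (by positivity), one_smul]
  rw [h1]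
  exact h.smul _

end Rep

end Detect

end Pool.Agent.Lib.MP_0cde51_al
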