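import Pool.Agent.Lib.MP_0cde51_al.DetectA

/-! Detection of integer characters, given the nilpotent ideal. -/

namespace Pool.Agent.Lib.MP_0cde51_al

open Filter Topology NormedSpace

universe u v w

namespace Detect

section Core

variable {Γ : Type u} [Group Γ] {𝔤 : Type v} [LieRing 𝔤] [LieAlgebra ℝ 𝔤] {e : 𝔤 → Γ}
  {𝔸 : Type} [NormedRing 𝔸] [NormedAlgebra ℝ 𝔸] [FiniteDimensional ℝ 𝔸]

/-- The data used in the two normal-form arguments. -/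
structure Ctx (e : 𝔤 → Γ) (ρ : Γ →* 𝔸) (τ : 𝔤 →ₗ[ℝ] 𝔸) (𝔨 𝔫 𝔧 b : LieIdeal ℝ 𝔤)
    (𝔠 : LieSubalgebra ℝ 𝔤) (M : ℕ) : Prop where
  pre : Pre e
  lie : IsLieMap τ
  hex : ∀ X, ρ (e X) = exp (τ X)
  ker : ∀ X, X ∈ 𝔨 ↔ τ X = 0
  kj : 𝔨 ≤ 𝔧
  nj : 𝔫 ≤ 𝔧
  nil : ∀ X ∈ 𝔫, IsNilpotent (τ X)
  iter : ∃ m : ℕ, (fun J : LieIdeal ℝ 𝔤 => ⁅𝔫, J⁆)^[m] 𝔫 ≤ 𝔨
  inf : ∀ X ∈ 𝔠, X ∈ 𝔧 → X = 0
  dec : ∀ X ∈ b, ∃ Y ∈ 𝔫, ∃ Z ∈ 𝔠, X = Y + Z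
  pos : 0 < M
  unif : ∀ w : List 𝔠, (∀ z : 𝔠, Commute (wprod (fun x : 𝔠 => τ x) w) (τ z)) →
    wprod (fun x : 𝔠 => τ x) w ^ M = 1

variable {ρ : Γ →* 𝔸} {τ : 𝔤 →ₗ[ℝ] 𝔸} {𝔨 𝔫 𝔧 b : LieIdeal ℝ 𝔤} {𝔠 : LieSubalgebra ℝ 𝔤} {M : ℕ}

theorem Ctx.e1 (C : Ctx e ρ τ 𝔨 𝔫 𝔧 b 𝔠 M) {u : Γ} (hu : u ∈ B e b) (h : ρ u = 1) :
    ∃ κ ∈ B e 𝔨, ∃ w : List 𝔠, u = κ * E e w ∧
      ∀ z : 𝔠, Commute (wprod (fun x : 𝔠 => τ x) w) (τ z) := by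
  obtain ⟨n, hn, w, rfl⟩ := C.pre.nf2 C.dec hu
  have hc := C.pre.comm C.lie C.hex (fun X hX => C.kj ((C.ker X).2 hX)) C.inf (B_mono C.nj hn) w h
  refine ⟨n, ?_, w, rfl, hc⟩
  obtain ⟨m, hm⟩ := C.iter
  obtain ⟨Y, hY, κ, hκ, rfl⟩ := C.pre.nf3 m hm hn
  refine mul_mem (mem_B ((C.ker Y).2 ?_)) hκ
  rw [map_mul, map_mul, C.pre.map_ker C.hex (fun X hX => (C.ker X).1 hX) hκ, mul_one, C.hex,
    map_E C.hex] at h
  have h1 := pow_eq_one_of_mul h (C.unif w hc)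
  rw [← exp_nsmul'] at h1
  have h2 := eq_zero_of_exp_eq_one ((C.nil Y hY).smul M) h1
  rw [← Nat.cast_smul_eq_nsmul ℝ] at h2
  have hM : (M : ℝ) ≠ 0 := by have := C.pos; positivity
  exact (smul_eq_zero.1 h2).resolve_left hM

theorem Ctx.e2 (C : Ctx e ρ τ 𝔨 𝔫 𝔧 b 𝔠 M) {δ : ℝ}
    (hδ : ∀ a y : 𝔸, ‖a‖ < δ → IsNilpotent y → exp a = exp y → IsNilpotent a)
    {R : 𝔤} (hR : R ∈ 𝔧) (hs : ‖M • τ R‖ < δ) {u : Γ} (hu : u ∈ B e b)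
    (h : ρ (e R * u) = 1) : IsNilpotent (τ R) := by
  obtain ⟨n, hn, w, rfl⟩ := C.pre.nf2 C.dec hu
  rw [← mul_assoc] at h
  have hc := C.pre.comm C.lie C.hex (fun X hX => C.kj ((C.ker X).2 hX)) C.inf
    (mul_mem (mem_B hR) (B_mono C.nj hn)) w h
  rw [map_mul, map_E C.hex] at h
  have h1 := pow_eq_one_of_mul h (C.unif w hc)
  obtain ⟨n', hn', h2⟩ := pow_mul_mem (C.pre.normal 𝔫) (e R) hn M
  obtain ⟨m, hm⟩ := C.iter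
  obtain ⟨Y, hY, κ, hκ, rfl⟩ := C.pre.nf3 m hm hn'
  rw [← map_pow, h2, map_mul, map_mul, C.pre.map_ker C.hex (fun X hX => (C.ker X).1 hX) hκ,
    mul_one, map_pow, C.hex, C.hex, ← exp_nsmul'] at h1
  refine isNilpotent_of_nsmul C.pos (hδ _ (-τ Y) hs (C.nil Y hY).neg ?_)
  calc exp (M • τ R) = exp (M • τ R) * (exp (τ Y) * exp (-τ Y)) := by
        rw [exp_mul_exp_neg, mul_one]
    _ = _ := by rw [← mul_assoc, h1, one_mul]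

end Core

/-- Simultaneous approximation by integers. -/
theorem exists_approx {ι : Type*} [Fintype ι] (r : ι → ℝ) {ε : ℝ} (hε : 0 < ε) :
    ∃ n : ℕ, 0 < n ∧ ∃ m : ι → ℤ, ∀ i, |n * r i - m i| < ε := by
  have h := mapClusterPt_zero_atTop_nsmul (fun i => (r i : UnitAddCircle))
  have h1 := (mapClusterPt_iff_frequently.1 h) _ (Metric.ball_mem_nhds 0 hε)
  obtain ⟨n, hn, h0⟩ := (h1.and_eventually (eventually_gt_atTop 0)).exists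
  refine ⟨n, h0, fun i => round (n * r i), fun i => ?_⟩
  rw [mem_ball_zero_iff] at hn
  have h2 := (norm_le_pi_norm _ i).trans_lt hn
  rw [Pi.smul_apply, ← AddCircle.coe_nsmul, UnitAddCircle.norm_eq, nsmul_eq_mul] at h2
  exact h2

/-- A multiple of an element of the real span of a subgroup is close to the subgroup. -/
theorem exists_near {V A : Type*} [AddCommGroup V] [Module ℝ V] [NormedAddCommGroup A]
    [NormedSpace ℝ A] (τ : V →ₗ[ℝ] A) (Λ : AddSubgroup V) (c j : Submodule ℝ V)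
    (hc : ∀ x ∈ c, x ∈ Λ) (hsup : c ⊔ j = ⊤) {X : V} (hX : X ∈ Submodule.span ℝ (Λ : Set V))
    {ε : ℝ} (hε : 0 < ε) : ∃ n : ℕ, 0 < n ∧ ∃ R ∈ j, ‖τ R‖ < ε ∧ n • X - R ∈ Λ := by
  obtain ⟨d, f, g, rfl⟩ := Submodule.mem_span_set'.1 hX
  have hdec : ∀ i, ∃ y ∈ c, ∃ z ∈ j, y + z = (g i : V) := fun i =>
    Submodule.mem_sup.1 (hsup ▸ Submodule.mem_top)
  choose y hy z hz hyz using hdec
  have hzΛ : ∀ i, z i ∈ Λ := fun i => by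
    have := Λ.sub_mem (g i).2 (hc _ (hy i))
    rwa [← hyz, add_sub_cancel_left] at this
  have hT : 0 < 1 + ∑ i, ‖τ (z i)‖ := by positivity
  obtain ⟨n, hn, m, hm⟩ := exists_approx f (div_pos hε hT)
  refine ⟨n, hn, ∑ i, (n * f i - m i) • z i, j.sum_mem fun i _ => j.smul_mem _ (hz i), ?_, ?_⟩
  · rw [map_sum]
    refine (norm_sum_le _ _).trans_lt ?_
    have h1 : ∑ i, ‖τ ((n * f i - m i) • z i)‖ ≤
        ∑ i, (ε / (1 + ∑ i, ‖τ (z i)‖)) * ‖τ (z i)‖ := by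
      refine Finset.sum_le_sum fun i _ => ?_
      rw [map_smul, norm_smul, Real.norm_eq_abs]
      exact mul_le_mul_of_nonneg_right (hm i).le (norm_nonneg _)
    refine h1.trans_lt ?_
    rw [← Finset.mul_sum, div_mul_eq_mul_div, div_lt_iff₀ hT]
    nlinarith
  · rw [Finset.smul_sum, ← Finset.sum_sub_distrib]
    refine Λ.sum_mem fun i _ => ?_
    have : n • f i • (g i : V) - (n * f i - m i) • z i = (n * f i) • y i + m i • z i := by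
      rw [← hyz, ← Nat.cast_smul_eq_nsmul ℝ, ← Int.cast_smul_eq_zsmul ℝ]
      module
    rw [this]
    exact Λ.add_mem (hc _ (c.smul_mem _ (hy i))) (Λ.zsmul_mem (hzΛ i) _)

end Detect

end Pool.Agent.Lib.MP_0cde51_al
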