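import Pool.Agent.Lib.MP_0cde51_al.DetectB

/-! Detection of integer characters on the group, given the nilpotent ideal. -/

namespace Pool.Agent.Lib.MP_0cde51_al

open Filter Topology NormedSpace

universe u v w

theorem IsSetup.exists_ker {G : Type u} [Group G] [TopologicalSpace G] {𝔤 : Type v} [LieRing 𝔤]
    [LieAlgebra ℝ 𝔤] {I : Type w} {k : I → LieIdeal ℝ 𝔤} {N : I → Subgroup G} {ex : 𝔤 → G}
    (S : IsSetup k N ex) {𝔸 : Type} [NormedRing 𝔸] [NormedAlgebra ℝ 𝔸] [FiniteDimensional ℝ 𝔸]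
    (ρ : G →* 𝔸) (hρ : Continuous ρ) (τ : 𝔤 →ₗ[ℝ] 𝔸) (hex : ∀ X, ρ (ex X) = exp (τ X)) :
    ∃ j, (∀ x ∈ N j, ρ x = 1) ∧ ∀ X ∈ k j, τ X = 0 := by
  have hU : ρ ⁻¹' Metric.ball 1 (1 / 2) ∈ 𝓝 (1 : G) := by
    refine hρ.continuousAt.preimage_mem_nhds ?_
    rw [map_one]
    exact Metric.ball_mem_nhds _ (by norm_num)
  obtain ⟨j, hj⟩ := S.nhds _ hU
  have h1 : ∀ x ∈ N j, ρ x = 1 := by
    intro x hx
    refine eq_one_of_pow_near _ fun n => ?_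
    have := hj ((N j).pow_mem hx n)
    rwa [Set.mem_preimage, mem_ball_iff_norm, map_pow] at this
  refine ⟨j, h1, fun X hX => eq_of_exp_smul_eq fun t => ?_⟩
  rw [← map_smul, ← hex, h1 _ (S.ex_mem j _ ((k j).smul_mem t hX)), smul_zero, exp_zero]

namespace Detect

variable {G : Type u} [Group G] [TopologicalSpace G] {𝔤 : Type v} [LieRing 𝔤]
  [LieAlgebra ℝ 𝔤] {I : Type w} {k : I → LieIdeal ℝ 𝔤} {N : I → Subgroup G} {ex : 𝔤 → G}

theorem pre_quot [IsTopologicalGroup G] [ConnectedSpace G] (S : IsSetup k N ex) (j : I)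
    [(N j).Normal] : Pre fun X => (ex X : G ⧸ N j) := by
  refine ⟨fun X Y h => by rw [S.ex_add X Y h, QuotientGroup.mk_mul], fun b X Y hY => ?_,
    fun b X Y h => ?_, fun g => ?_⟩
  · obtain ⟨Y', hY', h⟩ := S.conj j b X Y hY
    refine ⟨Y', hY', ?_⟩
    rw [← QuotientGroup.mk_inv, ← QuotientGroup.mk_mul, ← QuotientGroup.mk_mul]
    exact (QuotientGroup.eq.2 h).symm
  · obtain ⟨u, hu, h⟩ := S.k0 j b X Y h
    refine ⟨u, ?_, ?_⟩
    · have := Subgroup.mem_map_of_mem (QuotientGroup.mk' (N j)) hu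
      rwa [MonoidHom.map_closure, Set.image_image] at this
    · rw [← QuotientGroup.mk_mul, ← QuotientGroup.mk_mul]
      exact (QuotientGroup.eq.2 h).symm
  · obtain ⟨g, rfl⟩ := QuotientGroup.mk_surjective g
    let H : Subgroup G := (B (fun X => (ex X : G ⧸ N j)) ⊤).comap (QuotientGroup.mk' (N j))
    have hn : (H : Set G) ∈ 𝓝 (1 : G) := by
      filter_upwards [S.small j 0 (fun _ _ => rfl) 1 one_pos] with g hg
      obtain ⟨X, hX, -⟩ := hg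
      change (g : G ⧸ N j) ∈ B (fun X => (ex X : G ⧸ N j)) ⊤
      rw [← QuotientGroup.eq.2 hX]
      exact mem_B (e := fun X => (ex X : G ⧸ N j)) (LieSubmodule.mem_top X)
    have ho : IsOpen (H : Set G) := H.isOpen_of_mem_nhds hn
    have hc : IsClopen (H : Set G) := ⟨H.isClosed_of_isOpen ho, ho⟩
    have : g ∈ (H : Set G) := by rw [hc.eq_univ ⟨1, H.one_mem⟩]; trivial
    exact this

theorem chi_pow {χ : G → ℤ} (hadd : ∀ x ∈ Kills G, ∀ y ∈ Kills G, χ (x * y) = χ x + χ y)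
    {x : G} (hx : x ∈ Kills G) (n : ℕ) : χ (x ^ n) = n * χ x := by
  induction n with
  | zero =>
    have := hadd 1 (one_mem _) 1 (one_mem _)
    rw [mul_one] at this
    rw [pow_zero]
    simp only [Nat.cast_zero, zero_mul]
    omega
  | succ n ih =>
    rw [pow_succ, hadd _ (pow_mem hx n) _ hx, ih]
    push_cast
    ring

/-- A real functional that vanishes on the kernel of an additive surjection gives a continuous
character. -/
theorem ell_eq_zero [IsTopologicalGroup G] (S : IsSetup k N ex) (j : I) {Q : Type*} [Group Q]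
    (π : G →* Q) (hπ : ∀ x ∈ N j, π x = 1) (hadd : ∀ X Y, π (ex (X + Y)) = π (ex X) * π (ex Y))
    (hsurj : ∀ g, ∃ X, π (ex X) = π g) (ℓ : 𝔤 →ₗ[ℝ] ℝ) (hℓ : ∀ X, π (ex X) = 1 → ℓ X = 0)
    {h : G} (hh : h ∈ Kills G) {X : 𝔤} (hX : π (ex X) = π h) : ℓ X = 0 := by
  choose s hs using hsurj
  have key : ∀ X Y, π (ex X) = π (ex Y) → ℓ X = ℓ Y := by
    intro X Y h
    have h1 := hadd (X - Y) Y
    rw [sub_add_cancel, h] at h1
    have h2 := hℓ _ (right_eq_mul.1 h1)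
    rwa [map_sub, sub_eq_zero] at h2
  have h0 : ℓ (s 1) = 0 := hℓ _ (by rw [hs, map_one])
  let ψ : G →* ℝ :=
    { toFun := fun g => Real.exp (ℓ (s g))
      map_one' := by rw [h0, Real.exp_zero]
      map_mul' := fun x y => by
        rw [← Real.exp_add, ← map_add, key (s (x * y)) (s x + s y) (by rw [hadd, hs, hs, hs, map_mul])] }
  have hc : Continuous ψ := by
    refine continuous_of_continuousAt_one ψ (Real.continuous_exp.continuousAt.comp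
      (f := fun g => ℓ (s g)) ?_)
    rw [ContinuousAt, h0, Metric.tendsto_nhds]
    intro ε hε
    filter_upwards [S.small j ℓ (fun x hx => hℓ x (hπ _ (S.ex_mem j x hx))) ε hε] with g hg
    obtain ⟨Y, hY, hl⟩ := hg
    have h1 := hπ _ hY
    rw [map_mul, map_inv, inv_mul_eq_one] at h1
    rwa [Real.dist_eq, sub_zero, key (s g) Y (by rw [hs, h1])]
  have h1 : Real.exp (ℓ (s h)) = 1 := hh ℝ ψ hc
  rw [key X (s h) (by rw [hs, hX])]
  exact Real.exp_eq_one_iff _ |>.1 h1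

theorem detect_of_nil [IsTopologicalGroup G] [ConnectedSpace G] (S : IsSetup k N ex)
    (χ : G → ℤ) (hadd : ∀ x ∈ Kills G, ∀ y ∈ Kills G, χ (x * y) = χ x + χ y)
    (i : I) (hχ : ∀ x ∈ Kills G, x ∈ N i → χ x = 0)
    {𝔸 : Type} [NormedRing 𝔸] [NormedAlgebra ℝ 𝔸] [FiniteDimensional ℝ 𝔸]
    (ρ : G →* 𝔸) (hρ : Continuous ρ) (τ : 𝔤 →ₗ[ℝ] 𝔸) (hτ : IsLieMap τ)
    (hex : ∀ X, ρ (ex X) = exp (τ X)) (hker : ∀ X, τ X = 0 → X ∈ k i)
    (𝔧 : LieIdeal ℝ 𝔤) (hkj : ∀ X, τ X = 0 → X ∈ 𝔧)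
    (𝔫 : LieIdeal ℝ 𝔤) (hn1 : ∀ x, x ∈ 𝔫 ↔ x ∈ 𝔧 ∧ IsNilpotent (τ x))
    (hn2 : ∀ x : 𝔤, ∀ y ∈ 𝔧, ⁅x, y⁆ ∈ 𝔫)
    (hn3 : ∃ m : ℕ, ∀ x ∈ (fun J : LieIdeal ℝ 𝔤 => ⁅𝔫, J⁆)^[m] 𝔫, τ x = 0)
    (𝔠 : LieSubalgebra ℝ 𝔤) (hinf : 𝔠.toSubmodule ⊓ 𝔧.toSubmodule = ⊥)
    (hsup : 𝔠.toSubmodule ⊔ 𝔧.toSubmodule = ⊤) (M : ℕ) (hM : 0 < M) (hU : IsUnifExp 𝔠 M)
    (hvan : ∀ w : List 𝔠, (∀ z : 𝔠, Commute (wprod (fun x : 𝔠 => τ x) w) (τ z)) →
      χ ((w.map fun x : 𝔠 => ex x).prod ^ M) = 0) :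
    ∀ x ∈ Kills G, χ x = 0 := by
  obtain ⟨j₀, hj1, hj2⟩ := S.exists_ker ρ hρ τ hex
  obtain ⟨j, -, -, hNi, hNj⟩ := S.dir i j₀
  have := S.normal j
  have hNn := S.normal i
  have P := pre_quot S j
  set e : 𝔤 → G ⧸ N j := fun X => (ex X : G ⧸ N j) with he
  let ρ' : G ⧸ N j →* 𝔸 := QuotientGroup.lift (N j) ρ fun x hx => hj1 x (hNj hx)
  have hρ' : ∀ x : G, ρ' (x : G ⧸ N j) = ρ x := fun x => rfl
  let 𝔨 : LieIdeal ℝ 𝔤 :=
    { LinearMap.ker τ with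
      lie_mem := fun {x y} hy => by
        change τ ⁅x, y⁆ = 0
        have hy' : τ y = 0 := hy
        rw [hτ, hy', mul_zero, zero_mul, sub_zero] }
  have hdec : ∀ x : 𝔤, ∃ c ∈ 𝔠, ∃ r ∈ 𝔧, c + r = x := fun x =>
    Submodule.mem_sup.1 (hsup ▸ Submodule.mem_top : x ∈ 𝔠.toSubmodule ⊔ 𝔧.toSubmodule)
  have hbr : ∀ x y : 𝔤, ⁅x, y⁆ ∈ 𝔫.toSubmodule ⊔ 𝔠.toSubmodule := by
    intro x y
    obtain ⟨c, hc, r, hr, rfl⟩ := hdec x
    obtain ⟨c', hc', r', hr', rfl⟩ := hdec y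
    rw [lie_add, add_lie, ← lie_skew r c']
    exact Submodule.add_mem _ (Submodule.add_mem _ (Submodule.mem_sup_right (𝔠.lie_mem hc hc'))
      (Submodule.mem_sup_left (𝔫.neg_mem (hn2 _ _ hr)))) (Submodule.mem_sup_left (hn2 _ _ hr'))
  let b : LieIdeal ℝ 𝔤 :=
    { 𝔫.toSubmodule ⊔ 𝔠.toSubmodule with lie_mem := fun {x y} _ => hbr x y }
  have hinf' : ∀ X ∈ 𝔠, X ∈ 𝔧 → X = 0 := fun X h1 h2 =>
    (Submodule.eq_bot_iff _).1 hinf X ⟨h1, h2⟩
  have hU' : ∀ w : List 𝔠, (∀ z : 𝔠, Commute (wprod (fun x : 𝔠 => τ x) w) (τ z)) →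
      ∀ (𝔹 : Type) [NormedRing 𝔹] [NormedAlgebra ℝ 𝔹] [FiniteDimensional ℝ 𝔹] (σ : 𝔤 →ₗ[ℝ] 𝔹),
        IsLieMap σ → wprod (fun x : 𝔠 => σ x) w ^ M = 1 := by
    intro w hw 𝔹 _ _ _ σ hσ
    refine hU w 𝔸 (τ ∘ₗ 𝔠.toSubmodule.subtype) (fun x y => hτ x y) ?_ hw 𝔹
      (σ ∘ₗ 𝔠.toSubmodule.subtype) (fun x y => hσ x y)
    rw [injective_iff_map_eq_zero]
    intro x hx
    exact Subtype.ext (hinf' _ x.2 (hkj _ hx))
  have C : Ctx e ρ' τ 𝔨 𝔫 𝔧 b 𝔠 M :=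
    { pre := P
      lie := hτ
      hex := hex
      ker := fun X => Iff.rfl
      kj := fun X hX => hkj X hX
      nj := fun X hX => ((hn1 X).1 hX).1
      nil := fun X hX => ((hn1 X).1 hX).2
      iter := hn3
      inf := hinf'
      dec := fun X hX => by
        obtain ⟨Y, hY, Z, hZ, h⟩ := Submodule.mem_sup.1 hX
        exact ⟨Y, hY, Z, hZ, h.symm⟩
      pos := hM
      unif := fun w hw => hU' w hw 𝔸 τ hτ }
  have E1 : ∀ x ∈ Kills G, (x : G ⧸ N j) ∈ B e b → χ x = 0 := by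
    intro x hx hb
    obtain ⟨κ, hκ, w, h1, h2⟩ := C.e1 hb (hx 𝔸 ρ hρ)
    have h3 : B e 𝔨 ≤ (N i).map (QuotientGroup.mk' (N j)) := by
      refine (Subgroup.closure_le _).2 ?_
      rintro _ ⟨X, hX, rfl⟩
      exact ⟨ex X, S.ex_mem i X (hker X hX), rfl⟩
    obtain ⟨y, hy, rfl⟩ := h3 hκ
    have h4 : E e w = ((E ex w : G) : G ⧸ N j) := by
      change _ = QuotientGroup.mk' (N j) (E ex w)
      rw [E, E, map_list_prod, List.map_map]
      rfl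
    have h5 : (y * E ex w)⁻¹ * x ∈ N j := by
      rw [← QuotientGroup.eq, h1, h4]
      rfl
    have h6 : (E ex w)⁻¹ * x ∈ N i := by
      have := mul_mem (hNn.conj_mem y hy (E ex w)⁻¹) (hNi h5)
      rwa [show (E ex w)⁻¹ * y * (E ex w)⁻¹⁻¹ * ((y * E ex w)⁻¹ * x) = (E ex w)⁻¹ * x by
        group] at this
    obtain ⟨y', hy', h7⟩ := pow_mul_mem hNn (E ex w) h6 M
    rw [mul_inv_cancel_left] at h7
    have h8 : E ex w ^ M ∈ Kills G := by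
      intro 𝔹 _ _ _ σ hσ
      obtain ⟨σ', hσ1, hσ2⟩ := S.rep 𝔹 σ hσ
      rw [map_pow, map_E hσ2]
      exact hU' w h2 𝔹 σ' hσ1
    have h9 : y' ∈ Kills G := by
      rw [← mul_mem_cancel_left h8, ← h7]
      exact pow_mem hx M
    have h10 := chi_pow hadd hx M
    rw [h7, hadd _ h8 _ h9, hχ _ h9 hy', show χ (E ex w ^ M) = 0 from hvan w h2] at h10
    have hM' : (M : ℤ) ≠ 0 := by positivity
    exact (mul_eq_zero.1 h10.symm).resolve_left hM'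
  intro h hh
  have hB := P.normal b
  let π : G →* (G ⧸ N j) ⧸ B e b := (QuotientGroup.mk' (B e b)).comp (QuotientGroup.mk' (N j))
  have hπ : ∀ x : G, π x = ((x : G ⧸ N j) : (G ⧸ N j) ⧸ B e b) := fun x => rfl
  have hπadd : ∀ X Y, π (ex (X + Y)) = π (ex X) * π (ex Y) := by
    intro X Y
    obtain ⟨u, hu, h1⟩ := P.k0 b X Y (hbr X Y)
    rw [hπ, hπ, hπ, ← QuotientGroup.mk_mul]
    change ((e (X + Y) : G ⧸ N j) : (G ⧸ N j) ⧸ B e b) = ((e X * e Y : G ⧸ N j) : _)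
    rw [h1, QuotientGroup.mk_mul_of_mem _ hu]
  have hsurj : ∀ g, ∃ X, π (ex X) = π g := by
    intro g
    obtain ⟨X, -, u, hu, h1⟩ := P.step (a := ⊤) (c := ⊤) (d := b) le_rfl
      (fun R _ X _ => hbr R X) (P.gen (g : G ⧸ N j)) 0 (LieSubmodule.mem_top _)
    rw [e_zero P.add, one_mul] at h1
    exact ⟨X, by rw [hπ, hπ, h1, QuotientGroup.mk_mul_of_mem _ hu]⟩
  have hπ0 : π (ex 0) = 1 := by rw [e_zero S.ex_add, map_one]
  let Λ : AddSubgroup 𝔤 :=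
    { carrier := {X | π (ex X) = 1}
      add_mem' := fun {X Y} hX hY => by
        change π (ex (X + Y)) = 1
        rw [hπadd, show π (ex X) = 1 from hX, show π (ex Y) = 1 from hY, one_mul]
      zero_mem' := hπ0
      neg_mem' := fun {X} hX => by
        change π (ex (-X)) = 1
        rw [e_neg S.ex_add, map_inv, show π (ex X) = 1 from hX, inv_one] }
  have hbΛ : ∀ X ∈ b, π (ex X) = 1 := fun X hX =>
    (QuotientGroup.eq_one_iff _).2 (mem_B (e := e) hX)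
  obtain ⟨X, hX⟩ := hsurj h
  by_cases hsp : X ∈ Submodule.span ℝ (Λ : Set 𝔤)
  · obtain ⟨δ, hδ, hδ'⟩ := exists_small_nilpotent (𝔸 := 𝔸)
    have hM' : (0 : ℝ) < M := by positivity
    obtain ⟨n, hn, R, hR, h1, h2⟩ := exists_near τ Λ 𝔠.toSubmodule 𝔧.toSubmodule
      (fun x hx => hbΛ x (Submodule.mem_sup_right hx)) hsup hsp (div_pos hδ hM')
    have h3 : π (ex R) = π (h ^ n) := by
      have h4 := hπadd (n • X - R) R
      rw [sub_add_cancel, show π (ex (n • X - R)) = 1 from h2, one_mul, e_nsmul S.ex_add,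
        map_pow, hX, ← map_pow] at h4
      exact h4.symm
    have h5 : (e R)⁻¹ * ((h ^ n : G) : G ⧸ N j) ∈ B e b := QuotientGroup.eq.1 h3
    have h6 : IsNilpotent (τ R) := by
      refine C.e2 hδ' hR ?_ h5 ?_
      · rw [← Nat.cast_smul_eq_nsmul ℝ, norm_smul, Real.norm_natCast]
        rwa [lt_div_iff₀' hM'] at h1
      · rw [mul_inv_cancel_left]
        exact pow_mem hh n 𝔸 ρ hρ
    have h7 : R ∈ b := Submodule.mem_sup_left ((hn1 R).2 ⟨hR, h6⟩)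
    have h8 := E1 _ (pow_mem hh n) ((mul_mem_cancel_left (inv_mem (mem_B h7))).1 h5)
    rw [chi_pow hadd hh] at h8
    have hn' : (n : ℤ) ≠ 0 := by positivity
    exact (mul_eq_zero.1 h8).resolve_left hn'
  · obtain ⟨ℓ, h1, h2⟩ := Submodule.exists_dual_map_eq_bot_of_notMem hsp inferInstance
    refine absurd (ell_eq_zero S j π (fun x hx => ?_) hπadd hsurj ℓ (fun Y hY => ?_) hh hX) h1
    · rw [hπ, (QuotientGroup.eq_one_iff x).2 hx, QuotientGroup.mk_one]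
    · have : ℓ Y ∈ (Submodule.span ℝ (Λ : Set 𝔤)).map ℓ :=
        Submodule.mem_map_of_mem (Submodule.subset_span hY)
      rwa [h2, Submodule.mem_bot] at this

end Detect

end Pool.Agent.Lib.MP_0cde51_al
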