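import Pool.Agent.Lib.MP_0cde51_al.Basic

/-! Levi subalgebras of pro-finite-dimensional Lie algebras, from three finite-dimensional facts. -/

namespace Pool.Agent.Lib.MP_0cde51_al.Levi

open LieAlgebra

universe v w

/-- The three finite-dimensional facts that are used. -/
structure Facts : Prop where
  self : ∀ (L : Type v) [LieRing L] [LieAlgebra ℝ L] [FiniteDimensional ℝ L] [IsKilling ℝ L]
    (J : LieIdeal ℝ L), ⁅J, J⁆ = J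
  quot : ∀ (L : Type v) [LieRing L] [LieAlgebra ℝ L] [FiniteDimensional ℝ L],
    IsKilling ℝ (L ⧸ radical ℝ L)
  step : ∀ (L : Type v) [LieRing L] [LieAlgebra ℝ L] [FiniteDimensional ℝ L],
    ¬ HasTrivialRadical ℝ L →
      ∃ p : LieSubalgebra ℝ L, p ≠ ⊤ ∧ p.toSubmodule ⊔ (radical ℝ L).toSubmodule = ⊤

section General

variable {L L' : Type*} [LieRing L] [LieAlgebra ℝ L] [LieRing L'] [LieAlgebra ℝ L']

/-- The quotient map as a morphism of Lie algebras. -/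
def mkQ (J : LieIdeal ℝ L) : L →ₗ⁅ℝ⁆ L ⧸ J :=
  { J.toSubmodule.mkQ with map_lie' := fun {_ _} => rfl }

theorem mkQ_surj (J : LieIdeal ℝ L) : Function.Surjective (mkQ J) :=
  J.toSubmodule.mkQ_surjective

theorem mkQ_eq_zero (J : LieIdeal ℝ L) (x : L) : mkQ J x = 0 ↔ x ∈ J :=
  Submodule.Quotient.mk_eq_zero J.toSubmodule

theorem map_derived_le (f : L →ₗ⁅ℝ⁆ L') (A : LieIdeal ℝ L) (B : LieIdeal ℝ L')
    (h : A.map f ≤ B) (n : ℕ) :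
    (derivedSeriesOfIdeal ℝ L n A).map f ≤ derivedSeriesOfIdeal ℝ L' n B := by
  induction n with
  | zero => exact h
  | succ n ih =>
    rw [derivedSeriesOfIdeal_succ, derivedSeriesOfIdeal_succ]
    exact (LieIdeal.map_bracket_le f).trans (LieSubmodule.mono_lie ih ih)

theorem map_derived_eq (f : L →ₗ⁅ℝ⁆ L') (hf : Function.Surjective f) (A : LieIdeal ℝ L)
    (hA : ⁅A.map f, A.map f⁆ = A.map f) (n : ℕ) :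
    (derivedSeriesOfIdeal ℝ L n A).map f = A.map f := by
  induction n with
  | zero => rfl
  | succ n ih => rw [derivedSeriesOfIdeal_succ, LieIdeal.map_bracket_eq f hf, ih, hA]

theorem derived_eq (A : LieIdeal ℝ L) (hA : ⁅A, A⁆ = A) (n : ℕ) :
    derivedSeriesOfIdeal ℝ L n A = A := by
  induction n with
  | zero => rfl
  | succ n ih => rw [derivedSeriesOfIdeal_succ, ih, hA]

theorem exists_derived_comap_radical [FiniteDimensional ℝ L'] (f : L →ₗ⁅ℝ⁆ L') :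
    ∃ n : ℕ, ∀ x ∈ derivedSeriesOfIdeal ℝ L n ((radical ℝ L').comap f), f x = 0 := by
  obtain ⟨n, hn⟩ := IsSolvable.solvable ℝ (radical ℝ L')
  rw [LieIdeal.derivedSeries_eq_bot_iff] at hn
  refine ⟨n, fun x hx => ?_⟩
  have h1 := map_derived_le f _ _ (LieIdeal.map_comap_le (f := f) (J := radical ℝ L')) n
    (LieIdeal.mem_map hx)
  rw [hn] at h1
  exact (LieSubmodule.mem_bot _).1 h1

end General

variable {𝔤 : Type v} [LieRing 𝔤] [LieAlgebra ℝ 𝔤] {I : Type w} {k : I → LieIdeal ℝ 𝔤}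

/-- closed subspaces -/
def Closed (k : I → LieIdeal ℝ 𝔤) (W : Submodule ℝ 𝔤) : Prop :=
  ∀ x, (∀ i, x ∈ W ⊔ (k i).toSubmodule) → x ∈ W

/-- subalgebras that map onto every semisimple quotient by an open ideal -/
def Onto (k : I → LieIdeal ℝ 𝔤) (𝔰 : LieSubalgebra ℝ 𝔤) : Prop :=
  ∀ (Y : Type v) [LieRing Y] [LieAlgebra ℝ Y] [FiniteDimensional ℝ Y] [IsKilling ℝ Y]
    (ψ : 𝔤 →ₗ⁅ℝ⁆ Y), Function.Surjective ψ → (∃ i, ∀ x ∈ k i, ψ x = 0) →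
    ∀ y, ∃ x ∈ 𝔰, ψ x = y

/-- subalgebras all of whose quotients by open ideals are semisimple -/
def Semi (k : I → LieIdeal ℝ 𝔤) (𝔰 : LieSubalgebra ℝ 𝔤) : Prop :=
  ∀ (X : Type v) [LieRing X] [LieAlgebra ℝ X] [FiniteDimensional ℝ X]
    (π : 𝔰 →ₗ⁅ℝ⁆ X), Function.Surjective π → (∃ i, ∀ x : 𝔰, (x : 𝔤) ∈ k i → π x = 0) →
    IsKilling ℝ X

theorem fd_quot (h : IsProAlg k) (𝔨 : LieIdeal ℝ 𝔤) (h𝔨 : ∃ i, k i ≤ 𝔨) :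
    FiniteDimensional ℝ (𝔤 ⧸ 𝔨) := by
  obtain ⟨i, hi⟩ := h𝔨
  have := h.fd i
  have hle : (k i).toSubmodule ≤ 𝔨.toSubmodule := fun x hx => hi hx
  exact Module.Finite.of_surjective (Submodule.factor hle) (Submodule.factor_surjective hle)

theorem exists_quot (h : IsProAlg k) (𝔰 : LieSubalgebra ℝ 𝔤) (𝔨 : LieIdeal ℝ 𝔤)
    (h𝔨 : ∃ i, k i ≤ 𝔨) :
    ∃ (X : Type v) (_ : LieRing X) (_ : LieAlgebra ℝ X) (_ : FiniteDimensional ℝ X)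
      (π : 𝔰 →ₗ⁅ℝ⁆ X), Function.Surjective π ∧ ∀ x : 𝔰, π x = 0 ↔ (x : 𝔤) ∈ 𝔨 := by
  have := fd_quot h 𝔨 h𝔨
  refine ⟨((mkQ 𝔨).comp 𝔰.incl).range, inferInstance, inferInstance, inferInstance,
    ((mkQ 𝔨).comp 𝔰.incl).rangeRestrict, LieHom.surjective_rangeRestrict _, fun x => ?_⟩
  rw [← mkQ_eq_zero, Subtype.ext_iff]
  rfl

theorem exists_minimal (h : IsProAlg k) :
    ∃ 𝔰 : LieSubalgebra ℝ 𝔤, Closed k 𝔰.toSubmodule ∧ Onto k 𝔰 ∧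
      ∀ 𝔱 : LieSubalgebra ℝ 𝔤, Closed k 𝔱.toSubmodule → Onto k 𝔱 → 𝔱 ≤ 𝔰 → 𝔰 ≤ 𝔱 := by
  have key := @zorn_le_nonempty₀ (LieSubalgebra ℝ 𝔤)ᵒᵈ _
    {𝔰 : LieSubalgebra ℝ 𝔤 | Closed k 𝔰.toSubmodule ∧ Onto k 𝔰} ?_ (⊤ : LieSubalgebra ℝ 𝔤) ?_
  · obtain ⟨m, -, hm⟩ := key
    exact ⟨m, hm.1.1, hm.1.2, fun 𝔱 h1 h2 h3 => hm.2 (y := 𝔱) ⟨h1, h2⟩ h3⟩
  · intro c hc hch y hy
    let c' : Set (LieSubalgebra ℝ 𝔤) := c
    have hle : ∀ z ∈ c', sInf c' ≤ z := fun z hz => sInf_le hz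
    refine ⟨(sInf c' : LieSubalgebra ℝ 𝔤), ⟨?_, ?_⟩, fun z hz => hle z hz⟩
    · intro x hx
      rw [LieSubalgebra.sInf_toSubmodule, Submodule.mem_sInf]
      rintro _ ⟨s, hs, rfl⟩
      refine (hc hs).1 x fun i => ?_
      have h1 : (sInf c').toSubmodule ≤ s.toSubmodule := fun a ha => hle s hs ha
      exact sup_le_sup_right h1 _ (hx i)
    · intro Y _ _ _ _ ψ hψ ⟨i, hi⟩ z
      obtain ⟨_, ⟨s, hs, rfl⟩, hW⟩ := h.lc {(s : Submodule ℝ 𝔤) | s ∈ c'} ⟨_, y, hy, rfl⟩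
        (by
          rintro _ ⟨s, hs, rfl⟩ _ ⟨t, ht, rfl⟩
          rcases hch.total hs ht with h1 | h1
          · exact ⟨_, ⟨t, ht, rfl⟩, fun a ha => h1 ha, le_rfl⟩
          · exact ⟨_, ⟨s, hs, rfl⟩, le_rfl, fun a ha => h1 ha⟩)
        (by
          rintro _ ⟨s, hs, rfl⟩
          exact (hc hs).1) i
      obtain ⟨x, hx, rfl⟩ := (hc hs).2 Y ψ hψ ⟨i, hi⟩ z
      obtain ⟨a, ha, b, hb, rfl⟩ := Submodule.mem_sup.1 (hW hx)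
      exact ⟨a, ha, by rw [map_add, hi b hb, add_zero]⟩
  · exact ⟨fun x _ => trivial, fun Y _ _ _ _ ψ hψ _ y => (hψ y).imp fun x hx => ⟨trivial, hx⟩⟩

theorem semi_of_minimal (F : Facts.{v}) {𝔰 : LieSubalgebra ℝ 𝔤} (hc : Closed k 𝔰.toSubmodule)
    (ho : Onto k 𝔰)
    (hm : ∀ 𝔱 : LieSubalgebra ℝ 𝔤, Closed k 𝔱.toSubmodule → Onto k 𝔱 → 𝔱 ≤ 𝔰 → 𝔰 ≤ 𝔱) :
    Semi k 𝔰 := by
  intro X _ _ _ π hπ ⟨i, hi⟩
  suffices HasTrivialRadical ℝ X from inferInstance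
  by_contra hX
  obtain ⟨p, hp, hsup⟩ := F.step X hX
  let 𝔱 : LieSubalgebra ℝ 𝔤 := (p.comap π).map 𝔰.incl
  have hmem : ∀ x : 𝔰, (x : 𝔤) ∈ 𝔱 ↔ π x ∈ p := by
    intro x
    refine ⟨?_, fun hx => (LieSubalgebra.mem_map _ _ _).2 ⟨x, hx, rfl⟩⟩
    intro hx
    obtain ⟨y, hy, hyx⟩ := (LieSubalgebra.mem_map _ _ _).1 hx
    obtain rfl : y = x := Subtype.ext hyx
    exact hy
  have hle : 𝔱 ≤ 𝔰 := by
    intro x hx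
    obtain ⟨y, -, rfl⟩ := (LieSubalgebra.mem_map _ _ _).1 hx
    exact y.2
  have hle' : 𝔱.toSubmodule ≤ 𝔰.toSubmodule := fun a ha => hle ha
  have h1 : 𝔰 ≤ 𝔱 := by
    refine hm 𝔱 (fun x hx => ?_) ?_ hle
    · have hxs : x ∈ 𝔰 := hc x fun l => sup_le_sup_right hle' _ (hx l)
      obtain ⟨a, ha, b, hb, rfl⟩ := Submodule.mem_sup.1 (hx i)
      have has : a ∈ 𝔰 := hle ha
      have hbs : b ∈ 𝔰 := by simpa using 𝔰.sub_mem hxs has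
      have h2 : π (⟨a, has⟩ + ⟨b, hbs⟩) ∈ p := by
        rw [map_add, hi ⟨b, hbs⟩ hb, add_zero]
        exact (hmem ⟨a, has⟩).1 ha
      exact (hmem _).2 h2
    · intro Y _ _ _ _ ψ hψ hk y
      let ψ' : 𝔰 →ₗ⁅ℝ⁆ Y := ψ.comp 𝔰.incl
      have hψ' : Function.Surjective ψ' := fun z => by
        obtain ⟨x, hx, rfl⟩ := ho Y ψ hψ hk z
        exact ⟨⟨x, hx⟩, rfl⟩
      obtain ⟨n, hn⟩ := exists_derived_comap_radical π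
      obtain ⟨s, rfl⟩ := hψ' y
      have hs : π s ∈ p.toSubmodule ⊔ (radical ℝ X).toSubmodule := by rw [hsup]; trivial
      obtain ⟨a, ha, b, hb, hab⟩ := Submodule.mem_sup.1 hs
      obtain ⟨s₁, rfl⟩ := hπ a
      have h2 : s - s₁ ∈ (radical ℝ X).comap π := by
        rw [LieIdeal.mem_comap, map_sub, ← hab, add_sub_cancel_left]
        exact hb
      have h3 : ψ' (s - s₁) ∈
          (derivedSeriesOfIdeal ℝ 𝔰 n ((radical ℝ X).comap π)).map ψ' := by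
        rw [map_derived_eq ψ' hψ' _ (F.self Y _) n]
        exact LieIdeal.mem_map h2
      obtain ⟨s₂, hs₂⟩ := LieIdeal.mem_map_of_surjective hψ' h3
      refine ⟨((s₁ + s₂ : 𝔰) : 𝔤), (hmem _).2 ?_, ?_⟩
      · rw [map_add, hn _ s₂.2, add_zero]
        exact ha
      · change ψ' (s₁ + s₂) = ψ' s
        rw [map_add, hs₂, map_sub, add_sub_cancel]
  refine hp (eq_top_iff.2 fun a _ => ?_)
  obtain ⟨s, rfl⟩ := hπ a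
  exact (hmem s).1 (h1 s.2)

theorem noab (F : Facts.{v}) (h : IsProAlg k) {𝔰 : LieSubalgebra ℝ 𝔤} (hs : Semi k 𝔰) (i : I)
    (t : Submodule ℝ 𝔤) (ht : t ≤ 𝔰.toSubmodule) (h1 : ∀ x ∈ 𝔰, ∀ y ∈ t, ⁅x, y⁆ ∈ t)
    (h2 : ∀ x ∈ t, ∀ y ∈ t, ⁅x, y⁆ ∈ k i) : t ≤ (k i).toSubmodule := by
  obtain ⟨X, _, _, _, π, hπ, hker⟩ := exists_quot h 𝔰 (k i) ⟨i, le_rfl⟩
  have := hs X π hπ ⟨i, fun x hx => (hker x).2 hx⟩
  let T : LieIdeal ℝ 𝔰 :=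
    { t.comap 𝔰.toSubmodule.subtype with lie_mem := fun {x y} hy => h1 x x.2 y hy }
  have h3 : T.map π = ⊥ := by
    rw [← F.self X (T.map π), ← LieIdeal.map_bracket_eq π hπ, LieIdeal.map_eq_bot_iff,
      LieSubmodule.lie_le_iff]
    intro x hx y hy
    exact LieHom.mem_ker.2 ((hker _).2 (h2 x hx y hy))
  intro x hx
  have h4 : (⟨x, ht hx⟩ : 𝔰) ∈ π.ker := LieIdeal.map_eq_bot_iff.1 h3 hx
  exact (hker _).1 (LieHom.mem_ker.1 h4)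

theorem split (h : IsProAlg k) {𝔰 : LieSubalgebra ℝ 𝔤} (hc : Closed k 𝔰.toSubmodule)
    (hs : Semi k 𝔰) (𝔨 : LieIdeal ℝ 𝔤) (h𝔨 : ∃ i, k i ≤ 𝔨) :
    𝔰.toSubmodule ≤ (cent 𝔰 𝔨).toSubmodule ⊔ 𝔨.toSubmodule := by
  obtain ⟨i, hi⟩ := h𝔨
  let W : I → Submodule ℝ 𝔤 := fun l =>
    { carrier := {x | x ∈ 𝔰 ∧ ∀ y ∈ 𝔰, y ∈ 𝔨 → ⁅x, y⁆ ∈ k l}
      add_mem' := fun {a b} ha hb => ⟨𝔰.add_mem ha.1 hb.1, fun y hy hk => by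
        rw [add_lie]; exact (k l).add_mem (ha.2 y hy hk) (hb.2 y hy hk)⟩
      zero_mem' := ⟨𝔰.zero_mem, fun y _ _ => by rw [zero_lie]; exact (k l).zero_mem⟩
      smul_mem' := fun c {a} ha => ⟨𝔰.smul_mem c ha.1, fun y hy hk => by
        rw [smul_lie]; exact (k l).smul_mem c (ha.2 y hy hk)⟩ }
  have hW : ∀ l, W l ≤ 𝔰.toSubmodule := fun l x hx => hx.1
  obtain ⟨_, ⟨l, rfl⟩, hl⟩ := h.lc (Set.range W) ⟨_, i, rfl⟩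
    (by
      rintro _ ⟨a, rfl⟩ _ ⟨b, rfl⟩
      obtain ⟨c, h1, h2⟩ := h.dir a b
      exact ⟨_, ⟨c, rfl⟩, fun x hx => ⟨hx.1, fun y hy hk => h1 (hx.2 y hy hk)⟩,
        fun x hx => ⟨hx.1, fun y hy hk => h2 (hx.2 y hy hk)⟩⟩)
    (by
      rintro _ ⟨l, rfl⟩ x hx
      refine ⟨hc x fun m => sup_le_sup_right (hW l) _ (hx m), fun y hy hk => ?_⟩
      obtain ⟨a, ha, b, hb, rfl⟩ := Submodule.mem_sup.1 (hx l)
      rw [add_lie]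
      exact (k l).add_mem (ha.2 y hy hk) (lie_mem_left ℝ 𝔤 (k l) b y hb)) i
  have h1 : sInf (Set.range W) ≤ (cent 𝔰 𝔨).toSubmodule := by
    intro x hx
    have hx' : ∀ m, x ∈ W m := fun m => Submodule.mem_sInf.1 hx _ ⟨m, rfl⟩
    exact ⟨(hx' i).1, fun y hy hk => h.sep _ fun m => (hx' m).2 y hy hk⟩
  have h2 : W l ≤ (cent 𝔰 𝔨).toSubmodule ⊔ 𝔨.toSubmodule :=
    hl.trans (sup_le_sup h1 fun x hx => hi hx)
  obtain ⟨X, _, _, _, π, hπ, hker⟩ := exists_quot h 𝔰 (k l) ⟨l, le_rfl⟩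
  have := hs X π hπ ⟨l, fun x hx => (hker x).2 hx⟩
  let A : LieIdeal ℝ X := (𝔨.comap 𝔰.incl).map π
  have hA := LieIdeal.isCompl_killingCompl (K := ℝ) A
  intro x hx
  have h3 : π ⟨x, hx⟩ ∈ A ⊔ LieIdeal.killingCompl ℝ X A := by rw [hA.sup_eq_top]; trivial
  obtain ⟨a, ha, c, hcc, hac⟩ := (LieSubmodule.mem_sup _ _ _).1 h3
  obtain ⟨a', rfl⟩ := LieIdeal.mem_map_of_surjective hπ ha
  have h4 : x - (a' : 𝔰) ∈ W l := by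
    refine ⟨𝔰.sub_mem hx (a' : 𝔰).2, fun y hy hk => ?_⟩
    have h5 : π (⟨x, hx⟩ - a') = c := by rw [map_sub, ← hac, add_sub_cancel_left]
    have h6 : π ⟨y, hy⟩ ∈ A := LieIdeal.mem_map (show (⟨y, hy⟩ : 𝔰) ∈ 𝔨.comap 𝔰.incl from hk)
    have h7 : ⁅c, π ⟨y, hy⟩⁆ ∈ LieIdeal.killingCompl ℝ X A ⊓ A :=
      LieSubmodule.lie_le_inf _ _ (LieSubmodule.lie_mem_lie hcc h6)
    rw [hA.symm.inf_eq_bot, LieSubmodule.mem_bot, ← h5, ← LieHom.map_lie] at h7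
    exact (hker _).1 h7
  have h8 : ((a' : 𝔰) : 𝔤) ∈ (cent 𝔰 𝔨).toSubmodule ⊔ 𝔨.toSubmodule :=
    Submodule.mem_sup_right a'.2
  simpa using Submodule.add_mem _ (h2 h4) h8

theorem cent_inf (F : Facts.{v}) (h : IsProAlg k) {𝔰 : LieSubalgebra ℝ 𝔤} (hs : Semi k 𝔰)
    (𝔨 : LieIdeal ℝ 𝔤) (x : 𝔤) (hx : x ∈ cent 𝔰 𝔨) (hk : x ∈ 𝔨) : x = 0 := by
  refine h.sep x fun i => noab F h hs i ((cent 𝔰 𝔨).toSubmodule ⊓ 𝔨.toSubmodule)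
    (fun a ha => ha.1.1) ?_ ?_ ⟨hx, hk⟩
  · intro a ha y hy
    refine ⟨⟨𝔰.lie_mem ha hy.1.1, fun z hz hzk => ?_⟩, 𝔨.lie_mem hy.2⟩
    rw [lie_lie, hy.1.2 z hz hzk, hy.1.2 _ (𝔰.lie_mem ha hz) (𝔨.lie_mem hzk), lie_zero, sub_zero]
  · intro a ha y hy
    rw [ha.1.2 y hy.1.1 hy.2]
    exact (k i).zero_mem

theorem cent_fd_killing (F : Facts.{v}) (h : IsProAlg k) {𝔰 : LieSubalgebra ℝ 𝔤}
    (hc : Closed k 𝔰.toSubmodule) (hs : Semi k 𝔰) (𝔨 : LieIdeal ℝ 𝔤) (h𝔨 : ∃ i, k i ≤ 𝔨) :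
    FiniteDimensional ℝ (cent 𝔰 𝔨) ∧ IsKilling ℝ (cent 𝔰 𝔨) := by
  obtain ⟨X, _, _, _, π, hπ, hker⟩ := exists_quot h 𝔰 𝔨 h𝔨
  have := hs X π hπ (h𝔨.imp fun i hi x hx => (hker x).2 (hi hx))
  have hle : cent 𝔰 𝔨 ≤ 𝔰 := fun x hx => hx.1
  let φ : cent 𝔰 𝔨 →ₗ⁅ℝ⁆ X := π.comp (LieSubalgebra.inclusion hle)
  have hinj : Function.Injective φ := by
    rw [injective_iff_map_eq_zero]
    intro x hx
    exact Subtype.ext (cent_inf F h hs 𝔨 x x.2 ((hker _).1 hx))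
  have hsurj : Function.Surjective φ := by
    intro y
    obtain ⟨s, rfl⟩ := hπ y
    obtain ⟨a, ha, b, hb, hab⟩ := Submodule.mem_sup.1 (split h hc hs 𝔨 h𝔨 s.2)
    refine ⟨⟨a, ha⟩, ?_⟩
    change π ⟨a, hle ha⟩ = π s
    rw [← sub_eq_zero, ← map_sub, hker]
    change a - (s : 𝔤) ∈ 𝔨
    rw [← hab]
    simpa using hb
  exact ⟨Module.Finite.of_injective (φ : cent 𝔰 𝔨 →ₗ[ℝ] X) hinj,
    isKilling_of_equiv (LieEquiv.ofBijective φ ⟨hinj, hsurj⟩).symm⟩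

theorem rad (F : Facts.{v}) (h : IsProAlg k) {𝔰 : LieSubalgebra ℝ 𝔤}
    (hc : Closed k 𝔰.toSubmodule) (ho : Onto k 𝔰) (hs : Semi k 𝔰) (𝔨 : LieIdeal ℝ 𝔤)
    (h𝔨 : ∃ i, k i ≤ 𝔨) : ∃ (𝔧 : LieIdeal ℝ 𝔤) (n : ℕ), 𝔨 ≤ 𝔧 ∧
    derivedSeriesOfIdeal ℝ 𝔤 n 𝔧 ≤ 𝔨 ∧
    (cent 𝔰 𝔨).toSubmodule ⊓ 𝔧.toSubmodule = ⊥ ∧
    (cent 𝔰 𝔨).toSubmodule ⊔ 𝔧.toSubmodule = ⊤ := by
  have := fd_quot h 𝔨 h𝔨
  obtain ⟨n, hn⟩ := exists_derived_comap_radical (mkQ 𝔨)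
  set 𝔧 : LieIdeal ℝ 𝔤 := (radical ℝ (𝔤 ⧸ 𝔨)).comap (mkQ 𝔨) with h𝔧
  have h1 : 𝔨 ≤ 𝔧 := fun x hx => by
    rw [h𝔧, LieIdeal.mem_comap, (mkQ_eq_zero 𝔨 x).2 hx]
    exact LieSubmodule.zero_mem _
  have h2 : derivedSeriesOfIdeal ℝ 𝔤 n 𝔧 ≤ 𝔨 := fun x hx => (mkQ_eq_zero 𝔨 x).1 (hn x hx)
  refine ⟨𝔧, n, h1, h2, ?_, ?_⟩
  · obtain ⟨_, _⟩ := cent_fd_killing F h hc hs 𝔨 h𝔨
    rw [eq_bot_iff]
    intro x hx
    have h3 : (⟨x, hx.1⟩ : cent 𝔰 𝔨) ∈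
        derivedSeriesOfIdeal ℝ (cent 𝔰 𝔨) n (𝔧.comap (cent 𝔰 𝔨).incl) := by
      rw [derived_eq _ (F.self _ _)]
      exact hx.2
    have h4 := map_derived_le (cent 𝔰 𝔨).incl _ 𝔧 LieIdeal.map_comap_le n (LieIdeal.mem_map h3)
    exact cent_inf F h hs 𝔨 x hx.1 (h2 h4)
  · have := F.quot (𝔤 ⧸ 𝔨)
    have : FiniteDimensional ℝ ((𝔤 ⧸ 𝔨) ⧸ radical ℝ (𝔤 ⧸ 𝔨)) :=
      Module.Finite.of_surjective ((mkQ (radical ℝ (𝔤 ⧸ 𝔨))) : (𝔤 ⧸ 𝔨) →ₗ[ℝ] _) (mkQ_surj _)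
    let ψ := (mkQ (radical ℝ (𝔤 ⧸ 𝔨))).comp (mkQ 𝔨)
    have hψ : ∀ x, ψ x = 0 ↔ x ∈ 𝔧 := fun x => mkQ_eq_zero _ _
    rw [eq_top_iff]
    intro x _
    obtain ⟨s, hs', hsx⟩ := ho _ ψ ((mkQ_surj _).comp (mkQ_surj _))
      (h𝔨.imp fun i hi x hx => (hψ x).2 (h1 (hi hx))) (ψ x)
    have h3 : x - s ∈ 𝔧 := (hψ _).1 (by rw [map_sub, hsx, sub_self])
    have h4 : s ∈ (cent 𝔰 𝔨).toSubmodule ⊔ 𝔧.toSubmodule :=
      sup_le_sup_left (show 𝔨.toSubmodule ≤ 𝔧.toSubmodule from fun a ha => h1 ha) _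
        (split h hc hs 𝔨 h𝔨 hs')
    simpa using Submodule.add_mem _ h4 (Submodule.mem_sup_right h3)

theorem exists_levi_of (F : Facts.{v}) (h : IsProAlg k) :
    ∃ 𝔰 : LieSubalgebra ℝ 𝔤, IsLevi k 𝔰 := by
  obtain ⟨𝔰, hc, ho, hm⟩ := exists_minimal h
  have hs := semi_of_minimal F hc ho hm
  exact ⟨𝔰, noab F h hs, split h hc hs, fun 𝔨 h𝔨 => (cent_fd_killing F h hc hs 𝔨 h𝔨).1,
    fun 𝔨 h𝔨 => (cent_fd_killing F h hc hs 𝔨 h𝔨).2, rad F h hc ho hs⟩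

end Pool.Agent.Lib.MP_0cde51_al.Levi
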