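import Pool.Agent.Lib.MP_0cde51_al.Weyl
import Pool.Agent.Lib.MP_0cde51_al.H96LeviA

/-! Existence of Levi subalgebras of pro-finite-dimensional Lie algebras. -/

namespace Pool.Agent.Lib.MP_0cde51_al

universe v w

theorem exists_levi {𝔤 : Type v} [LieRing 𝔤] [LieAlgebra ℝ 𝔤] {I : Type w}
    {k : I → LieIdeal ℝ 𝔤} (h : IsProAlg k) : ∃ 𝔰 : LieSubalgebra ℝ 𝔤, IsLevi k 𝔰 :=
  Levi.exists_levi_of ⟨fun _ _ _ _ _ J => lie_self_eq_of_isKilling J,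
    fun _ _ _ _ => isKilling_quot_radical, fun _ _ _ _ h => levi_step h⟩ h

end Pool.Agent.Lib.MP_0cde51_al
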