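import Pool.Agent.Lib.MP_0cde51_al.WeylB

/-! Complete reducibility and the inductive step of the Levi decomposition. -/

namespace Pool.Agent.Lib.MP_0cde51_al

namespace WeylAux

section General

variable {K L V : Type*} [Field K] [LieRing L] [LieAlgebra K L]
  [AddCommGroup V] [Module K V] [LieRingModule L V] [LieModule K L V]

/-- endomorphisms with range in `W` that vanish on `W` -/
def nilEnd (W : LieSubmodule K L V) : LieSubmodule K L (V →ₗ[K] V) where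
  carrier := {φ | (∀ v, φ v ∈ W) ∧ ∀ w ∈ W, φ w = 0}
  add_mem' := fun {a b} ha hb => ⟨fun v => W.add_mem (ha.1 v) (hb.1 v), fun w hw => by
    rw [LinearMap.add_apply, ha.2 w hw, hb.2 w hw, add_zero]⟩
  zero_mem' := ⟨fun _ => W.zero_mem, fun _ _ => rfl⟩
  smul_mem' := fun c a ha => ⟨fun v => W.smul_mem c (ha.1 v), fun w hw => by
    rw [LinearMap.smul_apply, ha.2 w hw, smul_zero]⟩
  lie_mem := fun {x a} ha => ⟨fun v => by
      rw [LieHom.lie_apply]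
      exact W.sub_mem (W.lie_mem (ha.1 v)) (ha.1 _), fun w hw => by
    rw [LieHom.lie_apply, ha.2 w hw, ha.2 _ (W.lie_mem hw), lie_zero, sub_zero]⟩

theorem exists_proj (W : LieSubmodule K L V) :
    ∃ π : V →ₗ[K] V, (∀ v, π v ∈ W) ∧ ∀ w ∈ W, π w = w := by
  obtain ⟨U, hU⟩ := W.toSubmodule.exists_isCompl
  obtain ⟨f, hf, -⟩ : ∃ f : V →ₗ[K] W.toSubmodule, (∀ w : W.toSubmodule, f w = w) ∧ True :=
    ⟨Submodule.projectionOnto _ _ hU, fun w => by simp, trivial⟩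
  exact ⟨W.toSubmodule.subtype ∘ₗ f, fun v => (f v).2,
    fun w hw => congrArg Subtype.val (hf ⟨w, hw⟩)⟩

theorem lie_proj_mem (W : LieSubmodule K L V) (π : V →ₗ[K] V) (h1 : ∀ v, π v ∈ W)
    (h2 : ∀ w ∈ W, π w = w) (x : L) : ⁅x, π⁆ ∈ nilEnd W :=
  ⟨fun v => by
    rw [LieHom.lie_apply]
    exact W.sub_mem (W.lie_mem (h1 v)) (h1 _), fun w hw => by
    rw [LieHom.lie_apply, h2 w hw, h2 _ (W.lie_mem hw), sub_self]⟩

/-- an equivariant projection has an invariant kernel -/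
def kerOf (φ : V →ₗ[K] V) (h : ∀ x : L, ⁅x, φ⁆ = 0) : LieSubmodule K L V :=
  { LinearMap.ker φ with
    lie_mem := fun {x v} hv => by
      have h1 := congrArg (fun f : V →ₗ[K] V => f v) (h x)
      have hv' : φ v = 0 := hv
      simp only [LieHom.lie_apply, hv', lie_zero, zero_sub, LinearMap.zero_apply,
        neg_eq_zero] at h1
      exact h1 }

end General

variable {K L V : Type*} [Field K] [CharZero K] [LieRing L] [LieAlgebra K L]
  [FiniteDimensional K L]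
  [AddCommGroup V] [Module K V] [LieRingModule L V] [LieModule K L V] [FiniteDimensional K V]

theorem whitehead_sub [LieAlgebra.IsKilling K L] (N : LieSubmodule K L V) (δ : L →ₗ[K] V)
    (hN : ∀ x, δ x ∈ N) (h : ∀ x y, δ ⁅x, y⁆ = ⁅x, δ y⁆ - ⁅y, δ x⁆) :
    ∃ v ∈ N, ∀ x, δ x = ⁅x, v⁆ := by
  obtain ⟨w, hw⟩ := whitehead (V := N) (δ.codRestrict N.toSubmodule hN)
    (fun x y => Subtype.ext (h x y))
  exact ⟨w, w.2, fun x => congrArg Subtype.val (hw x)⟩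

attribute [local instance 100] LieRing.ofAssociativeRing in
theorem whitehead_quot (r : LieIdeal K L) [LieAlgebra.IsKilling K (L ⧸ r)]
    (htriv : ∀ m ∈ r, ∀ v : V, ⁅m, v⁆ = 0) (δ : L →ₗ[K] V) (h0 : ∀ m ∈ r, δ m = 0)
    (h : ∀ x y, δ ⁅x, y⁆ = ⁅x, δ y⁆ - ⁅y, δ x⁆) : ∃ v : V, ∀ x, δ x = ⁅x, v⁆ := by
  have hfd : FiniteDimensional K (L ⧸ r) :=
    Module.Finite.of_surjective (lieMkQ r).toLinearMap (lieMkQ_surjective _)
  let f : L ⧸ r →ₗ⁅K⁆ Module.End K V :=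
    lieLiftQ r (LieModule.toEnd K L V) fun m hm => LinearMap.ext fun v => htriv m hm v
  let _ : LieRingModule (L ⧸ r) V := LieRingModule.compLieHom V f
  have _ : LieModule K (L ⧸ r) V := LieModule.compLieHom V f
  obtain ⟨v, hv⟩ := whitehead (K := K) (L := L ⧸ r) (V := V)
    (r.toSubmodule.liftQ δ fun m hm => h0 m hm) (fun x y => by
      obtain ⟨a, rfl⟩ := lieMkQ_surjective r x
      obtain ⟨b, rfl⟩ := lieMkQ_surjective r y
      exact h a b)
  exact ⟨v, fun x => hv (lieMkQ r x)⟩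

theorem whitehead_rel (r : LieIdeal K L) [LieAlgebra.IsKilling K (L ⧸ r)]
    (P Q : LieSubmodule K L V) (htriv : ∀ m ∈ r, ∀ v ∈ Q, ⁅m, v⁆ ∈ P) (δ : L →ₗ[K] V)
    (hQ : ∀ x, δ x ∈ Q) (h0 : ∀ m ∈ r, δ m ∈ P)
    (h : ∀ x y, δ ⁅x, y⁆ = ⁅x, δ y⁆ - ⁅y, δ x⁆) : ∃ v ∈ Q, ∀ x, δ x - ⁅x, v⁆ ∈ P := by
  let P' : LieSubmodule K L Q := P.comap Q.incl
  have hfq : FiniteDimensional K (Q ⧸ P') :=
    inferInstanceAs (FiniteDimensional K (Q ⧸ P'.toSubmodule))
  let d : L →ₗ[K] Q := δ.codRestrict Q.toSubmodule hQ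
  have hd : ∀ x y, d ⁅x, y⁆ = ⁅x, d y⁆ - ⁅y, d x⁆ := fun x y => Subtype.ext (h x y)
  obtain ⟨v', hv'⟩ := whitehead_quot (V := Q ⧸ P') r (fun m hm v => by
      obtain ⟨w, rfl⟩ := LieSubmodule.Quotient.surjective_mk' P' v
      rw [← LieModuleHom.map_lie, LieSubmodule.Quotient.mk_eq_zero]
      exact htriv m hm w w.2)
    ((LieSubmodule.Quotient.mk' P').toLinearMap ∘ₗ d)
    (fun m hm => (LieSubmodule.Quotient.mk_eq_zero P').2 (h0 m hm)) (fun x y => by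
      simp only [LinearMap.comp_apply, LieModuleHom.coe_toLinearMap, hd, map_sub,
        LieModuleHom.map_lie])
  obtain ⟨v, rfl⟩ := LieSubmodule.Quotient.surjective_mk' P' v'
  refine ⟨v, v.2, fun x => ?_⟩
  have h1 : d x - ⁅x, v⁆ ∈ P' := by
    rw [← LieSubmodule.Quotient.mk_eq_zero, map_sub, LieModuleHom.map_lie, ← hv' x]
    exact sub_self _
  exact h1

end WeylAux

section Weyl
variable {K L V : Type*} [Field K] [CharZero K] [LieRing L] [LieAlgebra K L]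
  [FiniteDimensional K L]

open WeylAux

theorem weyl [LieAlgebra.IsKilling K L] [AddCommGroup V] [Module K V] [LieRingModule L V]
    [LieModule K L V] [FiniteDimensional K V] (W : LieSubmodule K L V) :
    ∃ W' : LieSubmodule K L V, IsCompl W W' := by
  obtain ⟨π, h1, h2⟩ := exists_proj W
  obtain ⟨ψ, hψ, hx⟩ := whitehead_sub (nilEnd W) (cob K L π) (lie_proj_mem W π h1 h2)
    (fun x y => lie_lie x y π)
  have h3 : ∀ x : L, ⁅x, π - ψ⁆ = 0 := fun x => by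
    rw [lie_sub, ← hx x]; exact sub_self _
  have h4 : ∀ w ∈ W, (π - ψ) w = w := fun w hw => by
    rw [LinearMap.sub_apply, h2 w hw, hψ.2 w hw, sub_zero]
  have h5 : ∀ v, (π - ψ) v ∈ W := fun v => W.sub_mem (h1 v) (hψ.1 v)
  refine ⟨kerOf (π - ψ) h3, ?_, ?_⟩
  · rw [disjoint_iff, eq_bot_iff]
    rintro v ⟨hv1, hv2⟩
    have hv3 : (π - ψ) v = 0 := hv2
    rw [h4 v hv1] at hv3
    exact hv3
  · rw [codisjoint_iff, eq_top_iff]
    intro v _
    rw [LieSubmodule.mem_sup]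
    refine ⟨(π - ψ) v, h5 v, v - (π - ψ) v, ?_, by abel⟩
    change (π - ψ) (v - (π - ψ) v) = 0
    rw [map_sub, h4 _ (h5 v), sub_self]

theorem levi_step_aux (r : LieIdeal K L) [LieAlgebra.IsKilling K (L ⧸ r)] (r' : LieIdeal K L)
    (hrr : ∀ x ∈ r, ∀ y ∈ r, ⁅x, y⁆ ∈ r') (hne : ¬ r ≤ r') :
    ∃ p : LieSubalgebra K L, p ≠ ⊤ ∧ p.toSubmodule ⊔ r.toSubmodule = ⊤ := by
  have hfq : FiniteDimensional K (L ⧸ r') :=
    inferInstanceAs (FiniteDimensional K (L ⧸ r'.toSubmodule))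
  let q : L →ₗ⁅K,L⁆ L ⧸ r' := LieSubmodule.Quotient.mk' r'
  have hq : Function.Surjective q := LieSubmodule.Quotient.surjective_mk' r'
  let M : LieSubmodule K L (L ⧸ r') := LieSubmodule.map q r
  have hM : ∀ v, v ∈ M ↔ ∃ m ∈ r, q m = v := fun v => LieSubmodule.mem_map _
  have hM1 : ∀ m ∈ r, ∀ v : L ⧸ r', ⁅m, v⁆ ∈ M := by
    intro m hm v
    obtain ⟨x, rfl⟩ := hq v
    exact (hM _).2 ⟨⁅m, x⁆, lie_mem_left K L r m x hm, q.map_lie m x⟩
  have hM2 : ∀ m ∈ r, ∀ v ∈ M, ⁅m, v⁆ = 0 := by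
    intro m hm v hv
    obtain ⟨x, hx, rfl⟩ := (hM v).1 hv
    rw [← q.map_lie]
    exact (LieSubmodule.Quotient.mk_eq_zero r').2 (hrr m hm x hx)
  let P : LieSubmodule K L ((L ⧸ r') →ₗ[K] (L ⧸ r')) :=
    { carrier := {φ | ∃ m ∈ r, ∀ v, φ v = ⁅m, v⁆}
      add_mem' := by
        rintro a b ⟨m, hm, ha⟩ ⟨n, hn, hb⟩
        exact ⟨m + n, r.add_mem hm hn, fun v => by rw [LinearMap.add_apply, ha, hb, add_lie]⟩
      zero_mem' := ⟨0, r.zero_mem, fun v => by rw [zero_lie]; rfl⟩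
      smul_mem' := by
        rintro c a ⟨m, hm, ha⟩
        exact ⟨c • m, r.smul_mem c hm, fun v => by rw [LinearMap.smul_apply, ha, smul_lie]⟩
      lie_mem := by
        rintro x a ⟨m, hm, ha⟩
        exact ⟨⁅x, m⁆, r.lie_mem hm, fun v => by rw [LieHom.lie_apply, ha, ha, lie_lie]⟩ }
  obtain ⟨π, h1, h2⟩ := exists_proj M
  have hQ0 : ∀ m ∈ r, ∀ φ ∈ nilEnd M, ⁅m, φ⁆ = 0 := by
    intro m hm φ hφ
    refine LinearMap.ext fun v => ?_
    rw [LieHom.lie_apply, hM2 m hm _ (hφ.1 v), hφ.2 _ (hM1 m hm v), sub_zero]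
    rfl
  have hπ : ∀ m ∈ r, ∀ v, ⁅m, π⁆ v = ⁅-m, v⁆ := by
    intro m hm v
    rw [LieHom.lie_apply, hM2 m hm _ (h1 v), h2 _ (hM1 m hm v), zero_sub, neg_lie]
  obtain ⟨ψ, hψ, hx⟩ := whitehead_rel r P (nilEnd M)
    (fun m hm φ hφ => by rw [hQ0 m hm φ hφ]; exact P.zero_mem) (cob K L π)
    (lie_proj_mem M π h1 h2) (fun m hm => ⟨-m, r.neg_mem hm, hπ m hm⟩) (fun x y => lie_lie x y π)
  have h4 : ∀ w ∈ M, (π - ψ) w = w := fun w hw => by
    rw [LinearMap.sub_apply, h2 w hw, hψ.2 w hw, sub_zero]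
  have h5 : ∀ v, (π - ψ) v ∈ M := fun v => M.sub_mem (h1 v) (hψ.1 v)
  by_cases hp : ∀ x : L, ⁅x, π - ψ⁆ = 0
  · let N : LieIdeal K L := LieSubmodule.comap q (kerOf (π - ψ) hp)
    have hN : ∀ x, x ∈ N ↔ (π - ψ) (q x) = 0 := fun _ => Iff.rfl
    refine ⟨N, fun hN' => hne fun m hm => ?_, ?_⟩
    · have h6 : m ∈ (N : LieSubalgebra K L) := by rw [hN']; exact LieSubalgebra.mem_top m
      have h7 := (hN m).1 h6
      rw [h4 _ ((hM _).2 ⟨m, hm, rfl⟩)] at h7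
      exact (LieSubmodule.Quotient.mk_eq_zero r').1 h7
    · rw [eq_top_iff]
      intro x _
      obtain ⟨m, hm, hmx⟩ := (hM _).1 (h5 (q x))
      refine Submodule.mem_sup.2 ⟨x - m, (hN _).2 ?_, m, hm, by abel⟩
      rw [map_sub, map_sub, hmx, h4 _ (h5 _), sub_self]
  · let p : LieSubalgebra K L :=
      { carrier := {x | ⁅x, π - ψ⁆ = 0}
        add_mem' := fun {a b} (ha : ⁅a, π - ψ⁆ = 0) (hb : ⁅b, π - ψ⁆ = 0) => by
          change ⁅a + b, π - ψ⁆ = 0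
          rw [add_lie, ha, hb, add_zero]
        zero_mem' := zero_lie _
        smul_mem' := fun c a (ha : ⁅a, π - ψ⁆ = 0) => by
          change ⁅c • a, π - ψ⁆ = 0
          rw [smul_lie, ha, smul_zero]
        lie_mem' := fun {a b} (ha : ⁅a, π - ψ⁆ = 0) (hb : ⁅b, π - ψ⁆ = 0) => by
          change ⁅⁅a, b⁆, π - ψ⁆ = 0
          rw [lie_lie, ha, hb, lie_zero, lie_zero, sub_zero] }
    refine ⟨p, fun hp' => hp fun x => ?_, ?_⟩
    · have h6 : x ∈ p := by rw [hp']; exact LieSubalgebra.mem_top x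
      exact h6
    · rw [eq_top_iff]
      intro x _
      obtain ⟨m, hm, hmx⟩ := hx x
      refine Submodule.mem_sup.2 ⟨x + m, ?_, -m, r.neg_mem hm, by abel⟩
      change ⁅x + m, π - ψ⁆ = 0
      refine LinearMap.ext fun v => ?_
      have h6 : ⁅x, π - ψ⁆ v = ⁅m, v⁆ := by rw [lie_sub]; exact hmx v
      rw [add_lie, LinearMap.add_apply, h6, lie_sub m, hQ0 m hm ψ hψ, sub_zero, hπ m hm, neg_lie,
        add_neg_cancel]
      rfl

theorem levi_step (h : ¬ LieAlgebra.HasTrivialRadical K L) :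
    ∃ p : LieSubalgebra K L, p ≠ ⊤ ∧
      p.toSubmodule ⊔ (LieAlgebra.radical K L).toSubmodule = ⊤ := by
  have := isKilling_quot_radical (K := K) (L := L)
  refine levi_step_aux (LieAlgebra.radical K L) ⁅LieAlgebra.radical K L, LieAlgebra.radical K L⁆
    (fun x hx y hy => LieSubmodule.lie_mem_lie hx hy) fun hle => h ⟨?_⟩
  obtain ⟨n, hn⟩ := LieAlgebra.IsSolvable.solvable K (LieAlgebra.radical K L)
  rw [LieIdeal.derivedSeries_eq_bot_iff] at hn
  have h1 : ∀ k, LieAlgebra.radical K L ≤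
      LieAlgebra.derivedSeriesOfIdeal K L k (LieAlgebra.radical K L) := by
    intro k
    induction k with
    | zero => exact le_rfl
    | succ k ih =>
      rw [LieAlgebra.derivedSeriesOfIdeal_succ]
      exact hle.trans (LieSubmodule.mono_lie ih ih)
  rw [eq_bot_iff, ← hn]
  exact h1 n

end Weyl

end Pool.Agent.Lib.MP_0cde51_al
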