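import Pool.Agent.Lib.MP_0cde51_al.UniformC
import Pool.Agent.Lib.MP_0cde51_al.Weyl

/-! A uniform exponent for the central words of exponentials. -/

namespace Pool.Agent.Lib.MP_0cde51_al

open NormedSpace Module LieModule
open scoped TensorProduct

universe u

namespace Unif

attribute [local instance 100] LieRing.ofAssociativeRing

variable {𝔠 : Type u} [LieRing 𝔠] [LieAlgebra ℝ 𝔠]

theorem isKilling_baseChange [FiniteDimensional ℝ 𝔠] [LieAlgebra.IsKilling ℝ 𝔠] :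
    LieAlgebra.IsKilling ℂ (ℂ ⊗[ℝ] 𝔠) := by
  let b := Module.finBasis ℝ 𝔠
  have h1 := (LinearMap.BilinForm.nondegenerate_iff_det_ne_zero b).1
    (LieAlgebra.IsKilling.killingForm_nondegenerate ℝ 𝔠)
  have h2 : (killingForm ℂ (ℂ ⊗[ℝ] 𝔠)).Nondegenerate := by
    rw [LinearMap.BilinForm.nondegenerate_iff_det_ne_zero (b.baseChange ℂ)]
    have e : LinearMap.BilinForm.toMatrix (b.baseChange ℂ) (killingForm ℂ (ℂ ⊗[ℝ] 𝔠)) =
        (algebraMap ℝ ℂ).mapMatrix (LinearMap.BilinForm.toMatrix b (killingForm ℝ 𝔠)) := by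
      ext i j
      have := traceForm_baseChange ℝ 𝔠 𝔠 ℂ
      simp only [killingForm] at this ⊢
      simp [this]
    rw [e, ← RingHom.map_det]
    simpa using h1
  exact ⟨eq_bot_iff.2 fun x hx => h2.2 x fun y =>
    (LieIdeal.mem_killingCompl ℂ _ ⊤).1 hx y (LieSubmodule.mem_top y)⟩

theorem central {𝔸₀ 𝔸 : Type} [NormedRing 𝔸₀] [NormedAlgebra ℝ 𝔸₀] [FiniteDimensional ℝ 𝔸₀]
    [NormedRing 𝔸] [NormedAlgebra ℝ 𝔸] [FiniteDimensional ℝ 𝔸] (w : List 𝔠)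
    (τ₀ : 𝔠 →ₗ[ℝ] 𝔸₀) (h₀ : IsLieMap τ₀) (hi : Function.Injective τ₀)
    (hc : ∀ z, Commute (wprod τ₀ w) (τ₀ z)) (τ : 𝔠 →ₗ[ℝ] 𝔸) (h : IsLieMap τ) (z : 𝔠) :
    Commute (wprod τ w) (τ z) := by
  have key : ∀ (w : List 𝔠) (z : 𝔠), ∃ z', wprod τ₀ w * τ₀ z = τ₀ z' * wprod τ₀ w ∧
      wprod τ w * τ z = τ z' * wprod τ w := by
    intro w
    induction w with
    | nil => exact fun z => ⟨z, by simp [wprod], by simp [wprod]⟩
    | cons x w ih =>
      intro z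
      obtain ⟨y, e1, e2⟩ := ih z
      obtain ⟨z', e⟩ := exp_conj_mem (τ₀ x, τ x) (τ₀ y, τ y) (LinearMap.range (τ₀.prod τ))
        (by
          rintro _ ⟨u, rfl⟩
          exact ⟨⁅x, u⁆, Prod.ext (h₀ x u) (h x u)⟩) ⟨y, rfl⟩
      rw [Prod.neg_mk, exp_prod, exp_prod] at e
      have e3 : τ₀ z' = exp (τ₀ x) * τ₀ y * exp (-τ₀ x) := congrArg Prod.fst e
      have e4 : τ z' = exp (τ x) * τ y * exp (-τ x) := congrArg Prod.snd e
      refine ⟨z', ?_, ?_⟩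
      · rw [wprod_cons, mul_assoc, e1, e3, mul_assoc _ (exp _), ← mul_assoc (exp _) (exp _),
          exp_neg_mul_exp, one_mul, mul_assoc]
      · rw [wprod_cons, mul_assoc, e2, e4, mul_assoc _ (exp _), ← mul_assoc (exp _) (exp _),
          exp_neg_mul_exp, one_mul, mul_assoc]
  obtain ⟨z', e1, e2⟩ := key w z
  rw [(hc z).eq] at e1
  rw [← hi ((isUnit_wprod τ₀ w).mul_right_cancel e1)] at e2
  exact e2

end Unif

attribute [local instance 100] LieRing.ofAssociativeRing in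
open Unif in
theorem exists_unifExp (𝔠 : Type u) [LieRing 𝔠] [LieAlgebra ℝ 𝔠] [FiniteDimensional ℝ 𝔠]
    [LieAlgebra.IsKilling ℝ 𝔠] : ∃ N : ℕ, 0 < N ∧ IsUnifExp 𝔠 N := by
  have := isKilling_baseChange (𝔠 := 𝔠)
  obtain ⟨N, hN, h⟩ := exists_exp (ℂ ⊗[ℝ] 𝔠) fun V _ _ _ _ _ W => weyl W
  refine ⟨N, hN, fun w 𝔸₀ _ _ _ τ₀ h₀ hi hc 𝔸 _ _ _ τ hτ => ?_⟩
  have hw : Cen (w.map fun x => (1 : ℂ) ⊗ₜ[ℝ] x) := by
    intro V _ _ _ _ _ x v
    let σ : 𝔠 →ₗ[ℝ] ((Fin (finrank ℂ V) → ℂ) →L[ℂ] (Fin (finrank ℂ V) → ℂ)) :=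
      (((toC V).toLinearMap ∘ₗ (toEnd ℂ (ℂ ⊗[ℝ] 𝔠) V).toLinearMap).restrictScalars ℝ) ∘ₗ
        TensorProduct.mk ℝ ℂ 𝔠 1
    have hσ : ∀ x, σ x = toC V (toEnd ℂ (ℂ ⊗[ℝ] 𝔠) V (1 ⊗ₜ x)) := fun x => rfl
    have h1 : ∀ w : List 𝔠, wprod σ w = toC V (cw V (w.map fun x => (1 : ℂ) ⊗ₜ[ℝ] x)) := by
      intro w
      induction w with
      | nil => simp [wprod, cw]
      | cons x w ih => rw [wprod_cons, ih, hσ, ← toC_E, ← map_mul]; rfl
    have h2 : IsLieMap σ := fun x y => by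
      rw [hσ, hσ, hσ, ← map_mul (toC V), ← map_mul (toC V), ← map_sub (toC V), ← Ring.lie_def,
        ← LieHom.map_lie]
      exact congrArg _ (congrArg _ (by
        rw [show ⁅(1 : ℂ) ⊗ₜ[ℝ] x, (1 : ℂ) ⊗ₜ[ℝ] y⁆ = _ from
          LieAlgebra.ExtendScalars.bracket_tmul ℝ ℂ 𝔠 𝔠 1 1 x y, one_mul]))
    show cw V _ (toEnd ℂ _ V x v) = toEnd ℂ _ V x (cw V _ v)
    induction x using TensorProduct.induction_on with
    | zero => simp
    | tmul t z =>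
      have h3 := (central w τ₀ h₀ hi hc σ h2 z).eq
      rw [h1, hσ, ← map_mul (toC V), ← map_mul (toC V)] at h3
      have h4 := LinearMap.congr_fun ((toC V).injective h3) v
      have h5 : toEnd ℂ (ℂ ⊗[ℝ] 𝔠) V (t ⊗ₜ[ℝ] z) = t • toEnd ℂ (ℂ ⊗[ℝ] 𝔠) V (1 ⊗ₜ[ℝ] z) := by
        rw [← map_smul]
        exact congrArg _ (by simp [TensorProduct.smul_tmul'])
      rw [h5, LinearMap.smul_apply, LinearMap.smul_apply, map_smul]
      exact congrArg _ h4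
    | add x y hx hy => rw [map_add, LinearMap.add_apply, LinearMap.add_apply, map_add, hx, hy]
  obtain ⟨n, φ, hφ⟩ := exists_embed_clm 𝔸
  let ρ₀ : 𝔠 →ₗ[ℝ] Module.End ℂ (Fin n → ℂ) :=
    ((Module.End.toContinuousLinearMap (𝕜 := ℂ) (Fin n → ℂ)).symm.toLinearMap.restrictScalars ℝ) ∘ₗ
      φ.toLinearMap ∘ₗ τ
  have hρ₀ : ∀ x, ρ₀ x = (φ (τ x) : Module.End ℂ (Fin n → ℂ)) := fun x => rfl
  let ρ : ℂ ⊗[ℝ] 𝔠 →ₗ⁅ℂ⁆ Module.End ℂ (Fin n → ℂ) :=
    { ρ₀.liftBaseChange ℂ with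
      map_lie' := fun {x y} => by
        show ρ₀.liftBaseChange ℂ ⁅x, y⁆ = ⁅ρ₀.liftBaseChange ℂ x, ρ₀.liftBaseChange ℂ y⁆
        induction x using TensorProduct.induction_on with
        | zero => simp
        | add x x' hx hx' => rw [add_lie, map_add, map_add, add_lie, hx, hx']
        | tmul s x =>
          induction y using TensorProduct.induction_on with
          | zero => exact (congrArg (ρ₀.liftBaseChange ℂ) (lie_zero (s ⊗ₜ[ℝ] x))).trans (by simp)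
          | add y y' hy hy' =>
            refine (congrArg (ρ₀.liftBaseChange ℂ) (lie_add (s ⊗ₜ[ℝ] x) y y')).trans ?_
            rw [map_add, map_add, lie_add, ← hy, ← hy']
          | tmul t y =>
            rw [LieAlgebra.ExtendScalars.bracket_tmul, LinearMap.liftBaseChange_tmul,
              LinearMap.liftBaseChange_tmul, LinearMap.liftBaseChange_tmul, smul_lie, lie_smul,
              smul_smul, hρ₀, hρ₀, hρ₀, hτ, map_sub, map_mul, map_mul]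
            rfl }
  let _ : LieRingModule (ℂ ⊗[ℝ] 𝔠) (Fin n → ℂ) := LieRingModule.compLieHom _ ρ
  have _ : LieModule ℂ (ℂ ⊗[ℝ] 𝔠) (Fin n → ℂ) := LieModule.compLieHom _ ρ
  have h1 : ∀ (w : List 𝔠) v,
      φ (wprod τ w) v = cw (Fin n → ℂ) (w.map fun x => (1 : ℂ) ⊗ₜ[ℝ] x) v := by
    intro w v
    induction w with
    | nil => simp [wprod, cw]
    | cons x w ih =>
      rw [wprod_cons, map_mul, algHom_map_exp, List.map_cons, cw_cons, ← ih, mul_apply_eq_comp,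
        ← E_eq_exp]
      congr 2
      refine LinearMap.ext fun u => ?_
      show _ = ρ₀.liftBaseChange ℂ (1 ⊗ₜ x) u
      rw [LinearMap.liftBaseChange_tmul, one_smul, hρ₀]
  have h2 := h _ hw (Fin n → ℂ)
  apply hφ
  rw [map_pow, map_one]
  apply (Module.End.toContinuousLinearMap (𝕜 := ℂ) (Fin n → ℂ)).symm.injective
  rw [map_pow, map_one, ← h2]
  congr 1
  exact LinearMap.ext (h1 w)

end Pool.Agent.Lib.MP_0cde51_al
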