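import Pool.Agent.Lib.MP_0cde51_al.NotGoodA
import Pool.Agent.Lib.MP_0cde51_al.Levi
import Pool.Agent.Lib.MP_0cde51_al.Uniform
import Pool.Agent.Lib.MP_0cde51_al.Detect

/-! The kernel group of a connected pro-Lie group is not good. -/

namespace Pool.Agent.Lib.MP_0cde51_al

universe u v w

theorem IsSetup.not_good {G : Type u} [Group G] [TopologicalSpace G] [IsTopologicalGroup G]
    [ConnectedSpace G] {𝔤 : Type v} [LieRing 𝔤] [LieAlgebra ℝ 𝔤] {I : Type w}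
    {k : I → LieIdeal ℝ 𝔤} {N : I → Subgroup G} {ex : 𝔤 → G} (S : IsSetup k N ex) :
    ¬ Good (Kills G) :=
  Final.not_good_of S
    (fun _ _ _ _ ρ hρ τ hex => (S.exists_ker ρ hρ τ hex).imp fun _ h => h.2)
    (fun χ hadd i hχ _ _ _ _ ρ hρ τ hτ hex hker 𝔧 n hkj hsol 𝔠 hinf hsup M hM hU hvan =>
      S.detect χ hadd i hχ ρ hρ τ hτ hex hker 𝔧 n hkj hsol 𝔠 hinf hsup M hM hU hvan)
    (fun 𝔠 _ _ _ _ => exists_unifExp 𝔠) (exists_levi S.pro)

end Pool.Agent.Lib.MP_0cde51_al
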