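import Pool.Agent.Lib.MP_0cde51_al.SUA

/-! The universal cover of `SU(1,1)` as a Lie group, and the uniform exponent for `su(1,1)`. -/

namespace Pool.Agent.Lib.MP_0cde51_al

open Filter Topology NormedSpace

namespace SUAux

open Complex ComplexConjugate
open scoped Manifold ContDiff

/-- The underlying type of the covering group. -/
def SU : Type := ℂ × ℝ

noncomputable instance : TopologicalSpace SU := inferInstanceAs (TopologicalSpace (ℂ × ℝ))
instance : T2Space SU := inferInstanceAs (T2Space (ℂ × ℝ))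
instance : ConnectedSpace SU := inferInstanceAs (ConnectedSpace (ℂ × ℝ))
instance : LocallyCompactSpace SU := inferInstanceAs (LocallyCompactSpace (ℂ × ℝ))

/-- A pair seen as an element of the covering group. -/
def mk (b : ℂ) (t : ℝ) : SU := (b, t)

noncomputable instance : Mul SU := ⟨mm⟩
instance : One SU := ⟨mk 0 0⟩
instance : Inv SU := ⟨fun x => mk (-x.1) (-x.2)⟩

noncomputable instance grp : Group SU := Group.ofLeftAxioms mm_assoc one_mm inv_mm

instance : IsTopologicalGroup SU where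
  continuous_mul := contDiff_mm.continuous
  continuous_inv := contDiff_iv.continuous

theorem isLie_SU : IsLie SU :=
  @isLie_of_smooth (ℂ × ℝ) _ _ _ grp contDiff_mm contDiff_iv

theorem contDiff_mm_pi (F : Type) [Fintype F] :
    ContDiff ℝ ∞ fun p : (F → ℂ × ℝ) × (F → ℂ × ℝ) => fun i => mm (p.1 i) (p.2 i) := by
  refine contDiff_pi.2 fun i => ?_
  have h : ContDiff ℝ ∞ fun p : (F → ℂ × ℝ) × (F → ℂ × ℝ) => (p.1 i, p.2 i) :=
    ((contDiff_apply ℝ (ℂ × ℝ) i).comp contDiff_fst).prodMk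
      ((contDiff_apply ℝ (ℂ × ℝ) i).comp contDiff_snd)
  have h2 := contDiff_mm.comp h
  simpa only [Function.comp_def] using h2

theorem contDiff_iv_pi (F : Type) [Fintype F] :
    ContDiff ℝ ∞ fun p : F → ℂ × ℝ => fun i => ((-(p i).1, -(p i).2) : ℂ × ℝ) := by
  refine contDiff_pi.2 fun i => ?_
  have h2 := contDiff_iv.comp (contDiff_apply ℝ (ℂ × ℝ) i)
  simpa only [Function.comp_def] using h2

theorem isLie_pi (F : Type) [Fintype F] : IsLie (F → SU) :=
  @isLie_of_smooth (F → ℂ × ℝ) _ _ _ (Pi.group (f := fun _ : F => SU)) (contDiff_mm_pi F)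
    (contDiff_iv_pi F)

/-- The covering map onto `SU(1,1)`. -/
noncomputable def pi0 : SU →* Matrix (Fin 2) (Fin 2) ℂ where
  toFun x := !![aa x, x.1; conj x.1, conj (aa x)]
  map_one' := by
    have h : aa (1 : SU) = 1 := aa_one
    have h1 : (1 : SU).1 = 0 := rfl
    rw [h, h1, map_zero, map_one, Matrix.one_fin_two]
  map_mul' x y := by
    have h : aa (x * y) = aa x * aa y + x.1 * conj y.1 := aa_mm x y
    have h1 : (x * y).1 = aa x * y.1 + x.1 * conj (aa y) := rfl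
    rw [h, h1, Matrix.mul_fin_two]
    simp only [map_add, map_mul, conj_conj]
    congr 1
    funext i j
    fin_cases i <;> fin_cases j <;> simp <;> ring

theorem pi0_mk (b : ℂ) (t : ℝ) :
    pi0 (mk b t) = !![aa (b, t), b; conj b, conj (aa (b, t))] := rfl

theorem continuous_pi0 : Continuous pi0 := by
  have h1 : Continuous fun x : SU => aa x := contDiff_aa.continuous
  have h2 : Continuous fun x : SU => x.1 := continuous_fst
  refine continuous_matrix fun i j => ?_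
  fin_cases i <;> fin_cases j
  · exact h1
  · exact h2
  · exact continuous_conj.comp h2
  · exact continuous_conj.comp h1

theorem pi0_inj : ∀ᶠ x in 𝓝 (1 : SU), pi0 x = 1 → x = 1 := by
  have h2 : Continuous fun x : SU => |x.2| := continuous_abs.comp continuous_snd
  have h : ∀ᶠ x in 𝓝 (1 : SU), |x.2| < 2 * Real.pi := by
    refine h2.continuousAt.eventually_lt continuousAt_const ?_
    show |(0 : ℝ)| < 2 * Real.pi
    rw [abs_zero]; positivity
  filter_upwards [h] with x hx h1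
  have e1 : aa x = 1 := congrFun (congrFun h1 0) 0
  have e2 : x.1 = 0 := congrFun (congrFun h1 0) 1
  refine ext_aa (y := (0, 0)) e2 (by rw [e1, aa_one]) ?_
  simpa using hx

theorem aa_sinh {b : ℂ} {t : ℝ} (h : normSq b = Real.sinh t ^ 2) :
    aa (b, 0) = (Real.cosh t : ℝ) := by
  have : rr b = Real.cosh t := by
    rw [rr, h, add_comm, ← Real.cosh_sq, Real.sqrt_sq (Real.cosh_pos t).le]
  simp [aa, this]

theorem aa_a (t : ℝ) : aa ((Real.sinh t : ℝ), 0) = (Real.cosh t : ℝ) :=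
  aa_sinh (by rw [normSq_ofReal]; ring)

theorem aa_b (t : ℝ) : aa (I * (Real.sinh t : ℝ), 0) = (Real.cosh t : ℝ) :=
  aa_sinh (by rw [map_mul, normSq_I, normSq_ofReal]; ring)

theorem k_add (s t : ℝ) : mk 0 (s + t) = mk 0 s * mk 0 t := by
  refine (mm_eq (x := (0, s)) (y := (0, t)) (z := (0, s + t)) (by simp) ?_ rfl).symm
  simp only [aa_zero]
  push_cast
  rw [add_mul, exp_add]; simp

theorem a_add (s t : ℝ) :
    mk (Real.sinh (s + t) : ℝ) 0 = mk (Real.sinh s : ℝ) 0 * mk (Real.sinh t : ℝ) 0 := by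
  refine (mm_eq (x := ((Real.sinh s : ℝ), 0)) (y := ((Real.sinh t : ℝ), 0))
    (z := ((Real.sinh (s + t) : ℝ), 0)) ?_ ?_ (by simp)).symm
  · simp only [aa_a, conj_ofReal, Real.sinh_add]; push_cast; ring
  · simp only [aa_a, conj_ofReal, Real.cosh_add]; push_cast; ring

theorem b_add (s t : ℝ) : mk (I * (Real.sinh (s + t) : ℝ)) 0 =
    mk (I * (Real.sinh s : ℝ)) 0 * mk (I * (Real.sinh t : ℝ)) 0 := by
  refine (mm_eq (x := (I * (Real.sinh s : ℝ), 0)) (y := (I * (Real.sinh t : ℝ), 0))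
    (z := (I * (Real.sinh (s + t) : ℝ), 0)) ?_ ?_ (by simp)).symm
  · simp only [aa_b, conj_ofReal, Real.sinh_add]; push_cast; ring
  · simp only [aa_b, conj_ofReal, Real.cosh_add, map_mul, conj_I]; push_cast
    linear_combination (-(Complex.sinh s * Complex.sinh t)) * I_mul_I

theorem continuous_mk : Continuous fun p : ℂ × ℝ => mk p.1 p.2 := continuous_id

theorem k_zpow (t : ℝ) (m : ℤ) : mk 0 t ^ m = mk 0 (m * t) := by
  let φ : Multiplicative ℝ →* SU := MonoidHom.mk' (fun s => mk 0 s.toAdd) fun a b => k_add _ _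
  have h := map_zpow φ (Multiplicative.ofAdd t) m
  have h1 : φ (Multiplicative.ofAdd t ^ m) = mk 0 (m * t) := by
    show mk 0 (Multiplicative.ofAdd t ^ m).toAdd = _
    rw [toAdd_zpow, toAdd_ofAdd, zsmul_eq_mul]
  rw [← h1, h]; rfl

theorem closedEmb (N : ℕ) (hN : 0 < N) :
    IsClosedEmbedding fun m : ℤ => (mk 0 (2 * Real.pi) ^ N) ^ m := by
  have hc : (N : ℝ) * (2 * Real.pi) ≠ 0 := by positivity
  have h1 : (fun m : ℤ => (mk 0 (2 * Real.pi) ^ N) ^ m) =
      (fun t : ℝ => mk 0 t) ∘ (Homeomorph.mulRight₀ _ hc) ∘ ((↑) : ℤ → ℝ) := by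
    funext m
    rw [← zpow_natCast, k_zpow, k_zpow]; rfl
  have h2 : IsClosedEmbedding fun t : ℝ => mk 0 t := by
    have h3 : Continuous fun t : ℝ => mk 0 t :=
      continuous_mk.comp (by fun_prop : Continuous fun t : ℝ => ((0 : ℂ), t))
    have h4 : Continuous fun x : SU => x.2 := continuous_snd
    exact Function.LeftInverse.isClosedEmbedding (f := fun x : SU => x.2) (fun _ => rfl) h4 h3
  rw [h1]
  exact h2.comp ((Homeomorph.isClosedEmbedding _).comp Int.isClosedEmbedding_coe_real)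

theorem deriv_exp : HasDerivAt (fun t : ℝ => Complex.exp (t * I)) I 0 := by
  have h := ((hasDerivAt_id (0 : ℝ)).ofReal_comp.mul_const I).cexp
  simpa using h

theorem deriv_sinh : HasDerivAt (fun t : ℝ => ((Real.sinh t : ℝ) : ℂ)) 1 0 := by
  have h := (Real.hasDerivAt_sinh 0).ofReal_comp
  rwa [Real.cosh_zero, ofReal_one] at h

theorem deriv_cosh : HasDerivAt (fun t : ℝ => ((Real.cosh t : ℝ) : ℂ)) 0 0 := by
  have h := (Real.hasDerivAt_cosh 0).ofReal_comp
  rwa [Real.sinh_zero, ofReal_zero] at h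

theorem deriv_conj {f : ℝ → ℂ} {c : ℂ} (h : HasDerivAt f c 0) :
    HasDerivAt (fun t => conj (f t)) (conj c) 0 :=
  conjCLE.hasFDerivAt.comp_hasDerivAt 0 h

theorem deriv_mat {a b : ℝ → ℂ} {a' b' : ℂ} (ha : HasDerivAt a a' 0) (hb : HasDerivAt b b' 0)
    (i j : Fin 2) :
    HasDerivAt (fun t => (!![a t, b t; conj (b t), conj (a t)] : Matrix (Fin 2) (Fin 2) ℂ) i j)
      ((!![a', b'; conj b', conj a'] : Matrix (Fin 2) (Fin 2) ℂ) i j) 0 := by
  fin_cases i <;> fin_cases j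
  · exact ha
  · exact hb
  · exact deriv_conj hb
  · exact deriv_conj ha

/-- The Lie algebra `su(1,1)` in coordinates. -/
def C3 : Type := ℝ × ℝ × ℝ

instance : AddCommGroup C3 := inferInstanceAs (AddCommGroup (ℝ × ℝ × ℝ))
noncomputable instance : Module ℝ C3 := inferInstanceAs (Module ℝ (ℝ × ℝ × ℝ))
instance : FiniteDimensional ℝ C3 := inferInstanceAs (FiniteDimensional ℝ (ℝ × ℝ × ℝ))

/-- The bracket in coordinates. -/
def br (x y : ℝ × ℝ × ℝ) : ℝ × ℝ × ℝ :=
  (-2 * (x.2.1 * y.2.2 - x.2.2 * y.2.1), -2 * (x.1 * y.2.2 - x.2.2 * y.1),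
    2 * (x.1 * y.2.1 - x.2.1 * y.1))

theorem br_add_left (x y z : ℝ × ℝ × ℝ) : br (x + y) z = br x z + br y z := by
  ext <;> simp [br] <;> ring

theorem br_add_right (x y z : ℝ × ℝ × ℝ) : br x (y + z) = br x y + br x z := by
  ext <;> simp [br] <;> ring

theorem br_self (x : ℝ × ℝ × ℝ) : br x x = 0 := by
  ext <;> simp [br] <;> ring

theorem br_leibniz (x y z : ℝ × ℝ × ℝ) : br x (br y z) = br (br x y) z + br y (br x z) := by
  ext <;> simp [br] <;> ring

theorem br_smul (c : ℝ) (x y : ℝ × ℝ × ℝ) : br x (c • y) = c • br x y := by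
  ext <;> simp [br] <;> ring

instance : LieRing C3 where
  bracket := br
  add_lie := br_add_left
  lie_add := br_add_right
  lie_self := br_self
  leibniz_lie := br_leibniz

noncomputable instance : LieAlgebra ℝ C3 where
  lie_smul := br_smul

theorem eq_zero_of_br (x : ℝ × ℝ × ℝ) (h : ∀ y, br x (br x y) = 0) : x = 0 := by
  have h1 := congrArg (fun z : ℝ × ℝ × ℝ => z.1) (h (1, 0, 0))
  have h2 := congrArg (fun z : ℝ × ℝ × ℝ => z.2.1) (h (0, 1, 0))
  simp only [br, Prod.fst_zero, Prod.snd_zero] at h1 h2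
  have h3 : x.2.1 = 0 := by nlinarith [sq_nonneg x.2.1, sq_nonneg x.2.2]
  have h4 : x.2.2 = 0 := by nlinarith [sq_nonneg x.2.1, sq_nonneg x.2.2]
  have h5 : x.1 = 0 := by rw [h4] at h2; nlinarith [sq_nonneg x.1]
  ext <;> simp [h3, h4, h5]

theorem isKilling_C3 : LieAlgebra.IsKilling ℝ C3 := by
  have : LieAlgebra.HasTrivialRadical ℝ C3 := by
    rw [LieAlgebra.hasTrivialRadical_iff_no_abelian_ideals]
    intro J hJ
    rw [eq_bot_iff]
    intro x hx
    rw [LieSubmodule.mem_bot]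
    refine eq_zero_of_br x fun y : C3 => ?_
    have h1 : ⁅x, y⁆ ∈ J := lie_mem_left ℝ C3 J x y hx
    have h2 := congrArg Subtype.val (hJ.trivial ⟨x, hx⟩ ⟨⁅x, y⁆, h1⟩)
    exact h2
  infer_instance

/-- The representation attached to a triple. -/
def rep {𝔸 : Type} [Ring 𝔸] [Algebra ℝ 𝔸] (K A B : 𝔸) : C3 →ₗ[ℝ] 𝔸 where
  toFun x := x.1 • K + x.2.1 • A + x.2.2 • B
  map_add' x y := by
    show (x.1 + y.1) • K + (x.2.1 + y.2.1) • A + (x.2.2 + y.2.2) • B = _
    module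
  map_smul' c x := by
    show (c * x.1) • K + (c * x.2.1) • A + (c * x.2.2) • B = c • _
    module

theorem rep_apply {𝔸 : Type} [Ring 𝔸] [Algebra ℝ 𝔸] (K A B : 𝔸) (x : C3) :
    rep K A B x = x.1 • K + x.2.1 • A + x.2.2 • B := rfl

theorem isLieMap_rep {𝔸 : Type} [Ring 𝔸] [Algebra ℝ 𝔸] {K A B : 𝔸}
    (h1 : K * A - A * K = (2 : ℝ) • B) (h2 : K * B - B * K = (-2 : ℝ) • A)
    (h3 : A * B - B * A = (-2 : ℝ) • K) : IsLieMap (rep K A B) := by
  intro x y
  show (-2 * (x.2.1 * y.2.2 - x.2.2 * y.2.1)) • K + (-2 * (x.1 * y.2.2 - x.2.2 * y.1)) • A +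
    (2 * (x.1 * y.2.1 - x.2.1 * y.1)) • B = _
  have e1 : K * A = A * K + (2 : ℝ) • B := by rw [← h1]; abel
  have e2 : K * B = B * K + (-2 : ℝ) • A := by rw [← h2]; abel
  have e3 : A * B = B * A + (-2 : ℝ) • K := by rw [← h3]; abel
  simp only [rep_apply, mul_add, add_mul, smul_mul_assoc, mul_smul_comm, e1, e2, e3]
  module

theorem wprod_rep {𝔸 : Type} [NormedRing 𝔸] [NormedAlgebra ℝ 𝔸] (K A B : 𝔸) :
    wprod (rep K A B) [((2 * Real.pi, 0, 0) : ℝ × ℝ × ℝ)] =
      NormedSpace.exp ((2 * Real.pi) • K) := by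
  have h : rep K A B ((2 * Real.pi, 0, 0) : ℝ × ℝ × ℝ) = (2 * Real.pi) • K := by
    rw [rep_apply]; simp
  simp only [wprod, List.map_cons, List.map_nil, List.prod_cons, List.prod_nil, mul_one]
  exact congrArg _ h

theorem exp_K0 : NormedSpace.exp ((2 * Real.pi) •
    (!![I, 0; 0, -I] : Matrix (Fin 2) (Fin 2) ℂ)) = 1 := by
  have h : (2 * Real.pi) • (!![I, 0; 0, -I] : Matrix (Fin 2) (Fin 2) ℂ) =
      Matrix.diagonal ![2 * Real.pi * I, -(2 * Real.pi * I)] := by
    ext i j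
    fin_cases i <;> fin_cases j <;> simp
  rw [h, Matrix.exp_diagonal, ← Matrix.diagonal_one]
  congr 1
  funext i
  rw [Pi.coe_exp, ← Complex.exp_eq_exp_ℂ]
  fin_cases i
  · exact Complex.exp_two_pi_mul_I
  · show Complex.exp (-(2 * Real.pi * I)) = 1
    rw [Complex.exp_neg, Complex.exp_two_pi_mul_I, inv_one]

theorem rep0_inj : Function.Injective (rep (!![I, 0; 0, -I] : Matrix (Fin 2) (Fin 2) ℂ)
    !![0, 1; 1, 0] !![0, I; -I, 0]) := by
  rw [injective_iff_map_eq_zero]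
  intro x hx
  rw [rep_apply] at hx
  have h1 := congrArg Complex.im (congrFun (congrFun hx 0) 0)
  have h2 := congrArg Complex.re (congrFun (congrFun hx 0) 1)
  have h3 := congrArg Complex.im (congrFun (congrFun hx 0) 1)
  simp at h1 h2 h3
  exact Prod.ext h1 (Prod.ext h2 h3)

end SUAux

open SUAux

theorem exists_SU : ∃ (S : Type) (_ : Group S) (_ : TopologicalSpace S), IsTopologicalGroup S ∧
    T2Space S ∧ ConnectedSpace S ∧ LocallyCompactSpace S ∧ IsLie S ∧
    (∀ (F : Type) [Fintype F], IsLie (F → S)) ∧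
    ∃ (π : S →* Matrix (Fin 2) (Fin 2) ℂ) (k a b : ℝ → S), Continuous π ∧
      (∀ᶠ x in 𝓝 (1 : S), π x = 1 → x = 1) ∧
      (Continuous k ∧ ∀ s t, k (s + t) = k s * k t) ∧
      (Continuous a ∧ ∀ s t, a (s + t) = a s * a t) ∧
      (Continuous b ∧ ∀ s t, b (s + t) = b s * b t) ∧
      (∀ i j, HasDerivAt (fun t => π (k t) i j)
        ((!![Complex.I, 0; 0, -Complex.I] : Matrix (Fin 2) (Fin 2) ℂ) i j) 0) ∧
      (∀ i j, HasDerivAt (fun t => π (a t) i j)
        ((!![0, 1; 1, 0] : Matrix (Fin 2) (Fin 2) ℂ) i j) 0) ∧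
      (∀ i j, HasDerivAt (fun t => π (b t) i j)
        ((!![0, Complex.I; -Complex.I, 0] : Matrix (Fin 2) (Fin 2) ℂ) i j) 0) ∧
      ∀ N : ℕ, 0 < N → IsClosedEmbedding fun m : ℤ => (k (2 * Real.pi) ^ N) ^ m := by
  refine ⟨SU, inferInstance, inferInstance, inferInstance, inferInstance, inferInstance,
    inferInstance, isLie_SU, isLie_pi, pi0, fun t => mk 0 t, fun t => mk (Real.sinh t : ℝ) 0,
    fun t => mk (Complex.I * (Real.sinh t : ℝ)) 0, continuous_pi0, pi0_inj, ⟨?_, k_add⟩,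
    ⟨?_, a_add⟩, ⟨?_, b_add⟩, fun i j => ?_, fun i j => ?_, fun i j => ?_, closedEmb⟩
  · exact continuous_mk.comp (by fun_prop : Continuous fun t : ℝ => ((0 : ℂ), t))
  · exact continuous_mk.comp
      (by fun_prop : Continuous fun t : ℝ => (((Real.sinh t : ℝ) : ℂ), (0 : ℝ)))
  · exact continuous_mk.comp
      (by fun_prop : Continuous fun t : ℝ => (Complex.I * ((Real.sinh t : ℝ) : ℂ), (0 : ℝ)))
  · have h := deriv_mat deriv_exp (hasDerivAt_const (0 : ℝ) (0 : ℂ)) i j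
    simp only [pi0_mk, aa_zero]
    rw [Complex.conj_I] at h
    simpa only [map_zero] using h
  · have h := deriv_mat deriv_cosh deriv_sinh i j
    simp only [pi0_mk, aa_a]
    rwa [map_one, map_zero] at h
  · have h := deriv_mat deriv_cosh (deriv_sinh.const_mul Complex.I) i j
    simp only [pi0_mk, aa_b]
    rwa [mul_one, Complex.conj_I, map_zero] at h

theorem su_exp (hU : ∀ (𝔠 : Type) [LieRing 𝔠] [LieAlgebra ℝ 𝔠] [FiniteDimensional ℝ 𝔠]
    [LieAlgebra.IsKilling ℝ 𝔠], ∃ N : ℕ, 0 < N ∧ IsUnifExp 𝔠 N) :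
    ∃ N : ℕ, 0 < N ∧ ∀ (𝔸 : Type) [NormedRing 𝔸] [NormedAlgebra ℝ 𝔸] [FiniteDimensional ℝ 𝔸]
      (K A B : 𝔸), K * A - A * K = (2 : ℝ) • B → K * B - B * K = (-2 : ℝ) • A →
      A * B - B * A = (-2 : ℝ) • K → exp ((2 * Real.pi) • K) ^ N = 1 := by
  have := isKilling_C3
  obtain ⟨N, hN, h⟩ := hU C3
  refine ⟨N, hN, fun 𝔸 _ _ _ K A B h1 h2 h3 => ?_⟩
  let : NormedRing (Matrix (Fin 2) (Fin 2) ℂ) := Matrix.linftyOpNormedRing
  let : NormedAlgebra ℝ (Matrix (Fin 2) (Fin 2) ℂ) := Matrix.linftyOpNormedAlgebra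
  have h0 : IsLieMap (rep (!![Complex.I, 0; 0, -Complex.I] : Matrix (Fin 2) (Fin 2) ℂ)
      !![0, 1; 1, 0] !![0, Complex.I; -Complex.I, 0]) := by
    refine isLieMap_rep ?_ ?_ ?_ <;> ext i j <;> fin_cases i <;> fin_cases j <;>
      simp <;> ring
  have h4 := h [((2 * Real.pi, 0, 0) : ℝ × ℝ × ℝ)] (Matrix (Fin 2) (Fin 2) ℂ) _ h0 rep0_inj
    (fun z => by
      rw [wprod_rep]
      have e := exp_K0
      erw [e]
      exact Commute.one_left _) 𝔸 (rep K A B) (isLieMap_rep h1 h2 h3)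
  rwa [wprod_rep] at h4

end Pool.Agent.Lib.MP_0cde51_al
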