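import Pool.Agent.Lib.MP_0cde51_al.SpeckerA

/-! The closed subgroup of the example, and powers of a Lie group as pro-Lie groups. -/

namespace Pool.Agent.Lib.MP_0cde51_al

open Filter Topology

universe u v

namespace Specker

/-- The subgroup of the families `ζ ^ f a`, `f` additive. -/
def homSub {S : Type} [Group S] (ζ : S) (A : Type) [AddCommGroup A] : Subgroup (A → S) where
  carrier := {x | ∃ f : A →+ ℤ, ∀ a, x a = ζ ^ f a}
  mul_mem' := by
    rintro x y ⟨f, hf⟩ ⟨g, hg⟩
    exact ⟨f + g, fun a => by rw [Pi.mul_apply, hf, hg, AddMonoidHom.add_apply, zpow_add]⟩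
  one_mem' := ⟨0, fun a => by simp⟩
  inv_mem' := by
    rintro x ⟨f, hf⟩
    exact ⟨-f, fun a => by rw [Pi.inv_apply, hf, AddMonoidHom.neg_apply, zpow_neg]⟩

theorem isClosed_homSub {S : Type} [Group S] [TopologicalSpace S] [IsTopologicalGroup S]
    [T2Space S] (ζ : S) (hζ : IsClosedEmbedding fun m : ℤ => ζ ^ m) (A : Type) [AddCommGroup A] :
    IsClosed (homSub ζ A : Set (A → S)) := by
  have h : (homSub ζ A : Set (A → S)) =
      (⋂ a, (fun x : A → S => x a) ⁻¹' Set.range fun m : ℤ => ζ ^ m) ∩
        ⋂ a, ⋂ b, {x : A → S | x (a + b) = x a * x b} := by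
    ext x
    simp only [SetLike.mem_coe, Set.mem_inter_iff, Set.mem_iInter, Set.mem_preimage,
      Set.mem_range, Set.mem_ofPred_eq]
    constructor
    · rintro ⟨f, hf⟩
      exact ⟨fun a => ⟨f a, (hf a).symm⟩, fun a b => by rw [hf, hf, hf, map_add, zpow_add]⟩
    · rintro ⟨h1, h2⟩
      choose f hf using h1
      refine ⟨AddMonoidHom.mk' f fun a b => hζ.injective ?_, fun a => (hf a).symm⟩
      show ζ ^ f (a + b) = ζ ^ (f a + f b)
      rw [zpow_add, hf, hf, hf, h2]
  rw [h]
  refine (isClosed_iInter fun a => hζ.isClosed_range.preimage (continuous_apply a)).inter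
    (isClosed_iInter fun a => isClosed_iInter fun b => isClosed_eq (continuous_apply _)
      ((continuous_apply a).mul (continuous_apply b)))

end Specker

open Specker in
theorem exists_good_subgroup (S : Type) [Group S] [TopologicalSpace S] [IsTopologicalGroup S]
    [T2Space S] (ζ : S) (hζ : IsClosedEmbedding fun m : ℤ => ζ ^ m) :
    ∃ (A : Type) (H : Subgroup (A → S)), IsClosed (H : Set (A → S)) ∧
      (∀ x ∈ H, ∀ a, x a ∈ Subgroup.zpowers ζ) ∧ Good H := by
  refine ⟨cs (Set ℝ), homSub ζ _, isClosed_homSub ζ hζ _, ?_, ?_⟩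
  · rintro x ⟨f, hf⟩ a
    exact ⟨f a, (hf a).symm⟩
  have hex : ∀ x : homSub ζ (cs (Set ℝ)), ∃ f : cs (Set ℝ) →+ ℤ, ∀ a, x.1 a = ζ ^ f a :=
    fun x => x.2
  choose φ hφ using hex
  have hcont : ∀ a, Continuous fun x => φ x a := fun a => by
    rw [hζ.isEmbedding.continuous_iff]
    have : ((fun m : ℤ => ζ ^ m) ∘ fun x => φ x a) = fun x => x.1 a :=
      funext fun x => (hφ x a).symm
    rw [this]
    exact (continuous_apply a).comp continuous_subtype_val
  have hone : ∀ a, φ 1 a = 0 := fun a => hζ.injective (by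
    show ζ ^ φ 1 a = ζ ^ (0 : ℤ)
    rw [← hφ, zpow_zero]
    rfl)
  have hmul : ∀ x y a, φ (x * y) a = φ x a + φ y a := fun x y a => hζ.injective (by
    show ζ ^ φ (x * y) a = ζ ^ (φ x a + φ y a)
    rw [zpow_add, ← hφ, ← hφ, ← hφ]
    rfl)
  have heq : ∀ x, (∀ a, φ x a = 0) → x = 1 := fun x hx => Subtype.ext (funext fun a => by
    rw [hφ, hx, zpow_zero]
    rfl)
  have hnear : ∀ a, ∀ᶠ x in 𝓝 (1 : homSub ζ (cs (Set ℝ))), φ x a = 0 := fun a => by
    have := (hcont a).tendsto 1
    rw [hone, nhds_discrete ℤ, tendsto_pure] at this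
    exact this
  refine ⟨fun γ hγ h0 t => heq _ fun a => ?_, fun h hh => ?_, fun J g hJ => ?_⟩
  · have := PreconnectedSpace.constant inferInstance ((hcont a).comp hγ) (x := t) (y := 0)
    simpa only [Function.comp_apply, h0, hone] using this
  · obtain ⟨n, hn⟩ := exists_eq_zero (fun n => φ (h n)) fun a => hh.eventually (hnear a)
    exact ⟨n, heq _ hn⟩
  · obtain ⟨l, hl⟩ := exists_unit hJ fun j => φ (g j)
    refine ⟨fun x => φ x (unit l), fun x y => hmul x y _, hnear _, hl,
      ⟨fun a => ζ ^ ev l a, ev l, fun a => rfl⟩, ?_⟩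
    have h1 : φ ⟨fun a => ζ ^ ev l a, ev l, fun a => rfl⟩ (unit l) = ev l (unit l) :=
      hζ.injective (hφ _ _).symm
    show φ _ (unit l) ≠ 0
    rw [h1, ev_unit_self]
    exact one_ne_zero

theorem Good.of_equiv {K : Type u} {H : Type v} [Group K] [TopologicalSpace K] [Group H]
    [TopologicalSpace H] (e : K ≃ₜ* H) (h : Good H) : Good K := by
  have hc : Continuous e := e.continuous_toFun
  have ht : Tendsto e (𝓝 1) (𝓝 1) := by
    have := hc.tendsto 1
    rwa [map_one] at this
  refine ⟨fun γ hγ h0 t => e.injective ?_, fun g hg => ?_, fun J g hJ => ?_⟩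
  · rw [map_one]
    exact h.1 (fun s => e (γ s)) (hc.comp hγ) (by rw [h0, map_one]) t
  · obtain ⟨n, hn⟩ := h.2.1 (fun n => e (g n)) (ht.comp hg)
    exact ⟨n, e.injective (by rw [hn, map_one])⟩
  · obtain ⟨χ, h1, h2, h3, y, hy⟩ := h.2.2 J (fun j => e (g j)) hJ
    exact ⟨fun x => χ (e x), fun x y => by simp only [map_mul, h1], ht.eventually h2, h3,
      e.symm y, by simpa only [e.apply_symm_apply] using hy⟩

namespace Specker

theorem complete_pi (S : Type) [Group S] [TopologicalSpace S] [IsTopologicalGroup S]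
    [LocallyCompactSpace S] (A : Type) :
    @CompleteSpace (A → S) (IsTopologicalGroup.rightUniformSpace (A → S)) := by
  let us : UniformSpace S := IsTopologicalGroup.rightUniformSpace S
  have hr : IsRightUniformGroup S := ⟨rfl⟩
  have hc : CompleteSpace S := IsRightUniformGroup.completeSpace_of_weaklyLocallyCompactSpace
  have he : IsTopologicalGroup.rightUniformSpace (A → S) = Pi.uniformSpace fun _ : A => S := by
    apply UniformSpace.ext
    rw [Pi.uniformity, uniformity_eq_comap_nhds_one', nhds_pi, Filter.pi, comap_iInf]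
    refine iInf_congr fun a => ?_
    rw [uniformity_eq_comap_nhds_one', comap_comap, comap_comap]
    rfl
  rw [he]
  exact Pi.complete _

/-- The system of finite powers. -/
def piSystem (S : Type) [Group S] [TopologicalSpace S]
    (hS : ∀ (F : Type) [Fintype F], IsLie (F → S)) (A : Type) : LieSystem.{0} where
  I := Finset A
  nonempty := ⟨∅⟩
  directed := fun i j => by
    classical
    exact ⟨i ∪ j, Finset.subset_union_left, Finset.subset_union_right⟩
  L := fun F => F → S
  lie := fun F => hS F
  f := fun i j h =>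
    { toFun := fun x a => x ⟨a.1, Finset.mem_of_subset h a.2⟩
      map_one' := rfl
      map_mul' := fun _ _ => rfl
      continuous_toFun := continuous_pi fun _ => continuous_apply _ }
  f_id := fun _ _ => rfl
  f_comp := fun _ _ _ _ _ _ => rfl

end Specker

theorem isProLie_pi (S : Type) [Group S] [TopologicalSpace S] [IsTopologicalGroup S]
    [LocallyCompactSpace S] (hS : ∀ (F : Type) [Fintype F], IsLie (F → S)) (A : Type) :
    IsProLie.{0, 0} (A → S) := by
  refine ⟨Specker.complete_pi S A, Specker.piSystem S hS A, ⟨?_⟩⟩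
  exact
    { toFun := fun x => ⟨fun (F : Finset A) (a : F) => x a.1, fun _ _ _ => rfl⟩
      invFun := fun y a => y.1 ({a} : Finset A) ⟨a, Finset.mem_singleton_self a⟩
      left_inv := fun _ => rfl
      right_inv := fun y => Subtype.ext (funext fun (F : Finset A) => funext fun (a : F) =>
        (congrFun (y.2 ({a.1} : Finset A) F (Finset.singleton_subset_iff.2 a.2))
          ⟨a.1, Finset.mem_singleton_self _⟩).symm)
      map_mul' := fun _ _ => rfl
      continuous_toFun := Continuous.subtype_mk
        (continuous_pi fun F => continuous_pi fun a => continuous_apply _) _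
      continuous_invFun := continuous_pi fun a => (continuous_apply _).comp
        ((continuous_apply ({a} : Finset A)).comp continuous_subtype_val) }

theorem pi_mem_Kills {S A : Type} [Group S] [TopologicalSpace S] (x : A → S)
    (hx : ∀ a, x a ∈ Kills S) : x ∈ Kills (A → S) := by
  classical
  intro 𝔸 _ _ _ ρ hρ
  let tr : Finset A → A → S := fun F a => if a ∈ F then x a else 1
  have h1 : ∀ F, ρ (tr F) = 1 := by
    intro F
    induction F using Finset.induction_on with
    | empty =>
      have : tr ∅ = 1 := funext fun a => by simp [tr]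
      rw [this, map_one]
    | insert a F ha ih =>
      have : tr (insert a F) = Pi.mulSingle a (x a) * tr F := funext fun b => by
        by_cases hb : b = a
        · subst hb
          simp [tr, ha]
        · simp [tr, hb]
      rw [this, map_mul, ih, mul_one]
      exact hx a 𝔸 (ρ.comp (MonoidHom.mulSingle (fun _ : A => S) a))
        (hρ.comp (continuous_mulSingle (A := fun _ : A => S) a))
  have h2 : Tendsto tr atTop (𝓝 x) := by
    refine tendsto_pi_nhds.2 fun a => tendsto_const_nhds.congr' ?_
    filter_upwards [eventually_ge_atTop ({a} : Finset A)] with F hF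
    simp [tr, Finset.singleton_subset_iff.1 hF]
  have h3 : Tendsto (fun F => ρ (tr F)) atTop (𝓝 (ρ x)) := (hρ.tendsto x).comp h2
  simp only [h1] at h3
  exact (tendsto_nhds_unique tendsto_const_nhds h3).symm

end Pool.Agent.Lib.MP_0cde51_al
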