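import Pool.Agent.Lib.MP_0cde51_al.Setup
import Pool.Agent.Lib.MP_0cde51_al.NotGood
import Pool.Agent.Lib.MP_0cde51_al.SU
import Pool.Agent.Lib.MP_0cde51_al.Specker

/-! Assembly of the counterexample. -/

namespace Pool.Agent.Lib.MP_0cde51_al

open Filter Topology

universe u v

theorem IsProLie.not_good {G : Type u} [Group G] [TopologicalSpace G] [IsTopologicalGroup G]
    [ConnectedSpace G] (h : IsProLie.{u, v} G) : ¬ Good (KO G) := by
  obtain ⟨I, 𝔤, _, _, k, N, ex, S⟩ := h.exists_setup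
  rw [KO_eq_Kills]
  exact S.not_good

attribute [local instance] Matrix.linftyOpNormedRing Matrix.linftyOpNormedAlgebra in
theorem exists_base : ∃ (S : Type) (_ : Group S) (_ : TopologicalSpace S), IsTopologicalGroup S ∧
    T2Space S ∧ ConnectedSpace S ∧ LocallyCompactSpace S ∧
    (∀ (F : Type) [Fintype F], IsLie (F → S)) ∧
    ∃ ζ ∈ Kills S, IsClosedEmbedding fun m : ℤ => ζ ^ m := by
  obtain ⟨S, _, _, h1, h2, h3, h4, h5, h6, π, k, a, b, hπ, hker, hk, ha, hb, dk, da, db, hz⟩ :=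
    exists_SU
  obtain ⟨N, hN, hexp⟩ := su_exp fun 𝔠 _ _ _ _ => exists_unifExp 𝔠
  refine ⟨S, _, _, h1, h2, h3, h4, h6, k (2 * Real.pi) ^ N, ?_, hz N hN⟩
  obtain ⟨-, -, E, _, _, _, ⟨c⟩⟩ := h5.exists_chart
  have := FiniteDimensional.complete ℝ E
  obtain ⟨K, hK⟩ := c.exists_one_param k hk.1 hk.2
  obtain ⟨A, hA⟩ := c.exists_one_param a ha.1 ha.2
  obtain ⟨B, hB⟩ := c.exists_one_param b hb.1 hb.2
  obtain ⟨D, hD⟩ := c.exists_drep π hπ
  have hinj : Function.Injective D := by
    rw [injective_iff_map_eq_zero]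
    intro X hX
    refine c.eq_of_exp_smul_eventually ?_
    have ht := (c.continuous_exp_smul X).tendsto 0
    rw [zero_smul, c.exp_zero] at ht
    filter_upwards [ht.eventually hker] with t h
    rw [smul_zero, c.exp_zero]
    exact h (by rw [hD, map_smul, hX, smul_zero, NormedSpace.exp_zero])
  have hder : ∀ (γ : ℝ → S) (X : E) (M : Matrix (Fin 2) (Fin 2) ℂ),
      (∀ t, γ t = c.exp (t • X)) → (∀ i j, HasDerivAt (fun t => π (γ t) i j) (M i j) 0) →
      D X = M := by
    intro γ X M h hd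
    ext i j
    have h7 := (LinearMap.toContinuousLinearMap
      (Matrix.entryLinearMap ℝ ℂ i j : Matrix (Fin 2) (Fin 2) ℂ →ₗ[ℝ] ℂ)).hasFDerivAt.comp_hasDerivAt
      0 (hasDerivAt_exp_smul (D X) 0)
    have h8 := hd i j
    simp only [h, hD, map_smul] at h8
    have h9 := h7.unique h8
    simp only [zero_smul, NormedSpace.exp_zero, one_mul] at h9
    exact h9
  have eK := hder k K _ hK dk
  have eA := hder a A _ hA da
  have eB := hder b B _ hB db
  have r1 : c.ad K A = (2 : ℝ) • B := hinj (by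
    rw [c.lie_of_rep π D hD, map_smul, eK, eA, eB]
    ext i j
    fin_cases i <;> fin_cases j <;> simp <;> ring)
  have r2 : c.ad K B = (-2 : ℝ) • A := hinj (by
    rw [c.lie_of_rep π D hD, map_smul, eK, eA, eB]
    ext i j
    fin_cases i <;> fin_cases j <;> simp <;> ring)
  have r3 : c.ad A B = (-2 : ℝ) • K := hinj (by
    rw [c.lie_of_rep π D hD, map_smul, eK, eA, eB]
    ext i j
    fin_cases i <;> fin_cases j <;> simp <;> ring)
  intro 𝔸 _ _ _ ρ hρ
  obtain ⟨τ, hτ⟩ := c.exists_drep ρ hρ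
  rw [map_pow, hK, hτ, map_smul]
  exact hexp 𝔸 (τ K) (τ A) (τ B) (by rw [← c.lie_of_rep ρ τ hτ, r1, map_smul])
    (by rw [← c.lie_of_rep ρ τ hτ, r2, map_smul]) (by rw [← c.lie_of_rep ρ τ hτ, r3, map_smul])

theorem exists_counterexample : ∃ (G : Type) (_ : Group G) (_ : TopologicalSpace G)
    (_ : IsTopologicalGroup G), IsProLie.{0, 0} G ∧ ConnectedSpace G ∧
    ∃ H : Subgroup (KO G), IsClosed (H : Set (KO G)) ∧ Good H := by
  obtain ⟨S, _, _, h1, h2, h3, h4, h5, ζ, hζ, hz⟩ := exists_base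
  obtain ⟨A, H, hH, hm, hg⟩ := exists_good_subgroup S ζ hz
  have hle : H ≤ KO (A → S) := fun x hx => by
    rw [KO_eq_Kills]
    exact pi_mem_Kills x fun a => (Subgroup.zpowers_le.2 hζ) (hm x hx a)
  refine ⟨A → S, inferInstance, inferInstance, inferInstance, isProLie_pi S h5 A, inferInstance,
    H.subgroupOf (KO (A → S)), hH.preimage continuous_subtype_val, Good.of_equiv ?_ hg⟩
  exact { Subgroup.subgroupOfEquivOfLe hle with
    continuous_toFun := (continuous_subtype_val.comp continuous_subtype_val).subtype_mk _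
    continuous_invFun := (continuous_subtype_val.subtype_mk _).subtype_mk _ }

end Pool.Agent.Lib.MP_0cde51_al
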