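import Pool.Agent.Lib.MP_0cde51_al.Alg

/-! The recursion showing that the kernel group is not good, from the four black boxes. -/

namespace Pool.Agent.Lib.MP_0cde51_al.Final

open Filter Topology NormedSpace

universe u v w

theorem prod_split {α M : Type*} [Monoid M] (f a b : α → M) (hf : ∀ x, f x = a x * b x)
    (hc : ∀ x y, Commute (a x) (b y)) (l : List α) :
    (l.map f).prod = (l.map a).prod * (l.map b).prod := by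
  induction l with
  | nil => simp
  | cons x l ih =>
    have h : Commute (l.map a).prod (b x) := by
      refine Commute.list_prod_left _ _ fun y hy => ?_
      obtain ⟨z, -, rfl⟩ := List.mem_map.1 hy
      exact hc z x
    simp only [List.map_cons, List.prod_cons, ih, hf, mul_assoc]
    rw [← mul_assoc (b x), ← h.eq, mul_assoc]

theorem card_words (d : ℕ) : Cardinal.mk (List (Fin d → ℝ)) ≤ Cardinal.continuum := by
  refine (Cardinal.mk_list_le_max _).trans (max_le Cardinal.aleph0_le_continuum ?_)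
  rw [Cardinal.mk_pi, Cardinal.prod_const]
  simpa [Cardinal.mk_real] using Cardinal.power_nat_le Cardinal.aleph0_le_continuum

section Alg

variable {𝔤 : Type v} [LieRing 𝔤] [LieAlgebra ℝ 𝔤]

/-- the kernel of a Lie map as an ideal -/
def kerI {𝔸 : Type} [Ring 𝔸] [Algebra ℝ 𝔸] (τ : 𝔤 →ₗ[ℝ] 𝔸) (hτ : IsLieMap τ) : LieIdeal ℝ 𝔤 :=
  { LinearMap.ker τ with
    lie_mem := fun {x y} hy => by
      have : τ y = 0 := hy
      change τ ⁅x, y⁆ = 0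
      rw [hτ, this]
      simp }

theorem mem_kerI {𝔸 : Type} [Ring 𝔸] [Algebra ℝ 𝔸] {τ : 𝔤 →ₗ[ℝ] 𝔸} {hτ : IsLieMap τ} {x : 𝔤} :
    x ∈ kerI τ hτ ↔ τ x = 0 := Iff.rfl

theorem mem_cent {𝔰 : LieSubalgebra ℝ 𝔤} {𝔨 : LieIdeal ℝ 𝔤} {x : 𝔤} :
    x ∈ cent 𝔰 𝔨 ↔ x ∈ 𝔰 ∧ ∀ y ∈ 𝔰, y ∈ 𝔨 → ⁅x, y⁆ = 0 := Iff.rfl

theorem cent_anti (𝔰 : LieSubalgebra ℝ 𝔤) {a b : LieIdeal ℝ 𝔤} (h : a ≤ b) :
    cent 𝔰 b ≤ cent 𝔰 a := fun _ hx => ⟨hx.1, fun y hy hk => hx.2 y hy (h hk)⟩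

theorem isLieMap_restrict {𝔸 : Type} [Ring 𝔸] [Algebra ℝ 𝔸] {τ : 𝔤 →ₗ[ℝ] 𝔸} (hτ : IsLieMap τ)
    (𝔠 : LieSubalgebra ℝ 𝔤) : IsLieMap (τ.comp 𝔠.incl.toLinearMap) := fun x y => hτ x y

/-- along a decreasing sequence of ideals the new parts of the centralisers get small -/
theorem eventually_le {I : Type w} {k : I → LieIdeal ℝ 𝔤} (hk : IsProAlg k)
    {𝔰 : LieSubalgebra ℝ 𝔤} (hL : IsLevi k 𝔰) (c : ℕ → LieIdeal ℝ 𝔤) (hc : ∀ n, c (n + 1) ≤ c n)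
    (j : I) : ∀ᶠ n in atTop, ∀ x ∈ cent 𝔰 (c (n + 1)), x ∈ c n → x ∈ k j := by
  have := hk.fd j
  let C : ℕ →o Submodule ℝ (𝔤 ⧸ (k j).toSubmodule) :=
    ⟨fun n => (cent 𝔰 (c n)).toSubmodule.map (k j).toSubmodule.mkQ,
      monotone_nat_of_le_succ fun n => Submodule.map_mono (cent_anti 𝔰 (hc n))⟩
  obtain ⟨n₀, hn₀⟩ := monotone_stabilizes_iff_noetherian.2 inferInstance C
  filter_upwards [eventually_ge_atTop n₀] with n hn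
  have hC : C (n + 1) = C n := (hn₀ _ (by omega)).symm.trans (hn₀ n hn)
  have key := hL.noab j ((cent 𝔰 (c (n + 1))).toSubmodule ⊓ (c n).toSubmodule)
    (fun x hx => hx.1.1) ?_ ?_
  · exact fun x hx hx' => key ⟨hx, hx'⟩
  · intro x hx y hy
    refine ⟨⟨𝔰.lie_mem hx hy.1.1, fun z hz hzc => ?_⟩, (c n).lie_mem hy.2⟩
    rw [lie_lie, hy.1.2 z hz hzc, hy.1.2 _ (𝔰.lie_mem hx hz) ((c (n + 1)).lie_mem hzc)]
    simp
  · intro x hx y hy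
    have h1 : (k j).toSubmodule.mkQ x ∈ C (n + 1) := ⟨x, hx.1, rfl⟩
    rw [hC] at h1
    obtain ⟨x', hx', e⟩ := h1
    have h2 : x' - x ∈ k j := (Submodule.Quotient.eq _).1 e
    have h3 : ⁅x, y⁆ = ⁅y, x' - x⁆ := by
      have h4 : ⁅x', y⁆ = 0 := hx'.2 y hy.1.1 hy.2
      rw [lie_sub, ← lie_skew y x', h4, ← lie_skew x y]
      simp
    rw [h3]
    exact (k j).lie_mem h2

end Alg

variable {G : Type u} [Group G] [TopologicalSpace G] {𝔤 : Type v} [LieRing 𝔤] [LieAlgebra ℝ 𝔤]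
  {I : Type w} {k : I → LieIdeal ℝ 𝔤} {N : I → Subgroup G} {ex : 𝔤 → G}

/-- the statement about kernels of representations -/
def KerSt (k : I → LieIdeal ℝ 𝔤) (ex : 𝔤 → G) : Prop :=
  ∀ (𝔸 : Type) [NormedRing 𝔸] [NormedAlgebra ℝ 𝔸] [FiniteDimensional ℝ 𝔸] (ρ : G →* 𝔸),
    Continuous ρ → ∀ τ : 𝔤 →ₗ[ℝ] 𝔸, (∀ X, ρ (ex X) = exp (τ X)) → ∃ j, ∀ X ∈ k j, τ X = 0

/-- the detection statement -/
def DetSt (k : I → LieIdeal ℝ 𝔤) (N : I → Subgroup G) (ex : 𝔤 → G) : Prop :=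
  ∀ (χ : G → ℤ), (∀ x ∈ Kills G, ∀ y ∈ Kills G, χ (x * y) = χ x + χ y) →
    ∀ i : I, (∀ x ∈ Kills G, x ∈ N i → χ x = 0) →
    ∀ (𝔸 : Type) [NormedRing 𝔸] [NormedAlgebra ℝ 𝔸] [FiniteDimensional ℝ 𝔸]
    (ρ : G →* 𝔸), Continuous ρ → ∀ τ : 𝔤 →ₗ[ℝ] 𝔸, IsLieMap τ →
    (∀ X, ρ (ex X) = exp (τ X)) → (∀ X, τ X = 0 → X ∈ k i) →
    ∀ (𝔧 : LieIdeal ℝ 𝔤) (n : ℕ), (∀ X, τ X = 0 → X ∈ 𝔧) →
    (∀ X ∈ LieAlgebra.derivedSeriesOfIdeal ℝ 𝔤 n 𝔧, τ X = 0) →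
    ∀ 𝔠 : LieSubalgebra ℝ 𝔤, 𝔠.toSubmodule ⊓ 𝔧.toSubmodule = ⊥ →
    𝔠.toSubmodule ⊔ 𝔧.toSubmodule = ⊤ → ∀ M : ℕ, 0 < M → IsUnifExp 𝔠 M →
    (∀ w : List 𝔠, (∀ z : 𝔠, Commute (wprod (fun x : 𝔠 => τ x) w) (τ z)) →
      χ ((w.map fun x : 𝔠 => ex x).prod ^ M) = 0) →
    ∀ x ∈ Kills G, χ x = 0

theorem ex_zero (S : IsSetup k N ex) : ex 0 = 1 := by
  have := S.ex_add 0 0 (lie_zero _)
  rw [add_zero] at this
  exact left_eq_mul.1 this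

omit [TopologicalSpace G] in
theorem map_word {𝔸 : Type} [NormedRing 𝔸] [NormedAlgebra ℝ 𝔸] {ρ : G →* 𝔸} {τ : 𝔤 →ₗ[ℝ] 𝔸}
    (hex : ∀ X, ρ (ex X) = exp (τ X)) {α : Type*} (f : α → 𝔤) (w : List α) :
    ρ (w.map fun x => ex (f x)).prod = wprod (fun x => τ (f x)) w := by
  induction w with
  | nil => exact map_one ρ
  | cons x w ih => rw [List.map_cons, List.prod_cons, map_mul, ih, hex]; simp [wprod]

theorem exists_rep (S : IsSetup k N ex) (hK : KerSt k ex) (hG : Good (Kills G)) (i : I) :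
    ∃ (𝔸 : Type) (_ : NormedRing 𝔸) (_ : NormedAlgebra ℝ 𝔸) (_ : FiniteDimensional ℝ 𝔸)
      (ρ : G →* 𝔸) (τ : 𝔤 →ₗ[ℝ] 𝔸), Continuous ρ ∧ IsLieMap τ ∧ (∀ X, ρ (ex X) = exp (τ X)) ∧
      ∀ X, τ X = 0 → X ∈ k i := by
  let 𝓦 : Set (Submodule ℝ 𝔤) := {W | ∃ (𝔸 : Type) (_ : NormedRing 𝔸) (_ : NormedAlgebra ℝ 𝔸)
    (_ : FiniteDimensional ℝ 𝔸) (ρ : G →* 𝔸) (τ : 𝔤 →ₗ[ℝ] 𝔸), Continuous ρ ∧ IsLieMap τ ∧
      (∀ X, ρ (ex X) = exp (τ X)) ∧ W = LinearMap.ker τ}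
  have hinf : sInf 𝓦 = ⊥ := by
    refine eq_bot_iff.2 fun X hX => ?_
    have h1 : ∀ t : ℝ, ex (t • X) ∈ Kills G := by
      intro t 𝔸 _ _ _ ρ hρ
      obtain ⟨τ, hτ, hex⟩ := S.rep 𝔸 ρ hρ
      have h2 : τ X = 0 := Submodule.mem_sInf.1 hX _ ⟨𝔸, _, _, ‹_›, ρ, τ, hρ, hτ, hex, rfl⟩
      rw [hex, map_smul, h2, smul_zero, exp_zero]
    have h2 := hG.1 (fun t => ⟨ex (t • X), h1 t⟩) ((S.ex_cont X).subtype_mk _)
      (Subtype.ext (by simpa using ex_zero S))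
    exact S.ex_inj X fun t => congrArg Subtype.val (h2 t)
  have key := S.pro.lc 𝓦
    ⟨_, ℝ, inferInstance, inferInstance, inferInstance, 1, 0, continuous_const,
      fun x y => by simp, fun X => by simp, rfl⟩ ?_ ?_ i
  · obtain ⟨W, ⟨𝔸, _, _, _, ρ, τ, hρ, hτ, hex, rfl⟩, hW⟩ := key
    rw [hinf, bot_sup_eq] at hW
    exact ⟨𝔸, _, _, ‹_›, ρ, τ, hρ, hτ, hex, fun X hX => hW hX⟩
  · rintro _ ⟨𝔸, _, _, _, ρ, τ, hρ, hτ, hex, rfl⟩ _ ⟨𝔹, _, _, _, ρ', τ', hρ', hτ', hex', rfl⟩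
    refine ⟨_, ⟨𝔸 × 𝔹, inferInstance, inferInstance, inferInstance, ρ.prod ρ', τ.prod τ',
      hρ.prodMk hρ', fun x y => Prod.ext (hτ x y) (hτ' x y), fun X => ?_, rfl⟩, ?_, ?_⟩
    · exact (Prod.ext (hex X) (hex' X)).trans (exp_prod (τ X) (τ' X)).symm
    · exact fun x hx => congrArg Prod.fst hx
    · exact fun x hx => congrArg Prod.snd hx
  · rintro _ ⟨𝔸, _, _, _, ρ, τ, hρ, -, hex, rfl⟩ x hx
    obtain ⟨j, hj⟩ := hK 𝔸 ρ hρ τ hex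
    exact (sup_le le_rfl (fun X hX => hj X hX) : _ ≤ LinearMap.ker τ) (hx j)

theorem step (S : IsSetup k N ex) (hK : KerSt k ex) (hD : DetSt k N ex)
    (hU : ∀ (𝔠 : Type v) [LieRing 𝔠] [LieAlgebra ℝ 𝔠] [FiniteDimensional ℝ 𝔠]
      [LieAlgebra.IsKilling ℝ 𝔠], ∃ N : ℕ, 0 < N ∧ IsUnifExp 𝔠 N)
    {𝔰 : LieSubalgebra ℝ 𝔤} (hL : IsLevi k 𝔰) (hG : Good (Kills G)) (a : LieIdeal ℝ 𝔤)
    (ha : ∃ i, k i ≤ a) : ∃ b : LieIdeal ℝ 𝔤, (∃ i, k i ≤ b) ∧ b ≤ a ∧ ∃ h ∈ Kills G, h ≠ 1 ∧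
      h ∈ Subgroup.closure (ex '' {x | x ∈ cent 𝔰 b ∧ x ∈ a}) := by
  classical
  have := hL.fd a ha
  let e := (Module.finBasis ℝ (cent 𝔰 a)).equivFun
  let wd : List (Fin (Module.finrank ℝ (cent 𝔰 a)) → ℝ) → G := fun v =>
    (v.map fun x => ex (e.symm x : 𝔤)).prod
  obtain ⟨χ₀, hadd, hnear, hg, h₀, hh₀⟩ := hG.2.2 _
    (fun v => if h : wd v ∈ Kills G then (⟨wd v, h⟩ : Kills G) else 1) (card_words _)
  let χ : G → ℤ := fun x => if h : x ∈ Kills G then χ₀ ⟨x, h⟩ else 0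
  have hχ : ∀ x (h : x ∈ Kills G), χ x = χ₀ ⟨x, h⟩ := fun x h => dif_pos h
  rw [nhds_subtype, eventually_comap] at hnear
  obtain ⟨i₀, hi₀⟩ := S.nhds _ hnear
  obtain ⟨i₁, hi₁⟩ := id ha
  obtain ⟨i, -, hki, hNi, -⟩ := S.dir i₀ i₁
  obtain ⟨𝔸, _, _, _, ρ, τ, hρ, hτ, hex, hker⟩ := exists_rep S hK hG i
  have hba : kerI τ hτ ≤ a := fun X hX => hi₁ (hki (hker X hX))
  have hb : ∃ j, k j ≤ kerI τ hτ := hK 𝔸 ρ hρ τ hex
  refine ⟨kerI τ hτ, hb, hba, ?_⟩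
  by_contra hno
  push Not at hno
  have := hL.fd _ hb
  have := hL.killing _ hb
  obtain ⟨M, hM, hUM⟩ := hU (cent 𝔰 (kerI τ hτ))
  obtain ⟨𝔧, n, hkj, hsol, hinf, hsup⟩ := hL.rad _ hb
  set 𝔠 := cent 𝔰 (kerI τ hτ) with h𝔠
  refine hh₀ ((hχ _ h₀.2).symm.trans (hD χ ?_ i ?_ 𝔸 ρ hρ τ hτ hex hker 𝔧 n (fun X hX => hkj hX)
    (fun X hX => hsol hX) 𝔠 hinf hsup M hM hUM ?_ _ h₀.2))
  · intro x hx y hy
    rw [hχ x hx, hχ y hy, hχ _ (mul_mem hx hy)]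
    exact hadd ⟨x, hx⟩ ⟨y, hy⟩
  · intro x hx hxN
    rw [hχ x hx]
    exact hi₀ (hNi hxN) ⟨x, hx⟩ rfl
  intro w hw
  have hsplit : ∀ z : 𝔠, ∃ (p : cent 𝔰 a) (q : 𝔠), (q : 𝔤) ∈ a ∧ (z : 𝔤) = p + q := by
    intro z
    obtain ⟨p, hp, q, hq, e⟩ := Submodule.mem_sup.1 (hL.split a ha z.2.1)
    refine ⟨⟨p, hp⟩, ⟨q, ?_⟩, hq, e.symm⟩
    rw [eq_sub_of_add_eq' e]
    exact 𝔠.sub_mem z.2 (cent_anti 𝔰 hba hp)
  choose p q hq hz using hsplit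
  let p' : 𝔠 → 𝔠 := fun z => ⟨p z, cent_anti 𝔰 hba (p z).2⟩
  have hpq : ∀ x y, ⁅(p x : 𝔤), (q y : 𝔤)⁆ = 0 := fun x y => (p x).2.2 _ (q y).2.1 (hq y)
  have hqp : ∀ x y, ⁅(q y : 𝔤), (p x : 𝔤)⁆ = 0 := fun x y => by rw [← lie_skew, hpq, neg_zero]
  have hcomm : ∀ x y, Commute (ex (p x)) (ex (q y)) := fun x y => by
    rw [commute_iff_eq, ← S.ex_add _ _ (hpq x y), ← S.ex_add _ _ (hqp x y), add_comm]
  have hτc : ∀ x y, Commute (τ (p x)) (τ (q y)) := fun x y => by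
    have := hτ (p x) (q y)
    rw [hpq, map_zero] at this
    exact sub_eq_zero.1 this.symm
  set A := (w.map fun x => ex (p x)).prod with hA
  set B := (w.map fun x => ex (q x)).prod with hB
  have hAB : (w.map fun x : 𝔠 => ex x).prod = A * B :=
    prod_split _ _ _ (fun x => by rw [hz x, S.ex_add _ _ (hpq x x)]) hcomm w
  have hcAB : Commute A B := by
    refine Commute.list_prod_left _ _ fun y hy => Commute.list_prod_right _ _ fun y' hy' => ?_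
    obtain ⟨z, -, rfl⟩ := List.mem_map.1 hy
    obtain ⟨z', -, rfl⟩ := List.mem_map.1 hy'
    exact hcomm z z'
  have hρAB : ∀ z : 𝔠, Commute (ρ A * ρ B) (τ z) := fun z => by
    rw [← map_mul, ← hAB, map_word hex]
    exact hw z
  have hAq : ∀ z, Commute (ρ A) (τ (q z)) := fun z => by
    rw [hA, map_list_prod]
    refine Commute.list_prod_left _ _ fun y hy => ?_
    obtain ⟨y', hy', rfl⟩ := List.mem_map.1 hy
    obtain ⟨x, -, rfl⟩ := List.mem_map.1 hy'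
    rw [hex]
    exact (hτc x z).exp_left
  have hBp : ∀ z, Commute (ρ B) (τ (p z)) := fun z => by
    rw [hB, map_list_prod]
    refine Commute.list_prod_left _ _ fun y hy => ?_
    obtain ⟨y', hy', rfl⟩ := List.mem_map.1 hy
    obtain ⟨x, -, rfl⟩ := List.mem_map.1 hy'
    rw [hex]
    exact (hτc z x).symm.exp_left
  have hA' : ∀ z : 𝔠, Commute (ρ A) (τ z) := fun z => by
    rw [hz z, map_add]
    refine Commute.add_right ?_ (hAq z)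
    have h1 : Commute (ρ A * ρ B) (τ (p z)) := hρAB (p' z)
    refine ((Group.isUnit B).map ρ).mul_right_cancel ?_
    rw [mul_assoc, ← (hBp z).eq, ← mul_assoc, h1.eq, mul_assoc]
  have hB' : ∀ z : 𝔠, Commute (ρ B) (τ z) := fun z => by
    rw [hz z, map_add]
    refine Commute.add_right (hBp z) ?_
    refine ((Group.isUnit A).map ρ).mul_left_cancel ?_
    rw [← mul_assoc, (hρAB (q z)).eq, ← mul_assoc, ← (hAq z).eq, mul_assoc]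
  have hinj : Function.Injective (τ.comp 𝔠.incl.toLinearMap) := by
    rw [injective_iff_map_eq_zero]
    intro x hx
    have : (x : 𝔤) ∈ 𝔠.toSubmodule ⊓ 𝔧.toSubmodule := ⟨x.2, hkj hx⟩
    rw [hinf] at this
    exact Subtype.ext this
  have hkill : ∀ r : 𝔠 → 𝔠, (∀ z : 𝔠, Commute (ρ (w.map fun x => ex (r x)).prod) (τ z)) →
      (w.map fun x => ex (r x)).prod ^ M ∈ Kills G := by
    intro r hr 𝔹 _ _ _ ρ' hρ'
    obtain ⟨τ', hτ', hex'⟩ := S.rep 𝔹 ρ' hρ'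
    have h1 := hUM (w.map r) 𝔸 _ (isLieMap_restrict hτ 𝔠) hinj (fun z => by
      have := hr z
      rw [map_word hex] at this
      simpa [wprod, Function.comp_def] using this) 𝔹 _ (isLieMap_restrict hτ' 𝔠)
    rw [map_pow, map_word hex']
    simpa [wprod, Function.comp_def] using h1
  have hAK : A ^ M ∈ Kills G := hkill p' hA'
  have hB1 : B ^ M = 1 := by
    by_contra h1
    refine hno _ (hkill q hB') h1 (Subgroup.pow_mem _ (Subgroup.list_prod_mem _ fun y hy => ?_) M)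
    obtain ⟨x, -, rfl⟩ := List.mem_map.1 hy
    exact Subgroup.subset_closure ⟨q x, ⟨(q x).2, hq x⟩, rfl⟩
  have hwd : wd (List.replicate M (w.map fun x => e (p x))).flatten = A ^ M := by
    simp [wd, hA, List.map_flatten, List.prod_flatten, Function.comp_def]
  have h2 := hg (List.replicate M (w.map fun x => e (p x))).flatten
  simp only [hwd, dif_pos hAK] at h2
  rw [hAB, hcAB.mul_pow, hB1, mul_one, hχ _ hAK, h2]

theorem not_good_of (S : IsSetup k N ex) (hK : KerSt k ex) (hD : DetSt k N ex)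
    (hU : ∀ (𝔠 : Type v) [LieRing 𝔠] [LieAlgebra ℝ 𝔠] [FiniteDimensional ℝ 𝔠]
      [LieAlgebra.IsKilling ℝ 𝔠], ∃ N : ℕ, 0 < N ∧ IsUnifExp 𝔠 N)
    (hL : ∃ 𝔰 : LieSubalgebra ℝ 𝔤, IsLevi k 𝔰) : ¬ Good (Kills G) := by
  intro hG
  obtain ⟨𝔰, hL⟩ := hL
  choose F hF hle h hK1 h1 hcl using step S hK hD hU hL hG
  obtain ⟨i₀⟩ := S.pro.nonempty
  let F' : {a : LieIdeal ℝ 𝔤 // ∃ i, k i ≤ a} → {a : LieIdeal ℝ 𝔤 // ∃ i, k i ≤ a} :=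
    fun a => ⟨F a.1 a.2, hF a.1 a.2⟩
  let c : ℕ → {a : LieIdeal ℝ 𝔤 // ∃ i, k i ≤ a} := fun n => F'^[n] ⟨⊤, i₀, le_top⟩
  have hc : ∀ n, (c (n + 1)).1 = F (c n).1 (c n).2 := fun n =>
    congrArg Subtype.val (Function.iterate_succ_apply' F' n _)
  obtain ⟨n, hn⟩ := hG.2.1 (fun n => ⟨h (c n).1 (c n).2, hK1 _ _⟩) (by
    rw [tendsto_subtype_rng, tendsto_def]
    intro U hU
    obtain ⟨j, hj⟩ := S.nhds U hU
    filter_upwards [eventually_le S.pro hL (fun n => (c n).1)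
      (fun n => by rw [hc]; exact hle _ _) j] with n hn
    refine hj ((Subgroup.closure_le _).2 ?_ (hcl (c n).1 (c n).2))
    rintro _ ⟨x, hx, rfl⟩
    exact S.ex_mem j x (hn x (by rw [hc]; exact hx.1) hx.2))
  exact h1 _ _ (congrArg Subtype.val hn)

end Pool.Agent.Lib.MP_0cde51_al.Final
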