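import Pool.Agent.Lib.MP_0cde51_al.Alg

/-! The universal cover of `SU(1,1)` on `ℂ × ℝ`: the group law and its smoothness. -/

namespace Pool.Agent.Lib.MP_0cde51_al.SUAux

open Complex ComplexConjugate
open scoped Manifold ContDiff

theorem isLie_of_smooth (E : Type) [NormedAddCommGroup E] [NormedSpace ℝ E]
    [FiniteDimensional ℝ E] [g : Group E] (hm : ContDiff ℝ ∞ fun p : E × E => p.1 * p.2)
    (hi : ContDiff ℝ ∞ fun x : E => x⁻¹) : IsLie E := by
  refine ⟨inferInstance, E, inferInstance, inferInstance, inferInstance, chartedSpaceSelf E, ?_⟩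
  have h1 : ContMDiff ((modelWithCornersSelf ℝ E).prod (modelWithCornersSelf ℝ E))
      (modelWithCornersSelf ℝ E) ∞ fun p : E × E => p.1 * p.2 := by
    rw [← modelWithCornersSelf_prod, chartedSpaceSelf_prod]
    exact hm.contMDiff
  exact { contMDiff_mul := h1, contMDiff_inv := hi.contMDiff }

/-- The modulus of the diagonal entry. -/
noncomputable def rr (b : ℂ) : ℝ := Real.sqrt (1 + normSq b)

/-- The diagonal entry. -/
noncomputable def aa (x : ℂ × ℝ) : ℂ := exp (x.2 * I) * rr x.1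

/-- The cocycle before taking the argument. -/
noncomputable def ww (x y : ℂ × ℝ) : ℂ := 1 + x.1 * conj y.1 / (aa x * aa y)

/-- The group law. -/
noncomputable def mm (x y : ℂ × ℝ) : ℂ × ℝ :=
  (aa x * y.1 + x.1 * conj (aa y), x.2 + y.2 + arg (ww x y))

theorem rr_sq (b : ℂ) : rr b ^ 2 = 1 + normSq b :=
  Real.sq_sqrt (by have := normSq_nonneg b; linarith)

theorem rr_pos (b : ℂ) : 0 < rr b :=
  Real.sqrt_pos.2 (by have := normSq_nonneg b; linarith)

theorem norm_lt_rr (b : ℂ) : ‖b‖ < rr b := by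
  apply Real.lt_sqrt_of_sq_lt
  rw [← normSq_eq_norm_sq]; linarith

theorem norm_aa (x : ℂ × ℝ) : ‖aa x‖ = rr x.1 := by
  rw [aa, norm_mul, norm_exp_ofReal_mul_I, one_mul, Complex.norm_real,
    Real.norm_of_nonneg (rr_pos _).le]

theorem aa_ne (x : ℂ × ℝ) : aa x ≠ 0 := by
  rw [← norm_pos_iff, norm_aa]; exact rr_pos _

theorem aa_mul_conj (x : ℂ × ℝ) : aa x * conj (aa x) = 1 + x.1 * conj x.1 := by
  rw [mul_conj, mul_conj, normSq_eq_norm_sq, norm_aa, rr_sq]; push_cast; ring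

theorem ww_re_pos (x y : ℂ × ℝ) : 0 < (ww x y).re := by
  have h : ‖x.1 * conj y.1 / (aa x * aa y)‖ < 1 := by
    rw [norm_div, norm_mul, norm_mul, norm_aa, norm_aa, Complex.norm_conj,
      div_lt_one (mul_pos (rr_pos _) (rr_pos _))]
    exact mul_lt_mul'' (norm_lt_rr _) (norm_lt_rr _) (norm_nonneg _) (norm_nonneg _)
  have h2 := abs_re_le_norm (x.1 * conj y.1 / (aa x * aa y))
  have h3 := neg_abs_le (x.1 * conj y.1 / (aa x * aa y)).re
  rw [ww, add_re, one_re]; linarith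

theorem abs_arg_ww (x y : ℂ × ℝ) : |arg (ww x y)| < Real.pi / 2 :=
  abs_arg_lt_pi_div_two_iff.2 (Or.inl (ww_re_pos x y))

theorem aa_mul_ww (x y : ℂ × ℝ) : aa x * aa y * ww x y = aa x * aa y + x.1 * conj y.1 := by
  have := aa_ne x
  have := aa_ne y
  rw [ww]; field_simp

theorem aa_mm (x y : ℂ × ℝ) : aa (mm x y) = aa x * aa y + x.1 * conj y.1 := by
  have h1 : (((1 + normSq (mm x y).1 : ℝ)) : ℂ) = normSq (aa x * aa y + x.1 * conj y.1) := by
    have hx := aa_mul_conj x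
    have hy := aa_mul_conj y
    push_cast
    rw [← mul_conj, ← mul_conj]
    simp only [mm, map_add, map_mul, conj_conj]
    linear_combination (-(aa y * conj (aa y)) + y.1 * conj y.1) * hx - hy
  have h2 : rr (mm x y).1 = rr x.1 * rr y.1 * ‖ww x y‖ := by
    rw [rr, ofReal_injective h1, ← aa_mul_ww, normSq_eq_norm_sq, Real.sqrt_sq (norm_nonneg _),
      norm_mul, norm_mul, norm_aa, norm_aa]
  rw [← aa_mul_ww, aa, h2]
  conv_rhs => rw [← norm_mul_exp_arg_mul_I (ww x y)]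
  simp only [aa, mm]
  push_cast
  rw [add_mul, add_mul, exp_add, exp_add]; ring

theorem ext_aa {x y : ℂ × ℝ} (h1 : x.1 = y.1) (h2 : aa x = aa y)
    (h3 : |x.2 - y.2| < 2 * Real.pi) : x = y := by
  refine Prod.ext h1 ?_
  have hr : ((rr y.1 : ℝ) : ℂ) ≠ 0 := ofReal_ne_zero.2 (rr_pos _).ne'
  rw [aa, aa, h1] at h2
  obtain ⟨n, hn⟩ := exp_eq_exp_iff_exists_int.1 (mul_right_cancel₀ hr h2)
  have h4 : x.2 - y.2 = n * (2 * Real.pi) := by
    have := congrArg Complex.im hn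
    simp at this
    linarith
  rw [h4, abs_mul, abs_of_pos (by positivity : (0 : ℝ) < 2 * Real.pi)] at h3
  have h5 : |(n : ℝ)| < 1 := by
    by_contra h
    push Not at h
    have := Real.pi_pos
    nlinarith
  have h6 : n = 0 := by
    rw [← Int.cast_abs] at h5
    have : |n| < 1 := by exact_mod_cast h5
    exact Int.abs_lt_one_iff.1 this
  rw [h6] at h4
  simp at h4
  linarith

theorem mm_assoc (x y z : ℂ × ℝ) : mm (mm x y) z = mm x (mm y z) := by
  apply ext_aa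
  · show aa (mm x y) * z.1 + (mm x y).1 * conj (aa z) =
      aa x * (mm y z).1 + x.1 * conj (aa (mm y z))
    rw [aa_mm, aa_mm]
    simp only [mm, map_add, map_mul, conj_conj]; ring
  · rw [aa_mm, aa_mm, aa_mm, aa_mm]
    simp only [mm, map_add, map_mul, conj_conj]; ring
  · have h1 := abs_lt.1 (abs_arg_ww x y)
    have h2 := abs_lt.1 (abs_arg_ww (mm x y) z)
    have h3 := abs_lt.1 (abs_arg_ww y z)
    have h4 := abs_lt.1 (abs_arg_ww x (mm y z))
    have e1 : (mm (mm x y) z).2 = x.2 + y.2 + arg (ww x y) + z.2 + arg (ww (mm x y) z) := rfl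
    have e2 : (mm x (mm y z)).2 = x.2 + (y.2 + z.2 + arg (ww y z)) + arg (ww x (mm y z)) := rfl
    rw [e1, e2, abs_lt]
    constructor <;> linarith [h1.1, h1.2, h2.1, h2.2, h3.1, h3.2, h4.1, h4.2]

theorem aa_zero (t : ℝ) : aa (0, t) = exp (t * I) := by simp [aa, rr]

theorem aa_one : aa (0, 0) = 1 := by simp [aa, rr]

theorem aa_neg (x : ℂ × ℝ) : aa (-x.1, -x.2) = conj (aa x) := by
  simp only [aa, rr, normSq_neg, map_mul, conj_ofReal, ← exp_conj, conj_I]
  push_cast; ring_nf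

/-- Two products agree once the matrix entries agree and the angles add up. -/
theorem mm_eq {x y z : ℂ × ℝ} (h1 : aa x * y.1 + x.1 * conj (aa y) = z.1)
    (h2 : aa x * aa y + x.1 * conj y.1 = aa z) (h3 : x.2 + y.2 = z.2) : mm x y = z := by
  refine ext_aa h1 (by rw [aa_mm, h2]) ?_
  have e1 : (mm x y).2 = x.2 + y.2 + arg (ww x y) := rfl
  have h4 := abs_arg_ww x y
  have := Real.pi_pos
  rw [e1, h3, add_sub_cancel_left]; linarith

theorem one_mm (x : ℂ × ℝ) : mm (0, 0) x = x :=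
  mm_eq (by simp [aa_one]) (by simp [aa_one]) (by simp)

theorem inv_mm (x : ℂ × ℝ) : mm (-x.1, -x.2) x = (0, 0) := by
  refine mm_eq ?_ ?_ (by simp)
  · rw [aa_neg]; ring
  · rw [aa_neg, aa_one]; linear_combination aa_mul_conj x

theorem contDiff_rr : ContDiff ℝ ∞ rr := by
  have h : ContDiff ℝ ∞ fun b : ℂ => 1 + normSq b := by
    have : (fun b : ℂ => 1 + normSq b) = fun b : ℂ => 1 + (reCLM b * reCLM b + imCLM b * imCLM b) := by
      funext b; simp [normSq_apply]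
    rw [this]; fun_prop
  exact h.sqrt fun b => by have := normSq_nonneg b; linarith

theorem contDiff_aa : ContDiff ℝ ∞ aa := by
  have h1 : ContDiff ℝ ∞ fun x : ℂ × ℝ => ((x.2 : ℝ) : ℂ) * I :=
    (ofRealCLM.contDiff.comp contDiff_snd).mul contDiff_const
  have h2 : ContDiff ℝ ∞ fun x : ℂ × ℝ => ((rr x.1 : ℝ) : ℂ) :=
    ofRealCLM.contDiff.comp (contDiff_rr.comp contDiff_fst)
  exact h1.cexp.mul h2

theorem contDiff_conj : ContDiff ℝ ∞ fun z : ℂ => conj z := conjCLE.contDiff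

theorem contDiff_ww : ContDiff ℝ ∞ fun p : (ℂ × ℝ) × (ℂ × ℝ) => ww p.1 p.2 := by
  have h1 : ContDiff ℝ ∞ fun p : (ℂ × ℝ) × (ℂ × ℝ) => aa p.1 * aa p.2 :=
    (contDiff_aa.comp contDiff_fst).mul (contDiff_aa.comp contDiff_snd)
  have h2 : ContDiff ℝ ∞ fun p : (ℂ × ℝ) × (ℂ × ℝ) => p.1.1 * conj p.2.1 :=
    contDiff_fst.fst.mul (contDiff_conj.comp contDiff_snd.fst)
  have h3 : ContDiff ℝ ∞ fun p : (ℂ × ℝ) × (ℂ × ℝ) => (aa p.1 * aa p.2)⁻¹ :=
    h1.inv fun p => mul_ne_zero (aa_ne _) (aa_ne _)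
  have h4 := (contDiff_const (c := (1 : ℂ))).add (h2.mul h3)
  simpa only [ww, div_eq_mul_inv] using h4

theorem contDiff_arg_ww : ContDiff ℝ ∞ fun p : (ℂ × ℝ) × (ℂ × ℝ) => arg (ww p.1 p.2) := by
  have h : ContDiff ℝ ∞ fun p : (ℂ × ℝ) × (ℂ × ℝ) => log (ww p.1 p.2) := by
    rw [contDiff_iff_contDiffAt]
    intro p
    have h1 : ContDiffAt ℝ ∞ log (ww p.1 p.2) :=
      (Complex.contDiffAt_log (Or.inl (ww_re_pos _ _))).restrict_scalars ℝ
    exact h1.comp p contDiff_ww.contDiffAt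
  have h2 := imCLM.contDiff.comp h
  simpa only [Function.comp_def, imCLM_apply, log_im] using h2

theorem contDiff_mm : ContDiff ℝ ∞ fun p : (ℂ × ℝ) × (ℂ × ℝ) => mm p.1 p.2 := by
  refine ContDiff.prodMk ?_ ?_
  · exact ((contDiff_aa.comp contDiff_fst).mul contDiff_snd.fst).add
      (contDiff_fst.fst.mul (contDiff_conj.comp (contDiff_aa.comp contDiff_snd)))
  · exact (contDiff_fst.snd.add contDiff_snd.snd).add contDiff_arg_ww

theorem contDiff_iv : ContDiff ℝ ∞ fun x : ℂ × ℝ => ((-x.1, -x.2) : ℂ × ℝ) :=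
  contDiff_fst.neg.prodMk contDiff_snd.neg

end Pool.Agent.Lib.MP_0cde51_al.SUAux
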