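import Pool.Agent.Lib.MP_0cde51_al.Tower
import Pool.Agent.Lib.MP_0cde51_al.ChartE
import Pool.Agent.Lib.MP_0cde51_al.ChartF

/-! The Lie algebra and the exponential map of a projective limit of Lie groups. -/

namespace Pool.Agent.Lib.MP_0cde51_al

open Filter Topology

universe u v

theorem exists_factor {V E F : Type*} [AddCommGroup V] [Module ℝ V] [AddCommGroup E] [Module ℝ E]
    [AddCommGroup F] [Module ℝ F] (p : V →ₗ[ℝ] E) (ℓ : V →ₗ[ℝ] F) (h : ∀ x, p x = 0 → ℓ x = 0) :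
    ∃ l : E →ₗ[ℝ] F, ∀ x, l (p x) = ℓ x := by
  obtain ⟨l, hl⟩ := LinearMap.exists_extend
    (((LinearMap.ker p).liftQ ℓ h) ∘ₗ p.quotKerEquivRange.symm.toLinearMap)
  refine ⟨l, fun X => ?_⟩
  have h1 := LinearMap.congr_fun hl ⟨p X, X, rfl⟩
  have h2 := p.quotKerEquivRange_symm_apply_image X ⟨X, rfl⟩
  simp only [LinearMap.comp_apply, Submodule.subtype_apply, LinearEquiv.coe_coe] at h1
  rw [h1, h2]
  rfl

theorem exists_setup_of_charts {G : Type u} [Group G] [TopologicalSpace G] [IsTopologicalGroup G]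
    {I : Type v} [Preorder I] [Nonempty I] (dir : ∀ i j : I, ∃ k, i ≤ k ∧ j ≤ k)
    {L : I → Type v} [∀ i, Group (L i)] [∀ i, TopologicalSpace (L i)]
    [∀ i, IsTopologicalGroup (L i)] [∀ i, T2Space (L i)] {E : I → Type}
    [∀ i, NormedAddCommGroup (E i)] [∀ i, NormedSpace ℝ (E i)] [∀ i, FiniteDimensional ℝ (E i)]
    (c : ∀ i, Chart (L i) (E i)) (f : ∀ i j : I, i ≤ j → L j →* L i)
    (hf : ∀ i j h, Continuous (f i j h))
    (fc : ∀ i j k (hij : i ≤ j) (hjk : j ≤ k) x, f i j hij (f j k hjk x) = f i k (hij.trans hjk) x)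
    (P : ∀ i, G →* L i) (hind : IsInducing fun g i => P i g)
    (hinj : ∀ g h, (∀ i, P i g = P i h) → g = h) (hP : ∀ i j h g, f i j h (P j g) = P i g)
    (hsurj : ∀ x : ∀ i, L i, (∀ i j h, f i j h (x j) = x i) → ∃ g, ∀ i, P i g = x i) :
    ∃ (𝔤 : Type v) (_ : LieRing 𝔤) (_ : LieAlgebra ℝ 𝔤) (k : I → LieIdeal ℝ 𝔤)
      (N : I → Subgroup G) (ex : 𝔤 → G), IsSetup k N ex := by
  have : ∀ i, CompleteSpace (E i) := fun i => FiniteDimensional.complete ℝ (E i)
  choose D hD using fun i j h => (c j).exists_dmap_hom (c i) (f i j h) (hf i j h)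
  let T : Tower E :=
    { D := D
      ad := fun i => (c i).ad
      ad_self := fun i => (c i).ad_self
      ad_ad := fun i => (c i).ad_ad
      D_ad := fun i j h => (c j).dmap_ad (c i) (f i j h) (D i j h) (hD i j h)
      D_comp := fun i j k hij hjk x => (c i).eq_of_exp_smul fun t => by
        rw [← map_smul, ← map_smul, ← map_smul, ← hD, ← hD, ← hD, fc] }
  choose ex hex using fun X : T.Alg => hsurj (fun i => (c i).exp (T.p i X)) fun i j h => by
    rw [hD]; exact congrArg _ (T.D_p i j h X)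
  have hPc : ∀ i, Continuous (P i) := fun i => (continuous_apply i).comp hind.continuous
  have hcont : ∀ X : T.Alg, Continuous fun t : ℝ => ex (t • X) := fun X => by
    rw [hind.continuous_iff]
    refine continuous_pi fun i => ?_
    simp only [Function.comp_apply, hex, map_smul]
    exact (c i).continuous_exp_smul _
  have hclo : ∀ i (b : LieIdeal ℝ T.Alg), ∀ u ∈ Subgroup.closure
      ((c i).exp '' (b.toSubmodule.map (T.p i))), ∃ w ∈ Subgroup.closure (ex '' (b : Set T.Alg)),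
        P i w = u := by
    intro i b u hu
    have : (c i).exp '' (b.toSubmodule.map (T.p i)) = P i '' (ex '' (b : Set T.Alg)) := by
      rw [Submodule.map_coe, Set.image_image, Set.image_image]
      exact Set.image_congr fun x _ => (hex x i).symm
    rw [this, ← MonoidHom.map_closure] at hu
    exact hu
  have hb : ∀ i (b : LieIdeal ℝ T.Alg) (X : T.Alg), ∀ y ∈ b.toSubmodule.map (T.p i),
      (c i).ad (T.p i X) y ∈ b.toSubmodule.map (T.p i) := by
    rintro i b X _ ⟨y, hy, rfl⟩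
    exact ⟨⁅X, y⁆, b.lie_mem hy, rfl⟩
  have hk0 : ∀ i (b : LieIdeal ℝ T.Alg) (X Y : T.Alg), ⁅X, Y⁆ ∈ b →
      ∃ u ∈ Subgroup.closure (ex '' (b : Set T.Alg)),
        (ex (X + Y) * u)⁻¹ * (ex X * ex Y) ∈ (P i).ker := by
    intro i b X Y h
    obtain ⟨w, hw, e⟩ := hclo i b _ ((c i).exp_mul_exp_mem (b.toSubmodule.map (T.p i))
      (by rintro _ ⟨x, -, rfl⟩ y hy; exact hb i b x y hy) (T.p i X) (T.p i Y) (hb i b X)
      (hb i b Y) ⟨_, h, rfl⟩)
    refine ⟨w, hw, ?_⟩
    simp only [MonoidHom.mem_ker, map_mul, map_inv, e, hex, map_add]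
    group
  have hnhds : ∀ U ∈ 𝓝 (1 : G), ∃ i, ((P i).ker : Set G) ⊆ U := by
    intro U hU
    rw [hind.nhds_eq_comap, nhds_pi, mem_comap] at hU
    obtain ⟨V, hV, hVU⟩ := hU
    obtain ⟨S, hS, t, ht, htV⟩ := Filter.mem_pi.1 hV
    obtain ⟨l, hl⟩ := exists_finset_ub dir hS.toFinset
    refine ⟨l, fun g hg => hVU (htV fun i hi => ?_)⟩
    have h1 : P i g = P i 1 := by
      rw [← hP i l (hl i (hS.mem_toFinset.2 hi)) g, show P l g = 1 from hg, map_one, map_one]
    change P i g ∈ t i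
    rw [h1]
    exact mem_of_mem_nhds (ht i)
  refine ⟨T.Alg, inferInstance, inferInstance, T.k, fun i => (P i).ker, ex, T.isProAlg dir,
    fun i => inferInstance, fun i j => ?_, hnhds, fun i X hX => ?_, fun X Y h => ?_, hcont,
    fun X h => ?_, fun i b X Y hY => ?_, hk0, fun i ℓ hℓ ε hε => ?_, fun 𝔸 _ _ _ ρ hρ => ?_⟩
  · obtain ⟨l, h1, h2⟩ := dir i j
    have : ∀ i (h : i ≤ l), (P l).ker ≤ (P i).ker := fun i h g hg => by
      rw [MonoidHom.mem_ker] at hg ⊢
      rw [← hP i l h, hg, map_one]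
    exact ⟨l, T.k_anti h1, T.k_anti h2, this i h1, this j h2⟩
  · rw [MonoidHom.mem_ker, hex, T.mem_k.1 hX, Chart.exp_zero]
  · refine hinj _ _ fun i => ?_
    obtain ⟨u, hu, e⟩ := hk0 i ⊥ X Y (by simpa using h)
    have h0 : P i u = 1 := by
      refine (Subgroup.closure_le (P i).ker).2 ?_ hu
      rintro _ ⟨x, hx, rfl⟩
      have : x = 0 := hx
      change P i (ex x) = 1
      rw [hex, this, map_zero, Chart.exp_zero]
    rw [MonoidHom.mem_ker, map_mul, map_inv, inv_mul_eq_one, map_mul, h0, mul_one] at e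
    exact e
  · refine T.alg_ext fun i => (c i).eq_of_exp_smul fun t => ?_
    rw [← map_smul, ← hex, h, map_one, map_zero, smul_zero, Chart.exp_zero]
  · obtain ⟨Y', hY', e⟩ := exp_apply_mem ((c i).ad (T.p i X)) (b.toSubmodule.map (T.p i))
      (hb i b X) (T.p i Y) ⟨Y, hY, rfl⟩
    refine ⟨Y', hY', ?_⟩
    simp only [MonoidHom.mem_ker, map_mul, map_inv, hex]
    rw [Chart.conj_exp, Chart.Ad_exp, e, inv_mul_cancel]
  · obtain ⟨l, hl⟩ := exists_factor (T.p i) ℓ hℓ
    obtain ⟨j, h, hj⟩ := T.exists_range_le dir i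
    have h1 : ∀ᶠ x in 𝓝 (1 : L j), ∃ y, |l (D i j h y)| < ε ∧ (c j).exp y = x := by
      rw [← (c j).map_exp_nhds, eventually_map]
      have h2 := ((l ∘ₗ D i j h).continuous_of_finiteDimensional.abs).tendsto 0
      rw [map_zero, abs_zero] at h2
      exact (h2.eventually (gt_mem_nhds hε)).mono fun y hy => ⟨y, hy, rfl⟩
    have h3 := (hPc j).tendsto 1
    rw [map_one] at h3
    filter_upwards [h3.eventually h1] with g hg
    obtain ⟨y, hy, e⟩ := hg
    obtain ⟨X, hX⟩ := hj y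
    refine ⟨X, ?_, by rw [← hl, hX]; exact hy⟩
    rw [MonoidHom.mem_ker, map_mul, map_inv, hex, hX, ← hP i j h, ← e, hD]
    exact inv_mul_cancel _
  · have hadd : ∀ (X : T.Alg) (s t : ℝ), ex ((s + t) • X) = ex (s • X) * ex (t • X) :=
      fun X s t => hinj _ _ fun i => by
        simp only [map_mul, hex, map_smul]
        exact (c i).exp_add_smul _ _ _
    obtain ⟨τ, hτ⟩ := exists_dmap_alg ex hcont hadd (fun X Y => by
      rw [hind.tendsto_nhds_iff, tendsto_pi_nhds]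
      intro i
      simp only [Function.comp_apply, map_pow, map_mul, hex, map_smul, map_add]
      exact (c i).trotter _ _) ρ hρ
    refine ⟨τ, fun X Y => ?_, hτ⟩
    obtain ⟨j, hj⟩ := hnhds (ρ ⁻¹' Metric.ball 1 (1 / 2)) (hρ.continuousAt.preimage_mem_nhds (by
      rw [map_one]; exact Metric.ball_mem_nhds _ (by norm_num)))
    have hρj : ∀ g, P j g = 1 → ρ g = 1 := fun g hg => eq_one_of_pow_near _ fun n => by
      rw [← map_pow, ← dist_eq_norm]
      exact hj ((P j).ker.pow_mem hg n)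
    have hρj' : ∀ g g', P j g = P j g' → ρ g = ρ g' := fun g g' e => by
      have := hρj (g⁻¹ * g') (by rw [map_mul, map_inv, e, inv_mul_cancel])
      calc ρ g = ρ g * ρ (g⁻¹ * g') := by rw [this, mul_one]
        _ = ρ g' := by rw [← map_mul, mul_inv_cancel_left]
    have hk : ∀ Z ∈ T.k j, τ Z = 0 := fun Z hZ => eq_of_exp_smul_eq fun t => by
      rw [← map_smul, ← hτ, smul_zero, NormedSpace.exp_zero]
      exact hρj _ (by rw [hex, map_smul, T.mem_k.1 hZ, smul_zero, Chart.exp_zero])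
    obtain ⟨σ, hσ⟩ := exists_factor (T.p j) τ hk
    rw [← hσ ⁅X, Y⁆]
    refine deriv_lie σ ((c j).ad (T.p j X)) (T.p j Y) _ _ fun t => ?_
    obtain ⟨Y', -, e⟩ := exp_apply_mem ((c j).ad (T.p j (t • X)))
      ((⊤ : LieIdeal ℝ T.Alg).toSubmodule.map (T.p j)) (hb j ⊤ _) (T.p j Y) ⟨Y, trivial, rfl⟩
    rw [← map_smul, ← map_smul, ← e, hσ]
    refine eq_conj_of_exp fun s => ?_
    rw [smul_neg, ← map_smul, ← map_smul, ← map_smul, ← map_neg, ← hτ, ← hτ, ← hτ, ← hτ,
      ← map_mul, ← map_mul]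
    refine hρj' _ _ ?_
    simp only [map_mul, hex, map_neg, Chart.exp_neg]
    rw [Chart.conj_exp, Chart.Ad_exp, map_smul (T.p j) s Y', map_smul (T.p j) s Y, e, ← map_smul]

theorem IsProLie.exists_setup {G : Type u} [Group G] [TopologicalSpace G] [IsTopologicalGroup G]
    (h : IsProLie.{u, v} G) : ∃ (I : Type v) (𝔤 : Type v) (_ : LieRing 𝔤) (_ : LieAlgebra ℝ 𝔤)
      (k : I → LieIdeal ℝ 𝔤) (N : I → Subgroup G) (ex : 𝔤 → G), IsSetup k N ex := by
  obtain ⟨-, P, ⟨e⟩⟩ := h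
  choose h1 h2 E i1 i2 h3 c using fun i => (P.lie i).exists_chart
  have := P.nonempty
  refine ⟨P.I, exists_setup_of_charts P.directed (fun i => (c i).some)
    (fun i j h => (P.f i j h).toMonoidHom) (fun i j h => (P.f i j h).continuous) P.f_comp
    (fun i => (Pi.evalMonoidHom _ i).comp (P.limit.subtype.comp e.toMulEquiv.toMonoidHom))
    (IsInducing.subtypeVal.comp e.toHomeomorph.isInducing)
    (fun g g' hg => e.injective (Subtype.ext (funext hg))) (fun i j h g => (e g).2 i j h)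
    fun x hx => ⟨e.symm ⟨x, hx⟩, fun i => ?_⟩⟩
  change (e (e.symm ⟨x, hx⟩)).1 i = x i
  rw [e.apply_symm_apply]

end Pool.Agent.Lib.MP_0cde51_al
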