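import Pool.Agent.Lib.MP_0cde51_al.Basic

/-! Specker's theorem for integer sequences and for countably supported integer functions. -/

namespace Pool.Agent.Lib.MP_0cde51_al

namespace Specker

open Filter Topology

/-- Tail lemma: the value of `f` modulo a common divisor of the tail. -/
theorem tail_dvd (f : (ℕ → ℤ) →+ ℤ) (a : ℕ → ℤ) (N : ℕ) (D : ℤ) (h : ∀ n, N ≤ n → D ∣ a n) :
    D ∣ f a - ∑ n ∈ Finset.range N, a n * f (Pi.single n 1) := by
  classical
  let b : ℕ → ℤ := fun n => if n < N then 0 else a n / D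
  have ha : a = ∑ n ∈ Finset.range N, a n • (Pi.single n 1 : ℕ → ℤ) + D • b := by
    funext m
    simp only [Pi.add_apply, Finset.sum_apply, Pi.smul_apply, smul_eq_mul, Pi.single_apply,
      mul_ite, mul_one, mul_zero, Finset.sum_ite_eq, Finset.mem_range, b]
    by_cases hm : m < N
    · simp [hm]
    · simp only [hm, if_false, zero_add]
      exact (Int.mul_ediv_cancel' (h m (not_lt.1 hm))).symm
  have hf : f a = ∑ n ∈ Finset.range N, a n * f (Pi.single n 1) + D * f b := by
    conv_lhs => rw [ha]
    rw [map_add, map_sum, map_zsmul, smul_eq_mul]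
    simp only [map_zsmul, smul_eq_mul]
  rw [hf, add_sub_cancel_left]
  exact dvd_mul_right _ _

theorem eq_zero_of_pow_dvd (p : ℤ) (hp : 2 ≤ p) (z : ℤ) (h : ∀ N : ℕ, p ^ N ∣ z) : z = 0 := by
  refine Int.eq_zero_of_abs_lt_dvd (h z.natAbs) ?_
  have h1 : (z.natAbs : ℤ) < 2 ^ z.natAbs := by exact_mod_cast Nat.lt_two_pow_self
  have h2 : (2 : ℤ) ^ z.natAbs ≤ p ^ z.natAbs := pow_le_pow_left₀ (by norm_num) hp _
  rw [← Int.natCast_natAbs]
  exact h1.trans_le h2

/-- A homomorphism that kills the unit vectors is zero. -/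
theorem eq_zero_of_single (f : (ℕ → ℤ) →+ ℤ) (h : ∀ n, f (Pi.single n 1) = 0) (a : ℕ → ℤ) :
    f a = 0 := by
  have key : ∀ p : ℤ, 2 ≤ p → ∀ b : ℕ → ℤ, f (fun n => b n * p ^ n) = 0 := by
    intro p hp b
    refine eq_zero_of_pow_dvd p hp _ fun N => ?_
    have := tail_dvd f (fun n => b n * p ^ n) N (p ^ N)
      (fun n hn => (pow_dvd_pow p hn).mul_left _)
    simpa [h] using this
  have hc : ∀ n : ℕ, ∃ u v : ℤ, u * 2 ^ n + v * 3 ^ n = 1 := fun n => by
    have : IsCoprime ((2 : ℤ) ^ n) (3 ^ n) :=
      IsCoprime.pow (by norm_num [Int.isCoprime_iff_gcd_eq_one])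
    exact this
  choose u v huv using hc
  have ha : a = (fun n => (a n * u n) * 2 ^ n) + fun n => (a n * v n) * 3 ^ n := by
    funext n
    simp only [Pi.add_apply]
    linear_combination (-(a n)) * huv n
  rw [ha, map_add, key 2 le_rfl, key 3 (by norm_num), add_zero]

/-- A homomorphism kills all but finitely many unit vectors. -/
theorem finite_support (f : (ℕ → ℤ) →+ ℤ) : {n | f (Pi.single n 1) ≠ 0}.Finite := by
  classical
  by_contra hB
  set B : Set ℕ := {n | f (Pi.single n 1) ≠ 0} with hBdef
  have : Infinite B := Set.infinite_coe_iff.2 hB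
  let c : ℕ → ℤ := fun n => ∏ m ∈ Finset.range n, (|f (Pi.single m 1)| + 1)
  have hc0 : ∀ n, c n ≠ 0 := fun n =>
    Finset.prod_ne_zero_iff.2 fun m _ => by positivity
  have hcd : ∀ m n, m ≤ n → c m ∣ c n := fun m n h =>
    Finset.prod_dvd_prod_of_subset _ _ _ (Finset.range_mono h)
  let a : Set B → ℕ → ℤ := fun s n => if n ∈ Subtype.val '' s then c n else 0
  have hinj : Function.Injective fun s => f (a s) := by
    intro s t hst
    by_contra hne
    have hex : ∃ n, ¬ (n ∈ Subtype.val '' s ↔ n ∈ Subtype.val '' t) := by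
      by_contra hall
      push Not at hall
      exact hne (Subtype.val_injective.image_injective (Set.ext hall))
    set n := Nat.find hex with hn
    have hn1 : ¬ (n ∈ Subtype.val '' s ↔ n ∈ Subtype.val '' t) := Nat.find_spec hex
    have hn2 : ∀ m < n, (m ∈ Subtype.val '' s ↔ m ∈ Subtype.val '' t) := fun m hm => by
      have := Nat.find_min hex hm
      tauto
    have hnB : n ∈ B := by
      by_contra hnb
      apply hn1
      constructor
      · rintro ⟨x, -, hx⟩
        exact absurd (hx ▸ x.2) hnb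
      · rintro ⟨x, -, hx⟩
        exact absurd (hx ▸ x.2) hnb
    have hd := tail_dvd f (a s - a t) (n + 1) (c (n + 1)) (fun m hm => by
      simp only [Pi.sub_apply, a]
      refine dvd_sub ?_ ?_ <;> split_ifs
      exacts [hcd _ _ hm, dvd_zero _, hcd _ _ hm, dvd_zero _])
    have h0 : f (a s - a t) = 0 := by
      rw [map_sub]
      exact sub_eq_zero.2 hst
    rw [h0, Finset.sum_range_succ, Finset.sum_eq_zero (fun m hm => by
      have := hn2 m (Finset.mem_range.1 hm)
      simp only [Pi.sub_apply, a, this, sub_self, zero_mul]), zero_add, zero_sub, dvd_neg] at hd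
    have hd2 : c (n + 1) ∣ c n * f (Pi.single n 1) := by
      simp only [Pi.sub_apply, a] at hd
      split_ifs at hd with h1 h2 h2
      · exact absurd ⟨fun _ => h2, fun _ => h1⟩ hn1
      · simpa using hd
      · simpa using hd
      · exact absurd ⟨fun h => absurd h h1, fun h => absurd h h2⟩ hn1
    have hc1 : c (n + 1) = c n * (|f (Pi.single n 1)| + 1) := Finset.prod_range_succ _ _
    rw [hc1, mul_dvd_mul_iff_left (hc0 n)] at hd2
    exact hnB (Int.eq_zero_of_abs_lt_dvd hd2 (by linarith))
  obtain ⟨e⟩ : Nonempty (ℤ ↪ B) :=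
    ⟨(Equiv.intEquivNat.toEmbedding).trans (Infinite.natEmbedding B)⟩
  exact Function.cantor_injective (fun s => e (f (a s))) (e.injective.comp hinj)

/-- The countably supported integer functions. -/
def cs (κ : Type) : AddSubgroup (κ → ℤ) where
  carrier := {a | (Function.support a).Countable}
  add_mem' := fun {a b} ha hb =>
    (Set.Countable.union ha hb).mono (Function.support_add a b)
  zero_mem' := by simp
  neg_mem' := fun {a} ha => by
    simpa using ha

variable {κ : Type}

open Classical in
/-- The unit vectors. -/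
noncomputable def unit (l : κ) : cs κ :=
  ⟨Pi.single l 1, (Set.countable_singleton l).mono Pi.support_single_subset⟩

/-- Extension by zero along an injection. -/
noncomputable def ext (u : ℕ → κ) (hu : Function.Injective u) : (ℕ → ℤ) →+ cs κ :=
  AddMonoidHom.mk' (fun a => ⟨Function.extend u a 0, (Set.countable_range u).mono (fun l hl => by
    by_contra h
    exact hl (Function.extend_apply' a (0 : κ → ℤ) l h))⟩) (fun a b => by
    apply Subtype.ext
    funext l
    by_cases h : ∃ n, u n = l
    · obtain ⟨n, rfl⟩ := h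
      simp [hu.extend_apply]
    · simp [Function.extend_apply' _ _ _ h])

theorem ext_apply (u : ℕ → κ) (hu : Function.Injective u) (a : ℕ → ℤ) (n : ℕ) :
    (ext u hu a : κ → ℤ) (u n) = a n := hu.extend_apply _ _ _

theorem ext_apply' (u : ℕ → κ) (hu : Function.Injective u) (a : ℕ → ℤ) (l : κ)
    (h : ¬ ∃ n, u n = l) : (ext u hu a : κ → ℤ) l = 0 := Function.extend_apply' _ _ _ h

theorem ext_single (u : ℕ → κ) (hu : Function.Injective u) (n : ℕ) :
    ext u hu (Pi.single n 1) = unit (u n) := by
  classical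
  apply Subtype.ext
  funext l
  by_cases h : ∃ m, u m = l
  · obtain ⟨m, rfl⟩ := h
    rw [ext_apply]
    simp [unit, Pi.single_apply, hu.eq_iff]
  · rw [ext_apply' u hu _ l h]
    have : l ≠ u n := fun e => h ⟨n, e.symm⟩
    simp [unit, this]

theorem continuous_ext (u : ℕ → κ) (hu : Function.Injective u) (l : κ) :
    Continuous fun a : ℕ → ℤ => (ext u hu a : κ → ℤ) l := by
  by_cases h : ∃ m, u m = l
  · obtain ⟨m, rfl⟩ := h
    simp only [ext_apply]
    exact continuous_apply m
  · simp only [ext_apply' u hu _ l h]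
    exact continuous_const

theorem exists_inj [Infinite κ] (T : Set κ) (hT : T.Countable) :
    ∃ u : ℕ → κ, Function.Injective u ∧ T ⊆ Set.range u := by
  let T' : Set κ := T ∪ Set.range (Infinite.natEmbedding κ)
  have h1 : T'.Countable := hT.union (Set.countable_range _)
  have h2 : T'.Infinite :=
    (Set.infinite_range_of_injective (Infinite.natEmbedding κ).injective).mono
      Set.subset_union_right
  have := h1.to_subtype
  have := h2.to_subtype
  obtain ⟨d⟩ := nonempty_denumerable T'
  refine ⟨fun n => ((Denumerable.eqv T').symm n : κ),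
    Subtype.val_injective.comp (Denumerable.eqv T').symm.injective, fun l hl => ?_⟩
  exact ⟨Denumerable.eqv T' ⟨l, Or.inl hl⟩, by simp⟩

/-- The support of a homomorphism. -/
def supp (f : cs κ →+ ℤ) : Set κ := {l | f (unit l) ≠ 0}

theorem supp_finite (f : cs κ →+ ℤ) : (supp f).Finite := by
  by_contra h
  have : Infinite (supp f) := Set.infinite_coe_iff.2 h
  let u : ℕ → κ := fun n => Infinite.natEmbedding (supp f) n
  have hu : Function.Injective u :=
    Subtype.val_injective.comp (Infinite.natEmbedding (supp f)).injective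
  have hf := finite_support (f.comp (ext u hu))
  refine Set.infinite_univ (hf.subset fun n _ => ?_)
  show f (ext u hu (Pi.single n 1)) ≠ 0
  rw [ext_single]
  exact (Infinite.natEmbedding (supp f) n).2

theorem eq_zero_of_unit [Infinite κ] (f : cs κ →+ ℤ) (h : ∀ l, f (unit l) = 0) (a : cs κ) :
    f a = 0 := by
  obtain ⟨u, hu, hT⟩ := exists_inj _ a.2
  have ha : a = ext u hu ((a : κ → ℤ) ∘ u) := by
    apply Subtype.ext
    funext l
    by_cases hl : ∃ m, u m = l
    · obtain ⟨m, rfl⟩ := hl
      rw [ext_apply]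
      rfl
    · rw [ext_apply' u hu _ l hl]
      by_contra h0
      exact hl (hT h0)
  rw [ha]
  refine eq_zero_of_single (f.comp (ext u hu)) (fun n => ?_) _
  show f (ext u hu (Pi.single n 1)) = 0
  rw [ext_single, h]

/-- Evaluation at a point. -/
def ev (l : κ) : cs κ →+ ℤ := AddMonoidHom.mk' (fun a => (a : κ → ℤ) l) (fun _ _ => rfl)

theorem ev_unit_self (l : κ) : ev l (unit l) = 1 := by
  simp [ev, unit]

theorem repr [Infinite κ] (f : cs κ →+ ℤ) (a : cs κ) :
    f a = ∑ l ∈ (supp_finite f).toFinset, (a : κ → ℤ) l * f (unit l) := by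
  classical
  let g : cs κ →+ ℤ := AddMonoidHom.mk'
    (fun a => f a - ∑ l ∈ (supp_finite f).toFinset, (a : κ → ℤ) l * f (unit l)) (fun a b => by
      simp only [map_add, AddSubgroup.coe_add, Pi.add_apply, add_mul, Finset.sum_add_distrib]
      ring)
  have hg : g a = 0 := by
    refine eq_zero_of_unit g (fun l => ?_) a
    show f (unit l) - ∑ m ∈ (supp_finite f).toFinset, (unit l : κ → ℤ) m * f (unit m) = 0
    have : ∀ m, (unit l : κ → ℤ) m * f (unit m) = if m = l then f (unit l) else 0 := by
      intro m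
      by_cases hm : m = l
      · subst hm
        simp [unit]
      · simp [unit, hm]
    simp only [this, Finset.sum_ite_eq', Set.Finite.mem_toFinset]
    split_ifs with hl
    · exact sub_self _
    · simpa [supp] using hl
  exact sub_eq_zero.1 hg

/-- A pointwise null sequence of homomorphisms contains zero. -/
theorem exists_eq_zero [Infinite κ] (f : ℕ → cs κ →+ ℤ) (hf : ∀ a, ∀ᶠ n in atTop, f n a = 0) :
    ∃ n, ∀ a, f n a = 0 := by
  obtain ⟨u, hu, hT⟩ := exists_inj (⋃ n, supp (f n))
    (Set.countable_iUnion fun n => (supp_finite _).countable)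
  have hcont : ∀ n, Continuous fun a : ℕ → ℤ => f n (ext u hu a) := fun n => by
    simp only [fun a => repr (f n) (ext u hu a)]
    exact continuous_finsetSum _ fun l _ => (continuous_ext u hu l).mul continuous_const
  let C : ℕ → Set (ℕ → ℤ) := fun N => {a | ∀ n, N ≤ n → f n (ext u hu a) = 0}
  have hC : ∀ N, IsClosed (C N) := fun N => by
    simp only [C, Set.ofPred_forall]
    exact isClosed_iInter fun n => isClosed_iInter fun _ =>
      isClosed_eq (hcont n) continuous_const
  have hU : ⋃ N, C N = Set.univ := Set.eq_univ_of_forall fun a => by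
    obtain ⟨N, hN⟩ := eventually_atTop.1 (hf (ext u hu a))
    exact Set.mem_iUnion.2 ⟨N, hN⟩
  obtain ⟨N, a₀, ha₀⟩ := nonempty_interior_of_iUnion_of_closed hC hU
  have hn : C N ∈ 𝓝 a₀ := mem_interior_iff_mem_nhds.1 ha₀
  have ht : Tendsto (fun m : ℕ => a₀ + Pi.single m 1) atTop (𝓝 a₀) := by
    refine tendsto_pi_nhds.2 fun k => tendsto_const_nhds.congr' ?_
    filter_upwards [eventually_gt_atTop k] with m hm
    simp [hm.ne]
  obtain ⟨M, hM⟩ := eventually_atTop.1 (ht.eventually hn)
  have h0 : a₀ ∈ C N := mem_of_mem_nhds hn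
  have h1 : ∀ᶠ n in atTop, ∀ m ∈ Finset.range M, f n (unit (u m)) = 0 :=
    (eventually_all_finset _).2 fun m _ => hf _
  obtain ⟨n, hn1, hn2⟩ := (h1.and (eventually_ge_atTop N)).exists
  refine ⟨n, eq_zero_of_unit _ fun l => ?_⟩
  by_contra hl
  obtain ⟨m, rfl⟩ := hT (Set.mem_iUnion.2 ⟨n, hl⟩)
  by_cases hm : m < M
  · exact hl (hn1 m (Finset.mem_range.2 hm))
  · have h2 : f n (ext u hu (a₀ + Pi.single m 1)) = 0 := hM m (not_lt.1 hm) n hn2
    rw [map_add, map_add, h0 n hn2, zero_add, ext_single] at h2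
    exact hl h2

/-- At most continuum many homomorphisms miss a common unit vector. -/
theorem exists_unit {J : Type} (hJ : Cardinal.mk J ≤ Cardinal.continuum)
    (f : J → cs (Set ℝ) →+ ℤ) : ∃ l, ∀ j, f j (unit l) = 0 := by
  by_contra h
  push Not at h
  have hU : ⋃ j, supp (f j) = Set.univ := Set.eq_univ_of_forall fun l => Set.mem_iUnion.2 (h l)
  have h1 := Cardinal.mk_iUnion_le fun j => supp (f j)
  have h2 : ⨆ j, Cardinal.mk (supp (f j)) ≤ Cardinal.continuum :=
    ciSup_le' fun j => (supp_finite (f j)).lt_aleph0.le.trans Cardinal.aleph0_le_continuum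
  have h3 := h1.trans (mul_le_mul' hJ h2)
  rw [hU, Cardinal.mk_univ, Cardinal.mk_set, Cardinal.mk_real,
    Cardinal.continuum_mul_self] at h3
  exact absurd h3 (not_le.2 (Cardinal.cantor _))

end Specker

end Pool.Agent.Lib.MP_0cde51_al
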