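import Pool.Agent.Lib.MP_0cde51_al.Alg

/-! Projective limits of finite-dimensional Lie algebras and their linear compactness. -/

namespace Pool.Agent.Lib.MP_0cde51_al

open Module

universe u v

section Solve

variable {I : Type v} {E : I → Type u} [∀ i, AddCommGroup (E i)] [∀ i, Module ℝ (E i)]

/-- the functionals that depend on finitely many coordinates -/
def finDual (E : I → Type u) [∀ i, AddCommGroup (E i)] [∀ i, Module ℝ (E i)] :
    Submodule ℝ (Dual ℝ (∀ i, E i)) :=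
  Submodule.span ℝ {ℓ | ∃ (i : I) (l : Dual ℝ (E i)), ℓ = l ∘ₗ LinearMap.proj i}

theorem pi_solve [∀ i, FiniteDimensional ℝ (E i)] (S : Set (Dual ℝ (∀ i, E i) × ℝ))
    (hS : ∀ q ∈ S, q.1 ∈ finDual E)
    (hfin : ∀ T : Finset (Dual ℝ (∀ i, E i) × ℝ), ↑T ⊆ S → ∃ x, ∀ q ∈ T, q.1 x = q.2) :
    ∃ x, ∀ q ∈ S, q.1 x = q.2 := by
  have h1 : ((0, 1) : Dual ℝ (∀ i, E i) × ℝ) ∉ Submodule.span ℝ S := by
    intro h
    obtain ⟨T, hT, hm⟩ := Submodule.mem_span_finite_of_mem_span h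
    obtain ⟨x, hx⟩ := hfin T hT
    have : ∀ q ∈ Submodule.span ℝ (T : Set (Dual ℝ (∀ i, E i) × ℝ)), q.1 x = q.2 := by
      intro q hq
      induction hq using Submodule.span_induction with
      | mem q hq => exact hx q hq
      | zero => rfl
      | add a b _ _ ha hb => simp [ha, hb]
      | smul r a _ ha => simp [ha]
    simpa using this _ hm
  obtain ⟨Ψ, hΨ1, hΨ⟩ := Submodule.exists_dual_map_eq_bot_of_notMem h1 inferInstance
  let ω : Dual ℝ (∀ i, E i) →ₗ[ℝ] ℝ := (-(Ψ (0, 1))⁻¹) • (Ψ ∘ₗ LinearMap.inl ℝ _ _)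
  have hω : ∀ q ∈ S, ω q.1 = q.2 := by
    intro q hq
    have h2 : Ψ q = 0 := by
      have : Ψ q ∈ (Submodule.span ℝ S).map Ψ := Submodule.mem_map_of_mem (Submodule.subset_span hq)
      rwa [hΨ, Submodule.mem_bot] at this
    have h3 : q = (q.1, 0) + q.2 • ((0, 1) : Dual ℝ (∀ i, E i) × ℝ) := by simp
    rw [h3, map_add, map_smul, smul_eq_mul] at h2
    simp only [ω, LinearMap.smul_apply, LinearMap.comp_apply, LinearMap.inl_apply, smul_eq_mul]
    field_simp
    linarith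
  let x : ∀ i, E i := fun i => (Module.evalEquiv ℝ (E i)).symm
    (ω ∘ₗ (LinearMap.proj i : (∀ i, E i) →ₗ[ℝ] E i).dualMap)
  have hx : ∀ ℓ ∈ finDual E, ℓ x = ω ℓ := by
    intro ℓ hℓ
    induction hℓ using Submodule.span_induction with
    | mem ℓ hℓ =>
      obtain ⟨i, l, rfl⟩ := hℓ
      exact Module.apply_evalEquiv_symm_apply ℝ (E i) l _
    | zero => simp
    | add a b _ _ ha hb => simp [ha, hb]
    | smul r a _ ha => simp [ha]
  exact ⟨x, fun q hq => (hx _ (hS q hq)).trans (hω q hq)⟩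

theorem pi_solve' [∀ i, FiniteDimensional ℝ (E i)] {α : Type*} (j : α → I)
    (g : ∀ a, (∀ i, E i) →ₗ[ℝ] E (j a)) (hg : ∀ a (l : Dual ℝ (E (j a))), l ∘ₗ g a ∈ finDual E)
    (y : ∀ a, E (j a)) (W : ∀ a, Submodule ℝ (E (j a)))
    (hfin : ∀ T : Finset α, ∃ x, ∀ a ∈ T, g a x - y a ∈ W a) :
    ∃ x, ∀ a, g a x - y a ∈ W a := by
  classical
  obtain ⟨x, hx⟩ := pi_solve
    {q | ∃ a, ∃ l ∈ (W a).dualAnnihilator, q = (l ∘ₗ g a, l (y a))}
    (by rintro _ ⟨a, l, -, rfl⟩; exact hg a l) (by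
      intro T hT
      choose a l hl he using fun q : T => hT q.2
      obtain ⟨x, hx⟩ := hfin (Finset.univ.image a)
      refine ⟨x, fun q hq => ?_⟩
      have h1 := (Submodule.mem_dualAnnihilator _).1 (hl ⟨q, hq⟩) _
        (hx _ (Finset.mem_image_of_mem a (Finset.mem_univ (⟨q, hq⟩ : T))))
      have h2 : q = _ := he ⟨q, hq⟩
      rw [map_sub, sub_eq_zero] at h1
      rw [h2]
      exact h1)
  refine ⟨x, fun a => (Subspace.forall_mem_dualAnnihilator_apply_eq_zero_iff _ _).1 fun l hl => ?_⟩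
  rw [map_sub, sub_eq_zero]
  exact hx _ ⟨a, l, hl, rfl⟩

theorem exists_compat [∀ i, FiniteDimensional ℝ (E i)] [Preorder I]
    (D : ∀ i j : I, i ≤ j → E j →ₗ[ℝ] E i) (i : I) (y : E i) {β : Type*}
    (U : β → ∀ j, Submodule ℝ (E j))
    (h : ∀ (T : Finset I) (B : Finset β), ∃ x : ∀ j, E j, x i = y ∧
      (∀ j ∈ T, ∀ k ∈ T, ∀ h : j ≤ k, D j k h (x k) = x j) ∧ ∀ b ∈ B, ∀ j ∈ T, x j ∈ U b j) :
    ∃ x : ∀ j, E j, x i = y ∧ (∀ j k, ∀ h : j ≤ k, D j k h (x k) = x j) ∧ ∀ b j, x j ∈ U b j := by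
  classical
  let α := Unit ⊕ {q : I × I // q.1 ≤ q.2} ⊕ β × I
  let j : α → I
    | .inl _ => i
    | .inr (.inl q) => q.1.1
    | .inr (.inr q) => q.2
  let g : ∀ a, (∀ i, E i) →ₗ[ℝ] E (j a)
    | .inl _ => LinearMap.proj i
    | .inr (.inl q) => D q.1.1 q.1.2 q.2 ∘ₗ LinearMap.proj q.1.2 - LinearMap.proj q.1.1
    | .inr (.inr q) => LinearMap.proj q.2
  let z : ∀ a, E (j a)
    | .inl _ => y
    | .inr (.inl _) => 0
    | .inr (.inr _) => 0
  let W : ∀ a, Submodule ℝ (E (j a))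
    | .inl _ => ⊥
    | .inr (.inl _) => ⊥
    | .inr (.inr q) => U q.1 q.2
  let ti : α → Finset I
    | .inl _ => ∅
    | .inr (.inl q) => {q.1.1, q.1.2}
    | .inr (.inr q) => {q.2}
  let tb : α → Finset β
    | .inl _ => ∅
    | .inr (.inl _) => ∅
    | .inr (.inr q) => {q.1}
  obtain ⟨x, hx⟩ := pi_solve' j g (by
      rintro (_ | q | q) l
      · exact Submodule.subset_span ⟨i, l, rfl⟩
      · simp only [g, LinearMap.comp_sub]
        exact Submodule.sub_mem _ (Submodule.subset_span ⟨q.1.2, l ∘ₗ D q.1.1 q.1.2 q.2, rfl⟩)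
          (Submodule.subset_span ⟨q.1.1, l, rfl⟩)
      · exact Submodule.subset_span ⟨q.2, l, rfl⟩) z W (by
      intro T
      obtain ⟨x, h1, h2, h3⟩ := h (T.biUnion ti) (T.biUnion tb)
      refine ⟨x, ?_⟩
      rintro (_ | q | q) ha
      · exact sub_eq_zero.2 h1
      · have := h2 q.1.1 (Finset.mem_biUnion.2 ⟨_, ha, by simp [ti]⟩) q.1.2
          (Finset.mem_biUnion.2 ⟨_, ha, by simp [ti]⟩) q.2
        exact sub_eq_zero.2 (sub_eq_zero.2 this)
      · have := h3 q.1 (Finset.mem_biUnion.2 ⟨_, ha, by simp [tb]⟩) q.2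
          (Finset.mem_biUnion.2 ⟨_, ha, by simp [ti]⟩)
        exact Submodule.sub_mem _ this (Submodule.zero_mem _))
  refine ⟨x, sub_eq_zero.1 (hx (.inl ())), fun a b hab => ?_, fun b a => ?_⟩
  · exact sub_eq_zero.1 (sub_eq_zero.1 (hx (.inr (.inl ⟨(a, b), hab⟩))))
  · have := hx (.inr (.inr (b, a)))
    change x a - 0 ∈ U b a at this
    rwa [sub_zero] at this

theorem exists_least_of_directed {F : Type*} [AddCommGroup F] [Module ℝ F] [FiniteDimensional ℝ F]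
    {β : Type*} [Nonempty β] (U : β → Submodule ℝ F) (h : ∀ a b, ∃ d, U d ≤ U a ∧ U d ≤ U b) :
    ∃ a, ∀ b, U a ≤ U b := by
  obtain ⟨_, ⟨a, rfl⟩, ha⟩ := (wellFounded_lt (α := Submodule ℝ F)).has_min (Set.range U)
    (Set.range_nonempty U)
  refine ⟨a, fun b => ?_⟩
  obtain ⟨d, h1, h2⟩ := h a b
  rcases h1.lt_or_eq with h3 | h3
  · exact absurd h3 (ha _ ⟨d, rfl⟩)
  · exact h3 ▸ h2

theorem exists_finset_ub [Preorder I] [Nonempty I] (dir : ∀ i j : I, ∃ k, i ≤ k ∧ j ≤ k)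
    (T : Finset I) : ∃ k, ∀ j ∈ T, j ≤ k := by
  have : IsDirectedOrder I := ⟨dir⟩
  exact T.exists_le

end Solve

/-- a projective system of finite-dimensional Lie algebras -/
structure Tower {I : Type v} [Preorder I] (E : I → Type) [∀ i, NormedAddCommGroup (E i)]
    [∀ i, NormedSpace ℝ (E i)] where
  D : ∀ i j : I, i ≤ j → E j →ₗ[ℝ] E i
  ad : ∀ i, E i →ₗ[ℝ] E i →L[ℝ] E i
  ad_self : ∀ i x, ad i x x = 0
  ad_ad : ∀ i x y, ad i (ad i x y) = ad i x * ad i y - ad i y * ad i x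
  D_ad : ∀ i j h x y, D i j h (ad j x y) = ad i (D i j h x) (D i j h y)
  D_comp : ∀ i j k (hij : i ≤ j) (hjk : j ≤ k) x, D i j hij (D j k hjk x) = D i k (hij.trans hjk) x

namespace Tower

variable {I : Type v} [Preorder I] {E : I → Type} [∀ i, NormedAddCommGroup (E i)]
  [∀ i, NormedSpace ℝ (E i)] (T : Tower E)

/-- compatible families -/
def sub : Submodule ℝ (∀ i, E i) where
  carrier := {x | ∀ i j h, T.D i j h (x j) = x i}
  add_mem' := fun {x y} hx hy i j h => by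
    rw [Pi.add_apply, Pi.add_apply, map_add, hx i j h, hy i j h]
  zero_mem' := fun i j h => map_zero _
  smul_mem' := fun r {x} hx i j h => by rw [Pi.smul_apply, Pi.smul_apply, map_smul, hx i j h]

/-- the limit Lie algebra -/
def Alg : Type v := T.sub

noncomputable instance : AddCommGroup T.Alg := inferInstanceAs (AddCommGroup T.sub)

noncomputable instance : Module ℝ T.Alg := inferInstanceAs (Module ℝ T.sub)

/-- the projections -/
noncomputable def p (i : I) : T.Alg →ₗ[ℝ] E i := LinearMap.proj i ∘ₗ T.sub.subtype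

theorem alg_ext {x y : T.Alg} (h : ∀ i, T.p i x = T.p i y) : x = y := Subtype.ext (funext h)

theorem D_p (i j : I) (h : i ≤ j) (x : T.Alg) : T.D i j h (T.p j x) = T.p i x := x.2 i j h

/-- a compatible family as an element -/
def mkAlg (x : ∀ i, E i) (h : ∀ i j h, T.D i j h (x j) = x i) : T.Alg := ⟨x, h⟩

theorem p_mkAlg (x : ∀ i, E i) (h : ∀ i j h, T.D i j h (x j) = x i) (i : I) :
    T.p i (T.mkAlg x h) = x i := rfl

noncomputable instance : LieRing T.Alg where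
  bracket x y := T.mkAlg (fun i => T.ad i (T.p i x) (T.p i y)) fun i j h => by
    rw [T.D_ad, D_p, D_p]
  add_lie x y z := T.alg_ext fun i => by simp [p_mkAlg]
  lie_add x y z := T.alg_ext fun i => by simp [p_mkAlg]
  lie_self x := T.alg_ext fun i => by simp [p_mkAlg, T.ad_self]
  leibniz_lie x y z := T.alg_ext fun i => by simp [p_mkAlg, T.ad_ad]

theorem p_lie (i : I) (x y : T.Alg) : T.p i ⁅x, y⁆ = T.ad i (T.p i x) (T.p i y) := rfl

noncomputable instance : LieAlgebra ℝ T.Alg where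
  lie_smul r x y := T.alg_ext fun i => by simp [p_lie]

/-- the kernels of the projections -/
noncomputable def k (i : I) : LieIdeal ℝ T.Alg :=
  { LinearMap.ker (T.p i) with
    lie_mem := fun {x y} hy => by
      have : T.p i y = 0 := hy
      change T.p i ⁅x, y⁆ = 0
      rw [p_lie, this, map_zero] }

theorem mem_k {i : I} {x : T.Alg} : x ∈ T.k i ↔ T.p i x = 0 := Iff.rfl

theorem k_toSubmodule (i : I) : (T.k i).toSubmodule = LinearMap.ker (T.p i) := rfl

theorem k_anti {i j : I} (h : i ≤ j) : T.k j ≤ T.k i := fun x hx => by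
  rw [mem_k] at hx ⊢
  rw [← T.D_p i j h, hx, map_zero]

theorem mem_sup_k {i : I} {W : Submodule ℝ T.Alg} {x : T.Alg} :
    x ∈ W ⊔ (T.k i).toSubmodule ↔ T.p i x ∈ W.map (T.p i) := by
  rw [k_toSubmodule, ← Submodule.comap_map_eq, Submodule.mem_comap]

variable [∀ i, FiniteDimensional ℝ (E i)] [Nonempty I]

theorem isProAlg (dir : ∀ i j : I, ∃ k, i ≤ k ∧ j ≤ k) : IsProAlg T.k where
  nonempty := inferInstance
  dir i j := by
    obtain ⟨l, h1, h2⟩ := dir i j
    exact ⟨l, T.k_anti h1, T.k_anti h2⟩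
  fd i := (T.p i).quotKerEquivRange.symm.finiteDimensional
  sep x hx := T.alg_ext fun i => by rw [map_zero]; exact hx i
  lc 𝓦 hne hd hc i := by
    classical
    have : Nonempty 𝓦 := hne.to_subtype
    obtain ⟨W₀, hW₀⟩ := exists_least_of_directed (fun W : 𝓦 => W.1.map (T.p i)) fun a b => by
      obtain ⟨d, hd, h1, h2⟩ := hd a.1 a.2 b.1 b.2
      exact ⟨⟨d, hd⟩, Submodule.map_mono h1, Submodule.map_mono h2⟩
    refine ⟨W₀.1, W₀.2, fun w hw => T.mem_sup_k.2 ?_⟩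
    obtain ⟨x, h1, h2, h3⟩ := exists_compat T.D i (T.p i w) (fun (W : 𝓦) j => W.1.map (T.p j))
      fun _ B => by
        obtain ⟨W₁, hW₁⟩ : ∃ W₁ : 𝓦, ∀ W ∈ B, W₁.1 ≤ W.1 := by
          induction B using Finset.induction_on with
          | empty => exact ⟨W₀, by simp⟩
          | insert a B _ ih =>
            obtain ⟨W₁, hW₁⟩ := ih
            obtain ⟨d, hd, h1, h2⟩ := hd a.1 a.2 W₁.1 W₁.2
            refine ⟨⟨d, hd⟩, fun W hW => ?_⟩
            rcases Finset.mem_insert.1 hW with rfl | hW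
            · exact h1
            · exact h2.trans (hW₁ W hW)
        obtain ⟨u, hu, e⟩ := hW₀ W₁ (Submodule.mem_map_of_mem hw)
        exact ⟨fun j => T.p j u, e, fun j _ l _ h => T.D_p j l h u,
          fun W hW j _ => Submodule.mem_map_of_mem (hW₁ W hW hu)⟩
    refine ⟨T.mkAlg x h2, ?_, h1⟩
    exact Submodule.mem_sInf.2 fun W hW => hc W hW _ fun j => T.mem_sup_k.2 (h3 ⟨W, hW⟩ j)

theorem exists_range_le (dir : ∀ i j : I, ∃ k, i ≤ k ∧ j ≤ k) (i : I) :
    ∃ (j : I) (h : i ≤ j), ∀ y, ∃ x, T.p i x = T.D i j h y := by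
  classical
  have : Nonempty {j // i ≤ j} := ⟨⟨i, le_rfl⟩⟩
  have hle : ∀ (a b : {j // i ≤ j}), a.1 ≤ b.1 →
      LinearMap.range (T.D i b.1 b.2) ≤ LinearMap.range (T.D i a.1 a.2) := by
    rintro a b h _ ⟨y, rfl⟩
    exact ⟨_, T.D_comp i a.1 b.1 a.2 h y⟩
  obtain ⟨j, hj⟩ := exists_least_of_directed
    (fun j : {j // i ≤ j} => LinearMap.range (T.D i j.1 j.2)) fun a b => by
      obtain ⟨d, h1, h2⟩ := dir a.1 b.1
      exact ⟨⟨d, a.2.trans h1⟩, hle a _ h1, hle b _ h2⟩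
  refine ⟨j.1, j.2, fun y => ?_⟩
  obtain ⟨x, h1, h2, -⟩ := exists_compat T.D i (T.D i j.1 j.2 y) (β := Empty) (fun b => b.elim)
    fun S _ => by
      obtain ⟨m, hm⟩ := exists_finset_ub dir (insert i S)
      have him : i ≤ m := hm i (Finset.mem_insert_self _ _)
      obtain ⟨z, hz⟩ := hj ⟨m, him⟩ ⟨y, rfl⟩
      refine ⟨fun l => if h : l ≤ m then T.D l m h z else 0, ?_, fun a ha b hb h => ?_,
        fun b => b.elim⟩
      · simp only [dif_pos him]
        exact hz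
      · simp only [dif_pos (hm a (Finset.mem_insert_of_mem ha)),
          dif_pos (hm b (Finset.mem_insert_of_mem hb))]
        exact T.D_comp _ _ _ _ _ _
  exact ⟨T.mkAlg x h2, h1⟩

end Tower

end Pool.Agent.Lib.MP_0cde51_al
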