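import Pool.Agent.Lib.MP_0cde51_al.Alg

/-! The exponential of an endomorphism of an abstract finite-dimensional complex space. -/

namespace Pool.Agent.Lib.MP_0cde51_al.Unif

open NormedSpace Module
open scoped TensorProduct

theorem mul_exp_eq_one {𝔸 : Type*} [NormedRing 𝔸] [NormedAlgebra ℂ 𝔸] [FiniteDimensional ℂ 𝔸]
    (d : 𝔸 → ℂ) (hm : ∀ x y, d (x * y) = d x * d y) (hd : Differentiable ℂ d) (M : 𝔸)
    (P : Polynomial ℂ) (hP : ∀ r : ℂ, d (1 + r • M) = 1 + P.eval r * r ^ 2) : d (exp M) = 1 := by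
  have hc := FiniteDimensional.complete ℂ 𝔸
  let _ := NormedAlgebra.restrictScalars ℚ ℂ 𝔸
  have h1 : fderiv ℂ d 1 M = 0 := by
    have a1 : HasDerivAt (fun s : ℂ => (1 : 𝔸) + s • M) M 0 := by
      have := ((hasDerivAt_id (0 : ℂ)).smul_const M).const_add 1
      rwa [one_smul] at this
    have a2 := (hd 1).hasFDerivAt.comp_hasDerivAt_of_eq (0 : ℂ) a1 (by simp)
    have a3 := ((P.hasDerivAt 0).mul (hasDerivAt_pow 2 (0 : ℂ))).const_add 1
    have a4 : (d ∘ fun s : ℂ => 1 + s • M) = fun r : ℂ => 1 + P.eval r * r ^ 2 := funext hP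
    rw [a4] at a2
    simpa using a2.unique a3
  have h2 : HasDerivAt (fun s : ℂ => d (exp (s • M))) 0 0 := by
    have a1 := hasDerivAt_exp_smul_const (𝕂 := ℂ) M (0 : ℂ)
    simp only [zero_smul, exp_zero, one_mul] at a1
    have a2 := (hd 1).hasFDerivAt.comp_hasDerivAt_of_eq (0 : ℂ) a1 (by simp)
    rwa [h1] at a2
  have h3 : ∀ t : ℂ, HasDerivAt (fun s : ℂ => d (exp (s • M))) 0 t := by
    intro t
    have a1 := (h2.comp_of_eq t ((hasDerivAt_id t).sub_const t) (by simp)).const_mul
      (d (exp (t • M)))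
    have a2 : (fun s : ℂ => d (exp (s • M))) =
        fun s : ℂ => d (exp (t • M)) * d (exp ((s - t) • M)) := by
      funext s
      rw [← hm, ← exp_add_of_commute (((Commute.refl M).smul_left t).smul_right (s - t)),
        ← add_smul, add_sub_cancel]
    rw [a2]
    simpa using a1
  have := is_const_of_deriv_eq_zero (fun t => (h3 t).differentiableAt) (fun t => (h3 t).deriv) 1 0
  have h0 := hP 0
  simp only [one_smul, zero_smul, exp_zero, add_zero] at this h0
  rw [this, h0]
  simp

variable {V W : Type*} [AddCommGroup V] [Module ℂ V] [FiniteDimensional ℂ V]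
  [AddCommGroup W] [Module ℂ W] [FiniteDimensional ℂ W]

variable (V) in
/-- endomorphisms as operators on a coordinate space -/
noncomputable def toC :
    Module.End ℂ V ≃ₐ[ℂ] ((Fin (finrank ℂ V) → ℂ) →L[ℂ] (Fin (finrank ℂ V) → ℂ)) :=
  ((Module.finBasis ℂ V).equivFun.conjAlgEquiv ℂ).trans (Module.End.toContinuousLinearMap _)

theorem toC_apply (A : Module.End ℂ V) (v : V) :
    toC V A ((Module.finBasis ℂ V).equivFun v) = (Module.finBasis ℂ V).equivFun (A v) := by
  show (Module.finBasis ℂ V).equivFun (A ((Module.finBasis ℂ V).equivFun.symm _)) = _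
  rw [LinearEquiv.symm_apply_apply]

/-- the exponential of an endomorphism -/
noncomputable def E (A : Module.End ℂ V) : Module.End ℂ V := (toC V).symm (exp (toC V A))

theorem toC_E (A : Module.End ℂ V) : toC V (E A) = exp (toC V A) := by simp [E]

theorem E_apply (A : Module.End ℂ V) (v : V) : (Module.finBasis ℂ V).equivFun (E A v) =
    exp (toC V A) ((Module.finBasis ℂ V).equivFun v) := by rw [← toC_apply, toC_E]

theorem E_inter (ι : V →ₗ[ℂ] W) (A : Module.End ℂ V) (B : Module.End ℂ W)
    (h : ∀ v, ι (A v) = B (ι v)) (v : V) : ι (E A v) = E B (ι v) := by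
  apply (Module.finBasis ℂ W).equivFun.injective
  have := exp_intertwine ((Module.finBasis ℂ W).equivFun.toLinearMap ∘ₗ ι ∘ₗ
    (Module.finBasis ℂ V).equivFun.symm.toLinearMap) (toC V A) (toC W B) (fun u => by
      obtain ⟨u, rfl⟩ := (Module.finBasis ℂ V).equivFun.surjective u
      simp only [toC_apply, LinearMap.comp_apply, LinearEquiv.coe_coe,
        LinearEquiv.symm_apply_apply, h]) ((Module.finBasis ℂ V).equivFun v)
  simpa only [← E_apply, LinearMap.comp_apply, LinearEquiv.coe_coe,
    LinearEquiv.symm_apply_apply] using this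

theorem E_eq_exp {X : Type*} [NormedAddCommGroup X] [NormedSpace ℂ X] [FiniteDimensional ℂ X]
    (A : X →L[ℂ] X) (v : X) : E (A : Module.End ℂ X) v = exp A v := by
  apply (Module.finBasis ℂ X).equivFun.injective
  rw [E_apply]
  exact (exp_intertwine (Module.finBasis ℂ X).equivFun.toLinearMap A (toC X A)
    (fun u => (toC_apply (A : Module.End ℂ X) u).symm) v).symm

theorem E_add {A B : Module.End ℂ V} (h : Commute A B) : E (A + B) = E A * E B := by
  apply (toC V).injective
  rw [map_mul, toC_E, toC_E, toC_E, map_add, exp_add_comm (h.map _)]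

theorem det_E (A : Module.End ℂ V) (h : LinearMap.trace ℂ V A = 0) : LinearMap.det (E A) = 1 := by
  let b := Module.finBasis ℂ V
  let e := (toC V).symm.trans (LinearMap.toMatrixAlgEquiv b)
  have h2 : e (toC V A) = LinearMap.toMatrix b b A := by simp [e, LinearMap.toMatrixAlgEquiv]
  rw [← LinearMap.det_toMatrix b]
  refine mul_exp_eq_one (fun X => (e X).det) (fun x y => by rw [map_mul, Matrix.det_mul]) ?_
    (toC V A) _ fun r => by
      rw [map_add, map_one, map_smul, Matrix.det_one_add_smul, h2,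
        ← LinearMap.trace_eq_matrix_trace, h, zero_mul, add_zero]
  simp only [Matrix.det_apply']
  refine Differentiable.fun_sum fun σ _ => Differentiable.const_mul ?_ _
  exact fun X => (HasFDerivAt.finsetProd fun i _ => (LinearMap.toContinuousLinearMap
    (Matrix.entryLinearMap ℂ ℂ (σ i) i ∘ₗ e.toLinearMap)).hasFDerivAt).differentiableAt

theorem E_tmul (A : Module.End ℂ V) (B : Module.End ℂ W) (v : V) (w : W) :
    E (A.rTensor W + B.lTensor V) (v ⊗ₜ w) = E A v ⊗ₜ E B w := by
  have hc : Commute (A.rTensor W) (B.lTensor V) := by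
    show A.rTensor W ∘ₗ B.lTensor V = B.lTensor V ∘ₗ A.rTensor W
    rw [LinearMap.rTensor_comp_lTensor, LinearMap.lTensor_comp_rTensor]
  rw [E_add hc, Module.End.mul_apply]
  have h1 := E_inter (TensorProduct.mk ℂ V W v) B (B.lTensor V) (fun u => by simp) w
  have h2 := E_inter ((TensorProduct.mk ℂ V W).flip (E B w)) A (A.rTensor W) (fun u => by simp) v
  simp only [TensorProduct.mk_apply, LinearMap.flip_apply] at h1 h2
  rw [← h1, ← h2]

end Pool.Agent.Lib.MP_0cde51_al.Unif
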