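import Pool.Agent.Lib.MP_0cde51_al.UniformA

/-! Highest weight vectors and the scalar by which a central word acts on them. -/

namespace Pool.Agent.Lib.MP_0cde51_al.Unif

open Module LieModule
open scoped TensorProduct

universe u

attribute [local instance 100] LieRing.ofAssociativeRing

variable {L : Type u} [LieRing L] [LieAlgebra ℂ L]

section Mod

variable {V W : Type} [AddCommGroup V] [Module ℂ V] [FiniteDimensional ℂ V] [LieRingModule L V]
  [LieModule ℂ L V] [AddCommGroup W] [Module ℂ W] [FiniteDimensional ℂ W] [LieRingModule L W]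
  [LieModule ℂ L W]

variable (V) in
/-- the product of the exponentials along a word, acting on a module -/
noncomputable def cw (w : List L) : Module.End ℂ V := (w.map fun x => E (toEnd ℂ L V x)).prod

theorem cw_cons (x : L) (w : List L) (v : V) :
    cw V (x :: w) v = E (toEnd ℂ L V x) (cw V w v) := by simp [cw]

theorem cw_nat (f : V →ₗ[ℂ] W) (hf : ∀ (x : L) v, f ⁅x, v⁆ = ⁅x, f v⁆) (w : List L) (v : V) :
    f (cw V w v) = cw W w (f v) := by
  induction w with
  | nil => simp [cw]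
  | cons x w ih => rw [cw_cons, cw_cons, E_inter f _ (toEnd ℂ L W x) (hf x), ih]

theorem cw_sub (U : LieSubmodule ℂ L V) (w : List L) (v : U) :
    ((cw U w v : U) : V) = cw V w v :=
  cw_nat (V := U) U.toSubmodule.subtype (fun _ _ => rfl) w v

theorem cw_tmul (w : List L) (v : V) (u : W) :
    cw (V ⊗[ℂ] W) w (v ⊗ₜ u) = cw V w v ⊗ₜ cw W w u := by
  induction w with
  | nil => simp [cw]
  | cons x w ih =>
    rw [cw_cons, cw_cons, cw_cons, ih, ← E_tmul]
    congr 2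

theorem det_cw (h : ∀ x : L, LinearMap.trace ℂ V (toEnd ℂ L V x) = 0) (w : List L) :
    LinearMap.det (cw V w) = 1 := by
  induction w with
  | nil => simp [cw]
  | cons x w ih =>
    have : cw V (x :: w) = E (toEnd ℂ L V x) * cw V w := by simp [cw]
    rw [this, map_mul, ih, det_E _ (h x), one_mul]

omit [LieAlgebra ℂ L] [Module ℂ V] [FiniteDimensional ℂ V] [LieModule ℂ L V] [Module ℂ W]
  [FiniteDimensional ℂ W] [LieModule ℂ L W] in
/-- the direct sum of two modules -/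
@[reducible] def prodMod : LieRingModule L (V × W) where
  bracket x p := (⁅x, p.1⁆, ⁅x, p.2⁆)
  add_lie x y p := Prod.ext (add_lie x y p.1) (add_lie x y p.2)
  lie_add x p q := Prod.ext (lie_add x p.1 q.1) (lie_add x p.2 q.2)
  leibniz_lie x y p := Prod.ext (leibniz_lie x y p.1) (leibniz_lie x y p.2)

attribute [local instance] prodMod in
omit [FiniteDimensional ℂ V] [FiniteDimensional ℂ W] in
theorem prodMod' : LieModule ℂ L (V × W) where
  smul_lie t x p := Prod.ext (smul_lie t x p.1) (smul_lie t x p.2)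
  lie_smul t x p := Prod.ext (lie_smul t x p.1) (lie_smul t x p.2)

end Mod

/-- raising elements -/
def Pos (h₀ x : L) : Prop := ∃ z : ℂ, 0 < z.re ∧ ⁅h₀, x⁆ = z • x

/-- lowering elements -/
def Neg (h₀ x : L) : Prop := ∃ z : ℂ, z.re < 0 ∧ ⁅h₀, x⁆ = z • x

/-- a triangular decomposition -/
structure Tri {ι : Type u} [Fintype ι] (s : ι → L) (a : ι → ℂ) (h₀ : L) : Prop where
  eq : h₀ = ∑ i, a i • s i
  comm : ∀ i j, ⁅s i, s j⁆ = 0
  span : ∀ x, x ∈ Submodule.span ℂ ({x | Pos h₀ x} ∪ {x | Neg h₀ x} ∪ Set.range s)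
  sl2 : ∀ i, ∃ e f, IsSl2Triple (s i) e f ∧ Pos h₀ e

variable {ι : Type u} [Fintype ι] {s : ι → L} {a : ι → ℂ} {h₀ : L}

section Mod

variable {V W : Type} [AddCommGroup V] [Module ℂ V] [FiniteDimensional ℂ V] [LieRingModule L V]
  [LieModule ℂ L V] [AddCommGroup W] [Module ℂ W] [FiniteDimensional ℂ W] [LieRingModule L W]
  [LieModule ℂ L W]

/-- highest weight vectors -/
structure HW (s : ι → L) (h₀ : L) (v : V) (l : ι → ℤ) : Prop where
  ne : v ≠ 0
  wt : ∀ i, ⁅s i, v⁆ = (l i : ℂ) • v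
  pos : ∀ x, Pos h₀ x → ⁅x, v⁆ = 0

omit [FiniteDimensional ℂ V] in
theorem Tri.trace (T : Tri s a h₀) (x : L) : LinearMap.trace ℂ V (toEnd ℂ L V x) = 0 := by
  have h1 : ∀ x y : L, LinearMap.trace ℂ V (toEnd ℂ L V ⁅x, y⁆) = 0 := fun x y => by
    rw [LieHom.map_lie, LinearMap.trace_lie]
  have h2 : ∀ (x : L) (z : ℂ), z.re ≠ 0 → ⁅h₀, x⁆ = z • x →
      LinearMap.trace ℂ V (toEnd ℂ L V x) = 0 := fun x z hz h => by
    have := h1 h₀ x
    rw [h, map_smul, map_smul, smul_eq_mul, mul_eq_zero] at this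
    exact this.resolve_left fun e => hz (by simp [e])
  induction T.span x using Submodule.span_induction with
  | mem x hx =>
    rcases hx with (⟨z, hz, h⟩ | ⟨z, hz, h⟩) | ⟨i, rfl⟩
    · exact h2 x z hz.ne' h
    · exact h2 x z hz.ne h
    · obtain ⟨e, f, t, -⟩ := T.sl2 i
      rw [← t.lie_e_f, h1]
  | zero => simp
  | add x y _ _ hx hy => rw [map_add, map_add, hx, hy, add_zero]
  | smul t x _ hx => rw [map_smul, map_smul, hx, smul_zero]

omit [FiniteDimensional ℂ V] in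
theorem HW.h0 (T : Tri s a h₀) {v : V} {l : ι → ℤ} (h : HW s h₀ v l) :
    ⁅h₀, v⁆ = (∑ i, a i * l i) • v := by
  rw [T.eq, sum_lie, Finset.sum_smul]
  exact Finset.sum_congr rfl fun i _ => by rw [smul_lie, h.wt, smul_smul]

omit [FiniteDimensional ℂ V] in
theorem lie_eigen {x : L} {v : V} {z μ : ℂ} (hx : ⁅h₀, x⁆ = z • x) (hv : ⁅h₀, v⁆ = μ • v) :
    ⁅h₀, ⁅x, v⁆⁆ = (z + μ) • ⁅x, v⁆ := by
  rw [leibniz_lie, hx, hv, smul_lie, lie_smul, add_smul]

/-- the vectors obtained from `u` by lowering -/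
inductive Mon (h₀ : L) (u : V) : V → Prop
  | base : Mon h₀ u u
  | step (x : L) (m : V) : Neg h₀ x → Mon h₀ u m → Mon h₀ u ⁅x, m⁆

omit [FiniteDimensional ℂ V] in
theorem HW.lie_mem (T : Tri s a h₀) {u : V} {l : ι → ℤ} (h : HW s h₀ u l) (m : V)
    (hm : m ∈ Submodule.span ℂ {m | Mon h₀ u m}) (x : L) :
    ⁅x, m⁆ ∈ Submodule.span ℂ {m | Mon h₀ u m} := by
  have key : ∀ (x : L), (∀ m, Mon h₀ u m → ⁅x, m⁆ ∈ Submodule.span ℂ {m | Mon h₀ u m}) →
      ∀ m ∈ Submodule.span ℂ {m | Mon h₀ u m}, ⁅x, m⁆ ∈ Submodule.span ℂ {m | Mon h₀ u m} :=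
    fun x hx => (Submodule.span_le (p := (Submodule.span ℂ {m | Mon h₀ u m}).comap
      (toEnd ℂ L V x))).2 hx
  refine key x (fun m hm => ?_) m hm
  induction hm generalizing x with
  | base =>
    induction T.span x using Submodule.span_induction with
    | mem x hx =>
      rcases hx with (hx | hx) | ⟨i, rfl⟩
      · rw [h.pos x hx]; exact zero_mem _
      · exact Submodule.subset_span (Mon.step x u hx Mon.base)
      · rw [h.wt]; exact Submodule.smul_mem _ _ (Submodule.subset_span Mon.base)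
    | zero => simp
    | add x y _ _ hx hy => rw [add_lie]; exact add_mem hx hy
    | smul t x _ hx => rw [smul_lie]; exact Submodule.smul_mem _ _ hx
  | step y m hy hm ih =>
    rw [leibniz_lie]
    exact add_mem (ih _) (key y (fun m hm => Submodule.subset_span (Mon.step y m hy hm)) _ (ih x))

omit [FiniteDimensional ℂ V] in
/-- the top eigenspace of the module generated by a highest weight vector is a line -/
theorem HW.line (T : Tri s a h₀) {u : V} {l : ι → ℤ} (h : HW s h₀ u l) (u' : V)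
    (hu : u' ∈ LieSubmodule.lieSpan ℂ L {u}) (he : ⁅h₀, u'⁆ = (∑ i, a i * l i) • u') :
    ∃ γ : ℂ, u' = γ • u := by
  set μ : ℂ := ∑ i, a i * l i with hμ
  have h0 : ⁅h₀, u⁆ = μ • u := h.h0 T
  let U : LieSubmodule ℂ L V :=
    { Submodule.span ℂ {m | Mon h₀ u m} with lie_mem := fun {x m} hm => h.lie_mem T m hm x }
  have h1 : u' ∈ Submodule.span ℂ {m | Mon h₀ u m} :=
    (LieSubmodule.lieSpan_le (N := U)).2 (by
      rintro _ rfl
      exact Submodule.subset_span Mon.base) hu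
  have h2 : ∀ m, Mon h₀ u m → m = u ∨ ∃ z : ℂ, z.re < μ.re ∧ ⁅h₀, m⁆ = z • m := by
    intro m hm
    induction hm with
    | base => exact Or.inl rfl
    | step x m hx _ ih =>
      obtain ⟨z, hz, hx⟩ := hx
      rcases ih with rfl | ⟨y, hy, e⟩
      · exact Or.inr ⟨z + μ, by simpa using hz, lie_eigen hx h0⟩
      · exact Or.inr ⟨z + y, by rw [Complex.add_re]; linarith, lie_eigen hx e⟩
  have h3 : Submodule.span ℂ {m | Mon h₀ u m} ≤
      Submodule.span ℂ {u} ⊔ ⨆ z, ⨆ (_ : z ≠ μ), (toEnd ℂ L V h₀).eigenspace z := by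
    refine Submodule.span_le.2 fun m hm => ?_
    rcases h2 m hm with rfl | ⟨z, hz, e⟩
    · exact Submodule.mem_sup_left (Submodule.mem_span_singleton_self _)
    · refine Submodule.mem_sup_right (Submodule.mem_iSup_of_mem z (Submodule.mem_iSup_of_mem
        (fun e => hz.ne (by rw [e])) ?_))
      exact Module.End.mem_eigenspace_iff.2 e
  obtain ⟨y, hy, r, hr, e⟩ := Submodule.mem_sup.1 (h3 h1)
  obtain ⟨γ, rfl⟩ := Submodule.mem_span_singleton.1 hy
  have h4 : r ∈ (toEnd ℂ L V h₀).eigenspace μ := by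
    rw [← eq_sub_iff_add_eq'] at e
    rw [e]
    exact sub_mem (Module.End.mem_eigenspace_iff.2 he)
      (Submodule.smul_mem _ _ (Module.End.mem_eigenspace_iff.2 h0))
  have h5 := (Submodule.disjoint_def.1 ((toEnd ℂ L V h₀).eigenspaces_iSupIndep μ)) r h4 hr
  exact ⟨γ, by rw [← e, h5, add_zero]⟩

omit [LieRing L] [LieAlgebra ℂ L] [LieRingModule L V] [LieModule ℂ L V] in
/-- commuting endomorphisms have a common eigenvector in an invariant subspace -/
theorem common_eigen (F : Set (Module.End ℂ V)) (hF : ∀ f ∈ F, ∀ g ∈ F, Commute f g)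
    (U : Submodule ℂ V) (hU : U ≠ ⊥) (hi : ∀ f ∈ F, ∀ v ∈ U, f v ∈ U) :
    ∃ v ∈ U, v ≠ 0 ∧ ∀ f ∈ F, ∃ z : ℂ, f v = z • v := by
  obtain ⟨X, ⟨h1, h2, h3⟩, h4⟩ := exists_minimal_of_wellFoundedLT
    (fun X : Submodule ℂ V => X ≠ ⊥ ∧ X ≤ U ∧ ∀ f ∈ F, ∀ v ∈ X, f v ∈ X) ⟨U, hU, le_rfl, hi⟩
  obtain ⟨v, hv, hv0⟩ := (Submodule.ne_bot_iff X).1 h1
  refine ⟨v, h2 hv, hv0, fun f hf => ?_⟩
  have : Nontrivial X := Submodule.nontrivial_iff_ne_bot.2 h1
  obtain ⟨z, hz⟩ := Module.End.exists_eigenvalue (f.restrict (h3 f hf) : Module.End ℂ X)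
  obtain ⟨y, hy⟩ := hz.exists_hasEigenvector
  have h5 : X ≤ X ⊓ f.eigenspace z := by
    refine h4 ⟨(Submodule.ne_bot_iff _).2 ⟨y, ⟨y.2, Module.End.mem_eigenspace_iff.2 ?_⟩,
      fun e => hy.2 (Subtype.ext e)⟩, inf_le_left.trans h2, fun g hg x hx => ⟨h3 g hg x hx.1, ?_⟩⟩
      inf_le_left
    · exact congrArg Subtype.val hy.apply_eq_smul
    · refine Module.End.mem_eigenspace_iff.2 ?_
      rw [← Module.End.mul_apply, (hF f hf g hg).eq, Module.End.mul_apply,
        Module.End.mem_eigenspace_iff.1 hx.2, map_smul]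
  exact ⟨z, Module.End.mem_eigenspace_iff.1 (h5 hv).2⟩

theorem Tri.exists_HW (T : Tri s a h₀) [Nontrivial V] : ∃ (v : V) (l : ι → ℤ), HW s h₀ v l := by
  obtain ⟨μ, hμ, hmax⟩ := Set.exists_max_image {z | (toEnd ℂ L V h₀).HasEigenvalue z}
    Complex.re (toEnd ℂ L V h₀).finite_hasEigenvalue (Module.End.exists_eigenvalue _)
  have hc : ∀ i, ⁅h₀, s i⁆ = (0 : ℂ) • s i := fun i => by
    rw [T.eq, sum_lie, zero_smul]
    exact Finset.sum_eq_zero fun j _ => by rw [smul_lie, T.comm, smul_zero]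
  obtain ⟨v, hv, hv0, he⟩ := common_eigen (Set.range fun i => toEnd ℂ L V (s i))
    (by
      rintro _ ⟨i, rfl⟩ _ ⟨j, rfl⟩
      rw [commute_iff_lie_eq, ← LieHom.map_lie, T.comm, map_zero])
    ((toEnd ℂ L V h₀).eigenspace μ) hμ (by
      rintro _ ⟨i, rfl⟩ v hv
      have := lie_eigen (hc i) (Module.End.mem_eigenspace_iff.1 hv)
      rw [zero_add] at this
      exact Module.End.mem_eigenspace_iff.2 this)
  have hp : ∀ x, Pos h₀ x → ⁅x, v⁆ = 0 := by
    rintro x ⟨z, hz, hx⟩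
    by_contra c
    have := hmax (z + μ) (Module.End.hasEigenvalue_of_hasEigenvector
      ⟨Module.End.mem_eigenspace_iff.2 (lie_eigen hx (Module.End.mem_eigenspace_iff.1 hv)), c⟩)
    rw [Complex.add_re] at this
    linarith
  have hw : ∀ i, ∃ n : ℤ, ⁅s i, v⁆ = (n : ℂ) • v := fun i => by
    obtain ⟨z, hz⟩ := he _ ⟨i, rfl⟩
    obtain ⟨e, f, t, p⟩ := T.sl2 i
    obtain ⟨n, rfl⟩ := (IsSl2Triple.HasPrimitiveVectorWith.mk (t := t) hv0 hz (hp e p)).exists_nat
    exact ⟨n, by simpa using hz⟩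
  choose l hl using hw
  exact ⟨v, l, hv0, hl, hp⟩

omit [Fintype ι] [FiniteDimensional ℂ V] [FiniteDimensional ℂ W] in
theorem HW.tmul {v : V} {u : W} {l m : ι → ℤ} (hv : HW s h₀ v l) (hu : HW s h₀ u m) :
    HW s h₀ (v ⊗ₜ[ℂ] u) (l + m) := by
  refine ⟨fun e => ?_, fun i => ?_, fun x hx => ?_⟩
  · obtain ⟨φ, hφ⟩ := Module.Projective.exists_dual_ne_zero ℂ hv.ne
    have := congrArg ((TensorProduct.lid ℂ W).toLinearMap ∘ₗ φ.rTensor W) e
    simp [hφ, hu.ne] at this
  · rw [TensorProduct.LieModule.lie_tmul_right, hv.wt, hu.wt, TensorProduct.tmul_smul,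
      ← TensorProduct.smul_tmul', ← add_smul]
    simp
  · rw [TensorProduct.LieModule.lie_tmul_right, hv.pos x hx, hu.pos x hx]
    simp

end Mod

end Pool.Agent.Lib.MP_0cde51_al.Unif
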