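import Pool.Agent.Lib.MP_0cde51_al.UniformB

/-! The uniform exponent for complex Lie algebras. -/

namespace Pool.Agent.Lib.MP_0cde51_al.Unif

open Module LieModule
open scoped TensorProduct

universe u

variable {L : Type u} [LieRing L] [LieAlgebra ℂ L]
variable {ι : Type u} [Fintype ι] {s : ι → L} {a : ι → ℂ} {h₀ : L}

/-- the word is central in every module -/
def Cen (w : List L) : Prop :=
  ∀ (V : Type) [AddCommGroup V] [Module ℂ V] [FiniteDimensional ℂ V] [LieRingModule L V]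
    [LieModule ℂ L V] (x : L) (v : V), cw V w ⁅x, v⁆ = ⁅x, cw V w v⁆

/-- the word acts by `γ` on some highest weight vector of weight `l` -/
def Act (s : ι → L) (h₀ : L) (w : List L) (l : ι → ℤ) (γ : ℂ) : Prop :=
  ∃ (V : Type) (_ : AddCommGroup V) (_ : Module ℂ V) (_ : FiniteDimensional ℂ V)
    (_ : LieRingModule L V) (_ : LieModule ℂ L V) (v : V), HW s h₀ v l ∧ cw V w v = γ • v

section Mod

variable {V : Type} [AddCommGroup V] [Module ℂ V] [FiniteDimensional ℂ V] [LieRingModule L V]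
  [LieModule ℂ L V]

theorem HW.scalar (T : Tri s a h₀) {w : List L} (hw : Cen w) {v : V} {l : ι → ℤ}
    (h : HW s h₀ v l) : ∃ γ : ℂ, cw V w v = γ • v := by
  have hv : v ∈ LieSubmodule.lieSpan ℂ L {v} := LieSubmodule.subset_lieSpan rfl
  refine h.line T _ ?_ (by rw [← hw, h.h0 T, map_smul])
  rw [← cw_sub _ w ⟨v, hv⟩]
  exact Subtype.mem _

theorem HW.pow (T : Tri s a h₀) {v : V} {l : ι → ℤ} (h : HW s h₀ v l) :
    ∃ n : ℕ, 0 < n ∧ ∀ w : List L, Cen w → ∃ γ : ℂ, Act s h₀ w l γ ∧ γ ^ n = 1 := by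
  have hv : v ∈ LieSubmodule.lieSpan ℂ L {v} := LieSubmodule.subset_lieSpan rfl
  have : Nontrivial (LieSubmodule.lieSpan ℂ L {v}) :=
    ⟨⟨v, hv⟩, 0, fun e => h.ne (congrArg Subtype.val e)⟩
  refine ⟨finrank ℂ (LieSubmodule.lieSpan ℂ L {v}), finrank_pos, fun w hw => ?_⟩
  obtain ⟨γ, e⟩ := h.scalar T hw
  refine ⟨γ, ⟨V, _, _, inferInstance, _, inferInstance, v, h, e⟩, ?_⟩
  let U : LieSubmodule ℂ L V :=
    { (cw V w).eigenspace γ with
      lie_mem := fun {x m} hm => Module.End.mem_eigenspace_iff.2 (by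
        rw [hw, Module.End.mem_eigenspace_iff.1 hm, lie_smul]) }
  have h1 : LieSubmodule.lieSpan ℂ L {v} ≤ U := LieSubmodule.lieSpan_le.2 (by
    rintro _ rfl
    exact Module.End.mem_eigenspace_iff.2 e)
  have h2 : cw (LieSubmodule.lieSpan ℂ L {v}) w = γ • LinearMap.id := by
    ext x
    rw [cw_sub]
    exact Module.End.mem_eigenspace_iff.1 (h1 x.2)
  have h3 := det_cw (V := LieSubmodule.lieSpan ℂ L {v}) T.trace w
  rwa [h2, LinearMap.det_smul, LinearMap.det_id, mul_one] at h3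

end Mod

attribute [local instance] prodMod prodMod' in
theorem Act.unique (T : Tri s a h₀) {w : List L} (hw : Cen w) {l : ι → ℤ} {γ γ' : ℂ}
    (h : Act s h₀ w l γ) (h' : Act s h₀ w l γ') : γ = γ' := by
  obtain ⟨V, _, _, _, _, _, v, h, e⟩ := h
  obtain ⟨W, _, _, _, _, _, u, h', e'⟩ := h'
  have h1 : HW s h₀ (v, u) l := ⟨fun c => h.ne (congrArg Prod.fst c),
    fun i => Prod.ext (h.wt i) (h'.wt i), fun x hx => Prod.ext (h.pos x hx) (h'.pos x hx)⟩
  obtain ⟨δ, h2⟩ := h1.scalar T hw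
  have h3 := cw_nat (LinearMap.fst ℂ V W) (fun _ _ => rfl) w (v, u)
  have h4 := cw_nat (LinearMap.snd ℂ V W) (fun _ _ => rfl) w (v, u)
  rw [h2] at h3 h4
  exact (smul_left_injective ℂ h.ne (h3.trans e)).symm.trans
    (smul_left_injective ℂ h'.ne (h4.trans e'))

omit [Fintype ι] in
theorem Act.add {w : List L} {l m : ι → ℤ} {γ γ' : ℂ}
    (h : Act s h₀ w l γ) (h' : Act s h₀ w m γ') : Act s h₀ w (l + m) (γ * γ') := by
  obtain ⟨V, _, _, _, _, _, v, h, e⟩ := h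
  obtain ⟨W, _, _, _, _, _, u, h', e'⟩ := h'
  refine ⟨V ⊗[ℂ] W, _, _, inferInstance, _, inferInstance, v ⊗ₜ u, h.tmul h', ?_⟩
  rw [cw_tmul, e, e', TensorProduct.smul_tmul_smul]

theorem Tri.exists_exp (T : Tri s a h₀) : ∃ N : ℕ, 0 < N ∧ ∀ w : List L, Cen w →
    ∀ l γ, Act s h₀ w l γ → γ ^ N = 1 := by
  let Λ : Set (ι → ℤ) :=
    {l | ∃ n : ℕ, 0 < n ∧ ∀ w : List L, Cen w → ∃ γ : ℂ, Act s h₀ w l γ ∧ γ ^ n = 1}
  have hΛ : ∀ w l γ, Act s h₀ w l γ → l ∈ Λ := by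
    rintro w l γ ⟨V, _, _, _, _, _, v, h, -⟩
    exact h.pow T
  obtain ⟨F, hF, e⟩ := (Submodule.fg_span_iff_fg_span_finset_subset (R := ℤ) Λ).1
    (IsNoetherian.noetherian _)
  choose! n hn hn' using fun l (h : l ∈ F) => hF h
  refine ⟨∏ l ∈ F, n l, Finset.prod_pos hn, fun w hw l γ h => ?_⟩
  generalize hN : ∏ l ∈ F, n l = N
  have h1 : l ∈ AddSubgroup.closure (F : Set (ι → ℤ)) := by
    rw [← Submodule.span_int_eq_addSubgroupClosure, ← e]
    exact Submodule.subset_span (hΛ w l γ h)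
  have h2 : ∀ x ∈ AddSubgroup.closure (F : Set (ι → ℤ)), ∃ p q δ δ', Act s h₀ w p δ ∧
      Act s h₀ w q δ' ∧ x + q = p ∧ δ ^ N = δ' ^ N := by
    intro x hx
    induction hx using AddSubgroup.closure_induction with
    | mem x hx =>
      obtain ⟨δ, h3, h4⟩ := hn' x hx w hw
      obtain ⟨k, hk⟩ := Finset.dvd_prod_of_mem n hx
      refine ⟨_, _, _, _, h3.add h3, h3, rfl, ?_⟩
      rw [mul_pow, ← hN, hk, pow_mul, h4, one_pow, one_mul]
    | zero => exact ⟨l, l, γ, γ, h, h, zero_add _, rfl⟩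
    | add x y _ _ hx hy =>
      obtain ⟨p, q, δ, δ', b1, b2, rfl, b4⟩ := hx
      obtain ⟨p', q', ε, ε', c1, c2, rfl, c4⟩ := hy
      exact ⟨_, _, _, _, b1.add c1, b2.add c2, by abel, by rw [mul_pow, mul_pow, b4, c4]⟩
    | neg x _ hx =>
      obtain ⟨p, q, δ, δ', b1, b2, rfl, b4⟩ := hx
      exact ⟨_, _, _, _, b2, b1, by abel, b4.symm⟩
  obtain ⟨p, q, δ, δ', b1, b2, rfl, b4⟩ := h2 l h1
  obtain ⟨k, hk, c⟩ := hΛ w q δ' b2
  obtain ⟨ε, c1, c2⟩ := c w hw
  have h3 : δ' ≠ 0 := by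
    rintro rfl
    rw [← b2.unique T hw c1, zero_pow hk.ne'] at c2
    exact zero_ne_one c2
  rw [b1.unique T hw (h.add b2), mul_pow] at b4
  exact (mul_eq_right₀ (pow_ne_zero N h3)).1 b4

open LieAlgebra LieAlgebra.IsKilling in
theorem exists_tri (L : Type u) [LieRing L] [LieAlgebra ℂ L] [FiniteDimensional ℂ L]
    [IsKilling ℂ L] :
    ∃ (ι : Type u) (_ : Fintype ι) (s : ι → L) (a : ι → ℂ) (h₀ : L), Tri s a h₀ := by
  classical
  obtain ⟨x₀, hx₀⟩ := exists_isCartanSubalgebra_engel ℂ L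
  generalize LieSubalgebra.engel ℂ x₀ = H at hx₀
  obtain ⟨h₁, hh₁⟩ := Module.Dual.exists_forall_ne_zero_of_forall_exists
    (fun α : {α : Weight ℂ H L // α.IsNonZero} => (α.1 : H →ₗ[ℂ] ℂ))
    (fun α => ⟨coroot α.1, by simp [root_apply_coroot α.2]⟩)
  obtain ⟨t, ht⟩ := Infinite.exists_notMem_finset
    (Finset.univ.image fun α : Weight ℂ H L => (α h₁).re / (α h₁).im)
  obtain ⟨h₀, hh₀⟩ : ∃ h₀ : H, ∀ α : Weight ℂ H L, α.IsNonZero → (α h₀).re ≠ 0 := by
    refine ⟨(⟨1, t⟩ : ℂ) • h₁, fun α hα c => ?_⟩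
    rw [map_smul, smul_eq_mul, Complex.mul_re, one_mul, sub_eq_zero] at c
    by_cases g : (α h₁).im = 0
    · exact hh₁ ⟨α, hα⟩ (Complex.ext (by simpa [g] using c) g)
    · exact ht (Finset.mem_image.2 ⟨α, Finset.mem_univ _, by rw [c]; exact mul_div_cancel_right₀ _ g⟩)
  let s : {α : Weight ℂ H L // 0 < (α h₀).re} → H := fun α => coroot α.1
  have hs : Submodule.span ℂ (Set.range s) = ⊤ := by
    rw [eq_top_iff, ← RootPairing.IsRootSystem.span_coroot_eq_top (P := rootSystem H),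
      Submodule.span_le]
    rintro _ ⟨α, rfl⟩
    rcases lt_or_gt_of_ne (hh₀ α.1 (H.isNonZero_coe_root α)) with g | g
    · rw [SetLike.mem_coe, ← neg_mem_iff]
      exact Submodule.subset_span ⟨⟨-α.1, by simpa using g⟩, by simp [s]⟩
    · exact Submodule.subset_span ⟨⟨α.1, g⟩, rfl⟩
  have hs' : ∀ h : H, ∃ a : _ → ℂ, (h : L) = ∑ i, a i • (s i : L) := fun h => by
    obtain ⟨a, e⟩ := (Submodule.mem_span_range_iff_exists_fun ℂ).1 (hs ▸ Submodule.mem_top (x := h))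
    exact ⟨a, by rw [← e]; simp⟩
  obtain ⟨a, ha⟩ := hs' h₀
  refine ⟨_, inferInstance, fun i => s i, a, h₀, ha, fun i j => ?_, fun x => ?_, fun i => ?_⟩
  · rw [← LieSubalgebra.coe_bracket, trivial_lie_zero]
    rfl
  · have h1 : x ∈ (⨆ α : Weight ℂ H L, genWeightSpace L α).toSubmodule := by
      rw [iSup_genWeightSpace_eq_top']
      trivial
    rw [LieSubmodule.iSup_toSubmodule] at h1
    refine SetLike.le_def.1 (iSup_le fun α y hy => ?_) h1
    by_cases hα : α.IsNonZero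
    · have e : ⁅(h₀ : L), y⁆ = α h₀ • y := lie_eq_smul_of_mem_rootSpace hy h₀
      rcases lt_or_gt_of_ne (hh₀ α hα) with g | g
      · exact Submodule.subset_span (Or.inl (Or.inr ⟨_, g, e⟩))
      · exact Submodule.subset_span (Or.inl (Or.inl ⟨_, g, e⟩))
    · have h2 : y ∈ rootSpace H 0 := by
        rw [← show (α : H → ℂ) = 0 from not_not.1 hα]
        exact hy
      rw [rootSpace_zero_eq] at h2
      obtain ⟨b, hb⟩ := hs' ⟨y, h2⟩
      rw [show y = _ from hb]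
      exact sum_mem fun i _ => Submodule.smul_mem _ _ (Submodule.subset_span (Or.inr ⟨i, rfl⟩))
  · have hα : i.1.IsNonZero := fun c => by
      have := i.2
      rw [c.eq] at this
      simp at this
    obtain ⟨h, e, f, t, he, hf⟩ := exists_isSl2Triple_of_weight_isNonZero hα
    exact ⟨e, f, t.h_eq_coroot hα he hf ▸ t, _, i.2, lie_eq_smul_of_mem_rootSpace he h₀⟩

theorem exists_exp (L : Type u) [LieRing L] [LieAlgebra ℂ L] [FiniteDimensional ℂ L]
    [LieAlgebra.IsKilling ℂ L]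
    (weyl : ∀ (V : Type) [AddCommGroup V] [Module ℂ V] [FiniteDimensional ℂ V] [LieRingModule L V]
      [LieModule ℂ L V] (W : LieSubmodule ℂ L V), ∃ W' : LieSubmodule ℂ L V, IsCompl W W') :
    ∃ N : ℕ, 0 < N ∧ ∀ w : List L, Cen w →
      ∀ (V : Type) [AddCommGroup V] [Module ℂ V] [FiniteDimensional ℂ V] [LieRingModule L V]
        [LieModule ℂ L V], cw V w ^ N = 1 := by
  obtain ⟨ι, _, s, a, h₀, T⟩ := exists_tri L
  obtain ⟨N, hN, h⟩ := T.exists_exp
  refine ⟨N, hN, fun w hw V _ _ _ _ _ => ?_⟩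
  have h1 : ∀ (n : ℕ) (x : L) (v : V), (cw V w ^ n) ⁅x, v⁆ = ⁅x, (cw V w ^ n) v⁆ := by
    intro n x v
    induction n with
    | zero => rfl
    | succ n ih => rw [pow_succ', Module.End.mul_apply, Module.End.mul_apply, ih, hw]
  let U : LieSubmodule ℂ L V :=
    { LinearMap.eqLocus (cw V w ^ N) 1 with
      lie_mem := fun {x m} hm => by
        have : (cw V w ^ N) m = m := hm
        show (cw V w ^ N) ⁅x, m⁆ = ⁅x, m⁆
        rw [h1, this] }
  obtain ⟨U', hU⟩ := weyl V U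
  by_cases c : U' = ⊥
  · rw [c] at hU
    ext v
    exact (show v ∈ U from eq_top_of_isCompl_bot hU ▸ LieSubmodule.mem_top v)
  have : Nontrivial U' := (LieSubmodule.nontrivial_iff_ne_bot ℂ L V).2 c
  obtain ⟨v, l, hv⟩ := T.exists_HW (V := U')
  obtain ⟨γ, e⟩ := hv.scalar T hw
  have h2 := h w hw l γ ⟨U', _, _, inferInstance, _, inferInstance, v, hv, e⟩
  have h3 : cw V w v = γ • (v : V) := by rw [← cw_sub, e]; rfl
  have h4 : (v : V) ∈ U := by
    show (cw V w ^ N) v = v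
    rw [Module.End.HasEigenvector.pow_apply ⟨Module.End.mem_eigenspace_iff.2 h3,
      fun c => hv.ne (Subtype.ext c)⟩, h2, one_smul]
  have h5 : (v : V) ∈ U ⊓ U' := ⟨h4, v.2⟩
  rw [hU.inf_eq_bot] at h5
  exact absurd (Subtype.ext ((LieSubmodule.mem_bot _).1 h5)) hv.ne

end Pool.Agent.Lib.MP_0cde51_al.Unif
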