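import Pool.Agent.Lib.MP_0cde51_al.Alg

/-! Quotient maps of Lie algebras, ideals of Killing Lie algebras, the quotient by the radical. -/

namespace Pool.Agent.Lib.MP_0cde51_al

section Quot

variable {R L L' : Type*} [CommRing R] [LieRing L] [LieAlgebra R L] [LieRing L'] [LieAlgebra R L']

/-- The quotient map of a Lie algebra by an ideal, as a morphism of Lie algebras. -/
def lieMkQ (I : LieIdeal R L) : L →ₗ⁅R⁆ L ⧸ I :=
  { I.toSubmodule.mkQ with
    toFun := LieSubmodule.Quotient.mk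
    map_lie' := fun {x y} => LieSubmodule.Quotient.mk_bracket I x y }

theorem lieMkQ_apply (I : LieIdeal R L) (x : L) :
    lieMkQ I x = LieSubmodule.Quotient.mk (N := I) x := rfl

theorem lieMkQ_surjective (I : LieIdeal R L) : Function.Surjective (lieMkQ I) :=
  Quot.mk_surjective

theorem lieMkQ_eq_zero (I : LieIdeal R L) (x : L) : lieMkQ I x = 0 ↔ x ∈ I :=
  LieSubmodule.Quotient.mk_eq_zero'

theorem lieMkQ_ker (I : LieIdeal R L) : (lieMkQ I).ker = I := by
  ext x
  rw [LieHom.mem_ker, lieMkQ_eq_zero]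

theorem lieMkQ_eq_iff (I : LieIdeal R L) (x y : L) : lieMkQ I x = lieMkQ I y ↔ x - y ∈ I := by
  rw [← lieMkQ_eq_zero, map_sub, sub_eq_zero]

/-- A morphism of Lie algebras that kills an ideal factors through the quotient. -/
def lieLiftQ (I : LieIdeal R L) (f : L →ₗ⁅R⁆ L') (h : ∀ x ∈ I, f x = 0) : L ⧸ I →ₗ⁅R⁆ L' :=
  { I.toSubmodule.liftQ f.toLinearMap (fun x hx => h x hx) with
    map_lie' := fun {x y} => by
      obtain ⟨a, rfl⟩ := lieMkQ_surjective I x
      obtain ⟨b, rfl⟩ := lieMkQ_surjective I y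
      exact f.map_lie a b }

theorem lieLiftQ_mk (I : LieIdeal R L) (f : L →ₗ⁅R⁆ L') (h : ∀ x ∈ I, f x = 0) (x : L) :
    lieLiftQ I f h (lieMkQ I x) = f x := rfl

end Quot

section Weyl
variable {K L V : Type*} [Field K] [CharZero K] [LieRing L] [LieAlgebra K L]
  [FiniteDimensional K L]

omit [CharZero K] in
theorem lie_self_eq_of_isKilling' [LieAlgebra.IsKilling K L] (I : LieIdeal K L) : ⁅I, I⁆ = I := by
  have hc := LieIdeal.isCompl_killingCompl (K := K) (L := L) ⁅I, I⁆
  set J := LieIdeal.killingCompl K L ⁅I, I⁆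
  have hab : IsLieAbelian (I ⊓ J : LieIdeal K L) := by
    rw [LieSubmodule.lie_abelian_iff_lie_self_eq_bot, eq_bot_iff, ← hc.inf_eq_bot]
    exact le_inf (LieSubmodule.mono_lie inf_le_left inf_le_left)
      ((LieSubmodule.lie_le_left _ _).trans inf_le_right)
  have h0 : I ⊓ J = ⊥ := LieAlgebra.IsKilling.ideal_eq_bot_of_isLieAbelian _
  have h1 : ⁅I, I⁆ ≤ I := LieSubmodule.lie_le_left I I
  have h2 := sup_inf_assoc_of_le J h1
  rw [hc.sup_eq_top, top_inf_eq, inf_comm, h0, sup_bot_eq] at h2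
  exact h2.symm

theorem lie_self_eq_of_isKilling [LieAlgebra.IsKilling K L] (I : LieIdeal K L) : ⁅I, I⁆ = I :=
  lie_self_eq_of_isKilling' I

theorem isKilling_quot_of_max (r : LieIdeal K L) (hs : LieAlgebra.IsSolvable r)
    (hmax : ∀ J : LieIdeal K L, LieAlgebra.IsSolvable J → J ≤ r) :
    LieAlgebra.IsKilling K (L ⧸ r) := by
  have hfd : FiniteDimensional K (L ⧸ r) :=
    Module.Finite.of_surjective (lieMkQ r).toLinearMap (lieMkQ_surjective _)
  have : LieAlgebra.HasTrivialRadical K (L ⧸ r) := by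
    rw [LieAlgebra.hasTrivialRadical_iff_no_abelian_ideals]
    intro A hA
    let J : LieIdeal K L := LieIdeal.comap (lieMkQ r) A
    have h1 : ⁅J, J⁆ ≤ r := by
      rw [LieSubmodule.lie_abelian_iff_lie_self_eq_bot, LieSubmodule.lie_eq_bot_iff] at hA
      rw [LieSubmodule.lie_le_iff]
      intro x hx y hy
      rw [← lieMkQ_eq_zero, LieHom.map_lie]
      exact hA _ hx _ hy
    obtain ⟨n, hn⟩ := LieAlgebra.IsSolvable.solvable K r
    rw [LieIdeal.derivedSeries_eq_bot_iff] at hn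
    have h2 : LieAlgebra.IsSolvable J := by
      refine LieAlgebra.IsSolvable.mk (R := K) (k := n + 1) ?_
      rw [LieIdeal.derivedSeries_eq_bot_iff, LieAlgebra.derivedSeriesOfIdeal_add, eq_bot_iff, ← hn]
      exact LieAlgebra.derivedSeriesOfIdeal_mono h1 n
    have h3 : J ≤ r := hmax J h2
    rw [eq_bot_iff]
    intro a ha
    obtain ⟨x, rfl⟩ := lieMkQ_surjective r a
    exact (lieMkQ_eq_zero r x).2 (h3 ha)
  infer_instance

theorem isKilling_quot_radical : LieAlgebra.IsKilling K (L ⧸ LieAlgebra.radical K L) :=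
  isKilling_quot_of_max _ inferInstance fun J hJ =>
    (LieAlgebra.LieIdeal.solvable_iff_le_radical K L J).1 hJ

end Weyl

end Pool.Agent.Lib.MP_0cde51_al
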