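import Pool.Agent.Lib.MP_0cde51_al.WeylA

/-! The first Whitehead lemma. -/

namespace Pool.Agent.Lib.MP_0cde51_al

namespace WeylAux

open Module

/-- the coboundary of a vector -/
def cob (K L : Type*) {V : Type*} [CommRing K] [LieRing L] [LieAlgebra K L] [AddCommGroup V]
    [Module K V] [LieRingModule L V] [LieModule K L V] (v : V) : L →ₗ[K] V where
  toFun x := ⁅x, v⁆
  map_add' x y := add_lie x y v
  map_smul' t x := smul_lie t x v

/-- the invariance of the canonical element of a symmetric nondegenerate form -/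
theorem sum_dual_skew {K E M ι : Type*} [Field K] [AddCommGroup E] [Module K E] [AddCommGroup M]
    [Module K M] [Fintype ι] [DecidableEq ι] (B : LinearMap.BilinForm K E) (hB : B.Nondegenerate)
    (hs : B.IsSymm) (b : Basis ι K E) (D : E →ₗ[K] E) (hD : ∀ x y, B (D x) y = -B x (D y))
    (β : E →ₗ[K] E →ₗ[K] M) :
    ∑ i, β (D (b i)) (B.dualBasis hB b i) + ∑ i, β (b i) (D (B.dualBasis hB b i)) = 0 := by
  set c := B.dualBasis hB b with hc
  have h1 : ∀ x, x = ∑ j, B x (b j) • c j := by
    intro x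
    conv_lhs => rw [← c.sum_repr x]
    exact Finset.sum_congr rfl fun j _ => by rw [hc, LinearMap.BilinForm.dualBasis_repr_apply]
  have h2 : ∀ x, x = ∑ j, B x (c j) • b j := by
    intro x
    conv_lhs => rw [← b.sum_repr x]
    refine Finset.sum_congr rfl fun j _ => ?_
    conv_lhs => rw [← LinearMap.BilinForm.dualBasis_dualBasis hB hs b,
      LinearMap.BilinForm.dualBasis_repr_apply]
    rw [LinearMap.BilinForm.dualBasis_dualBasis hB hs b]
  have h3 : ∑ i, β (D (b i)) (c i) = ∑ i, ∑ j, B (D (b i)) (c j) • β (b j) (c i) := by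
    refine Finset.sum_congr rfl fun i _ => ?_
    conv_lhs => rw [h2 (D (b i))]
    simp only [map_sum, map_smul, LinearMap.sum_apply, LinearMap.smul_apply]
  have h4 : ∑ j, β (b j) (D (c j)) = ∑ j, ∑ i, B (D (c j)) (b i) • β (b j) (c i) := by
    refine Finset.sum_congr rfl fun j _ => ?_
    conv_lhs => rw [h1 (D (c j))]
    simp only [map_sum, map_smul]
  rw [h3, h4, Finset.sum_comm, ← Finset.sum_add_distrib]
  refine Finset.sum_eq_zero fun j _ => ?_
  rw [← Finset.sum_add_distrib]
  refine Finset.sum_eq_zero fun i _ => ?_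
  rw [← add_smul, hD (c j) (b i), hs.eq (c j) (D (b i))]
  simp

variable {K L V : Type*} [Field K] [CharZero K] [LieRing L] [LieAlgebra K L]
  [FiniteDimensional K L] [LieAlgebra.IsKilling K L]
  [AddCommGroup V] [Module K V] [LieRingModule L V] [LieModule K L V] [FiniteDimensional K V]

/-- an ideal on which the trace form of an irreducible module vanishes acts trivially -/
theorem le_ker_of_traceForm (hirr : ∀ N : LieSubmodule K L V, N = ⊥ ∨ N = ⊤)
    (J : LieIdeal K L) (h : ∀ x ∈ J, ∀ y ∈ J, LieModule.traceForm K L V x y = 0) :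
    ∀ x ∈ J, ∀ v : V, ⁅x, v⁆ = 0 := by
  rcases subsingleton_or_nontrivial V with hV | hV
  · intro x _ v; exact Subsingleton.elim _ _
  have h0 : LieModule.traceForm K J V = 0 := by
    ext ⟨x, hx⟩ ⟨y, hy⟩
    exact h x hx y hy
  have h1 : LieModule.IsNilpotent (LieAlgebra.derivedSeries K J 1) V :=
    LieModule.isNilpotent_derivedSeries_of_traceForm_eq_zero h0
  have h2 : LieModule.IsNilpotent J V := by
    rw [LieModule.isNilpotent_iff_forall' (R := K)]
    rintro ⟨x, hx⟩
    refine (LieModule.isNilpotent_iff_forall' (R := K)).mp h1 ⟨⟨x, hx⟩, ?_⟩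
    rw [LieIdeal.derivedSeries_eq_derivedSeriesOfIdeal_comap, LieIdeal.mem_comap,
      LieAlgebra.derivedSeriesOfIdeal_succ, LieAlgebra.derivedSeriesOfIdeal_zero,
      lie_self_eq_of_isKilling]
    exact hx
  have h3 := LieModule.nontrivial_max_triv_of_isNilpotent K J V
  let N : LieSubmodule K L V :=
    { carrier := {v | ∀ x ∈ J, ⁅x, v⁆ = 0}
      add_mem' := fun {a b} ha hb x hx => by rw [lie_add, ha x hx, hb x hx, add_zero]
      zero_mem' := fun x _ => lie_zero x
      smul_mem' := fun c a ha x hx => by rw [lie_smul, ha x hx, smul_zero]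
      lie_mem := fun {y a} ha x hx => by
        rw [leibniz_lie, ha x hx, lie_zero, add_zero]
        exact ha _ (lie_mem_left K L J x y hx) }
  rcases hirr N with hN | hN
  · exfalso
    obtain ⟨⟨v, hv⟩, hne⟩ := exists_ne (0 : LieModule.maxTrivSubmodule K J V)
    have hvN : v ∈ N := fun x hx => hv ⟨x, hx⟩
    rw [hN, LieSubmodule.mem_bot] at hvN
    exact hne (Subtype.ext hvN)
  · intro x hx v
    have hvN : v ∈ N := by rw [hN]; exact LieSubmodule.mem_top v
    exact hvN x hx

theorem whitehead_irr (hirr : ∀ N : LieSubmodule K L V, N = ⊥ ∨ N = ⊤) (δ : L →ₗ[K] V)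
    (h : ∀ x y, δ ⁅x, y⁆ = ⁅x, δ y⁆ - ⁅y, δ x⁆) : ∃ v : V, ∀ x, δ x = ⁅x, v⁆ := by
  classical
  have hc := LieIdeal.isCompl_killingCompl (K := K) (L := L) (LieModule.ker K L V)
  obtain ⟨E, hE⟩ : ∃ E, E = LieIdeal.killingCompl K L (LieModule.ker K L V) := ⟨_, rfl⟩
  rw [← hE] at hc
  let B : LinearMap.BilinForm K E := (LieModule.traceForm K L V).restrict E.toSubmodule
  have hBa : ∀ x y : E, B x y = LieModule.traceForm K L V x y := fun _ _ => rfl
  have hs : B.IsSymm := ⟨fun x y => LieModule.traceForm_comm K L V x y⟩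
  have hB : B.Nondegenerate := by
    refine hs.isRefl.nondegenerate_iff_separatingLeft.2 ?_
    intro x hx
    let J : LieIdeal K L := E ⊓ LieAlgebra.InvariantForm.orthogonal (LieModule.traceForm K L V)
      (LieModule.traceForm_lieInvariant K L V) E
    have hJ := le_ker_of_traceForm hirr J fun a ha b hb => hb.2 a ha.1
    have hxJ : (x : L) ∈ J := ⟨x.2, fun y hy => by
      change LieModule.traceForm K L V y x = 0
      rw [LieModule.traceForm_comm]; exact hx ⟨y, hy⟩⟩
    have hx2 : (x : L) ∈ LieModule.ker K L V ⊓ E :=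
      ⟨(LieModule.mem_ker K L V _).2 (hJ x hxJ), x.2⟩
    rw [hc.inf_eq_bot, LieSubmodule.mem_bot] at hx2
    exact Subtype.ext hx2
  let b := Module.finBasis K E
  let c := B.dualBasis hB b
  have key : ∀ (d : L →ₗ[K] V), (∀ x y, d ⁅x, y⁆ = ⁅x, d y⁆ - ⁅y, d x⁆) → ∀ x : L,
      ⁅x, ∑ i, ⁅(b i : L), d (c i)⁆⁆ = ∑ i, ⁅(b i : L), ⁅(c i : L), d x⁆⁆ := by
    intro d hd x
    let D : E →ₗ[K] E := LieModule.toEnd K L E x
    have hDa : ∀ y : E, (D y : L) = ⁅x, (y : L)⁆ := fun _ => rfl
    let β : E →ₗ[K] E →ₗ[K] V := LinearMap.mk₂ K (fun y z => ⁅(y : L), d z⁆)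
      (fun y y' z => by rw [LieSubmodule.coe_add, add_lie])
      (fun t y z => by rw [LieSubmodule.coe_smul, smul_lie])
      (fun y z z' => by rw [LieSubmodule.coe_add, map_add, lie_add])
      (fun t y z => by rw [LieSubmodule.coe_smul, map_smul, lie_smul])
    have hβ : ∀ y z : E, β y z = ⁅(y : L), d z⁆ := fun _ _ => rfl
    have h1 := sum_dual_skew B hB hs b D (fun y z => by
      rw [hBa, hBa, hDa, hDa, LieModule.traceForm_apply_lie_apply']) β
    simp only [hβ, hDa, hd, lie_sub, Finset.sum_sub_distrib] at h1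
    rw [lie_sum]
    simp only [leibniz_lie x, Finset.sum_add_distrib]
    rw [← sub_eq_zero, ← h1]
    abel
  let C : V →ₗ⁅K,L⁆ V :=
    { toFun := fun v => ∑ i, ⁅(b i : L), ⁅(c i : L), v⁆⁆
      map_add' := fun v w => by simp only [lie_add, Finset.sum_add_distrib]
      map_smul' := fun t v => by simp only [lie_smul, Finset.smul_sum, RingHom.id_apply]
      map_lie' := fun {x v} => by
        let d : L →ₗ[K] V := cob K L v
        exact (key d (fun x y => lie_lie x y v) x).symm }
  have hCa : ∀ v, C v = ∑ i, ⁅(b i : L), ⁅(c i : L), v⁆⁆ := fun _ => rfl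
  rcases hirr C.ker with hk | hk
  · have hinj : Function.Injective C := (LieModuleHom.ker_eq_bot C).1 hk
    have hsurj : Function.Surjective C.toLinearMap :=
      LinearMap.injective_iff_surjective.1 hinj
    obtain ⟨v, hv⟩ := hsurj (∑ i, ⁅(b i : L), δ (c i)⁆)
    refine ⟨v, fun x => hinj ?_⟩
    rw [LieModuleHom.map_lie, hCa, ← key δ h x, ← hv]
    rfl
  · have hC0 : C.toLinearMap = 0 := by
      ext v
      have : v ∈ C.ker := by rw [hk]; exact LieSubmodule.mem_top v
      exact this
    have hC1 : C.toLinearMap =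
        ∑ i, LieModule.toEnd K L V (b i) ∘ₗ LieModule.toEnd K L V (c i) := by
      ext v
      rw [LinearMap.sum_apply]
      exact hCa v
    have htr : (finrank K E : K) = 0 := by
      have h1 := congrArg (LinearMap.trace K V) hC1
      rw [hC0, map_zero, map_sum] at h1
      have h2 : ∀ i, LinearMap.trace K V
          (LieModule.toEnd K L V (b i) ∘ₗ LieModule.toEnd K L V (c i)) = 1 := by
        intro i
        rw [← LieModule.traceForm_apply_apply, ← hBa,
          LinearMap.BilinForm.apply_dualBasis_right hB hs b i i, if_pos rfl]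
      simp only [h2, Finset.sum_const, Finset.card_univ, Fintype.card_fin, nsmul_eq_mul,
        mul_one] at h1
      exact h1.symm
    have hE0 : E = ⊥ := by
      have h1 : finrank K E = 0 := by exact_mod_cast htr
      have h2 : Subsingleton E := Module.finrank_zero_iff.1 h1
      rw [eq_bot_iff]
      intro x hx
      exact congrArg Subtype.val (Subsingleton.elim (⟨x, hx⟩ : E) 0)
    have htriv : ∀ (x : L) (v : V), ⁅x, v⁆ = 0 := by
      intro x
      have h1 := hc.sup_eq_top
      rw [hE0, sup_bot_eq] at h1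
      exact (LieModule.mem_ker K L V x).1 (by rw [h1]; exact LieSubmodule.mem_top x)
    refine ⟨0, fun x => ?_⟩
    rw [lie_zero]
    have hx : x ∈ (⁅(⊤ : LieIdeal K L), (⊤ : LieIdeal K L)⁆ : LieIdeal K L).toSubmodule := by
      rw [lie_self_eq_of_isKilling]; exact LieSubmodule.mem_top x
    rw [LieSubmodule.lieIdeal_oper_eq_linear_span'] at hx
    have hle : Submodule.span K {m | ∃ x ∈ (⊤ : LieIdeal K L), ∃ n ∈ (⊤ : LieIdeal K L),
        ⁅x, n⁆ = m} ≤ LinearMap.ker δ := by
      rw [Submodule.span_le]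
      rintro _ ⟨y, -, z, -, rfl⟩
      change δ ⁅y, z⁆ = 0
      rw [h, htriv, htriv, sub_zero]
    exact hle hx

end WeylAux

section Weyl
variable {K L V : Type*} [Field K] [CharZero K] [LieRing L] [LieAlgebra K L]
  [FiniteDimensional K L]

theorem whitehead [LieAlgebra.IsKilling K L] [AddCommGroup V] [Module K V] [LieRingModule L V]
    [LieModule K L V] [FiniteDimensional K V] (δ : L →ₗ[K] V)
    (h : ∀ x y, δ ⁅x, y⁆ = ⁅x, δ y⁆ - ⁅y, δ x⁆) : ∃ v : V, ∀ x, δ x = ⁅x, v⁆ := by
  induction hn : Module.finrank K V using Nat.strong_induction_on generalizing V with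
  | _ n ih =>
  by_cases hirr : ∀ N : LieSubmodule K L V, N = ⊥ ∨ N = ⊤
  · exact WeylAux.whitehead_irr hirr δ h
  push Not at hirr
  obtain ⟨W, hW0, hW1⟩ := hirr
  have hsum := Submodule.finrank_quotient_add_finrank W.toSubmodule
  have hlt1 : Module.finrank K W.toSubmodule < Module.finrank K V :=
    Submodule.finrank_lt (by rwa [Ne, LieSubmodule.toSubmodule_eq_top])
  have hpos : 0 < Module.finrank K W.toSubmodule := by
    rw [Nat.pos_iff_ne_zero, Ne, Submodule.finrank_eq_zero, LieSubmodule.toSubmodule_eq_bot]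
    exact hW0
  have hfq : FiniteDimensional K (V ⧸ W) := inferInstanceAs (FiniteDimensional K (V ⧸ W.toSubmodule))
  obtain ⟨v', hv'⟩ := ih (Module.finrank K (V ⧸ W)) (by
      change Module.finrank K (V ⧸ W.toSubmodule) < n
      omega) (V := V ⧸ W)
    ((LieSubmodule.Quotient.mk' W).toLinearMap ∘ₗ δ) (fun x y => by
      simp only [LinearMap.comp_apply, LieModuleHom.coe_toLinearMap, h, map_sub,
        LieModuleHom.map_lie]) rfl
  obtain ⟨v, rfl⟩ := LieSubmodule.Quotient.surjective_mk' W v'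
  let d : L →ₗ[K] V := δ - WeylAux.cob K L v
  have hda : ∀ x, d x = δ x - ⁅x, v⁆ := fun _ => rfl
  have hdW : ∀ x, d x ∈ W := by
    intro x
    rw [← LieSubmodule.Quotient.mk_eq_zero, hda, map_sub, LieModuleHom.map_lie, ← hv' x]
    exact sub_self _
  obtain ⟨w, hw⟩ := ih (Module.finrank K W) (by
      change Module.finrank K W.toSubmodule < n
      omega) (V := W) (d.codRestrict W.toSubmodule hdW) (fun x y => by
      apply Subtype.ext
      change d ⁅x, y⁆ = ⁅x, d y⁆ - ⁅y, d x⁆
      simp only [hda, h, lie_lie, lie_sub]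
      abel) rfl
  refine ⟨v + w, fun x => ?_⟩
  have h1 : d x = ⁅x, (w : V)⁆ := congrArg Subtype.val (hw x)
  rw [lie_add, ← h1, hda]
  abel

end Weyl

end Pool.Agent.Lib.MP_0cde51_al
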